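import Pool.Agent.TH292.MR.Expo

/-!
# The diffeomorphism is not smoothly conjugate to a linear automorphism
-/

set_option autoImplicit false

open Set Filter Topology Function MeasureTheory
open scoped ContDiff

namespace Pool.Agent.TH292.MR

open Pool.Agent.TH292.Gold

/-- determinant of a linear map of the plane -/
def det2 (L : Plane →L[ℝ] Plane) : ℝ := (L (1, 0)).1 * (L (0, 1)).2 - (L (0, 1)).1 * (L (1, 0)).2

lemma clm_apply (L : Plane →L[ℝ] Plane) (v : Plane) : L v = v.1 • L (1, 0) + v.2 • L (0, 1) := by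
  rw [← map_smul, ← map_smul, ← map_add]
  congr 1
  ext <;> simp

lemma det2_comp (L L' : Plane →L[ℝ] Plane) : det2 (L.comp L') = det2 L * det2 L' := by
  unfold det2
  simp only [ContinuousLinearMap.comp_apply]
  rw [clm_apply L (L' (1, 0)), clm_apply L (L' (0, 1))]
  simp only [Prod.fst_add, Prod.snd_add, Prod.smul_fst, Prod.smul_snd, smul_eq_mul]
  ring

lemma det2_id : det2 (ContinuousLinearMap.id ℝ Plane) = 1 := by unfold det2; simp

/-- integer valued continuous maps are locally constant -/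
lemma loc_const {D : Plane → Plane} {z₀ : Plane} (hD : ContinuousAt D z₀)
    (h : ∀ z, ∃ m n : ℤ, D z = ((m : ℝ), (n : ℝ))) : ∀ᶠ z in 𝓝 z₀, D z = D z₀ := by
  filter_upwards [hD.eventually (Metric.ball_mem_nhds (D z₀) one_pos)] with z hz
  replace hz : dist (D z) (D z₀) < 1 := hz
  rw [dist_eq_norm] at hz
  obtain ⟨m, n, hmn⟩ := h z
  obtain ⟨m', n', hmn'⟩ := h z₀
  rw [hmn, hmn'] at hz ⊢
  have h1 : |(m : ℝ) - m'| < 1 := lt_of_le_of_lt (norm_fst_le (((m : ℝ), (n : ℝ)) - ((m' : ℝ), (n' : ℝ)))) hz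
  have h2 : |(n : ℝ) - n'| < 1 := lt_of_le_of_lt (norm_snd_le (((m : ℝ), (n : ℝ)) - ((m' : ℝ), (n' : ℝ)))) hz
  have e1 : m = m' := by
    have : |m - m'| < 1 := by exact_mod_cast h1
    have := Int.abs_lt_one_iff.mp this
    omega
  have e2 : n = n' := by
    have : |n - n'| < 1 := by exact_mod_cast h2
    have := Int.abs_lt_one_iff.mp this
    omega
  rw [e1, e2]

lemma kk_zero : kk 0 = 0 := by unfold kk; simp

lemma FF_near : ∀ᶠ z in 𝓝 (0 : Plane), FF z = AL (Real.sqrt (1 / 50) • z) := by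
  have h1 := per_loc hP0 0
  have h2 : ∀ᶠ z in 𝓝 (0 : Plane), nq z < 9 / 8000 :=
    (isOpen_lt nq_contDiff.continuous continuous_const).mem_nhds (by
      show nq 0 < 9 / 8000
      rw [nq_zero]; norm_num)
  filter_upwards [h1, h2] with z hz hz'
  unfold FF
  rw [hz, kk_zero, sub_zero, add_zero]
  unfold P0 CC
  rw [Csq_small hz'.le]

lemma FF_zero : FF 0 = 0 := by
  have := FF_near.self_of_nhds
  rw [this]
  unfold AL
  ext <;> simp

lemma ray_deriv {G : Plane → Plane} {G' : Plane →L[ℝ] Plane} (hG : HasFDerivAt G G' 0) (v : Plane) :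
    HasDerivAt (fun t : ℝ => G (t • v)) (G' v) 0 := by
  have h1 : HasDerivAt (fun t : ℝ => t • v) v 0 := by
    simpa using (hasDerivAt_id (0 : ℝ)).smul_const v
  have hF : HasFDerivAt G G' ((0 : ℝ) • v) := by rw [zero_smul]; exact hG
  exact hF.comp_hasDerivAt (0 : ℝ) h1

lemma fderiv_FF_zero (v : Plane) : fderiv ℝ FF 0 v = AL (Real.sqrt (1 / 50) • v) := by
  have h1 : HasDerivAt (fun t : ℝ => t • v) v 0 := by
    simpa using (hasDerivAt_id (0 : ℝ)).smul_const v
  have h2 : HasDerivAt (fun t : ℝ => FF (t • v)) (fderiv ℝ FF 0 v) 0 :=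
    ray_deriv ((FF_contDiff.differentiable (by simp) 0).hasFDerivAt) v
  have h3 : HasDerivAt (fun t : ℝ => t • AL (Real.sqrt (1 / 50) • v)) (AL (Real.sqrt (1 / 50) • v)) 0 := by
    simpa using (hasDerivAt_id (0 : ℝ)).smul_const (AL (Real.sqrt (1 / 50) • v))
  have h4 : (fun t : ℝ => FF (t • v)) =ᶠ[𝓝 0] fun t : ℝ => t • AL (Real.sqrt (1 / 50) • v) := by
    have hc : Tendsto (fun t : ℝ => t • v) (𝓝 0) (𝓝 0) := by
      have : Continuous fun t : ℝ => t • v := by fun_prop
      simpa using this.tendsto 0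
    filter_upwards [hc.eventually FF_near] with t ht
    rw [ht, smul_comm, AL_smul]
  exact h2.unique (h3.congr_of_eventuallyEq h4)

lemma det2_FF : det2 (fderiv ℝ FF 0) = 1 / 50 := by
  unfold det2
  rw [fderiv_FF_zero, fderiv_FF_zero]
  unfold AL
  simp only [Prod.smul_fst, Prod.smul_snd, smul_eq_mul, mul_one, mul_zero, add_zero, zero_add]
  have h : Real.sqrt (1 / 50) * Real.sqrt (1 / 50) = 1 / 50 := Real.mul_self_sqrt (by norm_num)
  linear_combination h

/-- `ff` is not smoothly conjugate to a linear automorphism -/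
theorem not_conj : ¬ SmoothlyConjugateToLinear ff := by
  rintro ⟨A, h, H, K, hA, hH, hconj⟩
  -- the linear lift
  set M : Plane →L[ℝ] Plane := ((A 0 0 : ℝ) • ContinuousLinearMap.fst ℝ ℝ ℝ +
      (A 0 1 : ℝ) • ContinuousLinearMap.snd ℝ ℝ ℝ).prod
    ((A 1 0 : ℝ) • ContinuousLinearMap.fst ℝ ℝ ℝ + (A 1 1 : ℝ) • ContinuousLinearMap.snd ℝ ℝ ℝ)
    with hM
  have hMapply : ∀ z, M z = ((A 0 0 : ℝ) * z.1 + (A 0 1 : ℝ) * z.2,
      (A 1 0 : ℝ) * z.1 + (A 1 1 : ℝ) * z.2) := fun z => rfl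
  have hMproj : ∀ z, proj (M z) = linMap A (proj z) := by
    intro z
    have hz : ∀ (k : ℤ) (t : ℝ), (((k : ℝ) * t : ℝ) : UnitAddCircle) = k • (t : UnitAddCircle) := by
      intro k t
      rw [← AddCircle.coe_zsmul, zsmul_eq_mul]
    rw [hMapply]
    unfold proj linMap
    ext
    · simp only
      rw [AddCircle.coe_add, hz, hz]
    · simp only
      rw [AddCircle.coe_add, hz, hz]
  have hMdet : det2 M = (A.det : ℝ) := by
    unfold det2
    rw [hMapply, hMapply, Matrix.det_fin_two]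
    push_cast
    simp
  -- first relation
  have hHc := hH.smooth.continuous
  have hD1 : ∀ᶠ z in 𝓝 (0 : Plane), (fun z => H (FF z) - M (H z)) z = (fun z => H (FF z) - M (H z)) 0 := by
    apply loc_const
    · exact ((hHc.comp FF_contDiff.continuous).sub (M.continuous.comp hHc)).continuousAt
    · intro z
      have h1 : proj (M (H z)) = proj (H (FF z)) := by
        rw [hMproj, ← hH.lift, ← hH.lift, ← isSmoothDiffeo.lift, hconj]
      obtain ⟨m, n, hmn⟩ := (proj_eq_iff _ _).mp h1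
      exact ⟨m, n, by rw [hmn]; abel⟩
  have hHd : HasFDerivAt H (fderiv ℝ H 0) 0 := (hH.smooth.differentiable (by simp) 0).hasFDerivAt
  have hFd : HasFDerivAt FF (fderiv ℝ FF 0) 0 := (FF_contDiff.differentiable (by simp) 0).hasFDerivAt
  have e1 : HasFDerivAt (fun z => H (FF z)) ((fderiv ℝ H 0).comp (fderiv ℝ FF 0)) 0 := by
    have : HasFDerivAt H (fderiv ℝ H 0) (FF 0) := by rw [FF_zero]; exact hHd
    exact this.comp (0 : Plane) hFd
  have e2 : HasFDerivAt (fun z => M (H z) + (H (FF 0) - M (H 0))) (M.comp (fderiv ℝ H 0)) 0 :=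
    (M.hasFDerivAt.comp (0 : Plane) hHd).add_const _
  have e3 : (fun z => H (FF z)) =ᶠ[𝓝 0] fun z => M (H z) + (H (FF 0) - M (H 0)) := by
    filter_upwards [hD1] with z hz
    have : H (FF z) - M (H z) = H (FF 0) - M (H 0) := hz
    rw [← this]
    abel
  have e4 := e1.unique (e2.congr_of_eventuallyEq e3)
  have e5 := congrArg det2 e4
  rw [det2_comp, det2_comp, det2_FF, hMdet] at e5
  -- second relation
  have hKc := hH.smooth_symm.continuous
  have hD2 : ∀ᶠ z in 𝓝 (0 : Plane), (fun z => K (H z) - z) z = (fun z => K (H z) - z) 0 := by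
    apply loc_const
    · exact ((hKc.comp hHc).sub continuous_id).continuousAt
    · intro z
      have h1 : proj z = proj (K (H z)) := by
        rw [← hH.lift_symm, ← hH.lift, Homeomorph.symm_apply_apply]
      obtain ⟨m, n, hmn⟩ := (proj_eq_iff _ _).mp h1
      exact ⟨m, n, by rw [hmn]; abel⟩
  have hKd : HasFDerivAt K (fderiv ℝ K (H 0)) (H 0) :=
    (hH.smooth_symm.differentiable (by simp) (H 0)).hasFDerivAt
  have e6 : HasFDerivAt (fun z => K (H z)) ((fderiv ℝ K (H 0)).comp (fderiv ℝ H 0)) 0 :=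
    hKd.comp (0 : Plane) hHd
  have e7 : HasFDerivAt (fun z : Plane => z + (K (H 0) - 0)) (ContinuousLinearMap.id ℝ Plane) 0 :=
    (hasFDerivAt_id (0 : Plane)).add_const _
  have e8 : (fun z => K (H z)) =ᶠ[𝓝 0] fun z : Plane => z + (K (H 0) - 0) := by
    filter_upwards [hD2] with z hz
    have : K (H z) - z = K (H 0) - 0 := hz
    rw [← this]
    abel
  have e9 := congrArg det2 (e6.unique (e7.congr_of_eventuallyEq e8))
  rw [det2_comp, det2_id] at e9
  have hne : det2 (fderiv ℝ H 0) ≠ 0 := by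
    intro h0
    rw [h0, mul_zero] at e9
    exact zero_ne_one e9
  have e10 : (A.det : ℝ) = 1 / 50 := by
    have : det2 (fderiv ℝ H 0) * ((A.det : ℝ) - 1 / 50) = 0 := by linarith
    have := (mul_eq_zero.mp this).resolve_left hne
    linarith
  rcases Int.isUnit_iff.mp hA with h1 | h1
  · rw [h1] at e10; norm_num at e10
  · rw [h1] at e10; norm_num at e10

end Pool.Agent.TH292.MR
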