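import Mathlib
import Pool.Agent.Helper179.KSDefs

/-!
# Measure rigidity for diffeomorphisms of the two-torus: definitions

Everything is stated for the flat torus `𝕋² = ℝ²/ℤ²`. Diffeomorphisms are described through their
lifts to the universal cover `ℝ²`, which is also the tangent space at every point. We use the
maximum norm on `ℝ²` and the induced metric on the torus; none of the notions below changes if it is
replaced by another norm.
-/

set_option autoImplicit false

open Set Filter Topology MeasureTheory Function
open scoped ContDiff ENNReal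

namespace Pool.Agent.TH292.MR

/-- The two-torus `ℝ²/ℤ²`. -/
abbrev Torus : Type := UnitAddCircle × UnitAddCircle

/-- The universal cover of the two-torus, which is also its tangent space at every point. -/
abbrev Plane : Type := ℝ × ℝ

/-- The covering map `ℝ² → ℝ²/ℤ²`. -/
def proj (z : Plane) : Torus := ((z.1 : UnitAddCircle), (z.2 : UnitAddCircle))

/-- `f` is a `C^∞` diffeomorphism of the torus: `F` and `G` are `C^∞` lifts of `f` and `f⁻¹`. The
derivative of `fⁿ` at `proj z` is that of `Fⁿ` at `z`. -/
structure IsSmoothDiffeo (f : Torus ≃ₜ Torus) (F G : Plane → Plane) : Prop where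
  lift : ∀ z, f (proj z) = proj (F z)
  lift_symm : ∀ z, f.symm (proj z) = proj (G z)
  smooth : ContDiff ℝ ∞ F
  smooth_symm : ContDiff ℝ ∞ G

/-- The endomorphism of the torus induced by an integer matrix. -/
def linMap (A : Matrix (Fin 2) (Fin 2) ℤ) (x : Torus) : Torus :=
  (A 0 0 • x.1 + A 0 1 • x.2, A 1 0 • x.1 + A 1 1 • x.2)

/-- `f` is `C^∞` conjugate to a linear automorphism: `h ∘ f = A ∘ h` for some `A ∈ GL(2,ℤ)` and some
`C^∞` diffeomorphism `h`. -/
def SmoothlyConjugateToLinear (f : Torus ≃ₜ Torus) : Prop :=
  ∃ (A : Matrix (Fin 2) (Fin 2) ℤ) (h : Torus ≃ₜ Torus) (H K : Plane → Plane),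
    IsUnit A.det ∧ IsSmoothDiffeo h H K ∧ ∀ x, h (f x) = linMap A (h x)

/-- `η` is an `f`-invariant Borel probability measure. -/
structure IsInvariant (f : Torus ≃ₜ Torus) (η : Measure Torus) : Prop where
  prob : IsProbabilityMeasure η
  inv : MeasurePreserving f η η

/-- `η` is hyperbolic: at `η`-almost every point there is one positive and one negative Lyapunov
exponent, that is, there is a basis `v, w` of the tangent space with
`lim (1/n) log ‖Dfⁿ v‖ > 0 > lim (1/n) log ‖Dfⁿ w‖`. -/
def IsHyperbolic (F : Plane → Plane) (η : Measure Torus) : Prop :=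
  ∀ᵐ x ∂η, ∀ z, proj z = x → ∃ (v w : Plane) (χp χm : ℝ), LinearIndependent ℝ ![v, w] ∧
    0 < χp ∧ χm < 0 ∧
    Tendsto (fun n : ℕ => (1 / (n : ℝ)) * Real.log ‖fderiv ℝ (F^[n]) z v‖) atTop (𝓝 χp) ∧
    Tendsto (fun n : ℕ => (1 / (n : ℝ)) * Real.log ‖fderiv ℝ (F^[n]) z w‖) atTop (𝓝 χm)

/-- `η` has a positive Lyapunov exponent at almost every point. -/
def HasPositiveExponent (F : Plane → Plane) (η : Measure Torus) : Prop :=
  ∀ᵐ x ∂η, ∀ z, proj z = x → ∃ (v : Plane) (χ : ℝ), 0 < χ ∧
    Tendsto (fun n : ℕ => (1 / (n : ℝ)) * Real.log ‖fderiv ℝ (F^[n]) z v‖) atTop (𝓝 χ)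

/-- The (Pesin) unstable manifold, as a set, of `x`: the points `y` such that the distance of
`f⁻ⁿ x` and `f⁻ⁿ y` tends to zero exponentially fast. -/
def unstableSet (f : Torus ≃ₜ Torus) (x : Torus) : Set Torus :=
  {y | ∃ C θ : ℝ, 0 < θ ∧ θ < 1 ∧ ∀ n : ℕ, dist (f.symm^[n] x) (f.symm^[n] y) ≤ C * θ ^ n}

/-- `η` has absolutely continuous conditional measures along unstable manifolds: there are a
measurable partition, namely the partition into the fibres of a measurable map `q` to a standard
Borel space `Z`, and a system `K` of conditional probability measures of `η` on the fibres, such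
that for `η`-almost every `x` there is an injectively immersed `C^∞` curve `γ` through `x = γ 0`
whose range is the unstable manifold of `x`, the fibre of `x` is the arc `γ (a, b)` for some
`a < 0 < b`, and the conditional measure on it is absolutely continuous with respect to arc length
(equivalently, with respect to the image under `γ` of Lebesgue measure on `(a, b)`). -/
def HasACConditionals (f : Torus ≃ₜ Torus) (η : Measure Torus) : Prop :=
  ∃ (Z : Type) (_ : MeasurableSpace Z) (_ : StandardBorelSpace Z) (q : Torus → Z)
    (K : ProbabilityTheory.Kernel Z Torus),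
    Measurable q ∧ ProbabilityTheory.IsMarkovKernel K ∧ (η.map q).bind K = η ∧
    ∀ᵐ x ∂η, K (q x) (q ⁻¹' {q x})ᶜ = 0 ∧
      ∃ (γ : ℝ → Plane) (a b : ℝ), ContDiff ℝ ∞ γ ∧ (∀ t, deriv γ t ≠ 0) ∧
        Injective (fun t => proj (γ t)) ∧ proj (γ 0) = x ∧
        range (fun t => proj (γ t)) = unstableSet f x ∧ a < 0 ∧ 0 < b ∧
        q ⁻¹' {q x} = (fun t => proj (γ t)) '' Ioo a b ∧
        K (q x) ≪ (volume.restrict (Ioo a b)).map (fun t => proj (γ t))

/-- `η` is an unstable SRB measure of `f` (`F` is a lift of `f`). -/
structure IsUnstableSRB (f : Torus ≃ₜ Torus) (F : Plane → Plane) (η : Measure Torus) : Prop where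
  inv : IsInvariant f η
  pos : HasPositiveExponent F η
  ac : HasACConditionals f η

/-- The dimension of a probability measure: the infimum of the Hausdorff dimensions of the Borel
sets of full measure. -/
noncomputable def measureDim (η : Measure Torus) : ℝ≥0∞ :=
  ⨅ (Z : Set Torus) (_ : MeasurableSet Z) (_ : η Z = 1), dimH Z

/-- `η` is a measure of maximal dimension: it maximises the dimension over all invariant Borel
probability measures. -/
structure IsMaxDim (f : Torus ≃ₜ Torus) (η : Measure Torus) : Prop where
  inv : IsInvariant f η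
  max : ∀ η' : Measure Torus, IsInvariant f η' → measureDim η' ≤ measureDim η

/-- `η` is a measure of maximal entropy: an invariant measure whose Kolmogorov-Sinai entropy equals
the topological entropy of `f`, that is, `Dynamics.coverEntropy f univ` of Mathlib (the definition
of Bowen and Dinaburg). -/
structure IsMME (f : Torus ≃ₜ Torus) (η : Measure Torus) : Prop where
  inv : IsInvariant f η
  entropy : Pool.Agent.Helper179.KS.ksEntropy η f = Dynamics.coverEntropy f univ

/-- Hypothesis (H) of the problem for the diffeomorphism `f` with lift `F`: `μ` is the only unstable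
SRB measure, `ν` the only measure of maximal entropy and `m` the only (ergodic) measure of maximal
dimension; all three are ergodic and hyperbolic. -/
structure SatisfiesH (f : Torus ≃ₜ Torus) (F : Plane → Plane) (μ ν m : Measure Torus) : Prop where
  srb : IsUnstableSRB f F μ
  srb_unique : ∀ η, IsUnstableSRB f F η → η = μ
  mme : IsMME f ν
  mme_unique : ∀ η, IsMME f η → η = ν
  maxDim : IsMaxDim f m
  maxDim_unique : ∀ η, IsMaxDim f η → Ergodic f η → η = m
  ergodic : Ergodic f μ ∧ Ergodic f ν ∧ Ergodic f m
  hyperbolic : IsHyperbolic F μ ∧ IsHyperbolic F ν ∧ IsHyperbolic F m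

end Pool.Agent.TH292.MR
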