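import Pool.Agent.TH292.MR.DimF

/-!
# Derivative bounds for the conjugacy; Lyapunov exponents
-/

set_option autoImplicit false

open Set Filter Topology Function MeasureTheory
open scoped ContDiff ENNReal NNReal

namespace Pool.Agent.TH292.MR

open Pool.Agent.TH292.Gold

/-- the derivative of `nq` -/
noncomputable def dnq (z : Plane) : Plane →L[ℝ] ℝ :=
  (2 * z.1) • ContinuousLinearMap.fst ℝ ℝ ℝ + (2 * z.2) • ContinuousLinearMap.snd ℝ ℝ ℝ

lemma dnq_apply (z v : Plane) : dnq z v = 2 * z.1 * v.1 + 2 * z.2 * v.2 := rfl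

lemma nq_hasFDeriv (z : Plane) : HasFDerivAt nq (dnq z) z := by
  have h1 : HasFDerivAt (fun z : Plane => z.1) (ContinuousLinearMap.fst ℝ ℝ ℝ) z := hasFDerivAt_fst
  have h2 : HasFDerivAt (fun z : Plane => z.2) (ContinuousLinearMap.snd ℝ ℝ ℝ) z := hasFDerivAt_snd
  have h3 := (h1.mul h1).add (h2.mul h2)
  have e : dnq z = (z.1 • ContinuousLinearMap.fst ℝ ℝ ℝ + z.1 • ContinuousLinearMap.fst ℝ ℝ ℝ) +
      (z.2 • ContinuousLinearMap.snd ℝ ℝ ℝ + z.2 • ContinuousLinearMap.snd ℝ ℝ ℝ) := by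
    unfold dnq
    rw [two_mul, two_mul, add_smul, add_smul]
  have e2 : nq = fun z : Plane => z.1 * z.1 + z.2 * z.2 := by
    funext w
    unfold nq
    ring
  rw [e, e2]
  exact h3

lemma norm_le_sqrt (z : Plane) : ‖z‖ ≤ Real.sqrt (nq z) := by
  rw [Prod.norm_def]
  apply max_le
  · rw [Real.norm_eq_abs, ← Real.sqrt_sq_eq_abs]
    apply Real.sqrt_le_sqrt
    unfold nq
    linarith [sq_nonneg z.2]
  · rw [Real.norm_eq_abs, ← Real.sqrt_sq_eq_abs]
    apply Real.sqrt_le_sqrt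
    unfold nq
    linarith [sq_nonneg z.1]

lemma sqrt_le_norm (z : Plane) : Real.sqrt (nq z) ≤ 2 * ‖z‖ := by
  have h1 : |z.1| ≤ ‖z‖ := norm_fst_le z
  have h2 : |z.2| ≤ ‖z‖ := norm_snd_le z
  have h0 := norm_nonneg z
  rw [Real.sqrt_le_left (by linarith)]
  unfold nq
  have e1 : z.1 ^ 2 ≤ ‖z‖ ^ 2 := by rw [← sq_abs]; gcongr
  have e2 : z.2 ^ 2 ≤ ‖z‖ ^ 2 := by rw [← sq_abs]; gcongr
  nlinarith [sq_nonneg ‖z‖]

lemma dnq_le (z v : Plane) : |dnq z v| ≤ 4 * (Real.sqrt (nq z) * ‖v‖) := by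
  have h1 : |z.1| ≤ Real.sqrt (nq z) := (norm_fst_le z).trans (norm_le_sqrt z)
  have h2 : |z.2| ≤ Real.sqrt (nq z) := (norm_snd_le z).trans (norm_le_sqrt z)
  have h3 : |v.1| ≤ ‖v‖ := norm_fst_le v
  have h4 : |v.2| ≤ ‖v‖ := norm_snd_le v
  rw [dnq_apply]
  refine (abs_add_le _ _).trans ?_
  rw [abs_mul, abs_mul, abs_mul, abs_mul, abs_two]
  have e1 : |z.1| * |v.1| ≤ Real.sqrt (nq z) * ‖v‖ := mul_le_mul h1 h3 (abs_nonneg _) (Real.sqrt_nonneg _)
  have e2 : |z.2| * |v.2| ≤ Real.sqrt (nq z) * ‖v‖ := mul_le_mul h2 h4 (abs_nonneg _) (Real.sqrt_nonneg _)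
  linarith

/-- derivative of a radial map, and its bound -/
lemma radial_bound {m : ℝ → ℝ} {m' : ℝ} {z : Plane} (hm : 0 < m (nq z))
    (hd : HasDerivAt m m' (nq z)) (v : Plane) :
    ‖fderiv ℝ (fun z => Real.sqrt (m (nq z)) • z) z v‖ ≤
      (Real.sqrt (m (nq z)) + 2 * (|m'| * nq z) / Real.sqrt (m (nq z))) * ‖v‖ := by
  have hs : 0 < Real.sqrt (m (nq z)) := Real.sqrt_pos.mpr hm
  have h1 : HasFDerivAt (fun z => m (nq z)) (m' • dnq z) z := hd.comp_hasFDerivAt z (nq_hasFDeriv z)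
  have h2 := h1.sqrt hm.ne'
  have h3 := h2.smul (hasFDerivAt_id z)
  have h4 : fderiv ℝ (fun z => Real.sqrt (m (nq z)) • z) z v =
      Real.sqrt (m (nq z)) • v + ((1 / (2 * Real.sqrt (m (nq z)))) * (m' * dnq z v)) • z := by
    have : HasFDerivAt (fun z => Real.sqrt (m (nq z)) • z) _ z := h3
    rw [this.fderiv]
    rfl
  rw [h4]
  refine (norm_add_le _ _).trans ?_
  rw [norm_smul, norm_smul, Real.norm_eq_abs, abs_of_pos hs, Real.norm_eq_abs, abs_mul, abs_mul,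
    abs_of_pos (by positivity : 0 < 1 / (2 * Real.sqrt (m (nq z)))), add_mul]
  refine add_le_add le_rfl ?_
  have h5 := dnq_le z v
  have h6 := norm_le_sqrt z
  have h7 : Real.sqrt (nq z) * Real.sqrt (nq z) = nq z := Real.mul_self_sqrt (nq_nonneg z)
  calc 1 / (2 * Real.sqrt (m (nq z))) * (|m'| * |dnq z v|) * ‖z‖
      ≤ 1 / (2 * Real.sqrt (m (nq z))) * (|m'| * (4 * (Real.sqrt (nq z) * ‖v‖))) * Real.sqrt (nq z) := by
        gcongr
    _ = 2 * (|m'| * (Real.sqrt (nq z) * Real.sqrt (nq z))) / Real.sqrt (m (nq z)) * ‖v‖ := by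
        field_simp
        ring
    _ = _ := by rw [h7]

lemma J0_bound {u : Plane} (hu : u ≠ 0) (hu1 : nq u ≤ 1) (v : Plane) :
    ‖fderiv ℝ J0 u v‖ ≤ 10 / Real.sqrt (nq u) * ‖v‖ := by
  have hq := nq_pos hu
  set q := nq u with hqdef
  have hj := jt_pos hq.le
  have hj1 := jt_le q
  have hj2 := le_jt q
  set a := (kt' (jt q))⁻¹ with ha
  have hk := one_le_kt' (jt q)
  have ha0 : 0 < a := inv_pos.mpr (by linarith)
  have ha1 : a ≤ 1 := inv_le_one_of_one_le₀ hk
  have hd : HasDerivAt (fun q => jt q / q) ((a * q - jt q * 1) / q ^ 2) q :=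
    (jt_hasDeriv q).div (hasDerivAt_id q) hq.ne'
  have hm : 0 < jt q / q := by positivity
  have h1 := radial_bound (m := fun q => jt q / q) (z := u) hm hd v
  refine h1.trans ?_
  gcongr
  simp only [← hqdef]
  set s := Real.sqrt (jt q / q) with hs
  have hs2 : s * s = jt q / q := Real.mul_self_sqrt hm.le
  have hs1 : 1 ≤ s := by
    rw [hs, Real.one_le_sqrt, le_div_iff₀ hq]
    linarith
  have h2 : |(a * q - jt q * 1) / q ^ 2| * q ≤ 1 + s * s := by
    rw [abs_div, abs_of_pos (by positivity : 0 < q ^ 2), hs2]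
    have h3 : |a * q - jt q * 1| ≤ q + jt q := by
      rw [abs_le]
      constructor <;> nlinarith
    calc |a * q - jt q * 1| / q ^ 2 * q ≤ (q + jt q) / q ^ 2 * q := by gcongr
      _ = 1 + jt q / q := by field_simp
  have h3 : 2 * (|(a * q - jt q * 1) / q ^ 2| * q) / s ≤ 4 * s := by
    rw [div_le_iff₀ (by linarith)]
    nlinarith
  have h4 : s ≤ 2 / Real.sqrt q := by
    have hsq : 0 < Real.sqrt q := Real.sqrt_pos.mpr hq
    rw [le_div_iff₀ hsq, hs, ← Real.sqrt_mul hm.le]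
    have : jt q / q * q = jt q := by field_simp
    rw [this]
    rw [Real.sqrt_le_left (by norm_num)]
    linarith
  calc s + 2 * (|(a * q - jt q * 1) / q ^ 2| * q) / s ≤ s + 4 * s := by gcongr
    _ = 5 * s := by ring
    _ ≤ 5 * (2 / Real.sqrt q) := by gcongr
    _ = 10 / Real.sqrt q := by ring

lemma kt'_bdd : ∃ K : ℝ, 1 ≤ K ∧ ∀ q, kt' q ≤ K := by
  obtain ⟨M, hM⟩ := (isCompact_Icc (a := (0 : ℝ)) (b := 1)).exists_bound_of_continuousOn
    (st_deriv_cont.continuousOn)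
  refine ⟨1 + |M| / 2, by have := abs_nonneg M; linarith, fun q => ?_⟩
  unfold kt'
  have h : deriv st (2 - 400 * q) ≤ |M| := by
    set x := 2 - 400 * q with hx
    rcases lt_or_ge x 0 with h | h
    · rw [st_deriv_zero h]; exact abs_nonneg M
    · rcases le_or_gt x 1 with h1 | h1
      · have := hM x ⟨h, h1⟩
        rw [Real.norm_eq_abs] at this
        exact (le_abs_self _).trans (this.trans (le_abs_self M))
      · have : st =ᶠ[𝓝 x] fun _ => 1 := by
          filter_upwards [Ioi_mem_nhds h1] with y hy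
          exact st_one (le_of_lt hy)
        rw [this.deriv_eq]
        simp
  linarith

lemma H0_bound : ∃ C : ℝ, 0 < C ∧ ∀ z : Plane, 1 / 800 < nq z → nq z ≤ 2 → ∀ v : Plane,
    ‖fderiv ℝ H0 z v‖ ≤ C / Real.sqrt (nq (H0 z)) * ‖v‖ := by
  obtain ⟨K, hK1, hK⟩ := kt'_bdd
  refine ⟨2 + 4 * (K + 1), by linarith, fun z hz hz2 v => ?_⟩
  set q := nq z with hqdef
  have hq : 0 < q := by linarith
  have hk := kt_pos hz
  have hk1 := kt_le q
  have hd : HasDerivAt (fun q => kt q / q) ((kt' q * q - kt q * 1) / q ^ 2) q :=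
    (kt_hasDeriv q).div (hasDerivAt_id q) hq.ne'
  have hm : 0 < kt q / q := by positivity
  have h1 := radial_bound (m := fun q => kt q / q) (z := z) hm hd v
  have h0 : fderiv ℝ H0 z = fderiv ℝ (fun z => Real.sqrt (kt (nq z) / nq z) • z) z := by
    apply Filter.EventuallyEq.fderiv_eq
    filter_upwards [(isOpen_lt continuous_const nq_contDiff.continuous).mem_nhds hz] with w hw
    unfold H0
    rw [max_eq_left (kt_pos hw).le]
  rw [h0]
  refine h1.trans ?_
  gcongr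
  simp only [← hqdef]
  rw [nq_H0, ← hqdef, max_eq_left hk.le]
  set s := Real.sqrt (kt q / q) with hs
  have hs2 : s * s = kt q / q := Real.mul_self_sqrt hm.le
  have hs0 : 0 < s := Real.sqrt_pos.mpr hm
  have hs1 : s ≤ 1 := by
    rw [hs]
    exact Real.sqrt_le_one.mpr ((div_le_one hq).mpr hk1)
  have h2 : |(kt' q * q - kt q * 1) / q ^ 2| * q ≤ K + 1 := by
    rw [abs_div, abs_of_pos (by positivity : 0 < q ^ 2)]
    have h3 : |kt' q * q - kt q * 1| ≤ (K + 1) * q := by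
      have e1 := hK q
      have e2 := one_le_kt' q
      rw [abs_le]
      constructor <;> nlinarith
    calc |kt' q * q - kt q * 1| / q ^ 2 * q ≤ (K + 1) * q / q ^ 2 * q := by gcongr
      _ = K + 1 := by field_simp
  have hsk : 0 < Real.sqrt (kt q) := Real.sqrt_pos.mpr hk
  have h5 : 1 / s ≤ 2 / Real.sqrt (kt q) := by
    rw [div_le_div_iff₀ hs0 hsk, one_mul]
    have : Real.sqrt (kt q) = s * Real.sqrt q := by
      rw [hs, ← Real.sqrt_mul hm.le]
      congr 1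
      field_simp
    rw [this, mul_comm]
    gcongr
    rw [Real.sqrt_le_left (by norm_num)]
    linarith
  calc s + 2 * (|(kt' q * q - kt q * 1) / q ^ 2| * q) / s ≤ 1 / s + 2 * (K + 1) / s := by
        gcongr
        rw [le_div_iff₀ hs0]
        nlinarith
    _ = (1 + 2 * (K + 1)) * (1 / s) := by ring
    _ ≤ (1 + 2 * (K + 1)) * (2 / Real.sqrt (kt q)) := by gcongr
    _ = (2 + 4 * (K + 1)) / Real.sqrt (kt q) := by ring

/-- two-sided bounds for the derivative of `J0` -/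
theorem J0_two : ∃ C : ℝ, 1 ≤ C ∧ ∀ u : Plane, u ≠ 0 → nq u ≤ 1 → ∀ v : Plane,
    ‖fderiv ℝ J0 u v‖ ≤ C / Real.sqrt (nq u) * ‖v‖ ∧ ‖v‖ ≤ C / Real.sqrt (nq u) * ‖fderiv ℝ J0 u v‖ := by
  obtain ⟨C, hC, hH⟩ := H0_bound
  refine ⟨max C 10, (by norm_num : (1 : ℝ) ≤ 10).trans (le_max_right _ _), fun u hu hu1 v => ⟨?_, ?_⟩⟩
  · refine (J0_bound hu hu1 v).trans ?_
    gcongr
    exact le_max_right _ _
  · have hq := nq_pos hu
    have hz : 1 / 800 < nq (J0 u) := by
      rw [nq_J0 hu]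
      have h1 := jt_strictMono hq
      rw [jt_small (by norm_num : (0 : ℝ) ≤ 1 / 800)] at h1
      linarith
    have hz2 : nq (J0 u) ≤ 2 := by
      rw [nq_J0 hu]
      have := jt_le (nq u)
      linarith
    have hJ : HasFDerivAt J0 (fderiv ℝ J0 u) u :=
      ((J0_contDiffAt hu).differentiableAt (by simp)).hasFDerivAt
    have hH' : HasFDerivAt H0 (fderiv ℝ H0 (J0 u)) (J0 u) :=
      ((H0_contDiffAt hz).differentiableAt (by simp)).hasFDerivAt
    have hcomp := hH'.comp u hJ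
    have hid : H0 ∘ J0 = id := funext H0_J0
    rw [hid] at hcomp
    have h1 := hcomp.unique (hasFDerivAt_id u)
    have h2 : fderiv ℝ H0 (J0 u) (fderiv ℝ J0 u v) = v := by
      have := congrArg (fun L : Plane →L[ℝ] Plane => L v) h1
      exact this
    have h3 := hH (J0 u) hz hz2 (fderiv ℝ J0 u v)
    rw [h2, H0_J0] at h3
    refine h3.trans ?_
    gcongr
    exact le_max_left _ _

lemma nq_cl_le (x : Torus) : nq (cl x) ≤ 1 := by
  have h1 := cc_mem x.1
  have h2 := cc_mem x.2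
  unfold nq cl
  simp only
  nlinarith [h1.1, h1.2, h2.1, h2.2]

/-- bounds for the derivative of the lift of the inverse conjugacy -/
theorem perJ_two : ∃ C : ℝ, 1 ≤ C ∧ ∀ z : Plane, proj z ≠ 0 → ∀ v : Plane,
    ‖fderiv ℝ (per J0) z v‖ ≤ C / ‖proj z‖ * ‖v‖ ∧ ‖v‖ ≤ C / ‖proj z‖ * ‖fderiv ℝ (per J0) z v‖ := by
  obtain ⟨C, hC, h⟩ := J0_two
  refine ⟨C, hC, fun z hz v => ?_⟩
  have h1 : fderiv ℝ (per J0) z = fderiv ℝ J0 (z - kk z) := by
    have e : per J0 =ᶠ[𝓝 z] fun z' => J0 (z' - kk z) + kk z := per_loc hJ0 z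
    rw [e.fderiv_eq, fderiv_add_const, fderiv_comp_sub]
  have hcl : cl (proj z) = z - kk z := cl_proj z
  have hne : z - kk z ≠ 0 := by
    intro h0
    apply hz
    apply cl_eq_zero
    rw [hcl, h0]
  have hle : nq (z - kk z) ≤ 1 := by rw [← hcl]; exact nq_cl_le _
  have h2 := h (z - kk z) hne hle v
  have h3 : ‖proj z‖ ≤ Real.sqrt (nq (z - kk z)) := by
    refine le_trans ?_ (norm_le_sqrt _)
    have : proj z = proj (z - kk z) := by rw [← hcl, proj_cl]
    rw [this]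
    exact norm_proj_le _
  have hpos : 0 < ‖proj z‖ := norm_pos_iff.mpr hz
  rw [h1]
  constructor
  · refine h2.1.trans ?_
    gcongr
  · refine h2.2.trans ?_
    gcongr

end Pool.Agent.TH292.MR
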