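import Pool.Agent.TH292.MR.Low

/-!
# Dimension of invariant measures of the cat map
-/

set_option autoImplicit false

open Set Filter Topology MeasureTheory Function
open scoped ENNReal Real NNReal

namespace Pool.Agent.TH292.MR

open Pool.Agent.TH292.Gold

/-- Hausdorff dimension of a limsup set covered by few balls at each scale -/
lemma dimH_limsup (E : ℕ → Set Torus) (S : ℕ → Finset Torus) (r : ℕ → ℝ) (s : ℝ≥0) (θ C : ℝ)
    (hr : ∀ m, 0 < r m) (hr0 : Tendsto r atTop (𝓝 0)) (hra : Antitone r)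
    (hE : ∀ m, E m ⊆ ⋃ y ∈ S m, Metric.closedBall y (r m)) (hθ : 0 ≤ θ) (hθ1 : θ < 1) (hC : 0 ≤ C)
    (hc : ∀ m, ((S m).card : ℝ) * (2 * r m) ^ (s : ℝ) ≤ C * θ ^ m) :
    dimH (⋂ n : ℕ, ⋃ m : ℕ, E (n + m)) ≤ s := by
  apply dimH_le_of_hausdorffMeasure_ne_top
  have hmain : μH[(s : ℝ)] (⋂ n : ℕ, ⋃ m : ℕ, E (n + m)) ≤ 0 := by
    have h1 := Measure.hausdorffMeasure_le_liminf_tsum (X := Torus) (β := ℕ)
      (ι := fun n => Σ m : ℕ, S (n + m)) (s : ℝ) (⋂ n : ℕ, ⋃ m : ℕ, E (n + m)) (l := atTop)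
      (fun n => ENNReal.ofReal (2 * r n)) (by
        have h2 : Tendsto (fun n => 2 * r n) atTop (𝓝 0) := by simpa using hr0.const_mul 2
        rw [← ENNReal.ofReal_zero]
        exact (ENNReal.continuous_ofReal.tendsto 0).comp h2)
      (fun n i => Metric.closedBall (i.2 : Torus) (r (n + i.1)))
      (Eventually.of_forall fun n i => by
        apply Metric.ediam_le
        intro x hx y hy
        rw [edist_dist]
        apply ENNReal.ofReal_le_ofReal
        rw [Metric.mem_closedBall] at hx hy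
        have h3 := dist_triangle_right x y (i.2 : Torus)
        have h4 := hra (Nat.le_add_right n i.1)
        linarith)
      (Eventually.of_forall fun n => by
        intro x hx
        obtain ⟨m, hm⟩ := mem_iUnion.mp (mem_iInter.mp hx n)
        obtain ⟨y, hy⟩ := mem_iUnion.mp (hE (n + m) hm)
        obtain ⟨hy1, hy2⟩ := mem_iUnion.mp hy
        exact mem_iUnion.mpr ⟨⟨m, ⟨y, hy1⟩⟩, hy2⟩)
    refine h1.trans ?_
    have h2 : ∀ n : ℕ, ∑' i : (Σ m : ℕ, S (n + m)),
        Metric.ediam (Metric.closedBall (i.2 : Torus) (r (n + i.1))) ^ (s : ℝ) ≤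
        ENNReal.ofReal (C * θ ^ n * (1 - θ)⁻¹) := by
      intro n
      rw [ENNReal.tsum_sigma']
      have h3 : ∀ m : ℕ, ∑' y : S (n + m),
          Metric.ediam (Metric.closedBall (y : Torus) (r (n + m))) ^ (s : ℝ) ≤
          ENNReal.ofReal (C * θ ^ n * θ ^ m) := by
        intro m
        rw [tsum_fintype]
        have h4 : ∀ y : S (n + m), Metric.ediam (Metric.closedBall (y : Torus) (r (n + m))) ^ (s : ℝ)
            ≤ ENNReal.ofReal ((2 * r (n + m)) ^ (s : ℝ)) := by
          intro y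
          rw [← ENNReal.ofReal_rpow_of_pos (by have := hr (n + m); positivity)]
          apply ENNReal.rpow_le_rpow _ s.2
          apply Metric.ediam_le
          intro x hx z hz
          rw [edist_dist]
          apply ENNReal.ofReal_le_ofReal
          rw [Metric.mem_closedBall] at hx hz
          have h3 := dist_triangle_right x z (y : Torus)
          linarith
        refine (Finset.sum_le_card_nsmul _ _ _ (fun y _ => h4 y)).trans ?_
        rw [Finset.card_univ, Fintype.card_coe, nsmul_eq_mul, ← ENNReal.ofReal_natCast,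
          ← ENNReal.ofReal_mul (by positivity)]
        apply ENNReal.ofReal_le_ofReal
        have := hc (n + m)
        rw [pow_add, ← mul_assoc] at this
        exact this
      refine (ENNReal.tsum_le_tsum h3).trans ?_
      rw [← ENNReal.ofReal_tsum_of_nonneg (fun m => by positivity)
        ((summable_geometric_of_lt_one hθ hθ1).mul_left _), tsum_mul_left,
        tsum_geometric_of_lt_one hθ hθ1]
    have h3 : Tendsto (fun n : ℕ => ENNReal.ofReal (C * θ ^ n * (1 - θ)⁻¹)) atTop (𝓝 0) := by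
      have h4 : Tendsto (fun n : ℕ => C * θ ^ n * (1 - θ)⁻¹) atTop (𝓝 0) := by
        have := ((tendsto_pow_atTop_nhds_zero_of_lt_one hθ hθ1).const_mul C).mul_const (1 - θ)⁻¹
        simpa using this
      rw [← ENNReal.ofReal_zero]
      exact (ENNReal.continuous_ofReal.tendsto 0).comp h4
    calc _ ≤ liminf (fun n : ℕ => ENNReal.ofReal (C * θ ^ n * (1 - θ)⁻¹)) atTop :=
          liminf_le_liminf (Eventually.of_forall h2)
      _ = 0 := h3.liminf_eq
  exact ne_top_of_le_ne_top ENNReal.zero_ne_top hmain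

lemma mp_CI_of {η : Measure Torus} (hη : MeasurePreserving CT η η) : MeasurePreserving CI η η := by
  refine ⟨CI_cont.measurable, ?_⟩
  conv_lhs => rw [← hη.map_eq]
  rw [Measure.map_map CI_cont.measurable CT_cont.measurable]
  have : CI ∘ CT = id := funext CI_CT
  rw [this, Measure.map_id]

/-- an invariant measure different from volume charges a set of dimension less than two -/
theorem dim_lt (η : Measure Torus) [IsProbabilityMeasure η] (hη : MeasurePreserving CT η η)
    (hne : η ≠ volume) : ∃ Z : Set Torus, MeasurableSet Z ∧ 0 < η Z ∧ dimH Z < 2 := by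
  obtain ⟨g, ε₀, hg, hg1, hg0, hε₀, hε₀1, hI⟩ := exists_test hne
  obtain ⟨ℓ, q, hℓ, hq, -, hld⟩ := ld hg hg1 hg0 (ε := ε₀ / 2) (by positivity) (by linarith)
  obtain ⟨δ, hδ, hmod⟩ := exists_modulus hg (ε := ε₀ / 2) (by positivity)
  set κ : ℝ := (ε₀ / 2) ^ 2 / 8 with hκ
  have hκpos : 0 < κ := by positivity
  have hqR : (0 : ℝ) < q := by exact_mod_cast hq
  have hlog := loglam_pos
  set ρ : ℝ := min (δ / 2) 1 with hρdef
  have hρ : 0 < ρ := by positivity
  have hρ1 : ρ ≤ 1 := min_le_right _ _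
  have hρδ : ρ < δ := by have := min_le_left (δ / 2) 1; linarith
  set E : ℕ → Set Torus := fun m => {x | ε₀ * ((2 * m : ℕ) : ℝ) ≤ bs g q (2 * m) (CI^[q * m] x)} with hE
  set E' : ℕ → Set Torus := fun m =>
    {x | ε₀ / 2 * ((2 * m : ℕ) : ℝ) ≤ bs g q (2 * m) (CI^[q * m] x)} with hE'
  have hEm : ∀ m, MeasurableSet (E m) := fun m =>
    measurableSet_le measurable_const ((bs_cont hg q _).comp (CI_cont.iterate _)).measurable
  set r : ℕ → ℝ := fun m => ρ / lam ^ (q * m + 1) with hr
  have hL : ∀ j, 0 < lam ^ j := fun j => pow_pos lam_pos j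
  have hrpos : ∀ m, 0 < r m := fun m => div_pos hρ (hL _)
  have hrle : ∀ m, r m ≤ 1 := fun m => by
    simp only [hr]
    rw [div_le_one (hL _)]
    exact hρ1.trans (one_le_pow₀ one_lt_lam.le)
  -- the covers
  have hcov : ∀ m, ∃ S : Finset Torus, E m ⊆ ⋃ y ∈ S, Metric.closedBall y (r m) ∧
      (S.card : ℝ) ≤ 9 / 4 * volume.real (E' m) / (r m) ^ 2 := by
    intro m
    apply exists_net' _ _ (hrpos m) (hrle m)
    intro x hx y hy
    rw [Metric.mem_closedBall, dist_comm, dist_eq_norm] at hy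
    have h1 : ∀ j, j ≤ 2 * (q * m) → ‖CT^[j] (CI^[q * m] x) - CT^[j] (CI^[q * m] y)‖ ≤ ρ := by
      intro j hj
      apply track (k := q * m) (n := q * m) hρ.le _ (by omega) (by omega)
      rw [CT_iter_CI, CT_iter_CI]
      have := hrpos m
      exact hy.trans (by show r m / 3 ≤ r m; linarith)
    have h2 : |bs g q (2 * m) (CI^[q * m] x) - bs g q (2 * m) (CI^[q * m] y)| ≤
        ε₀ / 2 * ((2 * m : ℕ) : ℝ) := by
      apply bs_close (δ := ρ) (fun a b hab => (hmod a b (lt_of_le_of_lt hab hρδ)).le)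
      intro j hj
      apply h1
      calc q * j ≤ q * (2 * m) := Nat.mul_le_mul_left q hj.le
        _ = _ := by ring
    have h3 : ε₀ * ((2 * m : ℕ) : ℝ) ≤ bs g q (2 * m) (CI^[q * m] x) := hx
    have h4 := (abs_le.mp h2).2
    show ε₀ / 2 * ((2 * m : ℕ) : ℝ) ≤ bs g q (2 * m) (CI^[q * m] y)
    linarith
  choose S hS hcard using hcov
  have hvol : ∀ m, volume.real (E' m) ≤ Real.exp (-κ * ((2 * m : ℕ) : ℝ)) := by
    intro m
    refine le_trans (le_of_eq ?_) (hld (2 * m))
    have : E' m = (CI^[q * m]) ⁻¹' {x | ε₀ / 2 * ((2 * m : ℕ) : ℝ) ≤ bs g q (2 * m) x} := rfl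
    rw [this]
    unfold Measure.real
    rw [(mp_CI.iterate _).measure_preimage
      (measurableSet_le measurable_const (bs_cont hg q _).measurable).nullMeasurableSet]
  -- the exponent
  set τ : ℝ := min 1 (κ / (q * Real.log lam)) with hτ
  have hτ0 : 0 < τ := by positivity
  have hτ1 : τ ≤ 1 := min_le_left _ _
  have hτ2 : τ * (q * Real.log lam) ≤ κ := by
    have := min_le_right 1 (κ / (q * Real.log lam))
    rwa [← hτ, le_div_iff₀ (by positivity)] at this
  set s : ℝ≥0 := ⟨2 - τ, by linarith⟩ with hs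
  have hsv : (s : ℝ) = 2 - τ := rfl
  set C : ℝ := 9 / 4 * 2 ^ (2 - τ) * ρ ^ (-τ) * lam ^ τ with hC
  have hCpos : 0 ≤ C := by have := lam_pos; positivity
  have hlp := lam_pos
  have hbound : ∀ m, ((S m).card : ℝ) * (2 * r m) ^ (s : ℝ) ≤ C * (Real.exp (-κ)) ^ m := by
    intro m
    have hrm := hrpos m
    have h1 : (2 * r m) ^ (s : ℝ) = 2 ^ (2 - τ) * ((r m) ^ 2 * (r m) ^ (-τ)) := by
      rw [hsv, Real.mul_rpow (by norm_num) hrm.le]
      congr 1
      rw [← Real.rpow_two, ← Real.rpow_add hrm]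
      congr 1
    have h2 : (r m) ^ (-τ) = ρ ^ (-τ) * lam ^ τ * Real.exp (τ * (q * Real.log lam) * m) := by
      simp only [hr]
      rw [Real.div_rpow hρ.le (hL _).le, Real.rpow_neg (hL _).le, div_inv_eq_mul, mul_assoc]
      congr 1
      rw [← Real.rpow_natCast, ← Real.rpow_mul hlp.le, Real.rpow_def_of_pos hlp,
        Real.rpow_def_of_pos hlp, ← Real.exp_add]
      congr 1
      push_cast
      ring
    calc ((S m).card : ℝ) * (2 * r m) ^ (s : ℝ)
        ≤ (9 / 4 * volume.real (E' m) / (r m) ^ 2) * (2 * r m) ^ (s : ℝ) := by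
          gcongr
          exact hcard m
      _ = 9 / 4 * volume.real (E' m) * 2 ^ (2 - τ) * (r m) ^ (-τ) := by
          rw [h1]; field_simp
      _ ≤ 9 / 4 * Real.exp (-κ * ((2 * m : ℕ) : ℝ)) * 2 ^ (2 - τ) * (r m) ^ (-τ) := by
          gcongr
          exact hvol m
      _ = C * (Real.exp (-κ * ((2 * m : ℕ) : ℝ)) * Real.exp (τ * (q * Real.log lam) * m)) := by
          rw [h2, hC]; ring
      _ ≤ C * (Real.exp (-κ)) ^ m := by
          gcongr
          rw [← Real.exp_add, ← Real.exp_nat_mul]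
          apply Real.exp_le_exp.mpr
          push_cast
          have hm0 : (0 : ℝ) ≤ m := Nat.cast_nonneg m
          nlinarith
  have hr0 : Tendsto r atTop (𝓝 0) := by
    have h1 : Tendsto (fun m : ℕ => lam ^ (q * m + 1)) atTop atTop := by
      apply (tendsto_pow_atTop_atTop_of_one_lt one_lt_lam).comp
      apply tendsto_atTop_mono (f := fun m : ℕ => m) _ tendsto_id
      intro m
      nlinarith
    exact tendsto_const_nhds.div_atTop h1
  have hra : Antitone r := by
    intro a b hab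
    simp only [hr]
    apply div_le_div_of_nonneg_left hρ.le (hL _)
    exact pow_le_pow_right₀ one_lt_lam.le (by have := Nat.mul_le_mul_left q hab; omega)
  have hdim := dimH_limsup E S r s (Real.exp (-κ)) C hrpos hr0 hra hS (Real.exp_pos _).le
    (by rw [Real.exp_lt_one_iff]; linarith) hCpos hbound
  refine ⟨⋂ n : ℕ, ⋃ m : ℕ, E (n + m), MeasurableSet.iInter fun n => MeasurableSet.iUnion fun m =>
    hEm _, ?_, lt_of_le_of_lt hdim ?_⟩
  · -- positive measure
    have hanti : Antitone fun n : ℕ => ⋃ m : ℕ, E (n + m) := by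
      intro a b hab x hx
      obtain ⟨m, hm⟩ := mem_iUnion.mp hx
      refine mem_iUnion.mpr ⟨b - a + m, ?_⟩
      have : a + (b - a + m) = b + m := by omega
      rw [this]; exact hm
    have hlim := tendsto_measure_iInter_atTop (μ := η) (s := fun n : ℕ => ⋃ m : ℕ, E (n + m))
      (fun n => (MeasurableSet.iUnion fun m => hEm _).nullMeasurableSet) hanti
      ⟨0, measure_ne_top _ _⟩
    have hge : ∀ n : ℕ, ENNReal.ofReal ε₀ ≤ η (⋃ m : ℕ, E (n + m)) := by
      intro n
      have h1 : E (n + 1) ⊆ ⋃ m : ℕ, E (n + m) := subset_iUnion (fun m => E (n + m)) 1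
      refine le_trans ?_ (measure_mono h1)
      have h2 : η (E (n + 1)) = η {x | ε₀ * ((2 * (n + 1) : ℕ) : ℝ) ≤ bs g q (2 * (n + 1)) x} := by
        have : E (n + 1) = (CI^[q * (n + 1)]) ⁻¹'
            {x | ε₀ * ((2 * (n + 1) : ℕ) : ℝ) ≤ bs g q (2 * (n + 1)) x} := rfl
        rw [this, ((mp_CI_of hη).iterate _).measure_preimage
          (measurableSet_le measurable_const (bs_cont hg q _).measurable).nullMeasurableSet]
      rw [h2]
      have h3 := meas_large hg hg1 hη hI hε₀ q (2 * (n + 1)) (by omega)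
      rw [← ENNReal.ofReal_toReal (measure_ne_top η _)]
      exact ENNReal.ofReal_le_ofReal h3
    have h4 := ge_of_tendsto' hlim hge
    exact lt_of_lt_of_le (ENNReal.ofReal_pos.mpr hε₀) h4
  · have : (s : ℝ≥0) < 2 := by
      rw [← NNReal.coe_lt_coe, hsv]
      push_cast
      linarith
    exact_mod_cast this

end Pool.Agent.TH292.MR
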