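import Pool.Agent.TH292.MR.EntF

/-!
# Dimension of the invariant measures of the diffeomorphism
-/

set_option autoImplicit false

open Set Filter Topology Function MeasureTheory
open scoped ContDiff ENNReal NNReal

namespace Pool.Agent.TH292.MR

open Pool.Agent.TH292.Gold

lemma proj_add (a b : Plane) : proj (a + b) = proj a + proj b := by
  unfold proj
  exact Prod.ext (AddCircle.coe_add _ _ _) (AddCircle.coe_add _ _ _)
lemma proj_sub (a b : Plane) : proj (a - b) = proj a - proj b := by
  unfold proj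
  exact Prod.ext (AddCircle.coe_sub _ _ _) (AddCircle.coe_sub _ _ _)
lemma norm_proj_le (a : Plane) : ‖proj a‖ ≤ ‖a‖ := by
  unfold proj
  rw [Prod.norm_mk, Prod.norm_def]
  exact max_le_max (by rw [Real.norm_eq_abs]; exact norm_coe_le _)
    (by rw [Real.norm_eq_abs]; exact norm_coe_le _)
lemma dist_proj_le (a b : Plane) : dist (proj a) (proj b) ≤ dist a b := by
  rw [dist_eq_norm, dist_eq_norm, ← proj_sub]
  exact norm_proj_le _
lemma norm_proj_eq {a : Plane} (h : ‖a‖ < 1 / 2) : ‖proj a‖ = ‖a‖ := by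
  have h1 : |a.1| < 1 / 2 := lt_of_le_of_lt (norm_fst_le a) h
  have h2 : |a.2| < 1 / 2 := lt_of_le_of_lt (norm_snd_le a) h
  unfold proj
  rw [Prod.norm_mk, Prod.norm_def, norm_coe_eq h1, norm_coe_eq h2]
  rfl
lemma exists_plift (d : Torus) : ∃ δ : Plane, proj δ = d ∧ ‖δ‖ = ‖d‖ := by
  obtain ⟨a, ha, ha'⟩ := exists_lift d.1
  obtain ⟨b, hb, hb'⟩ := exists_lift d.2
  refine ⟨(a, b), Prod.ext ha hb, ?_⟩
  rw [Prod.norm_mk, Prod.norm_def, Real.norm_eq_abs, Real.norm_eq_abs, ha', hb']

lemma lip_of_lift {Ψ : Torus → Torus} {Q : Plane → Plane} (h : ∀ z, Ψ (proj z) = proj (Q z))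
    {z : Plane} (hQ : ContDiffAt ℝ 1 Q z) :
    ∃ C : ℝ≥0, ∃ t ∈ 𝓝 (proj z), LipschitzOnWith C Ψ t := by
  obtain ⟨K, t, ht, hK⟩ := hQ.exists_lipschitzOnWith
  obtain ⟨r, hr, hrt⟩ := Metric.mem_nhds_iff.mp ht
  refine ⟨K, Metric.ball (proj z) (min r (1 / 8)), Metric.ball_mem_nhds _ (by positivity), ?_⟩
  apply LipschitzOnWith.of_dist_le_mul
  intro y hy y' hy'
  obtain ⟨δ, hδ, hδn⟩ := exists_plift (y - proj z)
  obtain ⟨δ', hδ', hδn'⟩ := exists_plift (y' - proj z)
  rw [Metric.mem_ball, dist_eq_norm, ← hδn] at hy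
  rw [Metric.mem_ball, dist_eq_norm, ← hδn'] at hy'
  have e1 : y = proj (z + δ) := by rw [proj_add, hδ]; abel
  have e2 : y' = proj (z + δ') := by rw [proj_add, hδ']; abel
  have h1 := hK.dist_le_mul (z + δ) (hrt (by
    rw [Metric.mem_ball, dist_eq_norm, add_sub_cancel_left]
    exact lt_of_lt_of_le hy (min_le_left _ _))) (z + δ') (hrt (by
    rw [Metric.mem_ball, dist_eq_norm, add_sub_cancel_left]
    exact lt_of_lt_of_le hy' (min_le_left _ _)))
  have h2 : dist (z + δ) (z + δ') = dist y y' := by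
    have e3 : z + δ - (z + δ') = δ - δ' := by abel
    rw [dist_eq_norm, dist_eq_norm, e1, e2, ← proj_sub, e3, norm_proj_eq]
    refine lt_of_le_of_lt (norm_sub_le _ _) ?_
    have := min_le_right r (1 / 8)
    linarith
  rw [h2] at h1
  refine le_trans ?_ h1
  rw [e1, e2, h, h]
  exact dist_proj_le _ _

lemma dimH_image_of_lift {Ψ : Torus → Torus} {Q : Plane → Plane} (h : ∀ z, Ψ (proj z) = proj (Q z))
    {s : Set Torus} (hQ : ∀ z, proj z ∈ s → ContDiffAt ℝ 1 Q z) : dimH (Ψ '' s) ≤ dimH s := by
  apply dimH_image_le_of_locally_lipschitzOn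
  intro x hx
  obtain ⟨z, rfl⟩ := proj_surj x
  obtain ⟨C, t, ht, hC⟩ := lip_of_lift h (hQ z hx)
  exact ⟨C, t, mem_nhdsWithin_of_mem_nhds ht, hC⟩

lemma J0_contDiffAt {z : Plane} (hz : z ≠ 0) : ContDiffAt ℝ ∞ J0 z := by
  have hq := nq_pos hz
  have hj := jt_pos hq.le
  have h1 : ContDiffAt ℝ ∞ (fun z => jt (nq z) / nq z) z :=
    (jt_contDiff.comp nq_contDiff).contDiffAt.div nq_contDiff.contDiffAt hq.ne'
  exact (h1.sqrt (by positivity)).smul contDiffAt_id

lemma H0_contDiffAt {z : Plane} (hz : 1 / 800 < nq z) : ContDiffAt ℝ ∞ H0 z := by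
  have hq : 0 < nq z := by linarith
  have hk := kt_pos hz
  have h1 : ContDiffAt ℝ ∞ (fun z => kt (nq z) / nq z) z :=
    (kt_contDiff.comp nq_contDiff).contDiffAt.div nq_contDiff.contDiffAt hq.ne'
  have h2 : ContDiffAt ℝ ∞ (fun z => Real.sqrt (kt (nq z) / nq z) • z) z :=
    (h1.sqrt (by positivity)).smul contDiffAt_id
  apply h2.congr_of_eventuallyEq
  filter_upwards [(isOpen_lt continuous_const nq_contDiff.continuous).mem_nhds hz] with w hw
  unfold H0
  rw [max_eq_left (kt_pos hw).le]

lemma perJ_contDiffAt {z : Plane} (hz : proj z ≠ 0) : ContDiffAt ℝ ∞ (per J0) z := by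
  apply per_contDiffAt hJ0
  apply J0_contDiffAt
  intro h
  apply hz
  apply cl_eq_zero
  rw [cl_proj, h]

lemma perH_contDiffAt {z : Plane} (hz : proj z ∉ DD) : ContDiffAt ℝ ∞ (per H0) z := by
  apply per_contDiffAt hH0
  apply H0_contDiffAt
  rw [← cl_proj]
  by_contra hcon
  push Not at hcon
  exact hz hcon

lemma gg_proj (z : Plane) : gg (proj z) = proj (per J0 z) := (proj_per J0 z).symm
lemma hh_proj (z : Plane) : hh (proj z) = proj (per H0 z) := (proj_per H0 z).symm

lemma dimH_gg {s : Set Torus} (hs : (0 : Torus) ∉ s) : dimH (gg '' s) ≤ dimH s :=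
  dimH_image_of_lift gg_proj fun z hz => (perJ_contDiffAt (fun h => hs (h ▸ hz))).of_le (by
    exact_mod_cast le_top)

lemma dimH_hh {s : Set Torus} (hs : Disjoint s DD) : dimH (hh '' s) ≤ dimH s :=
  dimH_image_of_lift hh_proj fun z hz =>
    (perH_contDiffAt (fun h => Set.disjoint_left.mp hs hz h)).of_le (by simp)

lemma dimH_symm (s : Set Torus) : dimH (ff.symm '' s) ≤ dimH s :=
  dimH_image_of_lift isSmoothDiffeo.lift_symm fun _ _ =>
    (GG_contDiff.contDiffAt).of_le (by simp)

lemma dimH_univ_le : dimH (univ : Set Torus) ≤ 2 := by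
  have h1 : LipschitzWith 1 proj := LipschitzWith.of_dist_le_mul fun a b => by
    rw [NNReal.coe_one, one_mul]; exact dist_proj_le a b
  have h2 := h1.dimH_range_le
  rw [proj_surj.range_eq, Real.dimH_univ_eq_finrank Plane] at h2
  refine h2.trans ?_
  simp

lemma dimH_le_two (s : Set Torus) : dimH s ≤ 2 := (dimH_mono (subset_univ s)).trans dimH_univ_le

/-- sets of positive volume have dimension two -/
lemma two_le_dimH {s : Set Torus} (hs : (volume : Measure Torus) s ≠ 0) : 2 ≤ dimH s := by
  have h0 : ((1 / 4 : ℝ≥0) • (volume : Measure Torus)) ≤ μH[2] := by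
    apply Measure.le_hausdorffMeasure 2 _ 1 one_pos
    intro t ht
    rcases t.eq_empty_or_nonempty with rfl | ⟨x, hx⟩
    · simp
    · have hfin : Metric.ediam t ≠ ⊤ := ne_top_of_le_ne_top ENNReal.one_ne_top ht
      set d := (Metric.ediam t).toReal with hd
      have hsub : t ⊆ Metric.closedBall x d := by
        intro y hy
        rw [Metric.mem_closedBall, dist_edist]
        exact ENNReal.toReal_mono hfin (Metric.edist_le_ediam_of_mem hy hx)
      have h1 : (volume : Measure Torus) t ≤ ENNReal.ofReal ((2 * d) ^ 2) :=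
        (measure_mono hsub).trans (vol_closedBall_le x ENNReal.toReal_nonneg)
      have h2 : Metric.ediam t ^ (2 : ℝ) = ENNReal.ofReal (d ^ 2) := by
        rw [ENNReal.rpow_two, ENNReal.ofReal_pow ENNReal.toReal_nonneg, ENNReal.ofReal_toReal hfin]
      rw [h2, Measure.smul_apply, ENNReal.smul_def, smul_eq_mul]
      calc ((1 / 4 : ℝ≥0) : ℝ≥0∞) * (volume : Measure Torus) t
          ≤ ((1 / 4 : ℝ≥0) : ℝ≥0∞) * ENNReal.ofReal ((2 * d) ^ 2) := by gcongr
        _ = ENNReal.ofReal (1 / 4) * ENNReal.ofReal ((2 * d) ^ 2) := by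
            congr 1
            rw [← ENNReal.ofReal_coe_nnreal]
            congr 1
        _ = ENNReal.ofReal (d ^ 2) := by
            rw [← ENNReal.ofReal_mul (by norm_num)]
            congr 1
            ring
  have h1 : μH[((2 : ℝ≥0) : ℝ)] s ≠ 0 := by
    intro h
    have h2 := h0 s
    have h3 : (μH[2] : Measure Torus) s = 0 := by
      have : (((2 : ℝ≥0) : ℝ)) = 2 := by norm_num
      rw [this] at h
      exact h
    rw [h3, Measure.smul_apply, ENNReal.smul_def, smul_eq_mul, nonpos_iff_eq_zero] at h2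
    rcases mul_eq_zero.mp h2 with h4 | h4
    · norm_num at h4
    · exact hs h4
  have := le_dimH_of_hausdorffMeasure_ne_zero h1
  exact_mod_cast this

/-- the dimension of the main measure is two -/
theorem dim_mu : measureDim mu = 2 := by
  apply le_antisymm
  · unfold measureDim
    exact iInf_le_of_le univ (iInf_le_of_le MeasurableSet.univ (iInf_le_of_le measure_univ
      (dimH_le_two _)))
  · unfold measureDim
    refine le_iInf fun Z => le_iInf fun hZ => le_iInf fun hZ1 => ?_
    have h1 : dimH (hh '' (Z \ DD)) ≤ dimH Z :=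
      (dimH_hh disjoint_sdiff_left).trans (dimH_mono sdiff_subset)
    refine le_trans ?_ h1
    apply two_le_dimH
    have h2 : (volume : Measure Torus) (gg ⁻¹' Z) = 1 := by
      rw [← hZ1]; unfold mu; rw [Measure.map_apply gg_meas hZ]
    have h3 : gg ⁻¹' Z \ {0} ⊆ hh '' (Z \ DD) := by
      rintro w ⟨hw, hw0⟩
      exact ⟨gg w, ⟨hw, gg_notMem hw0⟩, hh_gg w⟩
    intro h4
    have h5 : (volume : Measure Torus) (gg ⁻¹' Z \ {0}) = 0 := measure_mono_null h3 h4
    have h6 : (volume : Measure Torus) (gg ⁻¹' Z) ≤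
        (volume : Measure Torus) (gg ⁻¹' Z \ {0}) + (volume : Measure Torus) {0} := by
      refine (measure_mono ?_).trans (measure_union_le _ _)
      intro w hw
      by_cases h : w = 0
      · right; exact h
      · left; exact ⟨hw, h⟩
    rw [h5, vol_zero, h2] at h6
    simp at h6

lemma measureDim_le_two (η : Measure Torus) [IsProbabilityMeasure η] : measureDim η ≤ 2 := by
  unfold measureDim
  exact iInf_le_of_le univ (iInf_le_of_le MeasurableSet.univ (iInf_le_of_le measure_univ
    (dimH_le_two _)))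

theorem isMaxDim_mu : IsMaxDim ff mu :=
  ⟨mu_inv, fun η hη => by have := hη.prob; rw [dim_mu]; exact measureDim_le_two η⟩

/-- the fixed points of the disc have dimension less than two -/
lemma dimH_fixed : dimH {x : Torus | x ∈ DD ∧ ff x = x} < 2 := by
  have hsub : {x : Torus | x ∈ DD ∧ ff x = x} ⊆
      range (fun t : ℝ => proj (t, -ph * t)) ∪ range (fun t : ℝ => proj (ph * t, t)) := by
    rintro x ⟨hx, hfx⟩
    have h1 := cl_ff hx
    rw [hfx] at h1
    by_cases hu : uc (cl x) = 0
    · left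
      refine ⟨(cl x).1, ?_⟩
      have : cl x = ((cl x).1, -ph * (cl x).1) := by
        unfold uc at hu
        exact Prod.ext rfl (by simp only; linarith)
      show proj ((cl x).1, -ph * (cl x).1) = x
      rw [← this, proj_cl]
    · right
      have hu1 := congrArg uc h1
      rw [uc_smul, uc_AL] at hu1
      have hs1 := congrArg sc h1
      rw [sc_smul] at hs1
      have hs2 := sc_AL (cl x)
      have hCl : CC (cl x) * lam = 1 := by
        have : (CC (cl x) * lam - 1) * uc (cl x) = 0 := by linarith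
        have := (mul_eq_zero.mp this).resolve_right hu
        linarith
      have hs0 : sc (cl x) = 0 := by
        have e1 : lam * sc (cl x) = CC (cl x) * sc (cl x) := by
          conv_lhs => rw [hs1]
          rw [← hs2]; ring
        have e2 : lam ^ 2 * sc (cl x) = sc (cl x) := by
          calc lam ^ 2 * sc (cl x) = lam * (lam * sc (cl x)) := by ring
            _ = (CC (cl x) * lam) * sc (cl x) := by rw [e1]; ring
            _ = sc (cl x) := by rw [hCl, one_mul]
        have e3 : (lam ^ 2 - 1) * sc (cl x) = 0 := by linarith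
        refine (mul_eq_zero.mp e3).resolve_left ?_
        have := lam_gt
        nlinarith
      refine ⟨(cl x).2, ?_⟩
      have : cl x = (ph * (cl x).2, (cl x).2) := by
        unfold sc at hs0
        exact Prod.ext (by simp only; linarith) rfl
      show proj (ph * (cl x).2, (cl x).2) = x
      rw [← this, proj_cl]
  have hlip : ∀ a b : ℝ, dimH (range (fun t : ℝ => proj (a * t, b * t))) ≤ 1 := by
    intro a b
    have h1 : LipschitzWith (‖(a, b)‖₊) (fun t : ℝ => proj (a * t, b * t)) := by
      apply LipschitzWith.of_dist_le_mul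
      intro s t
      refine (dist_proj_le _ _).trans ?_
      have : ((a * s, b * s) : Plane) - (a * t, b * t) = (s - t) • (a, b) := by
        ext <;> simp <;> ring
      rw [dist_eq_norm, this, norm_smul, Real.dist_eq, Real.norm_eq_abs, mul_comm]
      rfl
    have := h1.dimH_range_le
    rwa [Real.dimH_univ] at this
  refine lt_of_le_of_lt (dimH_mono hsub) ?_
  rw [dimH_union]
  have e1 := hlip 1 (-ph)
  have e2 := hlip ph 1
  simp only [one_mul] at e1 e2
  exact lt_of_le_of_lt (max_le e1 e2) (by norm_num)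

/-- every invariant measure other than `mu` charges a set of dimension less than two -/
theorem dim_lt_F {η : Measure Torus} (hη : IsInvariant ff η) (hne : η ≠ mu) :
    ∃ Z : Set Torus, MeasurableSet Z ∧ 0 < η Z ∧ dimH Z < 2 := by
  have hprob := hη.prob
  by_cases hD : η DD = 0
  · obtain ⟨h1, h2, h3⟩ := of_DD_null hη hD
    have hne' : η.map hh ≠ volume := fun h => hne (eq_mu hη hD h)
    obtain ⟨Z, hZ, hZpos, hZdim⟩ := dim_lt (η.map hh) h2 hne'
    refine ⟨DDᶜ ∩ hh ⁻¹' Z, DD_meas.compl.inter (hh_cont.measurable hZ), ?_, ?_⟩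
    · rw [Measure.map_apply hh_cont.measurable hZ] at hZpos
      have h4 : η (hh ⁻¹' Z) ≤ η (DDᶜ ∩ hh ⁻¹' Z) + η DD := by
        refine (measure_mono ?_).trans (measure_union_le _ _)
        intro x hx
        by_cases h : x ∈ DD
        · right; exact h
        · left; exact ⟨h, hx⟩
      rw [hD, add_zero] at h4
      exact lt_of_lt_of_le hZpos h4
    · have h4 : DDᶜ ∩ hh ⁻¹' Z ⊆ gg '' (Z \ {0}) := by
        rintro x ⟨hx, hx'⟩
        refine ⟨hh x, ⟨hx', ?_⟩, gg_hh hx⟩
        intro h
        exact hx ((hh_eq_zero_iff x).mp h)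
      refine lt_of_le_of_lt ((dimH_mono h4).trans ((dimH_gg (by simp)).trans
        (dimH_mono sdiff_subset))) hZdim
  · refine ⟨{x : Torus | x ∈ DD ∧ ff x = x}, ?_, ?_, dimH_fixed⟩
    · exact DD_meas.inter (measurableSet_eq_fun ff.continuous.measurable measurable_id)
    · have h1 := fix_ae hη
      have h2 : η {x : Torus | x ∈ DD ∧ ff x = x} = η DD := by
        apply measure_congr
        filter_upwards [h1] with x hx
        apply propext
        constructor
        · intro h; exact h.1
        · intro h; exact ⟨h, hx h⟩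
      rw [h2]
      exact pos_iff_ne_zero.mpr hD

/-- ergodic invariant measures other than `mu` have dimension less than two -/
theorem dim_ergodic {η : Measure Torus} (hη : IsInvariant ff η) (he : Ergodic ff η) (hne : η ≠ mu) :
    measureDim η < 2 := by
  have hprob := hη.prob
  obtain ⟨Z, hZ, hZpos, hZdim⟩ := dim_lt_F hη hne
  set W : Set Torus := ⋃ n : ℕ, (ff^[n]) ⁻¹' Z with hW
  have hWm : MeasurableSet W :=
    MeasurableSet.iUnion fun n => (ff.continuous.measurable.iterate n) hZ
  have hsub : ff ⁻¹' W ⊆ W := by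
    intro x hx
    obtain ⟨n, hn⟩ := mem_iUnion.mp hx
    refine mem_iUnion.mpr ⟨n + 1, ?_⟩
    show ff^[n + 1] x ∈ Z
    rw [iterate_succ_apply]
    exact hn
  have h1 := he.ae_empty_or_univ_of_preimage_ae_le hWm.nullMeasurableSet
    (Eventually.of_forall (fun x (hx : x ∈ ff ⁻¹' W) => hsub hx))
  have h2 : η W = 1 := by
    rcases h1 with h | h
    · exfalso
      rw [ae_eq_empty] at h
      have : Z ⊆ W := subset_iUnion (fun n : ℕ => (ff^[n]) ⁻¹' Z) 0
      have := measure_mono_null this h
      exact hZpos.ne' this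
    · rw [measure_congr h]
      exact measure_univ
  have h3 : ∀ n : ℕ, dimH ((ff^[n]) ⁻¹' Z) ≤ dimH Z := by
    intro n
    induction n with
    | zero => exact le_refl _
    | succ n ih =>
      have : (ff^[n + 1]) ⁻¹' Z = ff.symm '' ((ff^[n]) ⁻¹' Z) := by
        rw [ff.image_symm]
        ext x
        show ff^[n + 1] x ∈ Z ↔ ff^[n] (ff x) ∈ Z
        rw [iterate_succ_apply]
      rw [this]
      exact (dimH_symm _).trans ih
  have h4 : dimH W ≤ dimH Z := by
    rw [hW, dimH_iUnion]
    exact iSup_le h3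
  refine lt_of_le_of_lt ?_ hZdim
  refine le_trans ?_ h4
  unfold measureDim
  exact iInf_le_of_le W (iInf_le_of_le hWm (iInf_le_of_le h2 le_rfl))

end Pool.Agent.TH292.MR
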