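import Pool.Agent.Helper179.KSSharp

/-!
# A weighted Misiurewicz-type bound for the entropy

Adaptation of `ksEntropy_le_log_of_cover`.
-/

set_option autoImplicit false

open MeasureTheory Filter Topology
open scoped ENNReal NNReal

namespace Pool.Agent.TH292.MR

open Pool.Agent.Helper179.KS

/-- Entropy is at most `e` if, at every resolution, there are covers by small dynamical pieces with
weights of sum at most one such that the average of the logarithm of the weight is at least
`-C - n e`. -/
theorem ksEntropy_le_of_weights {X : Type*} [MetricSpace X] [MeasurableSpace X] [BorelSpace X]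
    (ν : Measure X) [IsProbabilityMeasure ν] [ν.InnerRegularCompactLTTop] {T : X → X}
    (hT : MeasurePreserving T ν ν) (e : ℝ)
    (hcover : ∀ ε > 0, ∃ C : ℝ, ∀ n : ℕ, ∃ (ι : Type) (_ : Fintype ι) (A : ι → Set X) (p : ι → ℝ)
      (W : X → ℝ), (∀ i, 0 < p i) ∧ ∑ i, p i ≤ 1 ∧ (∀ᵐ x ∂ν, ∃ i, x ∈ A i ∧ -Real.log (p i) ≤ W x) ∧
      Integrable W ν ∧ ∫ x, W x ∂ν ≤ C + n * e ∧
      ∀ i, ∀ x ∈ A i, ∀ y ∈ A i, ∀ j < n, dist (T^[j] x) (T^[j] y) < ε) :
    ksEntropy ν T ≤ (e : EReal) := by
  rw [ksEntropy_le_iff]
  intro k P hP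
  -- the space is nonempty
  have hX : Nonempty X := by
    by_contra h
    rw [not_nonempty_iff] at h
    have h1 : ν Set.univ = 1 := measure_univ
    rw [Set.univ_eq_empty_iff.2 h] at h1
    simp at h1
  obtain ⟨x₀⟩ := hX
  have hk : 0 < k := lt_of_le_of_lt (Nat.zero_le _) (P x₀).isLt
  have hkR : (1 : ℝ) ≤ k := by exact_mod_cast hk
  -- it suffices to get arbitrarily small error
  suffices hmain : ∀ η : ℝ, 0 < η → η ≤ 1 / 2 → ∃ C : ℝ, ∀ n : ℕ,
      shannonEntropy ν (itinerary T P n) ≤ C + n * (e + 3 * η) by
    unfold partitionEntropy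
    rw [limsup_coe_le_iff]
    intro η hη
    obtain ⟨C, hn⟩ := hmain (min (η / 6) (1 / 2)) (by positivity) (min_le_right _ _)
    have h3 : 3 * min (η / 6) (1 / 2) ≤ η / 2 := by
      have := min_le_left (η / 6) (1 / 2)
      linarith
    have hC' : ∀ᶠ n : ℕ in atTop, C / n ≤ η / 2 := by
      have : Tendsto (fun n : ℕ => C / (n : ℝ)) atTop (𝓝 0) :=
        tendsto_const_div_atTop_nhds_zero_nat _
      exact (this.eventually (ge_mem_nhds (by positivity)))
    filter_upwards [hC', eventually_gt_atTop 0] with n hn1 hn2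
    have hnpos : (0 : ℝ) < n := by exact_mod_cast hn2
    calc shannonEntropy ν (itinerary T P n) / n
        ≤ (C + n * (e + 3 * min (η / 6) (1 / 2))) / n := by
          gcongr
          exact hn n
      _ = e + 3 * min (η / 6) (1 / 2) + C / n := by field_simp; ring
      _ ≤ e + η := by linarith
  intro η hη hη2
  have hlogk : 0 ≤ Real.log (k / η) := by
    apply Real.log_nonneg
    rw [le_div_iff₀ hη]
    linarith
  -- compact sets inside the atoms
  set δ : ℝ := η / (k * (Real.log (k / η) + 1)) with hδ
  have hδpos : 0 < δ := by positivity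
  have hcomp : ∀ i : Fin k, ∃ L : Set X, L ⊆ P ⁻¹' {i} ∧ IsCompact L ∧
      ν (P ⁻¹' {i} \ L) < ENNReal.ofReal δ := by
    intro i
    exact (hP (measurableSet_singleton i)).exists_isCompact_sdiff_lt (measure_ne_top _ _)
      (by simpa using hδpos)
  choose L hLsub hLcomp hLlt using hcomp
  set L0 : Set X := (⋃ i, L i)ᶜ with hL0
  have hL0meas : MeasurableSet L0 :=
    (MeasurableSet.iUnion (fun i => (hLcomp i).measurableSet)).compl
  have hL0le : ν.real L0 ≤ k * δ := by
    have h1 : L0 ⊆ ⋃ i, (P ⁻¹' {i} \ L i) := by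
      intro x hx
      rw [Set.mem_iUnion]
      refine ⟨P x, rfl, ?_⟩
      intro hx'
      exact hx (Set.mem_iUnion.2 ⟨P x, hx'⟩)
    calc ν.real L0 ≤ ν.real (⋃ i, (P ⁻¹' {i} \ L i)) := measureReal_mono h1
      _ ≤ ∑ i, ν.real (P ⁻¹' {i} \ L i) := measureReal_iUnion_fintype_le _
      _ ≤ ∑ _i : Fin k, δ := by
          apply Finset.sum_le_sum
          intro i _
          have := (hLlt i).le
          unfold Measure.real
          exact ENNReal.toReal_le_of_le_ofReal hδpos.le this
      _ = k * δ := by simp
  have hL0log : ν.real L0 * Real.log (k / η) ≤ η := by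
    calc ν.real L0 * Real.log (k / η) ≤ (k * δ) * Real.log (k / η) := by gcongr
      _ = η * (Real.log (k / η) / (Real.log (k / η) + 1)) := by rw [hδ]; field_simp
      _ ≤ η * 1 := by
          apply mul_le_mul_of_nonneg_left _ hη.le
          rw [div_le_one (by positivity)]; linarith
      _ = η := mul_one η
  -- separation
  have hsep : ∃ ε > 0, ∀ i j : Fin k, ∀ x ∈ L i, ∀ y ∈ L j, dist x y < ε → i = j := by
    have h1 : ∀ p : Fin k × Fin k, ∃ r : ℝ, 0 < r ∧ (p.1 ≠ p.2 →
        ∀ x ∈ L p.1, ∀ y ∈ L p.2, r ≤ dist x y) := by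
      rintro ⟨i, j⟩
      by_cases hij : i = j
      · exact ⟨1, one_pos, fun h => absurd hij h⟩
      · have hdisj : Disjoint (L i) (L j) := by
          rw [Set.disjoint_left]
          intro x hx hx'
          have h1 := hLsub i hx
          have h2 := hLsub j hx'
          simp only [Set.mem_preimage, Set.mem_singleton_iff] at h1 h2
          exact hij (h1.symm.trans h2)
        obtain ⟨r, hr, hr'⟩ := Metric.exists_pos_forall_lt_edist (hLcomp i)
          (hLcomp j).isClosed hdisj
        refine ⟨r, by exact_mod_cast hr, ?_⟩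
        intro _ x hx y hy
        have := hr' x hx y hy
        rw [edist_dist] at this
        rw [← ENNReal.ofReal_coe_nnreal] at this
        have h3 := (ENNReal.ofReal_lt_ofReal_iff_of_nonneg (NNReal.coe_nonneg r)).1 this
        exact h3.le
    choose r hr hr' using h1
    obtain ⟨ε, hε, hε'⟩ := exists_pos_le_of_finite r hr
    refine ⟨ε, hε, ?_⟩
    intro i j x hx y hy hxy
    by_contra hij
    have := hr' (i, j) hij x hx y hy
    have h2 := hε' (i, j)
    linarith
  obtain ⟨ε, hε, hεsep⟩ := hsep
  obtain ⟨C, hcov⟩ := hcover ε hε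
  refine ⟨C, ?_⟩
  intro n
  obtain ⟨ι, hι, A, p, W, hp, hp1, hKA, hWint, hWle, hA⟩ := hcov n
  classical
  -- colour of the cell i at time j
  have hc : ∀ (i : ι) (j : Fin n), ∃ c : Fin k, ∀ x ∈ A i, ∀ l, T^[j] x ∈ L l → l = c := by
    intro i j
    by_cases h : ∃ x ∈ A i, ∃ l, T^[j] x ∈ L l
    · obtain ⟨x, hx, l, hl⟩ := h
      refine ⟨l, ?_⟩
      intro y hy l' hl'
      exact hεsep l' l _ hl' _ hl (hA i y hy x hx j j.isLt)
    · push Not at h
      exact ⟨⟨0, hk⟩, fun x hx l hl => absurd hl (h x hx l)⟩
  choose c hc using hc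
  -- the weights
  let κ : Fin k → Fin k → ℝ := fun a w => (if w = a then 1 - η else 0) + η / k
  have hκsum : ∀ a, ∑ w, κ a w = 1 := by
    intro a
    simp only [κ]
    rw [Finset.sum_add_distrib]
    simp
    field_simp
    ring
  have hκnn : ∀ a w, 0 ≤ κ a w := by
    intro a w
    simp only [κ]
    have : 0 ≤ η / k := by positivity
    split_ifs <;> linarith
  let q : (Fin n → Fin k) → ℝ := fun w => ∑ i : ι, p i * ∏ j, κ (c i j) (w j)
  have hqnn : ∀ w, 0 ≤ q w := by
    intro w
    apply Finset.sum_nonneg
    intro i _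
    exact mul_nonneg (hp i).le (Finset.prod_nonneg (fun j _ => hκnn _ _))
  have hqsum : ∑ w, q w ≤ 1 := by
    simp only [q]
    rw [Finset.sum_comm]
    have : ∀ i : ι, ∑ w : Fin n → Fin k, p i * ∏ j, κ (c i j) (w j) = p i := by
      intro i
      rw [← Finset.mul_sum, ← Fintype.prod_sum]
      simp [hκsum]
    rw [Finset.sum_congr rfl (fun i _ => this i)]
    exact hp1
  let F : X → ℝ := fun x => W x +
    ∑ j : Fin n, (-Real.log (1 - η) +
      Set.indicator (T^[j] ⁻¹' L0) (fun _ => Real.log (k / η)) x)
  have hmeasj : ∀ j : Fin n, MeasurableSet (T^[j] ⁻¹' L0) := fun j =>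
    (hT.measurable.iterate j) hL0meas
  have hintj : ∀ j : Fin n, Integrable (fun x => -Real.log (1 - η) +
      Set.indicator (T^[j] ⁻¹' L0) (fun _ => Real.log (k / η)) x) ν := by
    intro j
    exact (integrable_const _).add ((integrable_const _).indicator (hmeasj j))
  have hFint : Integrable F ν :=
    Integrable.add hWint (integrable_finsetSum _ (fun j _ => hintj j))
  have hFval : ∫ x, F x ∂ν = ∫ x, W x ∂ν +
      n * (-Real.log (1 - η) + ν.real L0 * Real.log (k / η)) := by
    simp only [F]
    rw [integral_add hWint (integrable_finsetSum _ (fun j _ => hintj j))]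
    rw [integral_finsetSum _ (fun j _ => hintj j)]
    congr 1
    have : ∀ j : Fin n, ∫ x, (-Real.log (1 - η) +
        (T^[j] ⁻¹' L0).indicator (fun _ => Real.log (k / η)) x) ∂ν =
        -Real.log (1 - η) + ν.real L0 * Real.log (k / η) := by
      intro j
      rw [integral_add (integrable_const _) ((integrable_const _).indicator (hmeasj j)),
        integral_indicator (hmeasj j)]
      simp only [integral_const, MeasurableSet.univ, measureReal_restrict_apply,
        Set.univ_inter, smul_eq_mul, probReal_univ, one_mul]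
      congr 2
      unfold Measure.real
      rw [(hT.iterate j).measure_preimage hL0meas.nullMeasurableSet]
    rw [Finset.sum_congr rfl (fun j _ => this j)]
    simp
    ring
  have h1η : 0 < 1 - η := by linarith
  have hptw : ∀ᵐ x ∂ν, 0 < q (itinerary T P n x) ∧ -Real.log (q (itinerary T P n x)) ≤ F x := by
    filter_upwards [hKA] with x hx
    obtain ⟨i, hi, hWi⟩ := hx
    have hterm : ∀ j : Fin n, Real.exp (-(-Real.log (1 - η) +
        (T^[j] ⁻¹' L0).indicator (fun _ => Real.log (k / η)) x)) ≤
        κ (c i j) (itinerary T P n x j) := by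
      intro j
      by_cases hj : T^[j] x ∈ L0
      · have h2 : x ∈ T^[j] ⁻¹' L0 := hj
        rw [Set.indicator_of_mem h2]
        rw [neg_add, neg_neg, Real.exp_add, Real.exp_log h1η, Real.exp_neg,
          Real.exp_log (by positivity), inv_div]
        have h3 : (1 - η) * (η / k) ≤ 1 * (η / k) := by
          apply mul_le_mul_of_nonneg_right _ (by positivity)
          linarith
        refine h3.trans ?_
        simp only [κ]
        split_ifs <;> linarith
      · have h2 : x ∉ T^[j] ⁻¹' L0 := hj
        rw [Set.indicator_of_notMem h2]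
        have h3 : T^[j] x ∈ ⋃ i, L i := by
          by_contra h
          exact hj h
        obtain ⟨l, hl⟩ := Set.mem_iUnion.1 h3
        have h4 : l = c i j := hc i j x hi l hl
        have h5 : P (T^[j] x) = l := hLsub l hl
        have h6 : itinerary T P n x j = c i j := by
          unfold itinerary
          rw [h5, h4]
        rw [add_zero, neg_neg, Real.exp_log h1η]
        simp only [κ, h6, if_true]
        have : 0 ≤ η / k := by positivity
        linarith
    have hprod : Real.exp (-∑ j : Fin n, (-Real.log (1 - η) +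
        (T^[j] ⁻¹' L0).indicator (fun _ => Real.log (k / η)) x)) ≤
        ∏ j, κ (c i j) (itinerary T P n x j) := by
      rw [← Finset.sum_neg_distrib, Real.exp_sum]
      apply Finset.prod_le_prod
      · intro j _; positivity
      · intro j _; exact hterm j
    have hWe : Real.exp (-W x) ≤ p i := by
      rw [← Real.exp_log (hp i)]
      apply Real.exp_le_exp.mpr
      linarith
    have hqge : Real.exp (-F x) ≤ q (itinerary T P n x) := by
      simp only [F, q]
      rw [neg_add, Real.exp_add]
      calc Real.exp (-W x) * Real.exp (-∑ j : Fin n, (-Real.log (1 - η) +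
            (T^[j] ⁻¹' L0).indicator (fun _ => Real.log (k / η)) x))
          ≤ p i * ∏ j, κ (c i j) (itinerary T P n x j) :=
            mul_le_mul hWe hprod (Real.exp_pos _).le (hp i).le
        _ ≤ _ := Finset.single_le_sum
            (f := fun i : ι => p i * ∏ j, κ (c i j) (itinerary T P n x j))
            (fun i _ => mul_nonneg (hp i).le (Finset.prod_nonneg (fun j _ => hκnn _ _)))
            (Finset.mem_univ i)
    have hqpos : 0 < q (itinerary T P n x) := lt_of_lt_of_le (Real.exp_pos _) hqge
    refine ⟨hqpos, ?_⟩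
    have := (Real.le_log_iff_exp_le hqpos).2 hqge
    linarith
  have hfin := shannonEntropy_le_integral ν (measurable_itinerary hT.measurable hP n) q hqnn hqsum
    F hFint hptw
  rw [hFval] at hfin
  have h2 : (n : ℝ) * (-Real.log (1 - η) + ν.real L0 * Real.log (k / η)) ≤ n * (3 * η) := by
    apply mul_le_mul_of_nonneg_left _ (Nat.cast_nonneg n)
    have := neg_log_one_sub_le hη.le hη2
    linarith
  linarith

end Pool.Agent.TH292.MR
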