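import Pool.Agent.TH292.MR.Net
import Pool.Agent.TH292.MR.Wt

/-!
# Entropy of invariant measures of the cat map: upper bounds
-/

set_option autoImplicit false

open Set Filter Topology MeasureTheory Function
open scoped ENNReal Real NNReal

namespace Pool.Agent.TH292.MR

open Pool.Agent.TH292.Gold Pool.Agent.Helper179.KS

/-- radius used at time `n` -/
noncomputable def rad (ρ : ℝ) (n : ℕ) : ℝ := ρ / lam ^ (n / 2 + 2)

lemma rad_pos {ρ : ℝ} (hρ : 0 < ρ) (n : ℕ) : 0 < rad ρ n := div_pos hρ (pow_pos lam_pos _)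

lemma rad_le {ρ : ℝ} (hρ : 0 < ρ) (n : ℕ) : rad ρ n ≤ ρ := by
  unfold rad
  rw [div_le_iff₀ (pow_pos lam_pos _)]
  have : 1 ≤ lam ^ (n / 2 + 2) := one_le_pow₀ one_lt_lam.le
  nlinarith

lemma track2 {x y : Torus} {n : ℕ} {ρ : ℝ} (h : ‖CT^[n / 2] x - CT^[n / 2] y‖ ≤ rad ρ n) {j : ℕ}
    (hj : j ≤ n) (hρ : 0 ≤ ρ) : ‖CT^[j] x - CT^[j] y‖ ≤ ρ :=
  track (k := n / 2) (n := n / 2 + 1) hρ h (by omega) (by omega)

lemma cover_data {ρ : ℝ} (hρ : 0 < ρ) (hρ1 : ρ ≤ 1) (n : ℕ) (E E' : Set Torus)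
    (hE' : MeasurableSet E')
    (h : ∀ x ∈ E, ∀ y, (∀ j ≤ n, ‖CT^[j] x - CT^[j] y‖ ≤ ρ) → y ∈ E') :
    ∃ S : Finset Torus, (∀ x ∈ E, ∃ y ∈ S, ‖CT^[n / 2] x - y‖ ≤ rad ρ n) ∧
      (S.card : ℝ) ≤ 9 / 4 * volume.real E' / rad ρ n ^ 2 := by
  set k := n / 2 with hk
  obtain ⟨S, hS, hc⟩ := exists_net' ((CI^[k]) ⁻¹' E) ((CI^[k]) ⁻¹' E') (rad_pos hρ n)
    ((rad_le hρ n).trans hρ1) (by
      intro z hz w hw
      show CI^[k] w ∈ E'
      apply h (CI^[k] z) hz
      intro j hj
      apply track2 (n := n) _ hj hρ.le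
      rw [CT_iter_CI, CT_iter_CI, ← dist_eq_norm]
      rw [Metric.mem_closedBall, dist_comm] at hw
      have := rad_pos hρ n
      linarith)
  refine ⟨S, fun x hx => ?_, ?_⟩
  · have h1 : CT^[k] x ∈ (CI^[k]) ⁻¹' E := by
      show CI^[k] (CT^[k] x) ∈ E
      rw [CI_iter_CT]; exact hx
    obtain ⟨y, hy⟩ := mem_iUnion.mp (hS h1)
    obtain ⟨hy1, hy2⟩ := mem_iUnion.mp hy
    refine ⟨y, hy1, ?_⟩
    rw [← dist_eq_norm]
    exact hy2
  · have : volume.real ((CI^[k]) ⁻¹' E') = volume.real E' := by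
      unfold Measure.real
      rw [(mp_CI.iterate k).measure_preimage hE'.nullMeasurableSet]
    rw [this] at hc
    exact hc

lemma log_rad {ρ : ℝ} (hρ : 0 < ρ) (n : ℕ) (v : ℝ) (hv : 0 < v) :
    Real.log (2 * (9 / 4 * v / rad ρ n ^ 2)) ≤
      (Real.log (9 / 2) - 2 * Real.log ρ + 4 * Real.log lam) + n * Real.log lam + Real.log v := by
  have h1 : 2 * (9 / 4 * v / rad ρ n ^ 2) = 9 / 2 * v * (lam ^ (n / 2 + 2) / ρ) ^ 2 := by
    unfold rad
    have := pow_pos lam_pos (n / 2 + 2)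
    field_simp
    ring
  have h2 := pow_pos lam_pos (n / 2 + 2)
  rw [h1, Real.log_mul (by positivity) (by positivity), Real.log_mul (by norm_num) hv.ne',
    Real.log_pow, Real.log_div h2.ne' hρ.ne', Real.log_pow]
  have h3 : 2 * ((n / 2 : ℕ) : ℝ) ≤ n := by exact_mod_cast Nat.mul_div_le n 2
  have h4 := loglam_pos
  push_cast
  nlinarith

theorem ks_le (η : Measure Torus) [IsProbabilityMeasure η] (hη : MeasurePreserving CT η η) :
    ksEntropy η CT ≤ ((Real.log lam : ℝ) : EReal) := by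
  apply ksEntropy_le_of_weights η hη
  intro ε hε
  set ρ : ℝ := min (ε / 3) 1 with hρdef
  have hρ : 0 < ρ := by positivity
  have hρ1 : ρ ≤ 1 := min_le_right _ _
  have hρε : 2 * ρ < ε := by have := min_le_left (ε / 3) 1; linarith
  refine ⟨Real.log (9 / 2) - 2 * Real.log ρ + 4 * Real.log lam, fun n => ?_⟩
  obtain ⟨S, hS, hc⟩ := cover_data hρ hρ1 n univ univ MeasurableSet.univ (fun _ _ _ _ => mem_univ _)
  set N : ℝ := 9 / 4 * 1 / rad ρ n ^ 2 with hN
  have hr := rad_pos hρ n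
  have hNpos : 0 < N := by positivity
  rw [probReal_univ, ← hN] at hc
  refine ⟨S, inferInstance, fun y => {x | ‖CT^[n / 2] x - y‖ ≤ rad ρ n}, fun _ => 1 / (2 * N),
    fun _ => Real.log (2 * N), fun _ => by positivity, ?_, ?_, integrable_const _, ?_, ?_⟩
  · simp only [Finset.sum_const, Finset.card_univ, Fintype.card_coe, nsmul_eq_mul]
    rw [mul_one_div, div_le_one (by positivity)]
    linarith
  · refine Eventually.of_forall fun x => ?_
    obtain ⟨y, hy, hy'⟩ := hS x (mem_univ x)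
    refine ⟨⟨y, hy⟩, hy', ?_⟩
    rw [one_div, Real.log_inv, neg_neg]
  · rw [integral_const]
    simp only [probReal_univ, smul_eq_mul, one_mul]
    have := log_rad hρ n 1 one_pos
    rw [Real.log_one, add_zero] at this
    exact this
  · intro i x hx y hy j hj
    rw [dist_eq_norm]
    refine lt_of_le_of_lt ?_ hρε
    apply track2 (n := n) (ρ := 2 * ρ) _ hj.le (by positivity)
    have e : CT^[n / 2] x - CT^[n / 2] y = (CT^[n / 2] x - i) - (CT^[n / 2] y - i) := by abel
    rw [e]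
    refine (norm_sub_le _ _).trans ?_
    have hx' : ‖CT^[n / 2] x - i‖ ≤ rad ρ n := hx
    have hy' : ‖CT^[n / 2] y - i‖ ≤ rad ρ n := hy
    have : rad (2 * ρ) n = rad ρ n + rad ρ n := by unfold rad; ring
    rw [this]
    linarith

/-- the measure of the set of large Birkhoff sums -/
lemma meas_large {g : Torus → ℝ} (hg : Continuous g) (hg1 : ∀ x, |g x| ≤ 1) {η : Measure Torus}
    [IsProbabilityMeasure η] (hη : MeasurePreserving CT η η) {ε : ℝ}
    (hI : 2 * ε ≤ ∫ x, g x ∂η) (hε : 0 < ε) (q m : ℕ) (hm : 0 < m) :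
    ε ≤ η.real {x | ε * m ≤ bs g q m x} := by
  set E := {x | ε * m ≤ bs g q m x} with hE
  have hEm : MeasurableSet E := measurableSet_le measurable_const (bs_cont hg q m).measurable
  have hm' : (0 : ℝ) < m := by exact_mod_cast hm
  have h1 : ∫ x, bs g q m x ∂η ≤ ∫ x, (ε * m + E.indicator (fun _ => (m : ℝ)) x) ∂η := by
    apply integral_mono (integrable_cont (bs_cont hg q m))
      ((integrable_const _).add ((integrable_const _).indicator hEm))
    intro x
    show bs g q m x ≤ ε * m + E.indicator (fun _ => (m : ℝ)) x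
    by_cases hx : x ∈ E
    · rw [indicator_of_mem hx]
      have := (abs_le.mp (bs_le hg1 q m x)).2
      nlinarith
    · rw [indicator_of_notMem hx]
      have : ¬ (ε * m ≤ bs g q m x) := hx
      push Not at this
      linarith
  rw [bs_integral hg hη, integral_add (integrable_const _) ((integrable_const _).indicator hEm),
    integral_const, integral_indicator hEm, setIntegral_const] at h1
  simp only [probReal_univ, smul_eq_mul, one_mul] at h1
  have h2 : m * (2 * ε) ≤ ε * m + η.real E * m := by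
    refine le_trans ?_ h1
    gcongr
  nlinarith

theorem ks_lt (η : Measure Torus) [IsProbabilityMeasure η] (hη : MeasurePreserving CT η η)
    (hne : η ≠ volume) : ∃ e : ℝ, e < Real.log lam ∧ ksEntropy η CT ≤ (e : EReal) := by
  obtain ⟨g, ε₀, hg, hg1, hg0, hε₀, hε₀1, hI⟩ := exists_test hne
  obtain ⟨ℓ, q, hℓ, hq, -, hld⟩ := ld hg hg1 hg0 (ε := ε₀ / 2) (by positivity) (by linarith)
  obtain ⟨δ, hδ, hmod⟩ := exists_modulus hg (ε := ε₀ / 2) (by positivity)
  set κ : ℝ := (ε₀ / 2) ^ 2 / 8 with hκ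
  have hκpos : 0 < κ := by positivity
  have hqR : (0 : ℝ) < q := by exact_mod_cast hq
  refine ⟨Real.log lam - ε₀ * κ / q, by have : 0 < ε₀ * κ / q := by positivity
                                        linarith, ?_⟩
  apply ksEntropy_le_of_weights η hη
  intro ε hε
  set ρ : ℝ := min (min (ε / 3) (δ / 2)) 1 with hρdef
  have hρ : 0 < ρ := by positivity
  have hρ1 : ρ ≤ 1 := min_le_right _ _
  have hρε : 2 * ρ < ε := by
    have := (min_le_left (min (ε / 3) (δ / 2)) 1).trans (min_le_left _ _); linarith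
  have hρδ : ρ < δ := by
    have := (min_le_left (min (ε / 3) (δ / 2)) 1).trans (min_le_right _ _); linarith
  refine ⟨(Real.log (9 / 2) - 2 * Real.log ρ + 4 * Real.log lam) + ε₀ * κ, fun n => ?_⟩
  set m : ℕ := n / q with hm
  have hqm : q * m ≤ n := Nat.mul_div_le n q
  have hmq : (n : ℝ) / q - 1 ≤ m := by
    rw [hm]
    have h1 : (n : ℝ) < (n / q + 1 : ℕ) * q := by
      have := Nat.lt_div_mul_add (a := n) hq
      have h2 : n < (n / q + 1) * q := by rw [Nat.succ_mul]; exact this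
      exact_mod_cast h2
    push_cast at h1
    have h2 : (n : ℝ) / q < (n / q : ℕ) + 1 := by
      rw [div_lt_iff₀ hqR]; exact h1
    linarith
  -- the two covers
  set E : Set Torus := {x | ε₀ * m ≤ bs g q m x} with hE
  set E' : Set Torus := {x | ε₀ / 2 * m ≤ bs g q m x} with hE'
  have hEm : MeasurableSet E := measurableSet_le measurable_const (bs_cont hg q m).measurable
  have hE'm : MeasurableSet E' := measurableSet_le measurable_const (bs_cont hg q m).measurable
  set v : ℝ := Real.exp (-κ * m) with hv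
  have hvpos : 0 < v := Real.exp_pos _
  have hvol : volume.real E' ≤ v := hld m
  obtain ⟨S₁, hS₁, hc₁⟩ := cover_data hρ hρ1 n E E' hE'm (by
    intro x hx y hy
    have h1 : |bs g q m x - bs g q m y| ≤ ε₀ / 2 * m := by
      apply bs_close (δ := ρ) (fun a b hab => (hmod a b (lt_of_le_of_lt hab hρδ)).le)
      intro j hj
      apply hy
      calc q * j ≤ q * m := Nat.mul_le_mul_left q hj.le
        _ ≤ n := hqm
    have h2 : ε₀ * m ≤ bs g q m x := hx
    have h3 := (abs_le.mp h1).2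
    show ε₀ / 2 * m ≤ bs g q m y
    linarith)
  obtain ⟨S₂, hS₂, hc₂⟩ := cover_data hρ hρ1 n univ univ MeasurableSet.univ (fun _ _ _ _ => mem_univ _)
  have hr := rad_pos hρ n
  set N₁ : ℝ := 9 / 4 * v / rad ρ n ^ 2 with hN₁
  set N₂ : ℝ := 9 / 4 * 1 / rad ρ n ^ 2 with hN₂
  have hN₁pos : 0 < N₁ := by positivity
  have hN₂pos : 0 < N₂ := by positivity
  have hc₁' : (S₁.card : ℝ) ≤ N₁ := by
    refine hc₁.trans ?_
    rw [hN₁]
    gcongr
  rw [probReal_univ, ← hN₂] at hc₂
  set C₀ : ℝ := Real.log (9 / 2) - 2 * Real.log ρ + 4 * Real.log lam with hC₀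
  have hlog₁ : Real.log (2 * N₁) ≤ C₀ + n * Real.log lam - κ * m := by
    have := log_rad hρ n v hvpos
    rw [hv, Real.log_exp] at this
    linarith
  have hlog₂ : Real.log (2 * N₂) ≤ C₀ + n * Real.log lam := by
    have := log_rad hρ n 1 one_pos
    rw [Real.log_one, add_zero] at this
    exact this
  classical
  refine ⟨S₁ ⊕ S₂, inferInstance, fun y => {x | ‖CT^[n / 2] x - (Sum.elim (fun a : S₁ => (a : Torus))
    (fun b : S₂ => (b : Torus)) y)‖ ≤ rad ρ n}, Sum.elim (fun _ => 1 / (2 * N₁)) (fun _ => 1 / (2 * N₂)),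
    fun x => (C₀ + n * Real.log lam) + E.indicator (fun _ => -κ * m) x, ?_, ?_, ?_, ?_, ?_, ?_⟩
  · rintro (i | i)
    · simp only [Sum.elim_inl]; positivity
    · simp only [Sum.elim_inr]; positivity
  · rw [Fintype.sum_sum_type]
    simp only [Sum.elim_inl, Sum.elim_inr, Finset.sum_const, Finset.card_univ, Fintype.card_coe,
      nsmul_eq_mul]
    have e1 : (S₁.card : ℝ) * (1 / (2 * N₁)) ≤ 1 / 2 := by
      rw [mul_one_div, div_le_div_iff₀ (by positivity) (by norm_num)]
      linarith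
    have e2 : (S₂.card : ℝ) * (1 / (2 * N₂)) ≤ 1 / 2 := by
      rw [mul_one_div, div_le_div_iff₀ (by positivity) (by norm_num)]
      linarith
    linarith
  · refine Eventually.of_forall fun x => ?_
    by_cases hx : x ∈ E
    · obtain ⟨y, hy, hy'⟩ := hS₁ x hx
      refine ⟨Sum.inl ⟨y, hy⟩, hy', ?_⟩
      simp only [Sum.elim_inl]
      rw [indicator_of_mem hx, one_div, Real.log_inv, neg_neg]
      linarith
    · obtain ⟨y, hy, hy'⟩ := hS₂ x (mem_univ x)
      refine ⟨Sum.inr ⟨y, hy⟩, hy', ?_⟩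
      simp only [Sum.elim_inr]
      rw [indicator_of_notMem hx, one_div, Real.log_inv, neg_neg, add_zero]
      exact hlog₂
  · exact (integrable_const _).add ((integrable_const _).indicator hEm)
  · rw [integral_add (integrable_const _) ((integrable_const _).indicator hEm), integral_const,
      integral_indicator hEm, setIntegral_const]
    simp only [probReal_univ, smul_eq_mul, one_mul]
    have h1 : η.real E * (-κ * m) ≤ -(ε₀ * κ * m) := by
      rcases Nat.eq_zero_or_pos m with h0 | h0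
      · rw [h0]; simp
      · have h2 : ε₀ ≤ η.real E := meas_large hg hg1 hη hI hε₀ q m h0
        have h3 : (0 : ℝ) < m := by exact_mod_cast h0
        nlinarith [mul_pos hκpos h3]
    have h2 : ε₀ * κ * ((n : ℝ) / q - 1) ≤ ε₀ * κ * m := by gcongr
    have h3 : ε₀ * κ * ((n : ℝ) / q - 1) = n * (ε₀ * κ / q) - ε₀ * κ := by field_simp
    nlinarith
  · intro i x hx y hy j hj
    rw [dist_eq_norm]
    refine lt_of_le_of_lt ?_ hρε
    apply track2 (n := n) (ρ := 2 * ρ) _ hj.le (by positivity)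
    set c : Torus := Sum.elim (fun a : S₁ => (a : Torus)) (fun b : S₂ => (b : Torus)) i with hc
    have e : CT^[n / 2] x - CT^[n / 2] y = (CT^[n / 2] x - c) - (CT^[n / 2] y - c) := by abel
    rw [e]
    refine (norm_sub_le _ _).trans ?_
    have hx' : ‖CT^[n / 2] x - c‖ ≤ rad ρ n := hx
    have hy' : ‖CT^[n / 2] y - c‖ ≤ rad ρ n := hy
    have : rad (2 * ρ) n = rad ρ n + rad ρ n := by unfold rad; ring
    rw [this]
    linarith

end Pool.Agent.TH292.MR
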