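import Pool.Agent.TH292.MR.Inv

/-!
# Entropy of the invariant measures of the diffeomorphism
-/

set_option autoImplicit false

open Set Filter Topology Function MeasureTheory
open scoped ENNReal

namespace Pool.Agent.TH292.MR

open Pool.Agent.TH292.Gold Pool.Agent.Helper179.KS

/-- Shannon entropy only depends on the map almost everywhere -/
lemma shannon_congr {X ι : Type*} [MeasurableSpace X] [Fintype ι] {μ : Measure X} {P Q : X → ι}
    (h : P =ᵐ[μ] Q) : shannonEntropy μ P = shannonEntropy μ Q := by
  unfold shannonEntropy
  apply Finset.sum_congr rfl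
  intro i _
  congr 1
  unfold Measure.real
  congr 1
  apply measure_congr
  filter_upwards [h] with x hx
  apply propext
  show P x = i ↔ Q x = i
  rw [hx]

lemma shannon_map {X Y ι : Type*} [MeasurableSpace X] [MeasurableSpace Y] [Fintype ι]
    [MeasurableSpace ι] [MeasurableSingletonClass ι]
    {μ : Measure X} {g : X → Y} (hg : Measurable g) {P : Y → ι} (hP : Measurable P) :
    shannonEntropy (μ.map g) P = shannonEntropy μ (P ∘ g) := by
  unfold shannonEntropy
  apply Finset.sum_congr rfl
  intro i _
  congr 1
  rw [map_measureReal_apply hg (hP (measurableSet_singleton i))]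
  rfl

/-- the entropy of the diffeomorphism at the lifted measure is at least that of the factor -/
lemma ks_mu_ge : ((Real.log lam : ℝ) : EReal) ≤ ksEntropy mu ff := by
  refine ks_vol_ge.trans ?_
  unfold ksEntropy
  refine iSup_mono fun k => ?_
  refine iSup_le fun P => iSup_le fun hP => ?_
  refine le_iSup_of_le (P ∘ hh) (le_iSup_of_le (hP.comp hh_cont.measurable) ?_)
  apply le_of_eq
  unfold partitionEntropy
  congr 1
  funext n
  have h1 : shannonEntropy mu (itinerary ff (P ∘ hh) n) =
      shannonEntropy (volume : Measure Torus) (itinerary CT P n) := by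
    unfold mu
    rw [shannon_map gg_meas (measurable_itinerary ff.continuous.measurable
      (hP.comp hh_cont.measurable) n)]
    congr 1
    funext w
    funext j
    show P (hh (ff^[j] (gg w))) = P (CT^[j] w)
    rw [hh_ff_iter, hh_gg]
  rw [h1]

lemma ks_le_of_null {η : Measure Torus} (hη : IsInvariant ff η) (hD : η DD = 0) :
    ksEntropy η ff ≤ ksEntropy (η.map hh) CT := by
  have := hη.prob
  unfold ksEntropy
  refine iSup_mono fun k => ?_
  refine iSup_le fun P => iSup_le fun hP => ?_
  refine le_iSup_of_le (P ∘ gg) (le_iSup_of_le (hP.comp gg_meas) ?_)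
  apply le_of_eq
  unfold partitionEntropy
  congr 1
  funext n
  have h1 : shannonEntropy (η.map hh) (itinerary CT (P ∘ gg) n) =
      shannonEntropy η (itinerary ff P n) := by
    rw [shannon_map hh_cont.measurable (measurable_itinerary CT_cont.measurable
      (hP.comp gg_meas) n)]
    apply shannon_congr
    have h2 : ∀ᵐ x ∂η, x ∉ DD := by rw [ae_iff]; simpa using hD
    filter_upwards [h2] with x hx
    funext j
    show P (gg (CT^[j] (hh x))) = P (ff^[j] x)
    rw [← hh_ff_iter, gg_hh]
    have : ∀ n, ff^[n] x ∉ DD := by
      intro n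
      induction n with
      | zero => exact hx
      | succ n ih => rw [iterate_succ_apply', ff_mem_DD]; exact ih
    exact this j
  rw [h1]

lemma ks_fixed {η : Measure Torus} [IsProbabilityMeasure η] (h : ∀ᵐ x ∂η, ff x = x) :
    ksEntropy η ff ≤ ((0 : ℝ) : EReal) := by
  rw [ksEntropy_le_iff]
  intro k P hP
  unfold partitionEntropy
  rw [limsup_coe_le_iff]
  intro ε hε
  have hb : ∀ n : ℕ, shannonEntropy η (itinerary ff P n) ≤ k := by
    intro n
    have h1 : itinerary ff P n =ᵐ[η] fun x _ => P x := by
      filter_upwards [h] with x hx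
      funext j
      show P (ff^[j] x) = P x
      rw [iterate_fixed hx]
    rw [shannon_congr h1]
    unfold shannonEntropy
    classical
    have h2 : ∀ w : Fin n → Fin k, w ∉ (Finset.univ.image fun (a : Fin k) (_ : Fin n) => a) →
        Real.negMulLog (η.real ((fun x (_ : Fin n) => P x) ⁻¹' {w})) = 0 := by
      intro w hw
      have : (fun x (_ : Fin n) => P x) ⁻¹' {w} = ∅ := by
        ext x
        simp only [mem_preimage, mem_singleton_iff, mem_empty_iff_false, iff_false]
        intro hx
        apply hw
        rw [Finset.mem_image]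
        exact ⟨P x, Finset.mem_univ _, hx⟩
      rw [this]
      simp
    rw [← Finset.sum_subset (Finset.subset_univ
      (Finset.univ.image fun (a : Fin k) (_ : Fin n) => a)) (fun w _ hw => h2 w hw)]
    refine (Finset.sum_le_card_nsmul _ _ 1 (fun w _ => ?_)).trans ?_
    · set p := η.real ((fun x (_ : Fin n) => P x) ⁻¹' {w}) with hp
      have hp0 : 0 ≤ p := measureReal_nonneg
      have hp1 : p ≤ 1 := measureReal_le_one
      rcases hp0.eq_or_lt with h0 | h0
      · rw [← h0]; simp
      · unfold Real.negMulLog
        have h3 := Real.log_le_sub_one_of_pos (inv_pos.mpr h0)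
        rw [Real.log_inv] at h3
        have h4 : p * (-Real.log p) ≤ p * (p⁻¹ - 1) := mul_le_mul_of_nonneg_left h3 hp0
        rw [mul_sub, mul_inv_cancel₀ h0.ne'] at h4
        linarith
    · rw [nsmul_eq_mul, mul_one]
      have := Finset.card_image_le (s := (Finset.univ : Finset (Fin k)))
        (f := fun (a : Fin k) (_ : Fin n) => a)
      rw [Finset.card_univ, Fintype.card_fin] at this
      exact_mod_cast this
  have h3 : Tendsto (fun n : ℕ => (k : ℝ) / (n : ℝ)) atTop (𝓝 0) :=
    tendsto_const_div_atTop_nhds_zero_nat _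
  filter_upwards [h3.eventually_lt_const hε, eventually_gt_atTop 0] with n hn hn0
  have hn' : (0 : ℝ) < n := by exact_mod_cast hn0
  have h4 : shannonEntropy η (itinerary ff P n) / n ≤ k / n := by
    gcongr
    exact hb n
  linarith

/-- all entropies are at most that of `mu`, with equality only for `mu` -/
theorem ks_lt_mu {η : Measure Torus} (hη : IsInvariant ff η) (hne : η ≠ mu) :
    ksEntropy η ff < ((Real.log lam : ℝ) : EReal) := by
  have hprob := hη.prob
  by_cases hD : η DD = 0
  · obtain ⟨h1, h2, h3⟩ := of_DD_null hη hD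
    have hne' : η.map hh ≠ volume := fun h => hne (eq_mu hη hD h)
    obtain ⟨e, he, he'⟩ := ks_lt (η.map hh) h2 hne'
    refine lt_of_le_of_lt ((ks_le_of_null hη hD).trans he') ?_
    exact_mod_cast he
  · have hfix := fix_ae hη
    have hinvD : ff ⁻¹' DDᶜ = DDᶜ := by
      ext x
      show ¬ (ff x ∈ DD) ↔ ¬ (x ∈ DD)
      rw [ff_mem_DD]
    have h1 := ksEntropy_le_of_invariant_set η hη.inv DD_meas.compl hinvD (Real.log lam) 0
      (by
        intro μ hμ hμ' hμD _
        rw [compl_compl] at hμD
        have hI : IsInvariant ff μ := ⟨hμ, hμ'⟩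
        obtain ⟨h1, h2, h3⟩ := of_DD_null hI hμD
        exact (ks_le_of_null hI hμD).trans (ks_le (μ.map hh) h2))
      (by
        intro μ hμ hμ' hμD hac
        apply ks_fixed
        have e1 : ∀ᵐ x ∂μ, x ∈ DD → ff x = x := by
          rw [ae_iff] at hfix ⊢
          exact hac _ hfix
        have e2 : ∀ᵐ x ∂μ, x ∈ DD := by rw [ae_iff]; exact hμD
        filter_upwards [e1, e2] with x hx hx'
        exact hx hx')
    refine lt_of_le_of_lt h1 ?_
    have h2 : η.real DDᶜ < 1 := by
      rw [probReal_compl_eq_one_sub DD_meas]
      have : 0 < η.real DD := by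
        unfold Measure.real
        exact ENNReal.toReal_pos hD (measure_ne_top _ _)
      linarith
    have h3 := loglam_pos
    have h4 : η.real DDᶜ * Real.log lam + (1 - η.real DDᶜ) * 0 < Real.log lam := by nlinarith
    exact_mod_cast h4

end Pool.Agent.TH292.MR
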