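import Pool.Agent.TH292.MR.Der

/-!
# Lyapunov exponents
-/

set_option autoImplicit false

open Set Filter Topology Function MeasureTheory
open scoped ContDiff ENNReal NNReal

namespace Pool.Agent.TH292.MR

open Pool.Agent.TH292.Gold

lemma norm_torus_le (x : Torus) : ‖x‖ ≤ 1 / 2 := by
  rw [Prod.norm_def, ← abs_cc, ← abs_cc]
  have h1 := cc_mem x.1
  have h2 := cc_mem x.2
  apply max_le <;> rw [abs_le] <;> constructor <;> linarith [h1.1, h1.2, h2.1, h2.2]

/-- orbits of almost every point approach zero subexponentially only -/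
lemma bc {T : Torus → Torus} (hT : MeasurePreserving T (volume : Measure Torus) volume) :
    ∀ᵐ w : Torus, Tendsto (fun n : ℕ => (1 / (n : ℝ)) * Real.log ‖T^[n] w‖) atTop (𝓝 0) := by
  have h1 : ∀ k : ℕ, ∀ᵐ w : Torus, ∀ᶠ n : ℕ in atTop, Real.exp (-(n / (k + 1 : ℝ))) < ‖T^[n] w‖ := by
    intro k
    have hk : (0 : ℝ) < k + 1 := by positivity
    have hs : ∑' n : ℕ, (volume : Measure Torus) {w | ‖T^[n] w‖ ≤ Real.exp (-(n / (k + 1 : ℝ)))} ≠ ⊤ := by
      have hle : ∀ n : ℕ, (volume : Measure Torus) {w | ‖T^[n] w‖ ≤ Real.exp (-(n / (k + 1 : ℝ)))} ≤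
          ENNReal.ofReal (4 * (Real.exp (-(2 / (k + 1 : ℝ)))) ^ n) := by
        intro n
        have e1 : {w | ‖T^[n] w‖ ≤ Real.exp (-(n / (k + 1 : ℝ)))} =
            (T^[n]) ⁻¹' (Metric.closedBall 0 (Real.exp (-(n / (k + 1 : ℝ))))) := by
          ext w
          simp
        rw [e1, (hT.iterate n).measure_preimage Metric.isClosed_closedBall.measurableSet.nullMeasurableSet]
        refine (vol_closedBall_le 0 (Real.exp_pos _).le).trans (le_of_eq ?_)
        congr 1
        rw [mul_pow, ← Real.exp_nat_mul, ← Real.exp_nat_mul]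
        norm_num
        ring
      refine ne_top_of_le_ne_top ?_ (ENNReal.tsum_le_tsum hle)
      rw [← ENNReal.ofReal_tsum_of_nonneg (fun m => by positivity)]
      · exact ENNReal.ofReal_ne_top
      · apply Summable.mul_left
        apply summable_geometric_of_lt_one (Real.exp_pos _).le
        rw [Real.exp_lt_one_iff]
        have : 0 < 2 / (k + 1 : ℝ) := by positivity
        linarith
    filter_upwards [ae_eventually_notMem hs] with w hw
    filter_upwards [hw] with n hn
    simpa using hn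
  filter_upwards [ae_all_iff.mpr h1] with w hw
  rw [Metric.tendsto_atTop]
  intro ε hε
  obtain ⟨k, hk⟩ := exists_nat_one_div_lt hε
  obtain ⟨N, hN⟩ := eventually_atTop.mp (hw k)
  refine ⟨max N 1, fun n hn => ?_⟩
  have hn0 : (0 : ℝ) < n := by
    have : 1 ≤ n := (le_max_right _ _).trans hn
    exact_mod_cast this
  have h2 := hN n ((le_max_left _ _).trans hn)
  have h3 := norm_torus_le (T^[n] w)
  have hpos : 0 < ‖T^[n] w‖ := lt_trans (Real.exp_pos _) h2
  have h4 : Real.log ‖T^[n] w‖ ≤ 0 := Real.log_nonpos hpos.le (by linarith)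
  have h5 : -(n / (k + 1 : ℝ)) < Real.log ‖T^[n] w‖ := (Real.lt_log_iff_exp_lt hpos).mpr h2
  rw [Real.dist_eq, sub_zero, abs_lt]
  constructor
  · have h6 : (1 / (n : ℝ)) * (-(n / (k + 1 : ℝ))) < (1 / (n : ℝ)) * Real.log ‖T^[n] w‖ := by
      apply mul_lt_mul_of_pos_left h5
      positivity
    have h7 : (1 / (n : ℝ)) * (-(n / (k + 1 : ℝ))) = -(1 / (k + 1 : ℝ)) := by field_simp
    linarith
  · have : (1 / (n : ℝ)) * Real.log ‖T^[n] w‖ ≤ 0 :=
      mul_nonpos_of_nonneg_of_nonpos (by positivity) h4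
    linarith

lemma AL_add (a b : Plane) : AL (a + b) = AL a + AL b := by
  unfold AL; ext <;> simp <;> ring

lemma per_eq {Q : Plane → Plane} {z k : Plane} (hk : ∃ m n : ℤ, k = ((m : ℝ), (n : ℝ)))
    (h : nq (z - k) < 1 / 4) : per Q z = Q (z - k) + k := by
  obtain ⟨m, n, rfl⟩ := hk
  have h0 : nq (z - ((m : ℝ), (n : ℝ))) = (z.1 - m) ^ 2 + (z.2 - n) ^ 2 := rfl
  rw [h0] at h
  have h1 : kk z = ((m : ℝ), (n : ℝ)) := by
    apply kk_of_lt rfl
    · rw [← sq_lt_sq₀ (abs_nonneg _) (by norm_num), sq_abs]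
      nlinarith [sq_nonneg (z.2 - n)]
    · rw [← sq_lt_sq₀ (abs_nonneg _) (by norm_num), sq_abs]
      nlinarith [sq_nonneg (z.1 - m)]
  unfold per
  rw [h1]

lemma far_CT {x : Torus} (hz : 0.035 ≤ nq (cl x)) : 1 / 200 ≤ nq (cl (CT x)) := by
  by_contra hcon
  push Not at hcon
  set w := cl (CT x) with hw
  have h3 : nq (BL w) < 0.035 := by
    by_cases h0 : w = 0
    · rw [h0]; unfold BL nq; norm_num
    · have := nq_BL_lt h0; linarith
  have h4 : x = proj (BL w) := by rw [proj_BL, hw, proj_cl, CI_CT]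
  have h5 : cl x = BL w := by rw [h4]; exact cl_proj_of_lt (by linarith)
  rw [h5] at hz
  linarith

/-- the conjugacy relation on the plane -/
lemma FF_perJ {w : Plane} (hw : proj w ≠ 0) : FF (per J0 w) = per J0 (AL w) := by
  set k := kk w with hk
  have hki : ∃ m n : ℤ, k = ((m : ℝ), (n : ℝ)) := ⟨round w.1, round w.2, rfl⟩
  have hALk : ∃ m n : ℤ, AL k = ((m : ℝ), (n : ℝ)) := by
    obtain ⟨m, n, h⟩ := hki
    refine ⟨2 * m + n, m + n, ?_⟩
    rw [h]
    unfold AL
    push_cast
    rfl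
  set u := w - k with hu
  have hcl : cl (proj w) = u := cl_proj w
  have hune : u ≠ 0 := by
    intro h
    exact hw (cl_eq_zero (by rw [hcl, h]))
  rcases lt_or_ge (nq u) 0.035 with h | h
  · have e1 : per J0 w = J0 u + k := rfl
    have h1 := hJ0' u h
    have e2 : per P0 (J0 u + k) = P0 (J0 u) + k := by
      rw [per_eq hki (by rw [add_sub_cancel_right]; linarith), add_sub_cancel_right]
    have e3 : FF (per J0 w) = AL (P0 (J0 u)) + AL k := by
      unfold FF
      rw [e1, e2, AL_add]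
    have h2 : nq (AL u) < 1 / 4 := by have := nq_AL_lt hune; linarith
    have e4 : AL w = AL u + AL k := by rw [← AL_add, hu, sub_add_cancel]
    have e5 : per J0 (AL w) = J0 (AL u) + AL k := by
      rw [e4, per_eq hALk (by rw [add_sub_cancel_right]; linarith), add_sub_cancel_right]
    rw [e3, e5]
    congr 1
    have h3 := H0_AL (J0 u)
    rw [H0_J0] at h3
    have h4 : 1 / 800 < nq (AL (P0 (J0 u))) := by
      by_contra hcon
      push Not at hcon
      have h5 := H0_small hcon
      rw [h3] at h5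
      have h6 : 0 < nq (AL u) := np_pos hune
      rw [h5, nq_zero] at h6
      exact lt_irrefl _ h6
    rw [← h3, J0_H0 h4]
  · have e1 : per J0 w = w := by
      show J0 (w - kk w) + kk w = w
      rw [J0_large (by linarith), sub_add_cancel]
    have e2 : per P0 w = w := by
      show P0 (w - kk w) + kk w = w
      rw [P0_large h, sub_add_cancel]
    have h1 : 1 / 200 ≤ nq (AL w - kk (AL w)) := by
      rw [← cl_proj, proj_AL]
      apply far_CT
      rw [hcl]
      exact h
    have e3 : per J0 (AL w) = AL w := by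
      show J0 (AL w - kk (AL w)) + kk (AL w) = AL w
      rw [J0_large h1, sub_add_cancel]
    unfold FF
    rw [e1, e2, e3]

lemma proj_AL_iter (n : ℕ) (w : Plane) : proj (AL^[n] w) = CT^[n] (proj w) := by
  induction n generalizing w with
  | zero => rfl
  | succ n ih => rw [iterate_succ_apply, iterate_succ_apply, ih, proj_AL]

lemma CT_iter_ne_zero {x : Torus} (hx : x ≠ 0) (n : ℕ) : CT^[n] x ≠ 0 := by
  induction n with
  | zero => exact hx
  | succ n ih => rw [iterate_succ_apply']; intro h; exact ih ((CT_eq_zero_iff _).mp h)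

lemma FF_perJ_iter (n : ℕ) {w : Plane} (hw : proj w ≠ 0) :
    FF^[n] (per J0 w) = per J0 (AL^[n] w) := by
  induction n with
  | zero => rfl
  | succ n ih =>
    rw [iterate_succ_apply', iterate_succ_apply', ih, FF_perJ]
    rw [proj_AL_iter]
    exact CT_iter_ne_zero hw n

lemma AL_iter_eig {e : Plane} {m : ℝ} (he : AL e = m • e) (n : ℕ) (w : Plane) (t : ℝ) :
    AL^[n] (w + t • e) = AL^[n] w + (t * m ^ n) • e := by
  induction n with
  | zero => simp
  | succ n ih =>
    rw [iterate_succ_apply', iterate_succ_apply', ih, AL_add, AL_smul, he, smul_smul, pow_succ,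
      mul_assoc]

lemma FF_iter_contDiff (n : ℕ) : ContDiff ℝ ∞ (FF^[n]) := by
  induction n with
  | zero => exact contDiff_id
  | succ n ih => rw [iterate_succ]; exact ih.comp FF_contDiff

lemma perJ_hasFDeriv {w : Plane} (hw : proj w ≠ 0) :
    HasFDerivAt (per J0) (fderiv ℝ (per J0) w) w :=
  ((perJ_contDiffAt hw).differentiableAt (by simp)).hasFDerivAt

/-- derivatives along eigendirections -/
lemma deriv_formula {w : Plane} (hw : proj w ≠ 0) {e : Plane} {m : ℝ} (he : AL e = m • e) (n : ℕ) :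
    fderiv ℝ (FF^[n]) (per J0 w) (fderiv ℝ (per J0) w e) =
      m ^ n • fderiv ℝ (per J0) (AL^[n] w) e := by
  have hw' : proj (AL^[n] w) ≠ 0 := by rw [proj_AL_iter]; exact CT_iter_ne_zero hw n
  have hcurve : ∀ (p : Plane) (c : ℝ), HasDerivAt (fun t : ℝ => p + (t * c) • e) (c • e) 0 := by
    intro p c
    have h1 : HasDerivAt (fun t : ℝ => t * c) c 0 := by simpa using (hasDerivAt_id (0 : ℝ)).mul_const c
    exact (h1.smul_const e).const_add p
  have h1 : HasDerivAt (fun t : ℝ => FF^[n] (per J0 (w + (t * 1) • e)))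
      (fderiv ℝ (FF^[n]) (per J0 w) (fderiv ℝ (per J0) w ((1 : ℝ) • e))) 0 := by
    have e1 : HasDerivAt (fun t : ℝ => per J0 (w + (t * 1) • e)) (fderiv ℝ (per J0) w ((1 : ℝ) • e)) 0 :=
      HasFDerivAt.comp_hasDerivAt_of_eq (0 : ℝ) (perJ_hasFDeriv hw) (hcurve w 1) (by simp)
    exact HasFDerivAt.comp_hasDerivAt_of_eq (0 : ℝ)
      (((FF_iter_contDiff n).differentiable (by simp) (per J0 w)).hasFDerivAt) e1 (by simp)
  have h2 : HasDerivAt (fun t : ℝ => per J0 (AL^[n] w + (t * m ^ n) • e))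
      (fderiv ℝ (per J0) (AL^[n] w) (m ^ n • e)) 0 :=
    HasFDerivAt.comp_hasDerivAt_of_eq (0 : ℝ) (perJ_hasFDeriv hw') (hcurve _ _) (by simp)
  have h3 : (fun t : ℝ => FF^[n] (per J0 (w + (t * 1) • e))) =ᶠ[𝓝 0]
      fun t : ℝ => per J0 (AL^[n] w + (t * m ^ n) • e) := by
    have hc : Continuous fun t : ℝ => proj (w + (t * 1) • e) :=
      proj_cont.comp (by fun_prop)
    have : {t : ℝ | proj (w + (t * 1) • e) ≠ 0} ∈ 𝓝 (0 : ℝ) :=
      (isOpen_ne.preimage hc).mem_nhds (by simpa using hw)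
    filter_upwards [this] with t ht
    rw [FF_perJ_iter n ht, mul_one, AL_iter_eig he]
  have h4 := h1.unique (h2.congr_of_eventuallyEq h3)
  rw [one_smul, map_smul] at h4
  exact h4

lemma exponent {w : Plane} (hw : proj w ≠ 0) {e : Plane} {m : ℝ} (hm : 0 < m) (he : AL e = m • e)
    (he0 : e ≠ 0)
    (hbc : Tendsto (fun n : ℕ => (1 / (n : ℝ)) * Real.log ‖CT^[n] (proj w)‖) atTop (𝓝 0)) :
    Tendsto (fun n : ℕ => (1 / (n : ℝ)) * Real.log ‖fderiv ℝ (FF^[n]) (per J0 w)
      (fderiv ℝ (per J0) w e)‖) atTop (𝓝 (Real.log m)) := by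
  obtain ⟨C, hC, hb⟩ := perJ_two
  have hne : 0 < ‖e‖ := norm_pos_iff.mpr he0
  have hCpos : 0 < C := by linarith
  set X : ℕ → ℝ := fun n => ‖fderiv ℝ (per J0) (AL^[n] w) e‖ with hX
  have hd : ∀ n, 0 < ‖CT^[n] (proj w)‖ := fun n => norm_pos_iff.mpr (CT_iter_ne_zero hw n)
  have hw' : ∀ n, proj (AL^[n] w) ≠ 0 := fun n => by rw [proj_AL_iter]; exact CT_iter_ne_zero hw n
  have hup : ∀ n, X n ≤ C / ‖CT^[n] (proj w)‖ * ‖e‖ := fun n => by
    have := (hb _ (hw' n) e).1
    rwa [proj_AL_iter] at this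
  have hlo : ∀ n, ‖e‖ ≤ C / ‖CT^[n] (proj w)‖ * X n := fun n => by
    have := (hb _ (hw' n) e).2
    rwa [proj_AL_iter] at this
  have hXpos : ∀ n, 0 < X n := by
    intro n
    by_contra hcon
    push Not at hcon
    have h1 := hlo n
    have h2 : C / ‖CT^[n] (proj w)‖ * X n ≤ 0 :=
      mul_nonpos_of_nonneg_of_nonpos (div_pos hCpos (hd n)).le hcon
    linarith
  have hXlog : Tendsto (fun n : ℕ => (1 / (n : ℝ)) * Real.log (X n)) atTop (𝓝 0) := by
    have hinv : Tendsto (fun n : ℕ => 1 / (n : ℝ)) atTop (𝓝 0) := tendsto_one_div_atTop_nhds_zero_nat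
    have hU : Tendsto (fun n : ℕ => (1 / (n : ℝ)) * Real.log (C * ‖e‖) -
        (1 / (n : ℝ)) * Real.log ‖CT^[n] (proj w)‖) atTop (𝓝 0) := by
      have := (hinv.mul_const (Real.log (C * ‖e‖))).sub hbc
      simpa using this
    have hL : Tendsto (fun n : ℕ => (1 / (n : ℝ)) * Real.log (‖e‖ / C) +
        (1 / (n : ℝ)) * Real.log ‖CT^[n] (proj w)‖) atTop (𝓝 0) := by
      have := (hinv.mul_const (Real.log (‖e‖ / C))).add hbc
      simpa using this
    apply tendsto_of_tendsto_of_tendsto_of_le_of_le hL hU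
    · intro n
      show (1 / (n : ℝ)) * Real.log (‖e‖ / C) + (1 / (n : ℝ)) * Real.log ‖CT^[n] (proj w)‖ ≤ _
      rw [← mul_add, ← Real.log_mul (by positivity) (hd n).ne']
      apply mul_le_mul_of_nonneg_left _ (by positivity)
      apply Real.log_le_log (by have := hd n; positivity)
      have h1 := hlo n
      have h2 := hd n
      rw [div_mul_eq_mul_div, le_div_iff₀ h2] at h1
      rw [div_mul_eq_mul_div, div_le_iff₀ hCpos]
      linarith
    · intro n
      show _ ≤ (1 / (n : ℝ)) * Real.log (C * ‖e‖) - (1 / (n : ℝ)) * Real.log ‖CT^[n] (proj w)‖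
      rw [← mul_sub, ← Real.log_div (by positivity) (hd n).ne']
      apply mul_le_mul_of_nonneg_left _ (by positivity)
      apply Real.log_le_log (hXpos n)
      refine (hup n).trans (le_of_eq ?_)
      ring
  have h1 : Tendsto (fun n : ℕ => Real.log m + (1 / (n : ℝ)) * Real.log (X n)) atTop
      (𝓝 (Real.log m)) := by
    have := hXlog.const_add (Real.log m)
    simpa using this
  apply h1.congr'
  filter_upwards [eventually_gt_atTop 0] with n hn
  have hn' : (n : ℝ) ≠ 0 := by exact_mod_cast hn.ne'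
  rw [deriv_formula hw he, norm_smul, Real.norm_eq_abs, abs_of_pos (pow_pos hm n),
    Real.log_mul (pow_pos hm n).ne' (hXpos n).ne', Real.log_pow]
  field_simp

lemma AL_eu : AL (ph, 1) = lam • (ph, 1) := by
  unfold AL
  have h := ph_sq
  ext
  · simp only [Prod.smul_fst, smul_eq_mul]
    rw [lam_eq]; linear_combination -h
  · simp only [Prod.smul_snd, smul_eq_mul, mul_one]
    rw [lam_eq]

lemma AL_es : AL (1, -ph) = lam⁻¹ • (1, -ph) := by
  have h := ph_sq
  have hl : lam⁻¹ = 2 - ph := by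
    apply inv_eq_of_mul_eq_one_right
    rw [lam_eq]
    linear_combination -h
  unfold AL
  rw [hl]
  ext
  · simp only [Prod.smul_fst, smul_eq_mul]
    ring
  · simp only [Prod.smul_snd, smul_eq_mul]
    linear_combination -h

lemma hh_mp : MeasurePreserving hh mu (volume : Measure Torus) := by
  refine ⟨hh_cont.measurable, ?_⟩
  unfold mu
  rw [Measure.map_map hh_cont.measurable gg_meas]
  have : hh ∘ gg = id := funext hh_gg
  rw [this, Measure.map_id]

lemma ae_notMem_DD : ∀ᵐ x ∂mu, x ∉ DD := by rw [ae_iff]; simpa using mu_DD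

lemma perJ_perH {z : Plane} (hz : proj z ∉ DD) : per J0 (per H0 z) = z := by
  have h1 : 1 / 800 < nq (z - kk z) := by
    rw [← cl_proj]
    by_contra hcon
    push Not at hcon
    exact hz hcon
  rcases lt_or_ge (nq (z - kk z)) 0.035 with h | h
  · have h2 := hH0' _ h
    have e1 : per H0 z = H0 (z - kk z) + kk z := rfl
    rw [e1, per_eq (k := kk z) ⟨round z.1, round z.2, rfl⟩ (by rw [add_sub_cancel_right]; linarith),
      add_sub_cancel_right, J0_H0 h1, sub_add_cancel]
  · have e1 : per H0 z = z := by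
      show H0 (z - kk z) + kk z = z
      rw [hH0 _ h, sub_add_cancel]
    rw [e1]
    show J0 (z - kk z) + kk z = z
    rw [hJ0 _ h, sub_add_cancel]

theorem mu_hyperbolic : IsHyperbolic FF mu := by
  have h1 := hh_mp.quasiMeasurePreserving.ae (bc mp_CT)
  filter_upwards [h1, ae_notMem_DD] with x hx hxD z hz
  subst hz
  set w := per H0 z with hw
  have hzw : per J0 w = z := perJ_perH hxD
  have hpw : proj w = hh (proj z) := (hh_proj z).symm
  have hpw0 : proj w ≠ 0 := by
    rw [hpw]
    intro h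
    exact hxD ((hh_eq_zero_iff _).mp h)
  rw [← hpw] at hx
  have hl := lam_gt
  refine ⟨fderiv ℝ (per J0) w (ph, 1), fderiv ℝ (per J0) w (1, -ph), Real.log lam, Real.log lam⁻¹,
    ?_, loglam_pos, ?_, ?_, ?_⟩
  · rw [LinearIndependent.pair_iff]
    intro a b hab
    rw [← map_smul, ← map_smul, ← map_add] at hab
    obtain ⟨C, hC, hb⟩ := perJ_two
    have h2 := (hb w hpw0 (a • ((ph, 1) : Plane) + b • (1, -ph))).2
    rw [hab, norm_zero, mul_zero] at h2
    have h3 : a • ((ph, 1) : Plane) + b • (1, -ph) = 0 := norm_le_zero_iff.mp h2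
    have h4 : a * ph + b = 0 := by
      have := congrArg Prod.fst h3
      simpa using this
    have h5 : a - b * ph = 0 := by
      have := congrArg Prod.snd h3
      simp at this
      linarith
    have hp := ph_pos
    have h6 : a * (ph ^ 2 + 1) = 0 := by linear_combination ph * h4 + h5
    have h7 : a = 0 := (mul_eq_zero.mp h6).resolve_right (by positivity)
    refine ⟨h7, ?_⟩
    rw [h7] at h4
    linarith
  · rw [Real.log_inv]
    linarith [loglam_pos]
  · rw [← hzw]
    exact exponent hpw0 lam_pos AL_eu (by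
      intro h
      have := congrArg Prod.snd h
      simp at this) hx
  · rw [← hzw]
    exact exponent hpw0 (inv_pos.mpr lam_pos) AL_es (by
      intro h
      have := congrArg Prod.fst h
      simp at this) hx

theorem mu_pos : HasPositiveExponent FF mu := by
  filter_upwards [mu_hyperbolic] with x hx z hz
  obtain ⟨v, w, χp, χm, _, h1, _, h2, _⟩ := hx z hz
  exact ⟨v, χp, h1, h2⟩

end Pool.Agent.TH292.MR
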