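import Pool.Agent.TH292.MR.Semi
import Pool.Agent.TH292.MR.Dim

/-!
# Invariant measures of the diffeomorphism
-/

set_option autoImplicit false

open Set Filter Topology Function MeasureTheory
open scoped ENNReal

namespace Pool.Agent.TH292.MR

open Pool.Agent.TH292.Gold Pool.Agent.Helper179.KS

lemma cc_near {x y : UnitAddCircle} (h : |cc x| + ‖y - x‖ < 1 / 2) : |cc y - cc x| ≤ ‖y - x‖ := by
  obtain ⟨δ, hδ, hδ'⟩ := exists_lift (y - x)
  rw [← hδ'] at h
  have h1 : cc y = cc x + δ := by
    have e : y = ((cc x + δ : ℝ) : UnitAddCircle) := by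
      rw [AddCircle.coe_add, coe_cc, hδ]; abel
    have h2 := abs_le.mp (abs_add_le (cc x) δ)
    rw [e]
    exact cc_coe (by linarith [h2.1]) (by linarith [h2.2])
  rw [h1, add_sub_cancel_left, hδ']

lemma cc_contAt {x : UnitAddCircle} (h : |cc x| < 1 / 2) : ContinuousAt cc x := by
  rw [Metric.continuousAt_iff]
  intro ε hε
  refine ⟨min ε (1 / 2 - |cc x|), lt_min hε (by linarith), fun y hy => ?_⟩
  rw [dist_eq_norm] at hy
  rw [Real.dist_eq]
  have h1 := lt_of_lt_of_le hy (min_le_left _ _)
  have h2 := lt_of_lt_of_le hy (min_le_right _ _)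
  exact lt_of_le_of_lt (cc_near (by linarith)) h1

lemma cl_contAt {x : Torus} (h : nq (cl x) < 1 / 4) : ContinuousAt cl x := by
  have h1 : |cc x.1| < 1 / 2 := by
    unfold nq cl at h
    rw [← sq_lt_sq₀ (abs_nonneg _) (by norm_num), sq_abs]
    nlinarith [sq_nonneg (cc x.2)]
  have h2 : |cc x.2| < 1 / 2 := by
    unfold nq cl at h
    rw [← sq_lt_sq₀ (abs_nonneg _) (by norm_num), sq_abs]
    nlinarith [sq_nonneg (cc x.1)]
  exact ((cc_contAt h1).comp continuous_fst.continuousAt).prodMk
    ((cc_contAt h2).comp continuous_snd.continuousAt)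

/-- unstable coordinate -/
noncomputable def uc (z : Plane) : ℝ := ph * z.1 + z.2
/-- stable coordinate -/
noncomputable def sc (z : Plane) : ℝ := z.1 - ph * z.2

lemma uc_AL (z : Plane) : uc (AL z) = lam * uc z := (eig (a := z.1) (b := z.2) rfl rfl).1
lemma sc_AL (z : Plane) : lam * sc (AL z) = sc z := (eig (a := z.1) (b := z.2) rfl rfl).2
lemma uc_smul (t : ℝ) (z : Plane) : uc (t • z) = t * uc z := by
  unfold uc; simp only [Prod.smul_fst, Prod.smul_snd, smul_eq_mul]; ring
lemma sc_smul (t : ℝ) (z : Plane) : sc (t • z) = t * sc z := by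
  unfold sc; simp only [Prod.smul_fst, Prod.smul_snd, smul_eq_mul]; ring
lemma uc_cont : Continuous uc := by unfold uc; fun_prop
lemma sc_cont : Continuous sc := by unfold sc; fun_prop

lemma eq_of_uc_sc {z w : Plane} (h1 : uc z = uc w) (h2 : sc z = sc w) : z = w := by
  unfold uc sc at *
  have hp := ph_pos
  have e1 : (ph ^ 2 + 1) * (z.1 - w.1) = 0 := by linear_combination ph * h1 + h2
  have e2 : (ph ^ 2 + 1) * (z.2 - w.2) = 0 := by linear_combination h1 - ph * h2
  have hne : ph ^ 2 + 1 ≠ 0 := by positivity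
  have f1 : z.1 - w.1 = 0 := (mul_eq_zero.mp e1).resolve_left hne
  have f2 : z.2 - w.2 = 0 := (mul_eq_zero.mp e2).resolve_left hne
  exact Prod.ext (by linarith) (by linarith)

lemma cl_ff {x : Torus} (hx : x ∈ DD) : cl (ff x) = CC (cl x) • AL (cl x) := by
  have hx' : nq (cl x) ≤ 1 / 800 := hx
  have e1 : ff x = proj (AL (P0 (cl x))) := by
    rw [ff_apply]; unfold tq; rw [proj_AL]
  have h2 : nq (P0 (cl x)) < 0.035 := P0_lt (by linarith)
  have h3 : nq (AL (P0 (cl x))) < 1 / 4 := by
    by_cases h0 : P0 (cl x) = 0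
    · rw [h0]; unfold AL nq; norm_num
    · have := nq_AL_lt h0; linarith
  rw [e1, cl_proj_of_lt h3]
  unfold P0
  rw [AL_smul]

lemma iter_mem_DD {x : Torus} (hx : x ∈ DD) (n : ℕ) : ff^[n] x ∈ DD := by
  induction n with
  | zero => exact hx
  | succ n ih => rw [iterate_succ_apply', ff_mem_DD]; exact ih

/-- recurrent points of the disc are fixed -/
lemma fixed_of_recurrent {x : Torus} (hx : x ∈ DD)
    (hrec : ∀ s ∈ 𝓝 x, ∃ᶠ n in atTop, ff^[n] x ∈ s) : ff x = x := by
  have hxq : nq (cl x) ≤ 1 / 800 := hx
  have hL := lam_gt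
  have hstep : ∀ n, cl (ff^[n + 1] x) = CC (cl (ff^[n] x)) • AL (cl (ff^[n] x)) := by
    intro n
    rw [iterate_succ_apply', cl_ff (iter_mem_DD hx n)]
  -- the case of a nonzero ratio
  by_cases hus : uc (cl x) ≠ 0 ∧ sc (cl x) ≠ 0
  · exfalso
    obtain ⟨hu, hs⟩ := hus
    have hex : ∀ n, ∃ t : ℝ, 0 < t ∧ uc (cl (ff^[n] x)) = t * lam ^ n * uc (cl x) ∧
        lam ^ n * sc (cl (ff^[n] x)) = t * sc (cl x) := by
      intro n
      induction n with
      | zero => exact ⟨1, one_pos, by simp, by simp⟩
      | succ n ih =>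
        obtain ⟨t, ht, h1, h2⟩ := ih
        refine ⟨CC (cl (ff^[n] x)) * t, mul_pos (CC_pos _) ht, ?_, ?_⟩
        · rw [hstep, uc_smul, uc_AL, h1, pow_succ]; ring
        · rw [hstep, sc_smul, pow_succ]
          have := sc_AL (cl (ff^[n] x))
          calc lam ^ n * lam * (CC (cl (ff^[n] x)) * sc (AL (cl (ff^[n] x))))
              = CC (cl (ff^[n] x)) * (lam ^ n * (lam * sc (AL (cl (ff^[n] x))))) := by ring
            _ = CC (cl (ff^[n] x)) * (lam ^ n * sc (cl (ff^[n] x))) := by rw [this]
            _ = _ := by rw [h2]; ring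
    -- the neighbourhood
    have hc : ContinuousAt (fun y => lam * |sc (cl y)| * |uc (cl x)| - |uc (cl y)| * |sc (cl x)|) x := by
      have hcl : ContinuousAt cl x := cl_contAt (by linarith)
      have h1 : ContinuousAt (fun y => sc (cl y)) x := sc_cont.continuousAt.comp hcl
      have h2 : ContinuousAt (fun y => uc (cl y)) x := uc_cont.continuousAt.comp hcl
      exact ((continuousAt_const.mul h1.abs).mul continuousAt_const).sub
        (h2.abs.mul continuousAt_const)
    have hpos : 0 < lam * |sc (cl x)| * |uc (cl x)| - |uc (cl x)| * |sc (cl x)| := by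
      have h1 := abs_pos.mpr hu
      have h2 := abs_pos.mpr hs
      have := mul_pos h1 h2
      nlinarith
    have hnb := hc.eventually (lt_mem_nhds hpos)
    obtain ⟨n, hn, hn1⟩ := ((hrec _ hnb).and_eventually (eventually_gt_atTop 0)).exists
    obtain ⟨t, ht, h1, h2⟩ := hex n
    have hn' : 0 < lam * |sc (cl (ff^[n] x))| * |uc (cl x)| - |uc (cl (ff^[n] x))| * |sc (cl x)| := hn
    have hLn : lam ≤ lam ^ n := le_self_pow₀ one_lt_lam.le (by omega)
    have hLn0 : 0 < lam ^ n := pow_pos lam_pos n
    have e1 : |uc (cl (ff^[n] x))| = t * lam ^ n * |uc (cl x)| := by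
      rw [h1, abs_mul, abs_of_pos (by positivity)]
    have e2 : lam ^ n * |sc (cl (ff^[n] x))| = t * |sc (cl x)| := by
      have := congrArg abs h2
      rwa [abs_mul, abs_mul, abs_of_pos hLn0, abs_of_pos ht] at this
    have e3 : 0 < lam ^ n * (lam * |sc (cl (ff^[n] x))| * |uc (cl x)| -
        |uc (cl (ff^[n] x))| * |sc (cl x)|) := mul_pos hLn0 hn'
    have e4 : lam ^ n * (lam * |sc (cl (ff^[n] x))| * |uc (cl x)| -
        |uc (cl (ff^[n] x))| * |sc (cl x)|) =
        t * (|sc (cl x)| * |uc (cl x)|) * (lam - lam ^ n * lam ^ n) := by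
      rw [e1]
      linear_combination (lam * |uc (cl x)|) * e2
    rw [e4] at e3
    have h5 : 0 ≤ t * (|sc (cl x)| * |uc (cl x)|) := by positivity
    have h6 : lam - lam ^ n * lam ^ n ≤ 0 := by nlinarith [one_lt_lam]
    nlinarith [mul_nonneg h5 (neg_nonneg.mpr h6)]
  · -- an eigendirection
    by_cases hz : cl x = 0
    · rw [cl_eq_zero hz]; exact ff_zero
    obtain ⟨m, hm0, hm⟩ : ∃ m : ℝ, 0 < m ∧ AL (cl x) = m • cl x := by
      by_cases hu : uc (cl x) = 0
      · refine ⟨lam⁻¹, inv_pos.mpr lam_pos, ?_⟩
        apply eq_of_uc_sc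
        · rw [uc_AL, uc_smul, hu]; simp
        · rw [sc_smul]
          have := sc_AL (cl x)
          have hl := lam_pos
          field_simp
          linarith
      · have hs : sc (cl x) = 0 := by
          by_contra hs
          exact hus ⟨hu, hs⟩
        refine ⟨lam, lam_pos, ?_⟩
        apply eq_of_uc_sc
        · rw [uc_AL, uc_smul]
        · rw [sc_smul, hs, mul_zero]
          have := sc_AL (cl x)
          rw [hs] at this
          exact (mul_eq_zero.mp this).resolve_left lam_pos.ne'
    have hex : ∀ n, ∃ t : ℝ, 0 < t ∧ cl (ff^[n] x) = t • cl x := by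
      intro n
      induction n with
      | zero => exact ⟨1, one_pos, by simp⟩
      | succ n ih =>
        obtain ⟨t, ht, h1⟩ := ih
        refine ⟨CC (t • cl x) * (t * m), by have := CC_pos (t • cl x); positivity, ?_⟩
        rw [hstep, h1, AL_smul, hm, smul_smul, smul_smul]
        congr 1
        ring
    have hS := SS_pos hz
    have hS2 := SS_lt hz
    have hq : ∀ n, nq (cl (ff^[n + 1] x)) = SS (cl x) * psi (SS (cl x)) (nq (cl (ff^[n] x))) := by
      intro n
      obtain ⟨t, ht, h1⟩ := hex n
      have hne : t • cl x ≠ 0 := smul_ne_zero ht.ne' hz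
      have hqt := nq_pos hne
      rw [hstep, h1, nq_smul, CC_sq, Csq_ne hne, SS_smul ht.ne']
      have h2 : nq (AL (t • cl x)) = SS (cl x) * nq (t • cl x) := by
        rw [← SS_smul ht.ne' (cl x)]
        exact (SS_mul hne).symm
      rw [h2]
      field_simp
    set Φ : ℝ → ℝ := fun q => SS (cl x) * psi (SS (cl x)) q with hΦ
    have hmono : StrictMono Φ := (psi_strictMono hS hS2).const_mul hS
    set a : ℕ → ℝ := fun n => nq (cl (ff^[n] x)) with ha
    have hrecq : ∀ n, a (n + 1) = Φ (a n) := hq
    have hcq : Continuous fun y : Torus => nq (cl y) := by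
      simp only [nq_cl]
      fun_prop
    -- the radius is constant
    have h01 : a 1 = a 0 := by
      rcases lt_trichotomy (a 1) (a 0) with h | h | h
      · exfalso
        have hall : ∀ n, a (n + 1) ≤ a 1 := by
          intro n
          induction n with
          | zero => exact le_refl _
          | succ n ih =>
            have h3 : a (n + 1) ≤ a 0 := ih.trans h.le
            have h4 := hmono.monotone h3
            rw [← hrecq, ← hrecq] at h4
            exact h4
        have hnb : {y : Torus | (a 0 + a 1) / 2 < nq (cl y)} ∈ 𝓝 x :=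
          (isOpen_lt continuous_const hcq).mem_nhds (by
            show (a 0 + a 1) / 2 < a 0
            linarith)
        obtain ⟨n, hn, hn1⟩ := ((hrec _ hnb).and_eventually (eventually_gt_atTop 0)).exists
        obtain ⟨k, rfl⟩ : ∃ k, n = k + 1 := ⟨n - 1, by omega⟩
        have h5 : (a 0 + a 1) / 2 < a (k + 1) := hn
        have := hall k
        linarith
      · exact h
      · exfalso
        have hall : ∀ n, a 1 ≤ a (n + 1) := by
          intro n
          induction n with
          | zero => exact le_refl _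
          | succ n ih =>
            have h3 : a 0 ≤ a (n + 1) := h.le.trans ih
            have h4 := hmono.monotone h3
            rw [← hrecq, ← hrecq] at h4
            exact h4
        have hnb : {y : Torus | nq (cl y) < (a 0 + a 1) / 2} ∈ 𝓝 x :=
          (isOpen_lt hcq continuous_const).mem_nhds (by
            show a 0 < (a 0 + a 1) / 2
            linarith)
        obtain ⟨n, hn, hn1⟩ := ((hrec _ hnb).and_eventually (eventually_gt_atTop 0)).exists
        obtain ⟨k, rfl⟩ : ∃ k, n = k + 1 := ⟨n - 1, by omega⟩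
        have h5 : a (k + 1) < (a 0 + a 1) / 2 := hn
        have := hall k
        linarith
    obtain ⟨t, ht, h1⟩ := hex 1
    have h2 : a 1 = t ^ 2 * a 0 := by
      show nq (cl (ff^[1] x)) = t ^ 2 * nq (cl x)
      rw [h1, nq_smul]
    have h3 : 0 < a 0 := nq_pos hz
    have h4 : t = 1 := by
      rw [h01] at h2
      have : (t ^ 2 - 1) * a 0 = 0 := by linarith
      have h5 := (mul_eq_zero.mp this).resolve_right h3.ne'
      nlinarith
    have h5 : cl (ff x) = cl x := by
      have : cl (ff^[1] x) = cl x := by rw [h1, h4, one_smul]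
      exact this
    rw [← proj_cl (ff x), h5, proj_cl]

/-- almost every point of the disc is fixed -/
theorem fix_ae {η : Measure Torus} (hη : IsInvariant ff η) : ∀ᵐ x ∂η, x ∈ DD → ff x = x := by
  have := hη.prob
  have h1 : Conservative ff η := hη.inv.conservative
  filter_upwards [h1.ae_frequently_mem_of_mem_nhds] with x hx hxD
  exact fixed_of_recurrent hxD hx

/-! ### the main measure -/

/-- the measure -/
noncomputable def mu : Measure Torus := (volume : Measure Torus).map gg

instance : IsProbabilityMeasure mu := Measure.isProbabilityMeasure_map gg_meas.aemeasurable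

lemma vol_zero : (volume : Measure Torus) {0} = 0 := by
  have : (volume : Measure Torus) {0} ≤ 0 := by
    apply le_of_forall_pos_le_add
    intro ε hε
    rw [zero_add]
    by_cases htop : ε = ⊤
    · rw [htop]; exact le_top
    have hε' : 0 < ε.toReal := ENNReal.toReal_pos hε.ne' htop
    set r : ℝ := Real.sqrt ε.toReal / 2 with hr
    have hr0 : 0 ≤ r := by positivity
    calc (volume : Measure Torus) {0} ≤ volume (Metric.closedBall (0 : Torus) r) :=
          measure_mono (singleton_subset_iff.mpr (Metric.mem_closedBall_self hr0))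
      _ ≤ ENNReal.ofReal ((2 * r) ^ 2) := vol_closedBall_le 0 hr0
      _ = ε := by
        have : (2 * r) ^ 2 = ε.toReal := by
          rw [hr, mul_div_cancel₀ _ (by norm_num), Real.sq_sqrt hε'.le]
        rw [this, ENNReal.ofReal_toReal htop]
  exact le_antisymm this bot_le

lemma ae_ne_zero : ∀ᵐ w : Torus, w ≠ 0 := by
  rw [ae_iff]
  simpa using vol_zero

lemma mu_DD : mu DD = 0 := by
  unfold mu
  rw [Measure.map_apply gg_meas DD_meas]
  refine measure_mono_null ?_ vol_zero
  intro w hw
  by_contra hne
  exact gg_notMem hne hw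

theorem mu_inv : IsInvariant ff mu := by
  refine ⟨inferInstance, ff.continuous.measurable, ?_⟩
  unfold mu
  rw [Measure.map_map ff.continuous.measurable gg_meas]
  have : ff ∘ gg = gg ∘ CT := funext ff_gg
  rw [this, ← Measure.map_map gg_meas CT_cont.measurable, mp_CT.map_eq]

/-- invariant measures which do not charge the disc come from the cat map -/
lemma of_DD_null {η : Measure Torus} (hη : IsInvariant ff η) (hD : η DD = 0) :
    IsProbabilityMeasure (η.map hh) ∧ MeasurePreserving CT (η.map hh) (η.map hh) ∧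
      (η.map hh).map gg = η := by
  have := hη.prob
  refine ⟨Measure.isProbabilityMeasure_map hh_cont.measurable.aemeasurable,
    ⟨CT_cont.measurable, ?_⟩, ?_⟩
  · rw [Measure.map_map CT_cont.measurable hh_cont.measurable]
    have : CT ∘ hh = hh ∘ ff := funext fun x => (hh_ff x).symm
    rw [this, ← Measure.map_map hh_cont.measurable ff.continuous.measurable, hη.inv.map_eq]
  · rw [Measure.map_map gg_meas hh_cont.measurable]
    have h1 : gg ∘ hh =ᵐ[η] id := by
      have : ∀ᵐ x ∂η, x ∉ DD := by rw [ae_iff]; simpa using hD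
      filter_upwards [this] with x hx
      exact gg_hh hx
    rw [Measure.map_congr h1, Measure.map_id]

lemma eq_mu {η : Measure Torus} (hη : IsInvariant ff η) (hD : η DD = 0) (h : η.map hh = volume) :
    η = mu := by
  rw [← (of_DD_null hη hD).2.2, h]
  rfl

theorem mu_ergodic : Ergodic ff mu := by
  refine ⟨mu_inv.inv, ⟨fun s hs hs' => ?_⟩⟩
  have h1 : CT ⁻¹' (gg ⁻¹' s) = gg ⁻¹' s := by
    ext w
    show gg (CT w) ∈ s ↔ gg w ∈ s
    rw [← ff_gg]
    constructor
    · intro h; have : gg w ∈ ff ⁻¹' s := h; rwa [hs'] at this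
    · intro h; have : gg w ∈ ff ⁻¹' s := by rw [hs']; exact h
      exact this
  have h2 : PreErgodic CT (volume : Measure Torus) := by
    have h3 : PreErgodic (⇑(AH.comp AH)) (volume : Measure Torus) :=
      preErgodic_of_dense volume (AH.comp AH) mp_CT (by
        refine dense_contr.mono fun g hg => ?_
        have h4 : ∀ n : ℕ, (⇑(AH.comp AH))^[n] g = AT^[2 * n] g := by
          intro n
          have : ⇑(AH.comp AH) = AT^[2] := rfl
          rw [this, ← iterate_mul]
        show Tendsto (fun n => (⇑(AH.comp AH))^[n] g) atTop (𝓝 0)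
        simp only [h4]
        exact hg.comp (tendsto_id.const_mul_atTop' (by norm_num : 0 < 2)))
    exact h3
  have h3 := h2.aeconst_set (gg_meas hs) h1
  unfold mu
  rw [Filter.eventuallyConst_set'] at h3 ⊢
  rcases h3 with h | h
  · left
    rw [ae_eq_empty] at h ⊢
    rw [Measure.map_apply gg_meas hs]
    exact h
  · right
    rw [ae_eq_univ] at h ⊢
    rw [Measure.map_apply gg_meas hs.compl]
    exact h

end Pool.Agent.TH292.MR
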