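import Pool.Agent.TH292.MR.Lin

/-!
# A large deviation estimate on unstable arcs of the cat map
-/

set_option autoImplicit false

open Set Filter Topology MeasureTheory Function
open scoped ContDiff ENNReal Real NNReal

namespace Pool.Agent.TH292.MR

open Pool.Agent.TH292.Gold

/-- integral over the unstable arc of length parameter `ℓ` starting at `x` -/
noncomputable def arcI (ℓ : ℝ) (g : Torus → ℝ) (x : Torus) : ℝ := ∫ t in (0 : ℝ)..ℓ, g (x + ul t)

lemma arc_cont (x : Torus) : Continuous fun t : ℝ => x + ul t := continuous_const.add ul_cont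

lemma comp_arc_cont {g : Torus → ℝ} (hg : Continuous g) (x : Torus) :
    Continuous fun t : ℝ => g (x + ul t) := hg.comp (arc_cont x)

/-- every point of the torus is close to a short piece of the unstable line through zero -/
lemma exists_net {δ : ℝ} (hδ : 0 < δ) : ∃ T : ℝ, 0 ≤ T ∧ ∀ d : Torus, ∃ s : ℝ, |s| ≤ T ∧ ‖d - ul s‖ < δ := by
  have hcov : (univ : Set Torus) ⊆ ⋃ s : ℝ, Metric.ball (ul s) δ := by
    intro d _
    obtain ⟨s, hs⟩ := dense_ul.exists_dist_lt d hδ
    exact mem_iUnion.mpr ⟨s, hs⟩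
  obtain ⟨S, hS⟩ := isCompact_univ.elim_finite_subcover _ (fun s => Metric.isOpen_ball) hcov
  refine ⟨∑ s ∈ S, |s|, Finset.sum_nonneg (fun _ _ => abs_nonneg _), fun d => ?_⟩
  obtain ⟨s, hs⟩ := mem_iUnion.mp (hS (mem_univ d))
  obtain ⟨hs1, hs2⟩ := mem_iUnion.mp hs
  refine ⟨s, Finset.single_le_sum (f := fun s : ℝ => |s|) (fun _ _ => abs_nonneg _) hs1, ?_⟩
  rw [← dist_eq_norm]
  exact hs2

lemma exists_bound {g : Torus → ℝ} (hg : Continuous g) : ∃ M : ℝ, 0 < M ∧ ∀ x, |g x| ≤ M := by
  obtain ⟨M, hM⟩ := isCompact_univ.exists_bound_of_continuousOn hg.continuousOn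
  refine ⟨max M 1, by positivity, fun x => ?_⟩
  have := hM x (mem_univ x)
  rw [Real.norm_eq_abs] at this
  exact this.trans (le_max_left _ _)

lemma exists_modulus {g : Torus → ℝ} (hg : Continuous g) {ε : ℝ} (hε : 0 < ε) :
    ∃ δ : ℝ, 0 < δ ∧ ∀ x y : Torus, ‖x - y‖ < δ → |g x - g y| < ε := by
  have hu := CompactSpace.uniformContinuous_of_continuous hg
  obtain ⟨δ, hδ, h⟩ := Metric.uniformContinuous_iff.mp hu ε hε
  refine ⟨δ, hδ, fun x y hxy => ?_⟩
  have := h (a := x) (b := y) (by rw [dist_eq_norm]; exact hxy)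
  rwa [Real.dist_eq] at this

lemma integrable_cont {g : Torus → ℝ} (hg : Continuous g) {η : Measure Torus} [IsFiniteMeasure η] :
    Integrable g η := by
  obtain ⟨M, _, hM⟩ := exists_bound hg
  exact Integrable.of_bound hg.aestronglyMeasurable M (Eventually.of_forall fun x => by
    rw [Real.norm_eq_abs]; exact hM x)

lemma arcI_le {g : Torus → ℝ} (hg : Continuous g) {M : ℝ} (hM : ∀ x, g x ≤ M) {ℓ : ℝ} (hℓ : 0 ≤ ℓ)
    (x : Torus) : arcI ℓ g x ≤ ℓ * M := by
  unfold arcI
  have h := intervalIntegral.integral_mono_on hℓ ((comp_arc_cont hg x).intervalIntegrable (μ := volume) 0 ℓ)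
    (g := fun _ => M) intervalIntegrable_const (fun t _ => hM _)
  simpa using h

lemma arcI_integral {g : Torus → ℝ} (hg : Continuous g) {ℓ : ℝ} (hℓ : 0 ≤ ℓ) :
    ∫ x, arcI ℓ g x = ℓ * ∫ x, g x := by
  unfold arcI
  simp only [intervalIntegral.integral_of_le hℓ]
  obtain ⟨M, _, hM⟩ := exists_bound hg
  have hc : Continuous fun p : Torus × ℝ => g (p.1 + ul p.2) :=
    hg.comp (continuous_fst.add (ul_cont.comp continuous_snd))
  rw [integral_integral_swap]
  · have h1 : ∀ t : ℝ, ∫ x, g (x + ul t) = ∫ x, g x := fun t => integral_add_right_eq_self g (ul t)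
    simp only [h1]
    rw [setIntegral_const, smul_eq_mul, Real.volume_real_Ioc_of_le hℓ, sub_zero]
  · apply Integrable.of_bound (C := M)
    · exact hc.aestronglyMeasurable
    · exact Eventually.of_forall fun p => by rw [Real.norm_eq_abs]; exact hM _

lemma arcI_cont {g : Torus → ℝ} (hg : Continuous g) (ℓ : ℝ) : Continuous (arcI ℓ g) := by
  unfold arcI
  apply intervalIntegral.continuous_parametric_intervalIntegral_of_continuous'
  show Continuous fun p : Torus × ℝ => g (p.1 + ul p.2)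
  exact hg.comp (continuous_fst.add (ul_cont.comp continuous_snd))

/-- uniform equidistribution of long unstable arcs -/
theorem equi {g : Torus → ℝ} (hg : Continuous g) {ε : ℝ} (hε : 0 < ε) :
    ∃ ℓ₀ : ℝ, 0 < ℓ₀ ∧ ∀ ℓ : ℝ, ℓ₀ ≤ ℓ → ∀ x, |arcI ℓ g x - ℓ * ∫ y, g y| ≤ ε * ℓ := by
  obtain ⟨M, hM0, hM⟩ := exists_bound hg
  obtain ⟨δ, hδ, hmod⟩ := exists_modulus hg (half_pos hε)
  obtain ⟨T, hT0, hT⟩ := exists_net hδ
  refine ⟨4 * T * M / ε + 1, by positivity, fun ℓ hℓ x => ?_⟩
  have hℓ0 : 0 ≤ ℓ := le_trans (by positivity) hℓ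
  have hTM : 2 * T * M ≤ ε / 2 * ℓ := by
    have h1 : 4 * T * M / ε ≤ ℓ := by linarith
    rw [div_le_iff₀ hε] at h1
    linarith
  -- comparison of two arcs
  have hcmp : ∀ x y : Torus, |arcI ℓ g x - arcI ℓ g y| ≤ ε * ℓ := by
    intro x y
    obtain ⟨s, hs, hs'⟩ := hT (y - x)
    have h1 : |arcI ℓ g y - arcI ℓ g (x + ul s)| ≤ ε / 2 * ℓ := by
      unfold arcI
      rw [← intervalIntegral.integral_sub ((comp_arc_cont hg _).intervalIntegrable _ _)
        ((comp_arc_cont hg _).intervalIntegrable _ _)]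
      have := intervalIntegral.norm_integral_le_of_norm_le_const (a := 0) (b := ℓ) (C := ε / 2)
        (f := fun t => g (y + ul t) - g (x + ul s + ul t)) (fun t _ => by
          rw [Real.norm_eq_abs]
          apply (hmod _ _ _).le
          have : y + ul t - (x + ul s + ul t) = y - x - ul s := by abel
          rw [this]
          exact hs')
      rw [sub_zero, abs_of_nonneg hℓ0, Real.norm_eq_abs] at this
      exact this
    have h2 : arcI ℓ g (x + ul s) = ∫ t in s..(ℓ + s), g (x + ul t) := by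
      unfold arcI
      have : ∀ t : ℝ, g (x + ul s + ul t) = (fun τ => g (x + ul τ)) (t + s) := by
        intro t
        show _ = g (x + ul (t + s))
        rw [add_comm t s, ul_add, add_assoc]
      simp only [this]
      rw [intervalIntegral.integral_comp_add_right (fun τ => g (x + ul τ)) s, zero_add]
    have hI : ∀ a b : ℝ, IntervalIntegrable (fun t => g (x + ul t)) volume a b := fun a b =>
      (comp_arc_cont hg x).intervalIntegrable a b
    have h3 : arcI ℓ g (x + ul s) - arcI ℓ g x = (∫ t in ℓ..(ℓ + s), g (x + ul t)) -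
        ∫ t in (0 : ℝ)..s, g (x + ul t) := by
      rw [h2]
      unfold arcI
      have e1 := intervalIntegral.integral_add_adjacent_intervals (hI 0 s) (hI s (ℓ + s))
      have e2 := intervalIntegral.integral_add_adjacent_intervals (hI 0 ℓ) (hI ℓ (ℓ + s))
      linarith
    have hb : ∀ a b : ℝ, |∫ t in a..b, g (x + ul t)| ≤ M * |b - a| := fun a b => by
      have := intervalIntegral.norm_integral_le_of_norm_le_const (a := a) (b := b) (C := M)
        (f := fun t => g (x + ul t)) (fun t _ => by rw [Real.norm_eq_abs]; exact hM _)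
      rwa [Real.norm_eq_abs] at this
    have h4 : |arcI ℓ g (x + ul s) - arcI ℓ g x| ≤ ε / 2 * ℓ := by
      rw [h3]
      have e1 := hb ℓ (ℓ + s)
      have e2 := hb 0 s
      rw [add_sub_cancel_left] at e1
      rw [sub_zero] at e2
      have e3 : M * |s| ≤ M * T := by gcongr
      calc |(∫ t in ℓ..(ℓ + s), g (x + ul t)) - ∫ t in (0 : ℝ)..s, g (x + ul t)|
          ≤ |∫ t in ℓ..(ℓ + s), g (x + ul t)| + |∫ t in (0 : ℝ)..s, g (x + ul t)| := abs_sub _ _
        _ ≤ M * T + M * T := by linarith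
        _ ≤ _ := by linarith
    rw [abs_le] at *
    constructor <;> linarith [h1.1, h1.2, h4.1, h4.2]
  -- average
  have h1 : arcI ℓ g x - ℓ * ∫ y, g y = ∫ y, (arcI ℓ g x - arcI ℓ g y) := by
    rw [integral_sub (integrable_const _) (integrable_cont (arcI_cont hg ℓ)), integral_const,
      arcI_integral hg hℓ0]
    simp
  rw [h1]
  have h2 := norm_integral_le_of_norm_le_const (μ := (volume : Measure Torus)) (C := ε * ℓ)
    (f := fun y => arcI ℓ g x - arcI ℓ g y) (Eventually.of_forall fun y => by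
      rw [Real.norm_eq_abs]; exact hcmp x y)
  simpa using h2

/-- the basic step of the recursion -/
lemma step {F G : Torus → ℝ} (hF : Continuous F) (hG : Continuous G) (hF0 : ∀ x, 0 ≤ F x)
    (hG0 : ∀ x, 0 ≤ G x) {ℓ η B : ℝ} (hℓ : 0 < ℓ) (hη : 0 ≤ η) (q : ℕ)
    (hmod : ∀ x, ∀ t : ℝ, |t| ≤ ℓ / lam ^ q → |F (x + ul t) - F x| ≤ η)
    (hB : ∀ y, arcI ℓ G y ≤ B) (x : Torus) :
    arcI ℓ (fun y => F y * G (CT^[q] y)) x ≤
      B / ℓ * arcI (ℓ + ℓ / lam ^ q) (fun y => F y + 2 * η) x := by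
  set L : ℝ := lam ^ q with hL
  have hL0 : 0 < L := pow_pos lam_pos q
  set K : ℕ := ⌈L⌉₊ with hK
  have hK1 : L ≤ K := Nat.le_ceil L
  have hK2 : (K : ℝ) < L + 1 := Nat.ceil_lt_add_one hL0.le
  set a : ℕ → ℝ := fun i => i * (ℓ / L) with ha
  have hstep : ∀ i, a (i + 1) - a i = ℓ / L := fun i => by simp only [ha]; push_cast; ring
  have hw : 0 < ℓ / L := div_pos hℓ hL0
  have haK : ℓ ≤ a K := by
    simp only [ha]
    calc ℓ = L * (ℓ / L) := by field_simp
      _ ≤ K * (ℓ / L) := by gcongr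
  have haK2 : a K ≤ ℓ + ℓ / L := by
    simp only [ha]
    calc K * (ℓ / L) ≤ (L + 1) * (ℓ / L) := by gcongr
      _ = _ := by field_simp
  have ha0 : a 0 = 0 := by simp [ha]
  have hB0 : 0 ≤ B := by
    refine le_trans ?_ (hB x)
    unfold arcI
    exact intervalIntegral.integral_nonneg hℓ.le (fun t _ => hG0 _)
  have hCTc : Continuous (CT^[q]) := CT_cont.iterate q
  have hprod : Continuous fun y => F y * G (CT^[q] y) := hF.mul (hG.comp hCTc)
  have hFη : Continuous fun y => F y + 2 * η := hF.add continuous_const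
  -- each subinterval
  have hsub : ∀ i, ∫ t in (a i)..(a (i + 1)), F (x + ul t) * G (CT^[q] (x + ul t)) ≤
      B / ℓ * ∫ t in (a i)..(a (i + 1)), (F (x + ul t) + 2 * η) := by
    intro i
    have hle : a i ≤ a (i + 1) := by linarith [hstep i]
    have h1 : ∫ t in (a i)..(a (i + 1)), F (x + ul t) * G (CT^[q] (x + ul t)) ≤
        ∫ t in (a i)..(a (i + 1)), (F (x + ul (a i)) + η) * G (CT^[q] (x + ul t)) := by
      apply intervalIntegral.integral_mono_on hle
        ((comp_arc_cont hprod x).intervalIntegrable _ _)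
        ((continuous_const.mul (comp_arc_cont (hG.comp hCTc) x)).intervalIntegrable _ _)
      intro t ht
      apply mul_le_mul_of_nonneg_right _ (hG0 _)
      have h2 := hmod (x + ul (a i)) (t - a i) (by
        rw [abs_of_nonneg (by linarith [ht.1])]
        linarith [ht.2, hstep i])
      have h3 : x + ul (a i) + ul (t - a i) = x + ul t := by
        rw [add_assoc, ← ul_add]
        congr 2
        ring
      rw [h3, abs_le] at h2
      linarith [h2.2]
    have h2 : ∫ t in (a i)..(a (i + 1)), (F (x + ul (a i)) + η) * G (CT^[q] (x + ul t)) ≤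
        (F (x + ul (a i)) + η) * (B / L) := by
      rw [intervalIntegral.integral_const_mul]
      apply mul_le_mul_of_nonneg_left _ (by linarith [hF0 (x + ul (a i))])
      have e1 : ∀ t : ℝ, G (CT^[q] (x + ul t)) = (fun τ => G (CT^[q] x + ul τ)) (L * t) := by
        intro t
        show _ = G (CT^[q] x + ul (L * t))
        rw [CT_iter_arc]
      simp only [e1]
      rw [intervalIntegral.integral_comp_mul_left (fun τ => G (CT^[q] x + ul τ)) hL0.ne']
      have e2 : ∫ τ in (L * a i)..(L * a (i + 1)), G (CT^[q] x + ul τ) =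
          arcI ℓ G (CT^[q] x + ul (L * a i)) := by
        unfold arcI
        have e3 : ∀ t : ℝ, G (CT^[q] x + ul (L * a i) + ul t) =
            (fun τ => G (CT^[q] x + ul τ)) (t + L * a i) := by
          intro t
          show _ = G (CT^[q] x + ul (t + L * a i))
          rw [add_comm t, ul_add, add_assoc]
        simp only [e3]
        rw [intervalIntegral.integral_comp_add_right (fun τ => G (CT^[q] x + ul τ)), zero_add]
        congr 1
        have := hstep i
        have : L * a (i + 1) = L * a i + L * (ℓ / L) := by rw [← this]; ring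
        rw [this, mul_div_cancel₀ _ hL0.ne', add_comm]
      rw [e2, smul_eq_mul, div_eq_inv_mul]
      exact mul_le_mul_of_nonneg_left (hB _) (inv_nonneg.mpr hL0.le)
    have h3 : (F (x + ul (a i)) + η) * (B / L) ≤
        B / ℓ * ∫ t in (a i)..(a (i + 1)), (F (x + ul t) + 2 * η) := by
      have h4 : (ℓ / L) * (F (x + ul (a i)) + η) ≤
          ∫ t in (a i)..(a (i + 1)), (F (x + ul t) + 2 * η) := by
        have e1 : (ℓ / L) * (F (x + ul (a i)) + η) =
            ∫ t in (a i)..(a (i + 1)), (F (x + ul (a i)) + η) := by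
          rw [intervalIntegral.integral_const, hstep, smul_eq_mul]
        rw [e1]
        apply intervalIntegral.integral_mono_on hle (by simp)
          ((comp_arc_cont hFη x).intervalIntegrable _ _)
        intro t ht
        have h2 := hmod (x + ul (a i)) (t - a i) (by
          rw [abs_of_nonneg (by linarith [ht.1])]
          linarith [ht.2, hstep i])
        have h3 : x + ul (a i) + ul (t - a i) = x + ul t := by
          rw [add_assoc, ← ul_add]
          congr 2
          ring
        rw [h3, abs_le] at h2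
        linarith [h2.1]
      calc (F (x + ul (a i)) + η) * (B / L) = B / ℓ * ((ℓ / L) * (F (x + ul (a i)) + η)) := by
            field_simp
        _ ≤ _ := mul_le_mul_of_nonneg_left h4 (div_nonneg hB0 hℓ.le)
    linarith
  -- sum up
  have hI1 : ∀ a b : ℝ, IntervalIntegrable (fun t => F (x + ul t) * G (CT^[q] (x + ul t))) volume a b :=
    fun a b => (comp_arc_cont hprod x).intervalIntegrable a b
  have hI2 : ∀ a b : ℝ, IntervalIntegrable (fun t => F (x + ul t) + 2 * η) volume a b :=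
    fun a b => (comp_arc_cont hFη x).intervalIntegrable a b
  have hsum1 := intervalIntegral.sum_integral_adjacent_intervals (a := a) (n := K)
    (fun k _ => hI1 (a k) (a (k + 1)))
  have hsum2 := intervalIntegral.sum_integral_adjacent_intervals (a := a) (n := K)
    (fun k _ => hI2 (a k) (a (k + 1)))
  have h5 : ∫ t in (0 : ℝ)..(a K), F (x + ul t) * G (CT^[q] (x + ul t)) ≤
      B / ℓ * ∫ t in (0 : ℝ)..(a K), (F (x + ul t) + 2 * η) := by
    rw [← ha0, ← hsum1, ← hsum2, Finset.mul_sum]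
    exact Finset.sum_le_sum (fun i _ => hsub i)
  unfold arcI
  have h6 : ∫ t in (0 : ℝ)..ℓ, F (x + ul t) * G (CT^[q] (x + ul t)) ≤
      ∫ t in (0 : ℝ)..(a K), F (x + ul t) * G (CT^[q] (x + ul t)) := by
    rw [← intervalIntegral.integral_add_adjacent_intervals (hI1 0 ℓ) (hI1 ℓ (a K))]
    have := intervalIntegral.integral_nonneg haK (f := fun t => F (x + ul t) * G (CT^[q] (x + ul t)))
      (μ := volume) (fun t _ => mul_nonneg (hF0 _) (hG0 _))
    linarith
  have h7 : ∫ t in (0 : ℝ)..(a K), (F (x + ul t) + 2 * η) ≤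
      ∫ t in (0 : ℝ)..(ℓ + ℓ / L), (F (x + ul t) + 2 * η) := by
    rw [← intervalIntegral.integral_add_adjacent_intervals (hI2 0 (a K)) (hI2 (a K) (ℓ + ℓ / L))]
    have := intervalIntegral.integral_nonneg haK2 (f := fun t => F (x + ul t) + 2 * η)
      (μ := volume) (fun t _ => by have := hF0 (x + ul t); linarith)
    linarith
  calc _ ≤ _ := h6
    _ ≤ _ := h5
    _ ≤ _ := mul_le_mul_of_nonneg_left h7 (div_nonneg hB0 hℓ.le)

/-- the product `∏_{j<m} F ∘ A^{qj}` -/
noncomputable def prodF (F : Torus → ℝ) (q : ℕ) : ℕ → Torus → ℝ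
  | 0 => fun _ => 1
  | m + 1 => fun y => F y * prodF F q m (CT^[q] y)

lemma prodF_cont {F : Torus → ℝ} (hF : Continuous F) (q m : ℕ) : Continuous (prodF F q m) := by
  induction m with
  | zero => exact continuous_const
  | succ m ih => exact hF.mul (ih.comp (CT_cont.iterate q))

lemma prodF_nonneg {F : Torus → ℝ} (hF : ∀ x, 0 ≤ F x) (q m : ℕ) (x : Torus) :
    0 ≤ prodF F q m x := by
  induction m generalizing x with
  | zero => exact zero_le_one
  | succ m ih => exact mul_nonneg (hF x) (ih _)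

/-- submultiplicativity on arcs -/
theorem prod_bound {F : Torus → ℝ} (hF : Continuous F) (hF0 : ∀ x, 0 ≤ F x) {θ : ℝ} (hθ : 0 < θ) :
    ∃ (ℓ : ℝ) (q : ℕ), 0 < ℓ ∧ 0 < q ∧ ∀ (m : ℕ) (x : Torus),
      arcI ℓ (prodF F q m) x ≤ ℓ * ((∫ y, F y) + θ) ^ m := by
  obtain ⟨ℓ, hℓ, heq⟩ := equi hF (ε := θ / 4) (by positivity)
  obtain ⟨M, hM0, hM⟩ := exists_bound hF
  set η : ℝ := θ / 16 with hη
  have hη0 : 0 < η := by positivity
  obtain ⟨δ, hδ, hmod⟩ := exists_modulus hF hη0
  -- choice of q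
  have hq : ∃ q : ℕ, 0 < q ∧ 2 * (ℓ / lam ^ q) < δ ∧ (M + 2 * η) / lam ^ q ≤ θ / 4 ∧ 1 ≤ lam ^ q := by
    have hpow : Tendsto (fun q : ℕ => lam ^ q) atTop atTop := tendsto_pow_atTop_atTop_of_one_lt one_lt_lam
    have h1 : Tendsto (fun q : ℕ => 2 * (ℓ / lam ^ q)) atTop (𝓝 0) := by
      have := (tendsto_const_nhds (x := ℓ)).div_atTop hpow
      simpa using this.const_mul 2
    have h2 : Tendsto (fun q : ℕ => (M + 2 * η) / lam ^ q) atTop (𝓝 0) :=
      (tendsto_const_nhds).div_atTop hpow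
    obtain ⟨q, hq⟩ := ((((h1.eventually_lt_const hδ).and (h2.eventually_le_const
      (by positivity : (0 : ℝ) < θ / 4))).and (hpow.eventually_ge_atTop 1)).and
        (eventually_gt_atTop 0)).exists
    exact ⟨q, hq.2, hq.1.1.1, hq.1.1.2, hq.1.2⟩
  obtain ⟨q, hq0, hq1, hq2, hq3⟩ := hq
  refine ⟨ℓ, q, hℓ, hq0, fun m => ?_⟩
  have hL0 : 0 < lam ^ q := pow_pos lam_pos q
  have hIF : 0 ≤ ∫ y, F y := integral_nonneg hF0
  induction m with
  | zero =>
    intro x
    show arcI ℓ (fun _ => 1) x ≤ _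
    unfold arcI
    simp
  | succ m ih =>
    intro x
    have h1 := step hF (prodF_cont hF q m) hF0 (prodF_nonneg hF0 q m) hℓ hη0.le q (fun x t ht => by
      apply (hmod _ _ _).le
      rw [add_sub_cancel_left]
      exact lt_of_le_of_lt (norm_ul_le t) (by linarith)) ih x
    refine h1.trans ?_
    have h2 : arcI (ℓ + ℓ / lam ^ q) (fun y => F y + 2 * η) x ≤ ℓ * ((∫ y, F y) + θ) := by
      have hI : ∀ a b : ℝ, IntervalIntegrable (fun t => F (x + ul t) + 2 * η) volume a b :=
        fun a b => (comp_arc_cont (hF.add continuous_const) x).intervalIntegrable a b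
      have e1 : arcI (ℓ + ℓ / lam ^ q) (fun y => F y + 2 * η) x =
          (∫ t in (0 : ℝ)..ℓ, (F (x + ul t) + 2 * η)) +
          ∫ t in ℓ..(ℓ + ℓ / lam ^ q), (F (x + ul t) + 2 * η) := by
        unfold arcI
        rw [intervalIntegral.integral_add_adjacent_intervals (hI _ _) (hI _ _)]
      have e2 : ∫ t in (0 : ℝ)..ℓ, (F (x + ul t) + 2 * η) = arcI ℓ F x + 2 * η * ℓ := by
        unfold arcI
        rw [intervalIntegral.integral_add ((comp_arc_cont hF x).intervalIntegrable _ _) (by simp)]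
        simp
        ring
      have e3 : ∫ t in ℓ..(ℓ + ℓ / lam ^ q), (F (x + ul t) + 2 * η) ≤
          (M + 2 * η) * (ℓ / lam ^ q) := by
        have := intervalIntegral.integral_mono_on (a := ℓ) (b := ℓ + ℓ / lam ^ q)
          (by have := div_pos hℓ hL0; linarith) (hI _ _) (g := fun _ => M + 2 * η) (by simp)
          (fun t _ => by have := (abs_le.mp (hM (x + ul t))).2; linarith)
        simp only [intervalIntegral.integral_const, smul_eq_mul] at this
        linarith
      have e4 := (abs_le.mp (heq ℓ le_rfl x)).2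
      have e5 : (M + 2 * η) * (ℓ / lam ^ q) ≤ θ / 4 * ℓ := by
        calc (M + 2 * η) * (ℓ / lam ^ q) = (M + 2 * η) / lam ^ q * ℓ := by ring
          _ ≤ _ := by gcongr
      rw [e1, e2]
      nlinarith
    calc ℓ * ((∫ y, F y) + θ) ^ m / ℓ * arcI (ℓ + ℓ / lam ^ q) (fun y => F y + 2 * η) x
        = ((∫ y, F y) + θ) ^ m * arcI (ℓ + ℓ / lam ^ q) (fun y => F y + 2 * η) x := by
          field_simp
      _ ≤ ((∫ y, F y) + θ) ^ m * (ℓ * ((∫ y, F y) + θ)) := by gcongr
      _ = _ := by ring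

/-- sparse Birkhoff sums -/
noncomputable def bs (g : Torus → ℝ) (q m : ℕ) (x : Torus) : ℝ :=
  ∑ j ∈ Finset.range m, g (CT^[q * j] x)

lemma bs_succ (g : Torus → ℝ) (q m : ℕ) (x : Torus) :
    bs g q (m + 1) x = g x + bs g q m (CT^[q] x) := by
  unfold bs
  rw [Finset.sum_range_succ', add_comm]
  congr 1
  apply Finset.sum_congr rfl
  intro j _
  rw [← iterate_add_apply]
  congr 2

lemma bs_cont {g : Torus → ℝ} (hg : Continuous g) (q m : ℕ) : Continuous (bs g q m) := by
  unfold bs
  exact continuous_finsetSum _ (fun j _ => hg.comp (CT_cont.iterate _))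

lemma prodF_exp (g : Torus → ℝ) (s : ℝ) (q m : ℕ) (x : Torus) :
    prodF (fun y => Real.exp (s * g y)) q m x = Real.exp (s * bs g q m x) := by
  induction m generalizing x with
  | zero => unfold bs prodF; simp
  | succ m ih =>
    show Real.exp (s * g x) * prodF _ q m (CT^[q] x) = _
    rw [ih, bs_succ, mul_add, Real.exp_add]

/-- exponential moments -/
theorem exp_moment {g : Torus → ℝ} (hg : Continuous g) (hg1 : ∀ x, |g x| ≤ 1)
    (hg0 : ∫ x, g x = 0) {ε : ℝ} (hε : 0 < ε) (hε1 : ε ≤ 1) :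
    ∃ (ℓ : ℝ) (q : ℕ), 0 < ℓ ∧ 0 < q ∧ ∀ (m : ℕ) (x : Torus),
      arcI ℓ (fun y => Real.exp (ε / 2 * (bs g q m y - ε * m))) x ≤ ℓ * Real.exp (-(ε ^ 2 / 8) * m) := by
  have hF : Continuous fun y => Real.exp (ε / 2 * g y) := Real.continuous_exp.comp (by fun_prop)
  obtain ⟨ℓ, q, hℓ, hq, h⟩ := prod_bound hF (fun x => (Real.exp_pos _).le) (θ := ε ^ 2 / 8) (by positivity)
  refine ⟨ℓ, q, hℓ, hq, fun m x => ?_⟩
  have h1 := h m x
  have h2 : ∫ y, Real.exp (ε / 2 * g y) ≤ 1 + ε ^ 2 / 4 := by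
    have h3 : ∀ y, Real.exp (ε / 2 * g y) ≤ 1 + ε / 2 * g y + ε ^ 2 / 4 := by
      intro y
      have hb : |ε / 2 * g y| ≤ 1 := by
        rw [abs_mul, abs_of_pos (by positivity : 0 < ε / 2)]
        have := hg1 y
        nlinarith [abs_nonneg (g y)]
      have := Real.abs_exp_sub_one_sub_id_le hb
      have h4 := (abs_le.mp this).2
      have h5 : (ε / 2 * g y) ^ 2 ≤ ε ^ 2 / 4 := by
        have h6 : (g y) ^ 2 ≤ 1 := by
          rw [← sq_abs]
          have := hg1 y
          nlinarith [abs_nonneg (g y)]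
        nlinarith [sq_nonneg ε]
      linarith
    calc ∫ y, Real.exp (ε / 2 * g y) ≤ ∫ y, (1 + ε / 2 * g y + ε ^ 2 / 4) :=
          integral_mono (integrable_cont hF) (integrable_cont (by fun_prop)) h3
      _ = 1 + ε ^ 2 / 4 := by
        rw [integral_add (integrable_cont (by fun_prop)) (integrable_const _),
          integral_add (integrable_const _) (integrable_cont (by fun_prop)),
          integral_const_mul, hg0]
        simp
  have h4 : (∫ y, Real.exp (ε / 2 * g y)) + ε ^ 2 / 8 ≤ Real.exp (ε ^ 2 / 4 + ε ^ 2 / 8) := by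
    have := Real.add_one_le_exp (ε ^ 2 / 4 + ε ^ 2 / 8)
    linarith
  have h5 : arcI ℓ (fun y => Real.exp (ε / 2 * (bs g q m y - ε * m))) x =
      Real.exp (-(ε ^ 2 / 2) * m) * arcI ℓ (prodF (fun y => Real.exp (ε / 2 * g y)) q m) x := by
    unfold arcI
    rw [← intervalIntegral.integral_const_mul]
    congr 1
    ext t
    rw [prodF_exp, ← Real.exp_add]
    ring_nf
  rw [h5]
  calc Real.exp (-(ε ^ 2 / 2) * m) * arcI ℓ (prodF (fun y => Real.exp (ε / 2 * g y)) q m) x
      ≤ Real.exp (-(ε ^ 2 / 2) * m) * (ℓ * (Real.exp (ε ^ 2 / 4 + ε ^ 2 / 8)) ^ m) := by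
        gcongr
        refine h1.trans ?_
        gcongr
    _ = ℓ * Real.exp (-(ε ^ 2 / 8) * m) := by
        rw [← Real.exp_nat_mul, mul_left_comm, ← Real.exp_add]
        congr 2
        ring

end Pool.Agent.TH292.MR
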