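import Pool.Agent.TH292.MR.LD

/-!
# Consequences of the large deviation estimate
-/

set_option autoImplicit false

open Set Filter Topology MeasureTheory Function
open scoped ENNReal Real NNReal

namespace Pool.Agent.TH292.MR

open Pool.Agent.TH292.Gold

/-- the data of the large deviation estimate -/
theorem ld {g : Torus → ℝ} (hg : Continuous g) (hg1 : ∀ x, |g x| ≤ 1)
    (hg0 : ∫ x, g x = 0) {ε : ℝ} (hε : 0 < ε) (hε1 : ε ≤ 1) :
    ∃ (ℓ : ℝ) (q : ℕ), 0 < ℓ ∧ 0 < q ∧
      (∀ (m : ℕ) (x : Torus), (volume.restrict (Ioc 0 ℓ)).real {t | ε * m ≤ bs g q m (x + ul t)} ≤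
        ℓ * Real.exp (-(ε ^ 2 / 8) * m)) ∧
      (∀ m : ℕ, volume.real {x | ε * m ≤ bs g q m x} ≤ Real.exp (-(ε ^ 2 / 8) * m)) := by
  obtain ⟨ℓ, q, hℓ, hq, h⟩ := exp_moment hg hg1 hg0 hε hε1
  have hEc : ∀ m : ℕ, Continuous (fun y => Real.exp (ε / 2 * (bs g q m y - ε * m))) := fun m =>
    Real.continuous_exp.comp (continuous_const.mul ((bs_cont hg q m).sub continuous_const))
  refine ⟨ℓ, q, hℓ, hq, fun m x => ?_, fun m => ?_⟩
  · have h1 := mul_meas_ge_le_integral_of_nonneg (μ := volume.restrict (Ioc 0 ℓ))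
      (f := fun t => Real.exp (ε / 2 * (bs g q m (x + ul t) - ε * m)))
      (Eventually.of_forall fun t => (Real.exp_pos _).le)
      (((comp_arc_cont (hEc m) x).integrableOn_Icc (a := 0) (b := ℓ)).mono_set Ioc_subset_Icc_self) 1
    rw [one_mul] at h1
    have h2 : {t : ℝ | ε * m ≤ bs g q m (x + ul t)} =
        {t : ℝ | (1 : ℝ) ≤ Real.exp (ε / 2 * (bs g q m (x + ul t) - ε * m))} := by
      ext t
      simp only [mem_ofPred_eq, Real.one_le_exp_iff]
      constructor
      · intro h; have : 0 ≤ bs g q m (x + ul t) - ε * m := by linarith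
        positivity
      · intro h
        have := nonneg_of_mul_nonneg_right h (by positivity : 0 < ε / 2)
        linarith
    rw [h2]
    refine h1.trans ?_
    have h3 := h m x
    unfold arcI at h3
    rwa [intervalIntegral.integral_of_le hℓ.le] at h3
  · have h1 := mul_meas_ge_le_integral_of_nonneg (μ := (volume : Measure Torus))
      (f := fun y => Real.exp (ε / 2 * (bs g q m y - ε * m)))
      (Eventually.of_forall fun t => (Real.exp_pos _).le) (integrable_cont (hEc m)) 1
    rw [one_mul] at h1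
    have h2 : {x : Torus | ε * m ≤ bs g q m x} =
        {x : Torus | (1 : ℝ) ≤ Real.exp (ε / 2 * (bs g q m x - ε * m))} := by
      ext t
      simp only [mem_ofPred_eq, Real.one_le_exp_iff]
      constructor
      · intro h; have : 0 ≤ bs g q m t - ε * m := by linarith
        positivity
      · intro h
        have := nonneg_of_mul_nonneg_right h (by positivity : 0 < ε / 2)
        linarith
    rw [h2]
    refine h1.trans ?_
    have h3 := arcI_integral (hEc m) hℓ.le
    have h4 : ∫ x, arcI ℓ (fun y => Real.exp (ε / 2 * (bs g q m y - ε * m))) x ≤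
        ∫ _x : Torus, ℓ * Real.exp (-(ε ^ 2 / 8) * m) :=
      integral_mono (integrable_cont (arcI_cont (hEc m) ℓ)) (integrable_const _) (fun x => h m x)
    rw [h3, integral_const] at h4
    simp only [probReal_univ, smul_eq_mul, one_mul] at h4
    exact le_of_mul_le_mul_left h4 hℓ

/-- on every unstable line, almost every point has small Birkhoff averages -/
theorem arc_ae {g : Torus → ℝ} (hg : Continuous g) (hg1 : ∀ x, |g x| ≤ 1)
    (hg0 : ∫ x, g x = 0) {ε : ℝ} (hε : 0 < ε) (hε1 : ε ≤ 1) :
    ∃ q : ℕ, 0 < q ∧ ∀ x : Torus, ∀ᵐ t : ℝ, ∀ᶠ m : ℕ in atTop, bs g q m (x + ul t) < ε * m := by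
  obtain ⟨ℓ, q, hℓ, hq, h, -⟩ := ld hg hg1 hg0 hε hε1
  refine ⟨q, hq, ?_⟩
  have h1 : ∀ x : Torus, ∀ᵐ t ∂(volume.restrict (Ioc 0 ℓ)), ∀ᶠ m : ℕ in atTop,
      bs g q m (x + ul t) < ε * m := by
    intro x
    have hs : ∑' m : ℕ, (volume.restrict (Ioc 0 ℓ)) {t | ε * m ≤ bs g q m (x + ul t)} ≠ ∞ := by
      have hle : ∀ m : ℕ, (volume.restrict (Ioc 0 ℓ)) {t | ε * m ≤ bs g q m (x + ul t)} ≤
          ENNReal.ofReal (ℓ * (Real.exp (-(ε ^ 2 / 8))) ^ m) := by
        intro m
        have e1 := h m x
        rw [← ENNReal.ofReal_toReal (measure_ne_top (volume.restrict (Ioc 0 ℓ))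
          {t | ε * m ≤ bs g q m (x + ul t)})]
        apply ENNReal.ofReal_le_ofReal
        refine e1.trans (le_of_eq ?_)
        rw [← Real.exp_nat_mul]
        congr 2
        ring
      refine ne_top_of_le_ne_top ?_ (ENNReal.tsum_le_tsum hle)
      rw [← ENNReal.ofReal_tsum_of_nonneg (fun m => by positivity)]
      · exact ENNReal.ofReal_ne_top
      · apply Summable.mul_left
        apply summable_geometric_of_lt_one (Real.exp_pos _).le
        rw [Real.exp_lt_one_iff]
        have : 0 < ε ^ 2 / 8 := by positivity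
        linarith
    filter_upwards [ae_eventually_notMem hs] with t ht
    filter_upwards [ht] with m hm
    simp only [mem_ofPred_eq, not_le] at hm
    exact hm
  intro x
  rw [ae_iff]
  set N : Set ℝ := {t : ℝ | ¬ ∀ᶠ m : ℕ in atTop, bs g q m (x + ul t) < ε * m} with hN
  have h2 : ∀ k : ℤ, volume (N ∩ Ioc (k * ℓ) (k * ℓ + ℓ)) = 0 := by
    intro k
    have h3 := h1 (x + ul (k * ℓ))
    rw [ae_iff, Measure.restrict_apply₀' measurableSet_Ioc.nullMeasurableSet] at h3
    have h4 : N ∩ Ioc (k * ℓ) (k * ℓ + ℓ) = (fun t => t + (-(k * ℓ))) ⁻¹'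
        ({a : ℝ | ¬ ∀ᶠ m : ℕ in atTop, bs g q m (x + ul (k * ℓ) + ul a) < ε * m} ∩ Ioc 0 ℓ) := by
      ext t
      simp only [mem_inter_iff, mem_preimage, mem_ofPred_eq, mem_Ioc, hN]
      have : x + ul (k * ℓ) + ul (t + -(k * ℓ)) = x + ul t := by
        rw [add_assoc, ← ul_add]
        congr 2
        ring
      rw [this]
      constructor
      · rintro ⟨h5, h6, h7⟩
        exact ⟨h5, by linarith, by linarith⟩
      · rintro ⟨h5, h6, h7⟩
        exact ⟨h5, by linarith, by linarith⟩
    rw [h4, measure_preimage_add_right]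
    exact h3
  have h5 : N ⊆ ⋃ k : ℤ, N ∩ Ioc (k * ℓ) (k * ℓ + ℓ) := by
    intro t ht
    obtain ⟨k, hk, -⟩ := existsUnique_add_zsmul_mem_Ioc hℓ t 0
    refine mem_iUnion.mpr ⟨-k, ht, ?_⟩
    simp only [zsmul_eq_mul, zero_add, mem_Ioc] at hk
    push_cast
    exact ⟨by linarith [hk.1], by linarith [hk.2]⟩
  exact measure_mono_null h5 (measure_iUnion_null h2)

lemma bs_integral {g : Torus → ℝ} (hg : Continuous g) {η : Measure Torus} [IsProbabilityMeasure η]
    (hη : MeasurePreserving CT η η) (q m : ℕ) : ∫ x, bs g q m x ∂η = m * ∫ x, g x ∂η := by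
  unfold bs
  rw [integral_finsetSum]
  · have : ∀ j, ∫ x, g (CT^[q * j] x) ∂η = ∫ x, g x ∂η := by
      intro j
      have h1 := hη.iterate (q * j)
      conv_rhs => rw [← h1.map_eq]
      rw [integral_map h1.measurable.aemeasurable]
      exact hg.aestronglyMeasurable
    simp [this]
  · intro j _
    exact integrable_cont (hg.comp (CT_cont.iterate _))

lemma bs_le {g : Torus → ℝ} (hg1 : ∀ x, |g x| ≤ 1) (q m : ℕ) (x : Torus) : |bs g q m x| ≤ m := by
  unfold bs
  refine (Finset.abs_sum_le_sum_abs _ _).trans ?_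
  refine (Finset.sum_le_card_nsmul _ _ 1 (fun j _ => hg1 _)).trans ?_
  simp

/-- small Birkhoff averages imply a small integral -/
lemma int_le {g : Torus → ℝ} (hg : Continuous g) (hg1 : ∀ x, |g x| ≤ 1) {η : Measure Torus}
    [IsProbabilityMeasure η] (hη : MeasurePreserving CT η η) {ε : ℝ} (hε : 0 < ε) {q : ℕ}
    (h : ∀ᵐ y ∂η, ∀ᶠ m : ℕ in atTop, bs g q m y < ε * m) : ∫ x, g x ∂η ≤ ε := by
  set u : ℕ → Torus → ℝ := fun m y => max (bs g q m y / m - ε) 0 with hu
  have hlim : Tendsto (fun m => ∫ y, u m y ∂η) atTop (𝓝 (∫ _y, (0 : ℝ) ∂η)) := by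
    apply tendsto_integral_of_dominated_convergence (fun _ => (1 : ℝ))
    · intro m
      exact (((bs_cont hg q m).div_const _ |>.sub continuous_const).max
        continuous_const).aestronglyMeasurable
    · exact integrable_const _
    · intro m
      refine Eventually.of_forall fun y => ?_
      simp only [hu]
      rw [Real.norm_eq_abs, abs_of_nonneg (le_max_right _ _)]
      apply max_le _ zero_le_one
      have h1 := (abs_le.mp (bs_le hg1 q m y)).2
      rcases Nat.eq_zero_or_pos m with rfl | hm
      · simp; linarith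
      · have : bs g q m y / m ≤ 1 := by
          rw [div_le_one (by exact_mod_cast hm)]
          exact h1
        linarith
    · filter_upwards [h] with y hy
      apply tendsto_const_nhds.congr'
      filter_upwards [hy, eventually_gt_atTop 0] with m hm hm0
      simp only [hu]
      rw [eq_comm, max_eq_right_iff]
      have : bs g q m y / m ≤ ε := by
        rw [div_le_iff₀ (by exact_mod_cast hm0)]
        exact hm.le
      linarith
  have h2 : ∀ᶠ m : ℕ in atTop, ∫ x, g x ∂η - ε ≤ ∫ y, u m y ∂η := by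
    filter_upwards [eventually_gt_atTop 0] with m hm
    have hm' : (m : ℝ) ≠ 0 := by exact_mod_cast hm.ne'
    have h3 : ∫ x, g x ∂η - ε = ∫ y, (bs g q m y / m - ε) ∂η := by
      rw [integral_sub (integrable_cont ((bs_cont hg q m).div_const _)) (integrable_const _),
        integral_div, bs_integral hg hη, integral_const]
      simp only [probReal_univ, smul_eq_mul, one_mul]
      field_simp
    rw [h3]
    apply integral_mono (integrable_cont (((bs_cont hg q m).div_const _).sub continuous_const))
      (integrable_cont ((((bs_cont hg q m).div_const _).sub continuous_const).max continuous_const))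
    intro y
    exact le_max_left _ _
  have h3 := ge_of_tendsto hlim h2
  simp only [integral_zero] at h3
  linarith

/-- a probability measure different from volume is distinguished by a test function -/
lemma exists_test {η : Measure Torus} [IsProbabilityMeasure η] (hη : η ≠ volume) :
    ∃ (g : Torus → ℝ) (ε : ℝ), Continuous g ∧ (∀ x, |g x| ≤ 1) ∧ ∫ x, g x = 0 ∧ 0 < ε ∧ ε ≤ 1 ∧
      2 * ε ≤ ∫ x, g x ∂η := by
  by_contra hcon
  push Not at hcon
  apply hη
  apply ext_of_forall_integral_eq_of_IsFiniteMeasure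
  intro f
  -- the key claim
  have key : ∀ g : Torus → ℝ, Continuous g → (∀ x, |g x| ≤ 1) → ∫ x, g x = 0 → ∫ x, g x ∂η ≤ 0 := by
    intro g hg hg1 hg0
    by_contra hpos
    push Not at hpos
    set I := ∫ x, g x ∂η with hI
    have hI1 : I ≤ 1 := by
      have := integral_mono (μ := η) (integrable_cont hg) (integrable_const (1 : ℝ))
        (fun x => (abs_le.mp (hg1 x)).2)
      simpa using this
    have := hcon g (I / 2) hg hg1 hg0 (by positivity) (by linarith)
    linarith
  have key2 : ∀ g : Torus → ℝ, Continuous g → (∀ x, |g x| ≤ 1) → ∫ x, g x = 0 → ∫ x, g x ∂η = 0 := by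
    intro g hg hg1 hg0
    apply le_antisymm (key g hg hg1 hg0)
    have := key (fun x => -g x) hg.neg (fun x => by rw [abs_neg]; exact hg1 x) (by
      rw [integral_neg, hg0, neg_zero])
    rw [integral_neg] at this
    linarith
  set c := ∫ x, f x ∂(volume : Measure Torus) with hc
  set M := 2 * ‖f‖ + 1 with hM
  have hMpos : 0 < M := by positivity
  have hfc : Continuous f := f.continuous
  have hcb : |c| ≤ ‖f‖ := by
    have := norm_integral_le_of_norm_le_const (μ := (volume : Measure Torus)) (C := ‖f‖)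
      (f := fun x => f x) (Eventually.of_forall fun x => f.norm_coe_le_norm x)
    simpa using this
  have h1 := key2 (fun x => (f x - c) / M) (by fun_prop) (fun x => by
    rw [abs_div, abs_of_pos hMpos, div_le_one hMpos]
    have h1 := f.norm_coe_le_norm x
    rw [Real.norm_eq_abs] at h1
    have h2 := abs_sub (f x) c
    linarith) (by
    rw [integral_div, integral_sub (integrable_cont hfc) (integrable_const _), integral_const, ← hc]
    simp)
  rw [integral_div, integral_sub (integrable_cont hfc) (integrable_const _), integral_const] at h1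
  simp only [probReal_univ, smul_eq_mul, one_mul] at h1
  rcases div_eq_zero_iff.mp h1 with h2 | h2
  · linarith
  · exact absurd h2 hMpos.ne'

/-- an invariant measure whose generic points are generic on unstable lines is volume -/
theorem eq_volume_of_arcs {η : Measure Torus} [IsProbabilityMeasure η]
    (hη : MeasurePreserving CT η η)
    (h : ∀ S : Set Torus, MeasurableSet S → (∀ x : Torus, ∀ᵐ t : ℝ, x + ul t ∈ S) → ∀ᵐ y ∂η, y ∈ S) :
    η = volume := by
  by_contra hne
  obtain ⟨g, ε, hg, hg1, hg0, hε, hε1, hI⟩ := exists_test hne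
  obtain ⟨q, hq, hae⟩ := arc_ae hg hg1 hg0 hε hε1
  have h1 := h {y | ∀ᶠ m : ℕ in atTop, bs g q m y < ε * m} (by
    have : {y | ∀ᶠ m : ℕ in atTop, bs g q m y < ε * m} =
        ⋃ M : ℕ, ⋂ m : ℕ, ⋂ _ : M ≤ m, {y | bs g q m y < ε * m} := by
      ext y
      simp [eventually_atTop]
    rw [this]
    refine MeasurableSet.iUnion fun M => MeasurableSet.iInter fun m => MeasurableSet.iInter fun _ => ?_
    exact measurableSet_lt (bs_cont hg q m).measurable measurable_const) hae
  have h2 := int_le hg hg1 hη hε h1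
  linarith

end Pool.Agent.TH292.MR
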