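import Pool.Agent.TH292.PH.Erg
import Pool.Agent.TH292.MR.Defs

/-!
# The cat map: elementary facts
-/

set_option autoImplicit false

open Set Filter Topology MeasureTheory Function
open scoped ContDiff ENNReal Real NNReal

namespace Pool.Agent.TH292.MR

open Pool.Agent.TH292.Gold

/-- golden ratio -/
noncomputable def ph : ℝ := Real.goldenRatio

lemma ph_sq : ph ^ 2 = ph + 1 := Real.goldenRatio_sq
lemma ph_gt : (1.618 : ℝ) < ph := by
  unfold ph Real.goldenRatio
  have : (2.236 : ℝ) < √5 := Real.lt_sqrt_of_sq_lt (by norm_num)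
  linarith
lemma ph_lt : ph < (1.6181 : ℝ) := by
  unfold ph Real.goldenRatio
  have : √5 < (2.2362 : ℝ) := (Real.sqrt_lt' (by norm_num)).mpr (by norm_num)
  linarith
lemma ph_pos : 0 < ph := by linarith [ph_gt]

/-- the expanding eigenvalue of the cat map -/
noncomputable def lam : ℝ := ph ^ 2

lemma lam_eq : lam = ph + 1 := ph_sq
lemma lam_gt : (2.618 : ℝ) < lam := by rw [lam_eq]; linarith [ph_gt]
lemma lam_lt : lam < (2.6181 : ℝ) := by rw [lam_eq]; linarith [ph_lt]
lemma lam_pos : 0 < lam := by linarith [lam_gt]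
lemma one_lt_lam : 1 < lam := by linarith [lam_gt]
lemma loglam_pos : 0 < Real.log lam := Real.log_pos one_lt_lam

/-- the cat map -/
def CT (x : Torus) : Torus := AT (AT x)
/-- its inverse -/
def CI (x : Torus) : Torus := AI (AI x)

lemma CT_CI (x : Torus) : CT (CI x) = x := by unfold CT CI; rw [AT_AI, AT_AI]
lemma CI_CT (x : Torus) : CI (CT x) = x := by unfold CT CI; rw [AI_AT, AI_AT]

lemma CT_apply (x : Torus) : CT x = (2 • x.1 + x.2, x.1 + x.2) := by
  unfold CT AT
  ext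
  · simp only; abel
  · rfl

lemma CT_cont : Continuous CT := AT_cont.comp AT_cont
lemma CI_cont : Continuous CI := AI_cont.comp AI_cont

lemma CT_iter_CI (n : ℕ) (x : Torus) : CT^[n] (CI^[n] x) = x :=
  (show LeftInverse CT CI from CT_CI).iterate n x
lemma CI_iter_CT (n : ℕ) (x : Torus) : CI^[n] (CT^[n] x) = x :=
  (show LeftInverse CI CT from CI_CT).iterate n x

lemma CT_zero : CT 0 = 0 := by rw [CT_apply]; ext <;> simp

lemma AT_add (x y : Torus) : AT (x + y) = AT x + AT y := AH.map_add x y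
lemma AT_sub (x y : Torus) : AT (x - y) = AT x - AT y := AH.map_sub x y
lemma CT_add (x y : Torus) : CT (x + y) = CT x + CT y := by unfold CT; rw [AT_add, AT_add]
lemma CT_sub (x y : Torus) : CT (x - y) = CT x - CT y := by unfold CT; rw [AT_sub, AT_sub]
lemma CI_add (x y : Torus) : CI (x + y) = CI x + CI y := by
  rw [← CI_CT (CI x + CI y), CT_add, CT_CI, CT_CI]
lemma CI_sub (x y : Torus) : CI (x - y) = CI x - CI y := by
  rw [← CI_CT (CI x - CI y), CT_sub, CT_CI, CT_CI]
lemma CI_zero : CI 0 = 0 := by have := CI_CT 0; rwa [CT_zero] at this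

lemma CT_iter_add (n : ℕ) (x y : Torus) : CT^[n] (x + y) = CT^[n] x + CT^[n] y := by
  induction n generalizing x y with
  | zero => rfl
  | succ n ih => rw [iterate_succ_apply, iterate_succ_apply, iterate_succ_apply, CT_add, ih]
lemma CT_iter_sub (n : ℕ) (x y : Torus) : CT^[n] (x - y) = CT^[n] x - CT^[n] y := by
  induction n generalizing x y with
  | zero => rfl
  | succ n ih => rw [iterate_succ_apply, iterate_succ_apply, iterate_succ_apply, CT_sub, ih]
lemma CI_iter_add (n : ℕ) (x y : Torus) : CI^[n] (x + y) = CI^[n] x + CI^[n] y := by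
  induction n generalizing x y with
  | zero => rfl
  | succ n ih => rw [iterate_succ_apply, iterate_succ_apply, iterate_succ_apply, CI_add, ih]
lemma CI_iter_sub (n : ℕ) (x y : Torus) : CI^[n] (x - y) = CI^[n] x - CI^[n] y := by
  induction n generalizing x y with
  | zero => rfl
  | succ n ih => rw [iterate_succ_apply, iterate_succ_apply, iterate_succ_apply, CI_sub, ih]

lemma mp_CT : MeasurePreserving CT (volume : Measure Torus) volume := mp_AT.comp mp_AT
lemma mp_CI : MeasurePreserving CI (volume : Measure Torus) volume := mp_AI.comp mp_AI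

instance haarT : Measure.IsAddHaarMeasure (volume : Measure Torus) :=
  inferInstanceAs (Measure.IsAddHaarMeasure
    ((volume : Measure UnitAddCircle).prod (volume : Measure UnitAddCircle)))

/-! ### growth -/

lemma AT_iter_norm (n : ℕ) (x : Torus) : ‖AT^[n] x‖ ≤ (ph + 1) * ph ^ n * ‖x‖ := by
  have hp := ph_pos
  have hp1 := ph_gt
  have key : ∀ n, ph * ‖(AT^[n] x).1‖ + ‖(AT^[n] x).2‖ ≤ ph ^ n * (ph * ‖x.1‖ + ‖x.2‖) := by
    intro n
    induction n with
    | zero => simp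
    | succ n ih =>
      rw [iterate_succ_apply']
      set y := AT^[n] x
      have h1 : ‖(AT y).1‖ ≤ ‖y.1‖ + ‖y.2‖ := norm_add_le _ _
      have h2 : ‖(AT y).2‖ = ‖y.1‖ := rfl
      calc ph * ‖(AT y).1‖ + ‖(AT y).2‖ ≤ ph * (‖y.1‖ + ‖y.2‖) + ‖y.1‖ := by
            rw [h2]; gcongr
        _ = ph * (ph * ‖y.1‖ + ‖y.2‖) := by linear_combination (-‖y.1‖) * ph_sq
        _ ≤ ph * (ph ^ n * (ph * ‖x.1‖ + ‖x.2‖)) := by gcongr
        _ = _ := by ring
  have h1 := norm_fst_le x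
  have h2 := norm_snd_le x
  have h3 : ‖AT^[n] x‖ ≤ ph * ‖(AT^[n] x).1‖ + ‖(AT^[n] x).2‖ := by
    rw [Prod.norm_def]
    have := norm_nonneg (AT^[n] x).1
    have := norm_nonneg (AT^[n] x).2
    apply max_le <;> nlinarith
  calc ‖AT^[n] x‖ ≤ ph ^ n * (ph * ‖x.1‖ + ‖x.2‖) := h3.trans (key n)
    _ ≤ ph ^ n * (ph * ‖x‖ + ‖x‖) := by gcongr
    _ = _ := by ring

lemma AI_iter_norm (n : ℕ) (x : Torus) : ‖AI^[n] x‖ ≤ (ph + 1) * ph ^ n * ‖x‖ := by
  have hp := ph_pos
  have hp1 := ph_gt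
  have key : ∀ n, ‖(AI^[n] x).1‖ + ph * ‖(AI^[n] x).2‖ ≤ ph ^ n * (‖x.1‖ + ph * ‖x.2‖) := by
    intro n
    induction n with
    | zero => simp
    | succ n ih =>
      rw [iterate_succ_apply']
      set y := AI^[n] x
      have h1 : ‖(AI y).2‖ ≤ ‖y.1‖ + ‖y.2‖ := norm_sub_le _ _
      have h2 : ‖(AI y).1‖ = ‖y.2‖ := rfl
      calc ‖(AI y).1‖ + ph * ‖(AI y).2‖ ≤ ‖y.2‖ + ph * (‖y.1‖ + ‖y.2‖) := by
            rw [h2]; gcongr
        _ = ph * (‖y.1‖ + ph * ‖y.2‖) := by linear_combination (-‖y.2‖) * ph_sq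
        _ ≤ ph * (ph ^ n * (‖x.1‖ + ph * ‖x.2‖)) := by gcongr
        _ = _ := by ring
  have h1 := norm_fst_le x
  have h2 := norm_snd_le x
  have h3 : ‖AI^[n] x‖ ≤ ‖(AI^[n] x).1‖ + ph * ‖(AI^[n] x).2‖ := by
    rw [Prod.norm_def]
    have := norm_nonneg (AI^[n] x).1
    have := norm_nonneg (AI^[n] x).2
    apply max_le <;> nlinarith
  calc ‖AI^[n] x‖ ≤ ph ^ n * (‖x.1‖ + ph * ‖x.2‖) := h3.trans (key n)
    _ ≤ ph ^ n * (‖x‖ + ph * ‖x‖) := by gcongr
    _ = _ := by ring

lemma CT_iter_eq (n : ℕ) (x : Torus) : CT^[n] x = AT^[2 * n] x := by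
  have : CT = AT^[2] := rfl
  rw [this, ← iterate_mul]
lemma CI_iter_eq (n : ℕ) (x : Torus) : CI^[n] x = AI^[2 * n] x := by
  have : CI = AI^[2] := rfl
  rw [this, ← iterate_mul]

lemma CT_iter_norm (n : ℕ) (x : Torus) : ‖CT^[n] x‖ ≤ lam ^ (n + 1) * ‖x‖ := by
  rw [CT_iter_eq]
  refine (AT_iter_norm (2 * n) x).trans (le_of_eq ?_)
  rw [pow_mul, ← lam_eq, pow_succ]
  unfold lam
  ring
lemma CI_iter_norm (n : ℕ) (x : Torus) : ‖CI^[n] x‖ ≤ lam ^ (n + 1) * ‖x‖ := by
  rw [CI_iter_eq]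
  refine (AI_iter_norm (2 * n) x).trans (le_of_eq ?_)
  rw [pow_mul, ← lam_eq, pow_succ]
  unfold lam
  ring

/-! ### the unstable one-parameter group -/

/-- the unstable one-parameter group -/
noncomputable def ul (t : ℝ) : Torus := (((ph * t : ℝ) : UnitAddCircle), (t : UnitAddCircle))

lemma ul_add (s t : ℝ) : ul (s + t) = ul s + ul t := by
  unfold ul
  ext
  · simp only [Prod.mk_add_mk]
    rw [← AddCircle.coe_add, mul_add]
  · simp only [Prod.mk_add_mk]
    rw [← AddCircle.coe_add]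

lemma ul_zero : ul 0 = 0 := by unfold ul; simp

lemma ul_neg (t : ℝ) : ul (-t) = -ul t := by
  have := ul_add t (-t)
  rw [add_neg_cancel, ul_zero] at this
  exact (neg_eq_of_add_eq_zero_right this.symm).symm

lemma ul_cont : Continuous ul := by
  unfold ul
  have h1 : Continuous fun x : ℝ => (x : UnitAddCircle) := AddCircle.continuous_mk' 1
  exact (h1.comp (by fun_prop)).prodMk h1

lemma AT_ul (t : ℝ) : AT (ul t) = ul (ph * t) := by
  unfold AT ul
  ext
  · simp only
    rw [← AddCircle.coe_add]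
    congr 1
    linear_combination -t * ph_sq
  · rfl

lemma CT_ul (t : ℝ) : CT (ul t) = ul (lam * t) := by
  unfold CT lam
  rw [AT_ul, AT_ul]
  congr 1
  ring

lemma CT_iter_ul (n : ℕ) (t : ℝ) : CT^[n] (ul t) = ul (lam ^ n * t) := by
  induction n with
  | zero => simp
  | succ n ih => rw [iterate_succ_apply', ih, CT_ul, pow_succ]; congr 1; ring

lemma CT_iter_arc (n : ℕ) (x : Torus) (t : ℝ) : CT^[n] (x + ul t) = CT^[n] x + ul (lam ^ n * t) := by
  rw [CT_iter_add, CT_iter_ul]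

lemma CI_iter_ul (n : ℕ) (t : ℝ) : CI^[n] (ul t) = ul (lam⁻¹ ^ n * t) := by
  have h : CT^[n] (ul (lam⁻¹ ^ n * t)) = ul t := by
    rw [CT_iter_ul, ← mul_assoc, ← mul_pow, mul_inv_cancel₀ lam_pos.ne', one_pow, one_mul]
  rw [← h, CI_iter_CT]

lemma CI_iter_arc (n : ℕ) (x : Torus) (t : ℝ) :
    CI^[n] (x + ul t) = CI^[n] x + ul (lam⁻¹ ^ n * t) := by
  rw [CI_iter_add, CI_iter_ul]

lemma coe_eq_iff (a b : ℝ) : (a : UnitAddCircle) = b ↔ ∃ n : ℤ, b = a + n := by
  rw [QuotientAddGroup.eq, AddSubgroup.mem_zmultiples_iff]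
  constructor
  · rintro ⟨k, hk⟩
    refine ⟨k, ?_⟩
    simp only [zsmul_eq_mul, mul_one] at hk
    linarith
  · rintro ⟨n, hn⟩
    refine ⟨n, ?_⟩
    simp only [zsmul_eq_mul, mul_one]
    linarith

lemma exists_lift (c : UnitAddCircle) : ∃ y : ℝ, (y : UnitAddCircle) = c ∧ |y| = ‖c‖ := by
  obtain ⟨x, rfl⟩ := QuotientAddGroup.mk_surjective c
  refine ⟨x - round x, ?_, ?_⟩
  · exact (coe_eq_iff _ _).mpr ⟨round x, by ring⟩
  · exact UnitAddCircle.norm_eq.symm

lemma norm_coe_le (y : ℝ) : ‖(y : UnitAddCircle)‖ ≤ |y| := by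
  rw [UnitAddCircle.norm_eq]
  have := round_le y 0
  simpa using this

lemma norm_coe_eq {y : ℝ} (h : |y| < 1 / 2) : ‖(y : UnitAddCircle)‖ = |y| := by
  rw [UnitAddCircle.norm_eq]
  have : round y = 0 := by
    rw [round_eq_zero_iff]
    rw [abs_lt] at h
    exact ⟨by linarith, by linarith⟩
  rw [this]
  simp

lemma eq_of_coe_eq {a b : ℝ} (h : (a : UnitAddCircle) = b) (hab : |b - a| < 1) : a = b := by
  obtain ⟨n, hn⟩ := (coe_eq_iff a b).mp h
  have h1 : |(n : ℝ)| < 1 := by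
    rw [hn] at hab
    simpa using hab
  have h2 : n = 0 := by
    rw [← Int.cast_abs] at h1
    have : |n| < 1 := by exact_mod_cast h1
    exact Int.abs_lt_one_iff.mp this
  rw [hn, h2]
  simp

lemma norm_ul_le (t : ℝ) : ‖ul t‖ ≤ 2 * |t| := by
  unfold ul
  rw [Prod.norm_mk]
  have h1 := norm_coe_le (ph * t)
  have h2 := norm_coe_le t
  have h3 := ph_pos
  have h4 := ph_lt
  rw [abs_mul, abs_of_pos h3] at h1
  have h5 := abs_nonneg t
  exact max_le (by nlinarith) (by linarith)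

lemma dense_ul : DenseRange ul := by
  rintro ⟨a, b⟩
  obtain ⟨b, rfl⟩ := QuotientAddGroup.mk_surjective b
  have hd : DenseRange (· • (ph : UnitAddCircle) : ℤ → UnitAddCircle) := by
    apply AddCircle.denseRange_zsmul_coe_iff.mpr
    rw [div_one]
    exact Real.goldenRatio_irrational
  have h1 := hd (a - ((ph * b : ℝ) : UnitAddCircle))
  have h2 : Continuous fun c : UnitAddCircle => ((c + ((ph * b : ℝ) : UnitAddCircle), (b : UnitAddCircle)) : Torus) := by
    fun_prop
  have h3 := map_mem_closure h2 h1 (t := range ul)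
    (by
      rintro _ ⟨n, rfl⟩
      refine ⟨b + n, ?_⟩
      unfold ul
      ext
      · simp only
        rw [← AddCircle.coe_zsmul, ← AddCircle.coe_add]
        congr 1
        rw [zsmul_eq_mul]
        ring
      · simp only
        rw [AddCircle.coe_add]
        have : ((n : ℝ) : UnitAddCircle) = 0 := by
          rw [AddCircle.coe_eq_zero_iff]
          exact ⟨n, by simp⟩
        rw [this, add_zero])
  simpa using h3

end Pool.Agent.TH292.MR
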