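import Pool.Agent.TH292.MR.Ent

/-!
# The entropy of volume under the cat map: lower bound
-/

set_option autoImplicit false

open Set Filter Topology MeasureTheory Function
open scoped ENNReal Real NNReal

namespace Pool.Agent.TH292.MR

open Pool.Agent.TH292.Gold Pool.Agent.Helper179.KS

/-- coordinates of the cat map along its eigendirections -/
lemma eig {a b a' b' : ℝ} (ha : a' = 2 * a + b) (hb : b' = a + b) :
    ph * a' + b' = lam * (ph * a + b) ∧ lam * (a' - ph * b') = a - ph * b := by
  have h := ph_sq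
  rw [lam_eq, ha, hb]
  constructor
  · linear_combination (-a) * h
  · have h3 : ph ^ 3 = 2 * ph + 1 := by
      calc ph ^ 3 = ph * ph ^ 2 := by ring
        _ = ph * (ph + 1) := by rw [h]
        _ = ph ^ 2 + ph := by ring
        _ = _ := by rw [h]; ring
    linear_combination (-(a) - 2 * b - 0 * ph) * h + 0 * h3 + (b) * h

/-- expansivity with rates -/
lemma expansive {x : Torus} {n k : ℕ} (hk : k ≤ n) (h : ∀ j ≤ n, ‖CT^[j] x‖ ≤ 1 / 8) :
    ‖CT^[k] x‖ ≤ (lam ^ k)⁻¹ + (lam ^ (n - k))⁻¹ := by
  choose a ha ha' using fun j => exists_lift (CT^[j] x).1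
  choose b hb hb' using fun j => exists_lift (CT^[j] x).2
  have hna : ∀ j ≤ n, |a j| ≤ 1 / 8 := fun j hj => by
    rw [ha']; exact (norm_fst_le _).trans (h j hj)
  have hnb : ∀ j ≤ n, |b j| ≤ 1 / 8 := fun j hj => by
    rw [hb']; exact (norm_snd_le _).trans (h j hj)
  have e1 : ∀ j, j < n → a (j + 1) = 2 * a j + b j := by
    intro j hj
    apply eq_of_coe_eq
    · rw [ha, iterate_succ_apply', CT_apply]
      simp only
      rw [← ha j, ← hb j, AddCircle.coe_add, two_mul, AddCircle.coe_add, two_nsmul]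
    · have h1 := abs_le.mp (hna j hj.le)
      have h2 := abs_le.mp (hnb j hj.le)
      have h3 := abs_le.mp (hna (j + 1) hj)
      rw [abs_lt]
      constructor <;> linarith [h1.1, h1.2, h2.1, h2.2, h3.1, h3.2]
  have e2 : ∀ j, j < n → b (j + 1) = a j + b j := by
    intro j hj
    apply eq_of_coe_eq
    · rw [hb, iterate_succ_apply', CT_apply]
      simp only
      rw [← ha j, ← hb j, AddCircle.coe_add]
    · have h1 := abs_le.mp (hna j hj.le)
      have h2 := abs_le.mp (hnb j hj.le)
      have h3 := abs_le.mp (hnb (j + 1) hj)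
      rw [abs_lt]
      constructor <;> linarith [h1.1, h1.2, h2.1, h2.2, h3.1, h3.2]
  have hL : ∀ j, 0 < lam ^ j := fun j => pow_pos lam_pos j
  -- unstable coordinate
  have e3 : ∀ i, k + i ≤ n → ph * a (k + i) + b (k + i) = lam ^ i * (ph * a k + b k) := by
    intro i
    induction i with
    | zero => intro _; simp
    | succ i ih =>
      intro hi
      have := (eig (e1 (k + i) (by omega)) (e2 (k + i) (by omega))).1
      rw [← add_assoc, this, ih (by omega), pow_succ]
      ring
  have e4 : ∀ i, i ≤ n → lam ^ i * (a i - ph * b i) = a 0 - ph * b 0 := by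
    intro i
    induction i with
    | zero => intro _; simp
    | succ i ih =>
      intro hi
      have := (eig (e1 i (by omega)) (e2 i (by omega))).2
      rw [pow_succ, mul_assoc, this, ih (by omega)]
  have hp := ph_gt
  have hp' := ph_lt
  have hbound : ∀ j ≤ n, |ph * a j + b j| ≤ 1 / 2 ∧ |a j - ph * b j| ≤ 1 / 2 := by
    intro j hj
    have h1 := abs_le.mp (hna j hj)
    have h2 := abs_le.mp (hnb j hj)
    rw [abs_le, abs_le]
    refine ⟨⟨?_, ?_⟩, ⟨?_, ?_⟩⟩ <;> nlinarith [h1.1, h1.2, h2.1, h2.2]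
  set u := ph * a k + b k with hu
  set s := a k - ph * b k with hs
  have hu' : |u| ≤ 1 / 2 * (lam ^ (n - k))⁻¹ := by
    have h1 := e3 (n - k) (by omega)
    have h2 := (hbound (k + (n - k)) (by omega)).1
    rw [h1, abs_mul, abs_of_pos (hL _)] at h2
    rw [← div_eq_mul_inv, le_div_iff₀ (hL _)]
    linarith
  have hs' : |s| ≤ 1 / 2 * (lam ^ k)⁻¹ := by
    have h1 := e4 k hk
    have h2 := (hbound 0 (by omega)).2
    rw [← h1, abs_mul, abs_of_pos (hL _)] at h2
    rw [← div_eq_mul_inv, le_div_iff₀ (hL _)]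
    linarith
  have h1 : (ph ^ 2 + 1) * a k = ph * u + s := by rw [hu, hs]; ring
  have h2 : (ph ^ 2 + 1) * b k = u - ph * s := by rw [hu, hs]; ring
  have hsq : 1 < ph ^ 2 := by nlinarith
  have i1 : |a k| ≤ |u| + |s| := by
    have h3 : |(ph ^ 2 + 1) * a k| ≤ ph * |u| + |s| := by
      rw [h1]
      refine (abs_add_le _ _).trans ?_
      rw [abs_mul, abs_of_pos ph_pos]
    rw [abs_mul, abs_of_pos (by positivity : 0 < ph ^ 2 + 1)] at h3
    nlinarith [abs_nonneg u, abs_nonneg s, abs_nonneg (a k)]
  have i2 : |b k| ≤ |u| + |s| := by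
    have h3 : |(ph ^ 2 + 1) * b k| ≤ |u| + ph * |s| := by
      rw [h2]
      refine (abs_sub _ _).trans ?_
      rw [abs_mul, abs_of_pos ph_pos]
    rw [abs_mul, abs_of_pos (by positivity : 0 < ph ^ 2 + 1)] at h3
    nlinarith [abs_nonneg u, abs_nonneg s, abs_nonneg (b k)]
  have hI1 := inv_pos.mpr (hL k)
  have hI2 := inv_pos.mpr (hL (n - k))
  rw [Prod.norm_def, ← ha' k, ← hb' k]
  apply max_le <;> linarith

/-! ### a partition into small squares -/

/-- the representative in `[0,1)` -/
noncomputable def rep (c : UnitAddCircle) : ℝ := (AddCircle.measurableEquivIco 1 0 c : ℝ)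

lemma rep_meas : Measurable rep :=
  measurable_subtype_coe.comp (AddCircle.measurableEquivIco 1 0).measurable

lemma rep_mem (c : UnitAddCircle) : rep c ∈ Ico (0 : ℝ) 1 := by
  have h := (AddCircle.measurableEquivIco 1 0 c).2
  have h2 := h.2
  simp only [zero_add] at h2
  exact ⟨h.1, h2⟩

lemma coe_rep (c : UnitAddCircle) : (rep c : UnitAddCircle) = c :=
  (AddCircle.equivIco 1 0).symm_apply_apply c

lemma rep_coe {t : ℝ} (h0 : 0 ≤ t) (h1 : t < 1) : rep (t : UnitAddCircle) = t := by
  have h := rep_mem (t : UnitAddCircle)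
  apply eq_of_coe_eq (coe_rep _)
  rw [abs_lt]
  constructor <;> linarith [h.1, h.2]

/-- floor coordinate -/
noncomputable def fl (c : UnitAddCircle) : ℕ := ⌊8 * rep c⌋₊

lemma fl_meas : Measurable fl := Nat.measurable_floor.comp (rep_meas.const_mul 8)

lemma fl_lt (c : UnitAddCircle) : fl c < 8 := by
  unfold fl
  have h := rep_mem c
  rw [Nat.floor_lt (by linarith [h.1])]
  push_cast
  linarith [h.2]

lemma fl_close {c d : UnitAddCircle} (h : fl c = fl d) : ‖c - d‖ ≤ 1 / 8 := by
  have hc := rep_mem c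
  have hd := rep_mem d
  have h1 := Nat.floor_le (by linarith [hc.1] : 0 ≤ 8 * rep c)
  have h2 := Nat.lt_floor_add_one (8 * rep c)
  have h3 := Nat.floor_le (by linarith [hd.1] : 0 ≤ 8 * rep d)
  have h4 := Nat.lt_floor_add_one (8 * rep d)
  have h5 : ⌊8 * rep c⌋₊ = ⌊8 * rep d⌋₊ := h
  rw [h5] at h1 h2
  rw [← coe_rep c, ← coe_rep d, ← AddCircle.coe_sub]
  refine (norm_coe_le _).trans ?_
  rw [abs_le]
  constructor <;> linarith

/-- the partition -/
noncomputable def sq (x : Torus) : Fin 64 := Fin.ofNat 64 (8 * fl x.1 + fl x.2)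

lemma sq_meas : Measurable sq := by
  have h : Measurable (fun x : Torus => 8 * fl x.1 + fl x.2) :=
    ((fl_meas.comp measurable_fst).const_mul 8).add (fl_meas.comp measurable_snd)
  exact (Measurable.of_discrete (f := fun n : ℕ => Fin.ofNat 64 n)).comp h

lemma sq_close {x y : Torus} (h : sq x = sq y) : ‖x - y‖ ≤ 1 / 8 := by
  have h1 := fl_lt x.1
  have h2 := fl_lt x.2
  have h3 := fl_lt y.1
  have h4 := fl_lt y.2
  have h5 : (sq x : ℕ) = sq y := by rw [h]
  unfold sq at h5
  simp only [Fin.ofNat] at h5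
  rw [Nat.mod_eq_of_lt (by omega), Nat.mod_eq_of_lt (by omega)] at h5
  rw [Prod.norm_def]
  exact max_le (fl_close (by omega)) (fl_close (by omega))

lemma atom_vol (n : ℕ) (w : Fin (n + 1) → Fin 64) :
    volume.real (itinerary CT sq (n + 1) ⁻¹' {w}) ≤ 16 * lam ^ 2 * (lam ^ (n + 1))⁻¹ := by
  have hL : ∀ j, 0 < lam ^ j := fun j => pow_pos lam_pos j
  have hpos : 0 ≤ 16 * lam ^ 2 * (lam ^ (n + 1))⁻¹ := by
    have := hL (n + 1)
    positivity
  rcases (itinerary CT sq (n + 1) ⁻¹' {w}).eq_empty_or_nonempty with h0 | ⟨x₀, hx₀⟩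
  · rw [h0]; simpa using hpos
  set k := n / 2 with hk
  have hsub : itinerary CT sq (n + 1) ⁻¹' {w} ⊆
      (CT^[k]) ⁻¹' (Metric.closedBall (CT^[k] x₀) (2 * (lam ^ k)⁻¹)) := by
    intro y hy
    have h1 : ∀ j ≤ n, ‖CT^[j] (y - x₀)‖ ≤ 1 / 8 := by
      intro j hj
      rw [CT_iter_sub]
      apply sq_close
      have e1 := congrFun (show itinerary CT sq (n + 1) y = w from hy) ⟨j, by omega⟩
      have e2 := congrFun (show itinerary CT sq (n + 1) x₀ = w from hx₀) ⟨j, by omega⟩
      rw [← e2] at e1
      exact e1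
    have h2 := expansive (n := n) (k := k) (by omega) h1
    show CT^[k] y ∈ Metric.closedBall (CT^[k] x₀) (2 * (lam ^ k)⁻¹)
    rw [Metric.mem_closedBall, dist_eq_norm, ← CT_iter_sub]
    have h3 : (lam ^ (n - k))⁻¹ ≤ (lam ^ k)⁻¹ := by
      apply inv_anti₀ (hL k)
      exact pow_le_pow_right₀ one_lt_lam.le (by omega)
    linarith
  calc volume.real (itinerary CT sq (n + 1) ⁻¹' {w})
      ≤ volume.real ((CT^[k]) ⁻¹' (Metric.closedBall (CT^[k] x₀) (2 * (lam ^ k)⁻¹))) :=
        measureReal_mono hsub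
    _ = volume.real (Metric.closedBall (CT^[k] x₀) (2 * (lam ^ k)⁻¹)) := by
        unfold Measure.real
        rw [(mp_CT.iterate k).measure_preimage Metric.isClosed_closedBall.measurableSet.nullMeasurableSet]
    _ ≤ (2 * (2 * (lam ^ k)⁻¹)) ^ 2 := by
        unfold Measure.real
        have := hL k
        exact ENNReal.toReal_le_of_le_ofReal (by positivity) (vol_closedBall_le _ (by positivity))
    _ = 16 * (lam ^ (2 * k))⁻¹ := by rw [mul_comm 2 k, pow_mul]; field_simp; norm_num
    _ ≤ 16 * lam ^ 2 * (lam ^ (n + 1))⁻¹ := by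
        rw [mul_assoc]
        gcongr
        have h1 : lam ^ (n + 1) ≤ lam ^ 2 * lam ^ (2 * k) := by
          rw [← pow_add]
          exact pow_le_pow_right₀ one_lt_lam.le (by omega)
        have := hL (n + 1)
        have := hL (2 * k)
        rw [← div_eq_mul_inv, ← one_div, div_le_div_iff₀ (by positivity) (by positivity)]
        linarith

theorem ks_vol_ge : ((Real.log lam : ℝ) : EReal) ≤ ksEntropy (volume : Measure Torus) CT := by
  have hL : ∀ j, 0 < lam ^ j := fun j => pow_pos lam_pos j
  have h1 : ∀ n : ℕ, (n + 1 : ℝ) * Real.log lam - Real.log (16 * lam ^ 2) ≤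
      shannonEntropy (volume : Measure Torus) (itinerary CT sq (n + 1)) := by
    intro n
    set c : ℝ := 16 * lam ^ 2 * (lam ^ (n + 1))⁻¹ with hc
    have hlp := lam_pos
    have hcpos : 0 < c := by have := hL (n + 1); positivity
    have h2 : ∀ w, volume.real (itinerary CT sq (n + 1) ⁻¹' {w}) * (-Real.log c) ≤
        Real.negMulLog (volume.real (itinerary CT sq (n + 1) ⁻¹' {w})) := by
      intro w
      have h3 := atom_vol n w
      have hp0 : 0 ≤ volume.real (itinerary CT sq (n + 1) ⁻¹' {w}) := measureReal_nonneg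
      revert h3 hp0
      generalize volume.real (itinerary CT sq (n + 1) ⁻¹' {w}) = p
      intro h3 hp0
      rcases hp0.eq_or_lt with h0 | h0
      · rw [← h0]; simp
      · unfold Real.negMulLog
        have := Real.log_le_log h0 h3
        nlinarith
    have h4 := Finset.sum_le_sum (s := Finset.univ) (fun w _ => h2 w)
    rw [← Finset.sum_mul, sum_measureReal_preimage _ (measurable_itinerary CT_cont.measurable
      sq_meas (n + 1)), one_mul] at h4
    have h5 : -Real.log c = (n + 1 : ℝ) * Real.log lam - Real.log (16 * lam ^ 2) := by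
      rw [hc, Real.log_mul (by positivity) (inv_ne_zero (hL _).ne'), Real.log_inv, Real.log_pow]
      push_cast
      ring
    rw [← h5]
    exact h4
  have h2 : ((Real.log lam : ℝ) : EReal) ≤ partitionEntropy (volume : Measure Torus) CT sq := by
    apply le_of_forall_lt_imp_le_of_dense
    intro b hb
    induction b using EReal.rec with
    | bot => exact bot_le
    | top => exact absurd hb (by simp)
    | coe b =>
      have hb' : b < Real.log lam := by exact_mod_cast hb
      unfold partitionEntropy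
      apply le_limsup_of_frequently_le _ (by isBoundedDefault)
      apply Eventually.frequently
      have h3 : Tendsto (fun n : ℕ => Real.log (16 * lam ^ 2) / (n : ℝ)) atTop (𝓝 0) :=
        tendsto_const_div_atTop_nhds_zero_nat _
      filter_upwards [h3.eventually_lt_const (by linarith : (0 : ℝ) < Real.log lam - b),
        eventually_gt_atTop 0] with n hn hn0
      obtain ⟨n, rfl⟩ : ∃ m, n = m + 1 := ⟨n - 1, by omega⟩
      have h4 := h1 n
      have hn' : (0 : ℝ) < ((n + 1 : ℕ) : ℝ) := by positivity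
      have : b ≤ shannonEntropy (volume : Measure Torus) (itinerary CT sq (n + 1)) /
          ((n + 1 : ℕ) : ℝ) := by
        rw [le_div_iff₀ hn']
        rw [div_lt_iff₀ hn'] at hn
        push_cast at *
        linarith
      exact_mod_cast this
  refine h2.trans ?_
  unfold ksEntropy
  exact le_iSup_of_le 64 (le_iSup_of_le sq (le_iSup_of_le sq_meas le_rfl))

end Pool.Agent.TH292.MR
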