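import Pool.Agent.TH292.MR.VPS
import Pool.Agent.Helper179.KSSharp

/-!
# The variational principle for the entropy of continuous maps of compact metric spaces
-/

set_option autoImplicit false

open Set Filter Topology MeasureTheory Function
open scoped ENNReal NNReal BoundedContinuousFunction

namespace Pool.Agent.TH292.VP

open Pool.Agent.Helper179.KS

lemma frontier_iInter {Y ι : Type*} [TopologicalSpace Y] [Finite ι] (A : ι → Set Y) :
    frontier (⋂ i, A i) ⊆ ⋃ i, frontier (A i) := by
  intro x hx
  by_contra hcon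
  simp only [mem_iUnion, not_exists] at hcon
  by_cases h : ∀ i, x ∈ interior (A i)
  · have h1 : x ∈ interior (⋂ i, A i) := by
      rw [interior_iInter_of_finite]; exact mem_iInter.mpr h
    exact hx.2 h1
  · push Not at h
    obtain ⟨i, hi⟩ := h
    have h2 : x ∉ closure (A i) := fun h3 => hcon i ⟨h3, hi⟩
    exact h2 (closure_mono (iInter_subset A i) hx.1)

lemma shannon_map' {Y Z ι : Type*} [MeasurableSpace Y] [MeasurableSpace Z] [Fintype ι]
    [MeasurableSpace ι] [MeasurableSingletonClass ι]
    {μ : Measure Y} {g : Y → Z} (hg : Measurable g) {P : Z → ι} (hP : Measurable P) :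
    shannonEntropy (μ.map g) P = shannonEntropy μ (fun x => P (g x)) := by
  unfold shannonEntropy
  apply Finset.sum_congr rfl
  intro i _
  congr 1
  rw [map_measureReal_apply hg (hP (measurableSet_singleton i))]
  rfl

variable {X : Type} [MetricSpace X] [CompactSpace X] [MeasurableSpace X] [BorelSpace X]

/-- a finite partition into small sets with null boundaries -/
lemma exists_partition (η : Measure X) [IsProbabilityMeasure η] {ε : ℝ} (hε : 0 < ε) :
    ∃ (k : ℕ) (P : X → Fin k), Measurable P ∧ (∀ x y, P x = P y → dist x y < ε) ∧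
      ∀ i, η (frontier (P ⁻¹' {i})) = 0 := by
  classical
  have h1 : ∀ x : X, ∃ r ∈ Ioo (ε / 4) (ε / 2), η (frontier (Metric.ball x r)) = 0 := by
    intro x
    obtain ⟨r, hr, hr'⟩ := exists_null_frontier_thickening η {x} (show ε / 4 < ε / 2 by linarith)
    rw [Metric.thickening_singleton] at hr'
    exact ⟨r, hr, hr'⟩
  choose r hr hr0 using h1
  obtain ⟨t, ht⟩ := isCompact_univ.elim_finite_subcover (fun x : X => Metric.ball x (r x))
    (fun x => Metric.isOpen_ball)
    (fun x _ => mem_iUnion.mpr ⟨x, Metric.mem_ball_self (by linarith [(hr x).1])⟩)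
  let Q : X → (t → Bool) := fun x i => if x ∈ Metric.ball (i : X) (r i) then true else false
  have hQm : Measurable Q := measurable_pi_lambda _ (fun i =>
    Measurable.ite Metric.isOpen_ball.measurableSet measurable_const measurable_const)
  let e := Fintype.equivFin (t → Bool)
  refine ⟨Fintype.card (t → Bool), fun x => e (Q x), (measurable_of_countable e).comp hQm, ?_, ?_⟩
  · intro x y hxy
    have h2 : Q x = Q y := e.injective hxy
    obtain ⟨c, hc⟩ := mem_iUnion.mp (ht (mem_univ x))
    obtain ⟨hct, hxc⟩ := mem_iUnion.mp hc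
    have h3 : (if x ∈ Metric.ball c (r c) then true else false) =
        (if y ∈ Metric.ball c (r c) then true else false) := congrFun h2 ⟨c, hct⟩
    rw [if_pos hxc] at h3
    have hyc : y ∈ Metric.ball c (r c) := by
      by_contra hy
      rw [if_neg hy] at h3
      exact Bool.noConfusion h3
    rw [Metric.mem_ball] at hxc hyc
    have := dist_triangle_right x y c
    linarith [(hr c).2]
  · intro i
    have h2 : (fun x => e (Q x)) ⁻¹' {i} = ⋂ c : t, (if e.symm i c then Metric.ball (c : X) (r c)
        else (Metric.ball (c : X) (r c))ᶜ) := by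
      ext x
      simp only [mem_preimage, mem_singleton_iff, mem_iInter]
      rw [← Equiv.eq_symm_apply]
      constructor
      · intro h3 c
        rw [← h3]
        show x ∈ if (if x ∈ Metric.ball (c : X) (r c) then true else false) = true then _ else _
        by_cases hx : x ∈ Metric.ball (c : X) (r c)
        · simp only [if_pos hx, if_true]; exact hx
        · simp only [if_neg hx]; exact hx
      · intro h3
        funext c
        have h4 := h3 c
        show (if x ∈ Metric.ball (c : X) (r c) then true else false) = e.symm i c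
        cases h5 : e.symm i c
        · rw [h5] at h4
          have : x ∉ Metric.ball (c : X) (r c) := by simpa using h4
          rw [if_neg this]
        · rw [h5] at h4
          have : x ∈ Metric.ball (c : X) (r c) := by simpa using h4
          rw [if_pos this]
    rw [h2]
    apply measure_mono_null (frontier_iInter _)
    rw [measure_iUnion_null_iff]
    intro c
    by_cases h5 : e.symm i c = true
    · simp only [h5, if_true]
      exact hr0 _
    · simp only [h5]
      rw [if_neg (by simp), frontier_compl]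
      exact hr0 _

/-- the key step of Misiurewicz's proof -/
theorem exists_measure_of_nets {T : X → X} (hT : Continuous T) {ε b : ℝ} (hε : 0 < ε)
    (hfreq : ∃ᶠ n : ℕ in atTop, ∃ S : Finset X, Real.exp (b * n) ≤ S.card ∧
      ∀ x ∈ S, ∀ y ∈ S, x ≠ y → ∃ j < n, ε ≤ dist (T^[j] x) (T^[j] y)) :
    ∃ η : Measure X, IsProbabilityMeasure η ∧ MeasurePreserving T η η ∧
      (b : EReal) ≤ ksEntropy η T := by
  classical
  set G : Set ℕ := {n | ∃ S : Finset X, Real.exp (b * n) ≤ S.card ∧
      ∀ x ∈ S, ∀ y ∈ S, x ≠ y → ∃ j < n, ε ≤ dist (T^[j] x) (T^[j] y)} with hG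
  have hTi : ∀ j, Continuous T^[j] := fun j => hT.iterate j
  -- a base point
  obtain ⟨n₀, S₀, hS₀, -⟩ := hfreq.exists
  have hS₀' : (0 : ℝ) < S₀.card := (Real.exp_pos _).trans_le hS₀
  have hS₀ne : S₀.Nonempty := by
    rw [← Finset.card_pos]; exact_mod_cast hS₀'
  obtain ⟨x₀, -⟩ := hS₀ne
  have hex : ∀ n, ∃ S : Finset X, S.Nonempty ∧ (n ∈ G → Real.exp (b * n) ≤ S.card ∧
      ∀ x ∈ S, ∀ y ∈ S, x ≠ y → ∃ j < n, ε ≤ dist (T^[j] x) (T^[j] y)) := by
    intro n
    by_cases hn : n ∈ G
    · obtain ⟨S, h1, h2⟩ := hn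
      refine ⟨S, ?_, fun _ => ⟨h1, h2⟩⟩
      have : (0 : ℝ) < S.card := (Real.exp_pos _).trans_le h1
      rw [← Finset.card_pos]; exact_mod_cast this
    · exact ⟨{x₀}, Finset.singleton_nonempty _, fun h => absurd h hn⟩
  choose S hSne hS using hex
  have hσ : ∀ n, IsProbabilityMeasure (unif (S n)) := fun n => unif_prob (hSne n)
  have hσj : ∀ n j, IsProbabilityMeasure ((unif (S n)).map T^[j]) := fun n j =>
    Measure.isProbabilityMeasure_map (hTi j).measurable.aemeasurable
  -- the empirical measures
  have hexν : ∀ n : ℕ, ∃ ν : ProbabilityMeasure X, 0 < n → (ν : Measure X) =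
      (n : ℝ≥0∞)⁻¹ • ∑ j ∈ Finset.range n, (unif (S n)).map T^[j] := by
    intro n
    rcases Nat.eq_zero_or_pos n with h0 | h0
    · exact ⟨⟨Measure.dirac x₀, inferInstance⟩, fun h => by omega⟩
    · refine ⟨⟨(n : ℝ≥0∞)⁻¹ • ∑ j ∈ Finset.range n, (unif (S n)).map T^[j], ⟨?_⟩⟩, fun _ => rfl⟩
      rw [Measure.smul_apply, Measure.finsetSum_apply]
      simp only [measure_univ, Finset.sum_const, Finset.card_range, nsmul_eq_mul, mul_one, smul_eq_mul]
      apply ENNReal.inv_mul_cancel
      · exact_mod_cast h0.ne'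
      · simp
  choose ν hν using hexν
  -- measures of sets and integrals
  have hreal : ∀ n : ℕ, 0 < n → ∀ A : Set X,
      (ν n : Measure X).real A = (n : ℝ)⁻¹ * ∑ j ∈ Finset.range n, ((unif (S n)).map T^[j]).real A := by
    intro n hn A
    rw [hν n hn]
    unfold Measure.real
    rw [Measure.smul_apply, Measure.finsetSum_apply, smul_eq_mul, ENNReal.toReal_mul,
      ENNReal.toReal_inv, ENNReal.toReal_natCast, ENNReal.toReal_sum]
    intro j _
    exact measure_ne_top _ _
  have hint : ∀ n : ℕ, 0 < n → ∀ g : X →ᵇ ℝ, ∫ x, g x ∂(ν n : Measure X) =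
      (n : ℝ)⁻¹ * ∑ j ∈ Finset.range n, ∫ x, g (T^[j] x) ∂(unif (S n)) := by
    intro n hn g
    rw [hν n hn, integral_smul_measure, integral_finsetSum_measure, ENNReal.toReal_inv,
      ENNReal.toReal_natCast, smul_eq_mul]
    · congr 1
      apply Finset.sum_congr rfl
      intro j _
      rw [integral_map (hTi j).measurable.aemeasurable g.continuous.aestronglyMeasurable]
    · intro j _
      exact g.integrable _
  -- the limit
  have hne : NeBot (atTop ⊓ 𝓟 G) := Filter.frequently_iff_neBot.mp hfreq
  set 𝒰 : Ultrafilter ℕ := Ultrafilter.of (atTop ⊓ 𝓟 G) with h𝒰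
  have h𝒰le : (𝒰 : Filter ℕ) ≤ atTop ⊓ 𝓟 G := Ultrafilter.of_le _
  have h𝒰top : (𝒰 : Filter ℕ) ≤ atTop := h𝒰le.trans inf_le_left
  have h𝒰G : ∀ᶠ n in (𝒰 : Filter ℕ), n ∈ G := h𝒰le.trans inf_le_right (mem_principal_self G)
  obtain ⟨η, -, hη⟩ := isCompact_univ.ultrafilter_le_nhds (𝒰.map ν) (by simp)
  have hlim : Tendsto ν 𝒰 (𝓝 η) := hη
  have hpos : ∀ᶠ n in (𝒰 : Filter ℕ), 0 < n := h𝒰top (eventually_gt_atTop 0)
  have hinv0 : Tendsto (fun n : ℕ => (n : ℝ)⁻¹) 𝒰 (𝓝 0) :=
    (tendsto_inv_atTop_zero.comp tendsto_natCast_atTop_atTop).mono_left h𝒰top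
  have hηprob : IsProbabilityMeasure (η : Measure X) := inferInstance
  -- invariance
  have hmp : MeasurePreserving T (η : Measure X) (η : Measure X) := by
    refine ⟨hT.measurable, ?_⟩
    have : IsProbabilityMeasure ((η : Measure X).map T) :=
      Measure.isProbabilityMeasure_map hT.measurable.aemeasurable
    apply ext_of_forall_integral_eq_of_IsFiniteMeasure
    intro g
    rw [integral_map hT.measurable.aemeasurable g.continuous.aestronglyMeasurable]
    have h1 := (ProbabilityMeasure.tendsto_iff_forall_integral_tendsto.mp hlim) g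
    have h2 := (ProbabilityMeasure.tendsto_iff_forall_integral_tendsto.mp hlim)
      (g.compContinuous ⟨T, hT⟩)
    have h3 : Tendsto (fun n => ∫ x, (g.compContinuous ⟨T, hT⟩) x ∂(ν n : Measure X) -
        ∫ x, g x ∂(ν n : Measure X)) 𝒰 (𝓝 0) := by
      have hb : Tendsto (fun n : ℕ => (n : ℝ)⁻¹ * (2 * ‖g‖)) 𝒰 (𝓝 0) := by
        have := hinv0.mul_const (2 * ‖g‖)
        rwa [zero_mul] at this
      apply squeeze_zero_norm' _ hb
      filter_upwards [hpos] with n hn
      have hn' : (0 : ℝ) < n := by exact_mod_cast hn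
      rw [hint n hn, hint n hn, ← mul_sub, ← Finset.sum_sub_distrib]
      have h4 : ∑ j ∈ Finset.range n, ((∫ x, (g.compContinuous ⟨T, hT⟩) (T^[j] x) ∂(unif (S n))) -
          ∫ x, g (T^[j] x) ∂(unif (S n))) = (∫ x, g (T^[n] x) ∂(unif (S n))) - ∫ x, g (T^[0] x) ∂(unif (S n)) := by
        rw [← Finset.sum_range_sub (fun j => ∫ x, g (T^[j] x) ∂(unif (S n)))]
        apply Finset.sum_congr rfl
        intro j _
        congr 1
        apply integral_congr_ae
        filter_upwards with x
        rw [iterate_succ_apply']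
        rfl
      rw [h4, norm_mul, norm_inv, Real.norm_natCast]
      gcongr
      have h5 : ∀ j, ‖∫ x, g (T^[j] x) ∂(unif (S n))‖ ≤ ‖g‖ := by
        intro j
        have := norm_integral_le_of_norm_le_const (μ := unif (S n)) (f := fun x => g (T^[j] x))
          (C := ‖g‖) (Eventually.of_forall fun x => g.norm_coe_le_norm _)
        simpa using this
      refine (norm_sub_le _ _).trans ?_
      linarith [h5 n, h5 0]
    have h6 := tendsto_nhds_unique (h2.sub h1) h3
    have h7 := sub_eq_zero.mp h6
    exact h7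
  refine ⟨(η : Measure X), hηprob, hmp, ?_⟩
  -- the partition
  obtain ⟨k, P, hP, hPε, hPfr⟩ := exists_partition (η : Measure X) hε
  have hk : 1 ≤ k := Nat.one_le_iff_ne_zero.mpr (fun h0 => (Fin.elim0 (h0 ▸ P x₀)))
  have hTm := hT.measurable
  have hword : ∀ (q : ℕ) (w : Fin q → Fin k),
      (η : Measure X) (frontier (itinerary T P q ⁻¹' {w})) = 0 := by
    intro q w
    have h1 : itinerary T P q ⁻¹' {w} = ⋂ j : Fin q, T^[j] ⁻¹' (P ⁻¹' {w j}) := by
      ext x
      simp only [mem_preimage, mem_singleton_iff, mem_iInter]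
      exact funext_iff
    rw [h1]
    apply measure_mono_null (frontier_iInter _)
    rw [measure_iUnion_null_iff]
    intro j
    apply measure_mono_null ((hTi j).frontier_preimage_subset _)
    rw [(hmp.iterate j).measure_preimage isClosed_frontier.measurableSet.nullMeasurableSet]
    exact hPfr _
  have hlimq : ∀ q : ℕ, Tendsto (fun n => shannonEntropy (ν n : Measure X) (itinerary T P q)) 𝒰
      (𝓝 (shannonEntropy (η : Measure X) (itinerary T P q))) := by
    intro q
    unfold shannonEntropy
    apply tendsto_finsetSum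
    intro w _
    apply (Real.continuous_negMulLog.tendsto _).comp
    have h1 := ProbabilityMeasure.tendsto_measure_of_null_frontier_of_tendsto' hlim (hword q w)
    exact (ENNReal.tendsto_toReal (measure_ne_top _ _)).comp h1
  have hmain : ∀ q : ℕ, 0 < q → q * b ≤ shannonEntropy (η : Measure X) (itinerary T P q) := by
    intro q hq
    have h1 : Tendsto (fun n : ℕ => shannonEntropy (ν n : Measure X) (itinerary T P q) +
        (n : ℝ)⁻¹ * (3 * q ^ 2 * Real.log k)) 𝒰
        (𝓝 (shannonEntropy (η : Measure X) (itinerary T P q) + 0 * (3 * q ^ 2 * Real.log k))) :=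
      (hlimq q).add (hinv0.mul_const _)
    rw [zero_mul, add_zero] at h1
    apply ge_of_tendsto h1
    filter_upwards [hpos, h𝒰G, h𝒰top (eventually_ge_atTop q)] with n hn hnG hnq
    have hn' : (0 : ℝ) < n := by exact_mod_cast hn
    obtain ⟨h2, h3⟩ := hS n hnG
    have hinj : InjOn (fun x => itinerary T P n (T^[0] x)) (S n) := by
      intro x hx y hy hxy
      by_contra hne'
      obtain ⟨j, hj, hj'⟩ := h3 x hx y hy hne'
      have h4 : P (T^[j] x) = P (T^[j] y) := congrFun hxy ⟨j, hj⟩
      have h5 := hPε _ _ h4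
      linarith
    have h4 := log_card_le (hSne n) (win_meas hTm hP 0 n) hinj
    have h5 : b * n ≤ Real.log (S n).card := by
      rw [← Real.log_exp (b * n)]
      exact Real.log_le_log (Real.exp_pos _) h2
    have h6 := win_main (μ := unif (S n)) hTm hP hk q n hq hnq
    have h7 : ∑ j ∈ Finset.range n, win (unif (S n)) T P j q ≤
        n * shannonEntropy (ν n : Measure X) (itinerary T P q) := by
      have h8 : ∀ j, win (unif (S n)) T P j q = shannonEntropy ((unif (S n)).map T^[j]) (itinerary T P q) := by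
        intro j
        rw [shannon_map' (hTi j).measurable (measurable_itinerary hTm hP q)]
        rfl
      simp only [h8]
      have := hσj n
      exact shannon_concave hn (fun j => (unif (S n)).map T^[j]) (ν n : Measure X)
        (fun i => hreal n hn _)
    have h8 : (q : ℝ) * (b * n) ≤ q * win (unif (S n)) T P 0 n := by
      gcongr
      exact h5.trans h4
    have h9 : n * (q * b) ≤ n * (shannonEntropy (ν n : Measure X) (itinerary T P q) +
        (n : ℝ)⁻¹ * (3 * q ^ 2 * Real.log k)) := by
      rw [mul_add, ← mul_assoc (n : ℝ) (n : ℝ)⁻¹, mul_inv_cancel₀ hn'.ne', one_mul]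
      linarith
    exact le_of_mul_le_mul_left h9 hn'
  -- conclusion
  have hpart : (b : EReal) ≤ partitionEntropy (η : Measure X) T P := by
    unfold partitionEntropy
    apply le_limsup_of_frequently_le
    · apply Eventually.frequently
      filter_upwards [eventually_gt_atTop 0] with q hq
      have hq' : (0 : ℝ) < q := by exact_mod_cast hq
      rw [EReal.coe_le_coe_iff, le_div_iff₀ hq', mul_comm]
      exact hmain q hq
    · isBoundedDefault
  exact hpart.trans (le_iSup_of_le k (le_iSup_of_le P (le_iSup_of_le hP le_rfl)))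

/-- Misiurewicz's half of the variational principle. -/
theorem coverEntropy_le {T : X → X} (hT : Continuous T) {c : ℝ}
    (h : ∀ η : Measure X, IsProbabilityMeasure η → MeasurePreserving T η η →
      ksEntropy η T ≤ (c : EReal)) :
    Dynamics.coverEntropy T univ ≤ (c : EReal) := by
  rw [Dynamics.coverEntropy_eq_iSup_netEntropyEntourage]
  refine iSup₂_le fun U hU => ?_
  by_contra hcon
  push Not at hcon
  obtain ⟨b, hb1, hb2⟩ := EReal.lt_iff_exists_real_btwn.mp hcon
  have hcb : c < b := by exact_mod_cast hb1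
  obtain ⟨ε, hε, hεU⟩ := Metric.mem_uniformity_dist.mp hU
  have hfreq := ExpGrowth.frequently_exp_le hb2
  obtain ⟨η, hη1, hη2, hη3⟩ := exists_measure_of_nets hT hε (b := b) (by
    refine hfreq.mono fun n hn => ?_
    have hnet : ∀ S : Finset X, Dynamics.IsDynNetIn T univ U n S →
        ∀ x ∈ S, ∀ y ∈ S, x ≠ y → ∃ j < n, ε ≤ dist (T^[j] x) (T^[j] y) := by
      intro S hS x hx y hy hxy
      by_contra hcon2
      push Not at hcon2
      have h1 := hS.2 hx hy hxy
      have h2 : y ∈ UniformSpace.ball x (Dynamics.dynEntourage T U n) := by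
        rw [Dynamics.mem_ball_dynEntourage]
        intro j hj
        exact hεU (hcon2 j hj)
      have h3 : y ∈ UniformSpace.ball y (Dynamics.dynEntourage T U n) := by
        rw [Dynamics.mem_ball_dynEntourage]
        intro j hj
        exact hεU (by rw [dist_self]; exact hε)
      exact Set.disjoint_left.mp h1 h2 h3
    have hexp : EReal.exp ((b : EReal) * (n : EReal)) = ENNReal.ofReal (Real.exp (b * n)) := by
      have : ((b : EReal) * (n : EReal)) = ((b * n : ℝ) : EReal) := by push_cast; rfl
      rw [this, EReal.exp_coe]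
    rw [hexp] at hn
    rcases eq_or_ne (Dynamics.netMaxcard T univ U n) ⊤ with htop | htop
    · obtain ⟨S, hS1, hS2⟩ := (Dynamics.netMaxcard_infinite_iff T univ U n).mp htop ⌈Real.exp (b * n)⌉₊
      refine ⟨S, ?_, hnet S hS1⟩
      exact (Nat.le_ceil _).trans (by exact_mod_cast hS2)
    · obtain ⟨S, hS1, hS2⟩ := (Dynamics.netMaxcard_finite_iff T univ U n).mp
        (lt_top_iff_ne_top.mpr htop)
      refine ⟨S, ?_, hnet S hS1⟩
      rw [← hS2] at hn
      rw [ENat.toENNReal_coe] at hn
      exact ENNReal.ofReal_le_natCast.mp hn)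
  have h5 := hη3.trans (h η hη1 hη2)
  have h6 : b ≤ c := by exact_mod_cast h5
  linarith

lemma card_bound (S : ℕ → ℕ) {a : ℝ} (ha0 : 0 < a) {N : ℕ}
    (hN : ∀ n ≥ N, (S n : ℝ) ≤ Real.exp (a * n)) (n : ℕ) :
    (S n : ℝ) ≤ (1 + ∑ n ∈ Finset.range N, (S n : ℝ)) * Real.exp a ^ n := by
  have hexp1 : 1 ≤ Real.exp a ^ n := one_le_pow₀ (Real.one_le_exp ha0.le)
  have hsum : 0 ≤ ∑ n ∈ Finset.range N, (S n : ℝ) := by positivity
  rcases lt_or_ge n N with h4 | h4
  · have h5 : (S n : ℝ) ≤ ∑ n ∈ Finset.range N, (S n : ℝ) :=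
      Finset.single_le_sum (f := fun n => (S n : ℝ)) (fun _ _ => by positivity)
        (Finset.mem_range.mpr h4)
    nlinarith
  · have h6 := hN n h4
    have h7 : Real.exp (a * n) = Real.exp a ^ n := by
      rw [mul_comm, Real.exp_nat_mul]
    rw [h7] at h6
    nlinarith

lemma exp_mul_nat (a : ℝ) (n : ℕ) :
    EReal.exp ((a : EReal) * (n : EReal)) = ENNReal.ofReal (Real.exp (a * n)) := by
  have : ((a : EReal) * (n : EReal)) = ((a * n : ℝ) : EReal) := by push_cast; rfl
  rw [this, EReal.exp_coe]

lemma exists_cover {T : X → X} (hT : Continuous T) {a : ℝ} (ha0 : 0 < a)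
    (ha1 : Dynamics.coverEntropy T univ < (a : EReal)) {ε : ℝ} (hε : 0 < ε) :
    ∃ C : ℝ, 0 < C ∧ ∀ n : ℕ, ∃ (ι : Type) (_ : Fintype ι) (A : ι → Set X),
      (Fintype.card ι : ℝ) ≤ C * (Real.exp a) ^ n ∧ univ ⊆ ⋃ i, A i ∧
      ∀ i, ∀ x ∈ A i, ∀ y ∈ A i, ∀ j < n, dist (T^[j] x) (T^[j] y) < ε := by
  set U : Set (X × X) := {p | dist p.1 p.2 < ε / 2} with hU
  have hUm : U ∈ uniformity X := Metric.dist_mem_uniformity (half_pos hε)
  have h2 : Dynamics.coverEntropyEntourage T univ U < a :=
    lt_of_le_of_lt (Dynamics.coverEntropyEntourage_le_coverEntropy T univ hUm) ha1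
  have h3 := ExpGrowth.eventually_le_exp h2
  obtain ⟨N, hN⟩ := eventually_atTop.mp h3
  have hfin : ∀ n, Dynamics.coverMincard T univ U n < ⊤ := fun n =>
    Dynamics.coverMincard_finite_of_isCompact_uniformContinuous isCompact_univ
      (CompactSpace.uniformContinuous_of_continuous hT) hUm n
  choose S hS1 hS2 using fun n => (Dynamics.coverMincard_finite_iff T univ U n).mp (hfin n)
  refine ⟨1 + ∑ n ∈ Finset.range N, ((S n).card : ℝ), add_pos_of_pos_of_nonneg one_pos
    (Finset.sum_nonneg fun _ _ => Nat.cast_nonneg _), fun n => ?_⟩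
  refine ⟨S n, inferInstance, fun x => {y | ∀ j < n, dist (T^[j] y) (T^[j] (x : X)) < ε / 2}, ?_, ?_, ?_⟩
  · rw [Fintype.card_coe]
    refine card_bound (fun n => (S n).card) ha0 (N := N) (fun n hn => ?_) n
    have h5 := hN n hn
    rw [exp_mul_nat, ← hS2 n, ENat.toENNReal_coe] at h5
    have h8 := (ENNReal.le_ofReal_iff_toReal_le (ENNReal.natCast_ne_top _) (Real.exp_pos _).le).mp h5
    rwa [ENNReal.toReal_natCast] at h8
  · intro y _
    obtain ⟨x, hx1, hx2⟩ := hS1 n (mem_univ y)
    refine mem_iUnion.mpr ⟨⟨x, hx1⟩, fun j hj => ?_⟩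
    have h4 := (Dynamics.mem_dynEntourage.mp hx2) j hj
    exact h4
  · intro i x hx y hy j hj
    have h4 := hx j hj
    have h5 := hy j hj
    have h6 := dist_triangle_right (T^[j] x) (T^[j] y) (T^[j] (i : X))
    linarith

/-- Goodwyn's half of the variational principle. -/
theorem ksEntropy_le_coverEntropy {T : X → X} (hT : Continuous T) (η : Measure X)
    [IsProbabilityMeasure η] (hη : MeasurePreserving T η η) :
    ksEntropy η T ≤ Dynamics.coverEntropy T univ := by
  have hX : Nonempty X := by
    by_contra h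
    rw [not_nonempty_iff] at h
    have h1 := measure_univ (μ := η)
    rw [univ_eq_empty_iff.mpr h, measure_empty] at h1
    exact zero_ne_one h1
  have hnn : 0 ≤ Dynamics.coverEntropy T univ := Dynamics.coverEntropy_nonneg T univ_nonempty
  apply le_of_forall_gt
  intro a' ha'
  obtain ⟨a, ha1, ha2⟩ := EReal.lt_iff_exists_real_btwn.mp ha'
  refine lt_of_le_of_lt ?_ ha2
  have ha0 : (0 : ℝ) < a := by
    have := lt_of_le_of_lt hnn ha1
    exact_mod_cast this
  have h1 := ksEntropy_le_log_of_cover η hη univ (Eventually.of_forall fun x => mem_univ x)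
    (Real.exp a) (Real.one_le_exp ha0.le) (fun ε hε => exists_cover hT ha0 ha1 hε)
  rw [Real.log_exp] at h1
  exact h1

/-- The variational principle. -/
theorem variational_principle {T : X → X} (hT : Continuous T) :
    Dynamics.coverEntropy T univ =
      ⨆ (η : Measure X) (_ : IsProbabilityMeasure η) (_ : MeasurePreserving T η η), ksEntropy η T := by
  apply le_antisymm
  · apply le_of_forall_gt
    intro a' ha'
    obtain ⟨a, ha1, ha2⟩ := EReal.lt_iff_exists_real_btwn.mp ha'
    refine lt_of_le_of_lt (coverEntropy_le hT (c := a) fun η h1 h2 => ?_) ha2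
    refine le_trans ?_ ha1.le
    exact le_iSup_of_le η (le_iSup_of_le h1 (le_iSup_of_le h2 le_rfl))
  · refine iSup_le fun η => iSup_le fun h1 => iSup_le fun h2 => ?_
    exact ksEntropy_le_coverEntropy hT η h2

end Pool.Agent.TH292.VP
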