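import Pool.Agent.TH292.MR.SrbW
import Pool.Agent.TH292.MR.Conj
import Pool.Agent.TH292.MR.EntF
import Pool.Agent.TH292.MR.DimF
import Pool.Agent.TH292.MR.VP

/-!
# The counterexample
-/

set_option autoImplicit false

open Set Filter Topology Function MeasureTheory
open scoped ENNReal ContDiff

namespace Pool.Agent.TH292.MR

open Pool.Agent.TH292.Gold Pool.Agent.Helper179.KS

lemma ks_mu_le : ksEntropy mu ff ≤ ((Real.log lam : ℝ) : EReal) := by
  have h1 := ks_le_of_null mu_inv mu_DD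
  rw [hh_mp.map_eq] at h1
  exact h1.trans (ks_le volume mp_CT)

lemma ks_mu : ksEntropy mu ff = ((Real.log lam : ℝ) : EReal) := le_antisymm ks_mu_le ks_mu_ge

/-- the topological entropy -/
theorem htop_ff : Dynamics.coverEntropy ff univ = ((Real.log lam : ℝ) : EReal) := by
  apply le_antisymm
  · apply VP.coverEntropy_le ff.continuous
    intro η h1 h2
    by_cases h : η = mu
    · rw [h]; exact ks_mu_le
    · exact (ks_lt_mu ⟨h1, h2⟩ h).le
  · rw [← ks_mu]
    have := mu_inv.prob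
    exact VP.ksEntropy_le_coverEntropy ff.continuous mu mu_inv.inv

theorem mu_mme : IsMME ff mu := ⟨mu_inv, by rw [ks_mu, htop_ff]⟩

theorem mme_unique {η : Measure Torus} (h : IsMME ff η) : η = mu := by
  by_contra hne
  have h1 := ks_lt_mu h.inv hne
  rw [h.entropy, htop_ff] at h1
  exact lt_irrefl _ h1

theorem maxDim_unique {η : Measure Torus} (h : IsMaxDim ff η) (he : Ergodic ff η) : η = mu := by
  by_contra hne
  have h1 := dim_ergodic h.inv he hne
  have h2 := h.max mu mu_inv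
  rw [dim_mu] at h2
  exact lt_irrefl _ (lt_of_le_of_lt h2 h1)

theorem satisfiesH : SatisfiesH ff FF mu mu mu where
  srb := mu_srb
  srb_unique _ h := srb_unique h
  mme := mu_mme
  mme_unique _ h := mme_unique h
  maxDim := isMaxDim_mu
  maxDim_unique _ h he := maxDim_unique h he
  ergodic := ⟨mu_ergodic, mu_ergodic, mu_ergodic⟩
  hyperbolic := ⟨mu_hyperbolic, mu_hyperbolic, mu_hyperbolic⟩

/-- With the definition of dimension used in the problem, averaging a measure of maximal dimension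
with any invariant measure gives a measure of maximal dimension. Hence uniqueness of the measure of
maximal dimension only makes sense among ergodic measures. -/
theorem isMaxDim_mix {f : Torus ≃ₜ Torus} {m η : Measure Torus} (hm : IsMaxDim f m)
    (hη : IsInvariant f η) : IsMaxDim f ((2 : ℝ≥0∞)⁻¹ • m + (2 : ℝ≥0∞)⁻¹ • η) := by
  have h1 := hm.inv.prob
  have h2 := hη.prob
  have hhalf : (2 : ℝ≥0∞)⁻¹ + (2 : ℝ≥0∞)⁻¹ = 1 := ENNReal.inv_two_add_inv_two
  refine ⟨⟨⟨?_⟩, ⟨f.continuous.measurable, ?_⟩⟩, fun η' hη' => ?_⟩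
  · rw [Measure.add_apply, Measure.smul_apply, Measure.smul_apply, measure_univ, measure_univ,
      smul_eq_mul, mul_one, hhalf]
  · rw [Measure.map_add _ _ f.continuous.measurable, Measure.map_smul, Measure.map_smul,
      hm.inv.inv.map_eq, hη.inv.map_eq]
  · refine (hm.max η' hη').trans ?_
    unfold measureDim
    refine le_iInf fun Z => le_iInf fun hZ => le_iInf fun hZ1 => ?_
    refine iInf_le_of_le Z (iInf_le_of_le hZ (iInf_le_of_le ?_ le_rfl))
    -- `m Z = 1`
    rw [Measure.add_apply, Measure.smul_apply, Measure.smul_apply, smul_eq_mul, smul_eq_mul] at hZ1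
    by_contra hne
    have h3 : m Z < 1 := lt_of_le_of_ne prob_le_one hne
    have h4 : (2 : ℝ≥0∞)⁻¹ * m Z < (2 : ℝ≥0∞)⁻¹ * 1 :=
      ENNReal.mul_lt_mul_right (by simp) (by simp) h3
    have h5 : (2 : ℝ≥0∞)⁻¹ * η Z ≤ (2 : ℝ≥0∞)⁻¹ * 1 := by
      gcongr
      exact prob_le_one
    have h6 : (2 : ℝ≥0∞)⁻¹ * m Z + (2 : ℝ≥0∞)⁻¹ * η Z < (2 : ℝ≥0∞)⁻¹ * 1 + (2 : ℝ≥0∞)⁻¹ * 1 :=
      ENNReal.add_lt_add_of_lt_of_le (by finiteness) h4 h5
    rw [hZ1, mul_one, hhalf] at h6
    exact lt_irrefl _ h6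

end Pool.Agent.TH292.MR
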