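import Pool.Agent.TH292.MR.LD2

/-!
# Volumes of balls, separated nets, tracking of orbits
-/

set_option autoImplicit false

open Set Filter Topology MeasureTheory Function
open scoped ENNReal Real NNReal

namespace Pool.Agent.TH292.MR

open Pool.Agent.TH292.Gold

lemma vol_closedBall_le (x : Torus) {r : ℝ} (hr : 0 ≤ r) :
    volume (Metric.closedBall x r) ≤ ENNReal.ofReal ((2 * r) ^ 2) := by
  obtain ⟨a, b⟩ := x
  rw [← closedBall_prod_same]
  show ((volume : Measure UnitAddCircle).prod (volume : Measure UnitAddCircle)) _ ≤ _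
  rw [Measure.prod_prod, AddCircle.volume_closedBall, AddCircle.volume_closedBall, sq,
    ENNReal.ofReal_mul (by positivity)]
  gcongr <;> exact min_le_right _ _

lemma vol_closedBall_ge (x : Torus) {r : ℝ} (hr : 0 ≤ r) (hr1 : r ≤ 1 / 2) :
    volume (Metric.closedBall x r) = ENNReal.ofReal ((2 * r) ^ 2) := by
  obtain ⟨a, b⟩ := x
  rw [← closedBall_prod_same]
  show ((volume : Measure UnitAddCircle).prod (volume : Measure UnitAddCircle)) _ = _
  rw [Measure.prod_prod, AddCircle.volume_closedBall, AddCircle.volume_closedBall, sq,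
    ENNReal.ofReal_mul (by positivity), min_eq_right (by linarith)]

lemma vol_real_closedBall (x : Torus) {r : ℝ} (hr : 0 ≤ r) (hr1 : r ≤ 1 / 2) :
    volume.real (Metric.closedBall x r) = (2 * r) ^ 2 := by
  unfold Measure.real
  rw [vol_closedBall_ge x hr hr1, ENNReal.toReal_ofReal (by positivity)]

lemma card_sep (E' : Set Torus) {r : ℝ} (hr : 0 < r) (hr1 : r ≤ 1)
    (S : Finset Torus) (hS : ∀ y ∈ S, Metric.closedBall y (r / 3) ⊆ E')
    (hsep : ∀ x ∈ S, ∀ y ∈ S, x ≠ y → r < dist x y) :
    (S.card : ℝ) ≤ 9 / 4 * volume.real E' / r ^ 2 := by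
  have hd : (S : Set Torus).PairwiseDisjoint fun y => Metric.closedBall y (r / 3) := by
    intro x hx y hy hxy
    apply Metric.closedBall_disjoint_closedBall
    have := hsep x hx y hy hxy
    linarith
  have h1 : volume.real (⋃ y ∈ S, Metric.closedBall y (r / 3)) ≤ volume.real E' :=
    measureReal_mono (iUnion₂_subset hS)
  rw [measureReal_biUnion_finset hd (fun y _ => Metric.isClosed_closedBall.measurableSet)] at h1
  have h2 : ∑ y ∈ S, volume.real (Metric.closedBall y (r / 3)) = S.card * (2 * (r / 3)) ^ 2 := by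
    rw [Finset.sum_congr rfl (fun y _ => vol_real_closedBall y (by positivity) (by linarith))]
    simp
  rw [h2] at h1
  rw [le_div_iff₀ (by positivity)]
  nlinarith

/-- maximal separated sets -/
lemma exists_net' (E E' : Set Torus) {r : ℝ} (hr : 0 < r) (hr1 : r ≤ 1)
    (hE : ∀ x ∈ E, Metric.closedBall x (r / 3) ⊆ E') :
    ∃ S : Finset Torus, E ⊆ ⋃ y ∈ S, Metric.closedBall y r ∧
      (S.card : ℝ) ≤ 9 / 4 * volume.real E' / r ^ 2 := by
  classical
  let P : ℕ → Prop := fun n => ∃ S : Finset Torus, (∀ y ∈ S, y ∈ E) ∧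
    (∀ x ∈ S, ∀ y ∈ S, x ≠ y → r < dist x y) ∧ S.card = n
  have hP0 : P 0 := ⟨∅, by simp, by simp, rfl⟩
  have hbd : ∀ n, P n → (n : ℝ) ≤ 9 / 4 * volume.real E' / r ^ 2 := by
    rintro n ⟨S, hS, hsep, rfl⟩
    exact card_sep E' hr hr1 S (fun y hy => hE y (hS y hy)) hsep
  have hfin : BddAbove {n | P n} := by
    refine ⟨⌈9 / 4 * volume.real E' / r ^ 2⌉₊, fun n hn => ?_⟩
    exact_mod_cast (hbd n hn).trans (Nat.le_ceil _)
  have hmem : P (sSup {n | P n}) := Nat.sSup_mem ⟨0, hP0⟩ hfin
  obtain ⟨S, hS, hsep, hcard⟩ := hmem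
  refine ⟨S, fun x hx => ?_, ?_⟩
  · by_contra hnot
    simp only [mem_iUnion, Metric.mem_closedBall, not_exists, not_le] at hnot
    have hxS : x ∉ S := fun h => by
      have := hnot x h
      rw [dist_self] at this
      linarith
    have : P (S.card + 1) := by
      refine ⟨insert x S, ?_, ?_, Finset.card_insert_of_notMem hxS⟩
      · intro y hy
        rcases Finset.mem_insert.mp hy with rfl | h
        · exact hx
        · exact hS y h
      · intro a ha b hb hab
        rcases Finset.mem_insert.mp ha with rfl | ha'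
        · rcases Finset.mem_insert.mp hb with rfl | hb'
          · exact absurd rfl hab
          · exact hnot b hb'
        · rcases Finset.mem_insert.mp hb with rfl | hb'
          · rw [dist_comm]; exact hnot a ha'
          · exact hsep a ha' b hb' hab
    have := le_csSup hfin (show S.card + 1 ∈ {n | P n} from this)
    omega
  · exact hbd _ ⟨S, hS, hsep, rfl⟩

/-- if two points are close at time `k` then they are close at all times near `k` -/
lemma track {x y : Torus} {k n j : ℕ} {ρ : ℝ} (hρ : 0 ≤ ρ)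
    (h : ‖CT^[k] x - CT^[k] y‖ ≤ ρ / lam ^ (n + 1)) (hj1 : k ≤ j + n) (hj2 : j ≤ k + n) :
    ‖CT^[j] x - CT^[j] y‖ ≤ ρ := by
  rcases le_total j k with hjk | hjk
  · have h1 : CT^[j] x - CT^[j] y = CI^[k - j] (CT^[k] x - CT^[k] y) := by
      rw [CI_iter_sub]
      have e : ∀ z : Torus, CI^[k - j] (CT^[k] z) = CT^[j] z := by
        intro z
        have : CT^[k] z = CT^[k - j] (CT^[j] z) := by
          rw [← iterate_add_apply]
          congr 2
          omega
        rw [this, CI_iter_CT]
      rw [e, e]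
    rw [h1]
    refine (CI_iter_norm _ _).trans ?_
    calc lam ^ (k - j + 1) * ‖CT^[k] x - CT^[k] y‖ ≤ lam ^ (n + 1) * (ρ / lam ^ (n + 1)) := by
          exact mul_le_mul (pow_le_pow_right₀ one_lt_lam.le (by omega)) h (norm_nonneg _)
            (pow_pos lam_pos _).le
      _ = ρ := by
          have := pow_pos lam_pos (n + 1)
          field_simp
  · have h1 : CT^[j] x - CT^[j] y = CT^[j - k] (CT^[k] x - CT^[k] y) := by
      rw [CT_iter_sub]
      have e : ∀ z : Torus, CT^[j - k] (CT^[k] z) = CT^[j] z := by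
        intro z
        rw [← iterate_add_apply]
        congr 2
        omega
      rw [e, e]
    rw [h1]
    refine (CT_iter_norm _ _).trans ?_
    calc lam ^ (j - k + 1) * ‖CT^[k] x - CT^[k] y‖ ≤ lam ^ (n + 1) * (ρ / lam ^ (n + 1)) := by
          exact mul_le_mul (pow_le_pow_right₀ one_lt_lam.le (by omega)) h (norm_nonneg _)
            (pow_pos lam_pos _).le
      _ = ρ := by
          have := pow_pos lam_pos (n + 1)
          field_simp

/-- Birkhoff sums of points with close orbits are close -/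
lemma bs_close {g : Torus → ℝ} {ε' δ : ℝ} (hmod : ∀ x y : Torus, ‖x - y‖ ≤ δ → |g x - g y| ≤ ε')
    {q m : ℕ} {x y : Torus} (h : ∀ j < m, ‖CT^[q * j] x - CT^[q * j] y‖ ≤ δ) :
    |bs g q m x - bs g q m y| ≤ ε' * m := by
  unfold bs
  rw [← Finset.sum_sub_distrib]
  refine (Finset.abs_sum_le_sum_abs _ _).trans ?_
  refine (Finset.sum_le_card_nsmul _ _ ε' (fun j hj => hmod _ _ (h j (Finset.mem_range.mp hj)))).trans ?_
  simp
  linarith

end Pool.Agent.TH292.MR
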