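import Pool.Agent.TH292.MR.Plan
import Pool.Agent.TH292.MR.Low

/-!
# Periodisation, and the diffeomorphism of the torus
-/

set_option autoImplicit false

open Set Filter Topology Function MeasureTheory
open scoped ContDiff

namespace Pool.Agent.TH292.MR

open Pool.Agent.TH292.Gold

/-! ### centred lifts -/

/-- the representative in `[-1/2,1/2)` -/
noncomputable def cc (c : UnitAddCircle) : ℝ := rep c - round (rep c)

lemma cc_coe' (t : ℝ) : cc (t : UnitAddCircle) = t - round t := by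
  unfold cc
  obtain ⟨n, hn⟩ := (coe_eq_iff t (rep (t : UnitAddCircle))).mp (coe_rep _).symm
  rw [hn, round_add_intCast]
  push_cast
  ring

lemma cc_mem (c : UnitAddCircle) : cc c ∈ Ico (-(1 / 2) : ℝ) (1 / 2) := by
  unfold cc
  rw [round_eq]
  have h1 := Int.floor_le (rep c + 1 / 2)
  have h2 := Int.lt_floor_add_one (rep c + 1 / 2)
  constructor <;> linarith

lemma cc_coe {t : ℝ} (h1 : -(1 / 2) ≤ t) (h2 : t < 1 / 2) : cc (t : UnitAddCircle) = t := by
  rw [cc_coe', round_eq_zero_iff.mpr ⟨h1, h2⟩]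
  simp

lemma coe_cc (c : UnitAddCircle) : (cc c : UnitAddCircle) = c := by
  unfold cc
  conv_rhs => rw [← coe_rep c]
  exact (coe_eq_iff _ _).mpr ⟨round (rep c), by ring⟩

lemma abs_cc (c : UnitAddCircle) : |cc c| = ‖c‖ := by
  conv_rhs => rw [← coe_rep c, UnitAddCircle.norm_eq]
  rfl

lemma cc_meas : Measurable cc := by
  unfold cc
  have h : Measurable fun c => ((round (rep c) : ℤ) : ℝ) := by
    simp only [round_eq]
    exact (measurable_from_top (f := fun n : ℤ => (n : ℝ))).comp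
      (Int.measurable_floor.comp (rep_meas.add_const _))
  exact rep_meas.sub h

/-- centred lift to the plane -/
noncomputable def cl (x : Torus) : Plane := (cc x.1, cc x.2)

lemma proj_cl (x : Torus) : proj (cl x) = x := Prod.ext (coe_cc _) (coe_cc _)

lemma cl_meas : Measurable cl := (cc_meas.comp measurable_fst).prodMk (cc_meas.comp measurable_snd)

lemma nq_cl (x : Torus) : nq (cl x) = ‖x.1‖ ^ 2 + ‖x.2‖ ^ 2 := by
  unfold nq cl
  simp only
  rw [← abs_cc x.1, ← abs_cc x.2, sq_abs, sq_abs]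

lemma cl_proj_of_lt {z : Plane} (h : nq z < 1 / 4) : cl (proj z) = z := by
  unfold nq at h
  have h1 : |z.1| < 1 / 2 := by
    rw [← sq_lt_sq₀ (abs_nonneg _) (by norm_num), sq_abs]
    nlinarith [sq_nonneg z.2]
  have h2 : |z.2| < 1 / 2 := by
    rw [← sq_lt_sq₀ (abs_nonneg _) (by norm_num), sq_abs]
    nlinarith [sq_nonneg z.1]
  rw [abs_lt] at h1 h2
  exact Prod.ext (cc_coe h1.1.le h1.2) (cc_coe h2.1.le h2.2)

/-- nearest lattice point -/
noncomputable def kk (z : Plane) : Plane := ((round z.1 : ℝ), (round z.2 : ℝ))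

lemma cl_proj (z : Plane) : cl (proj z) = z - kk z := Prod.ext (cc_coe' _) (cc_coe' _)

lemma proj_add_int (z : Plane) (m n : ℤ) : proj (z + ((m : ℝ), (n : ℝ))) = proj z := by
  unfold proj
  apply Prod.ext
  · exact ((coe_eq_iff _ _).mpr ⟨m, rfl⟩).symm
  · exact ((coe_eq_iff _ _).mpr ⟨n, rfl⟩).symm

lemma proj_add_kk (w z : Plane) : proj (w + kk z) = proj w := proj_add_int w _ _

lemma proj_eq_iff (z w : Plane) : proj z = proj w ↔ ∃ m n : ℤ, w = z + ((m : ℝ), (n : ℝ)) := by
  constructor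
  · intro h
    obtain ⟨m, hm⟩ := (coe_eq_iff _ _).mp (congrArg Prod.fst h)
    obtain ⟨n, hn⟩ := (coe_eq_iff _ _).mp (congrArg Prod.snd h)
    exact ⟨m, n, Prod.ext hm hn⟩
  · rintro ⟨m, n, rfl⟩
    exact (proj_add_int z m n).symm

lemma proj_surj : Surjective proj := fun x => ⟨cl x, proj_cl x⟩

lemma proj_cont : Continuous proj := by
  unfold proj
  have h1 : Continuous fun x : ℝ => (x : UnitAddCircle) := AddCircle.continuous_mk' 1
  exact (h1.comp continuous_fst).prodMk (h1.comp continuous_snd)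

lemma proj_quot : IsQuotientMap proj := by
  have h1 : IsOpenMap (fun x : ℝ => (x : UnitAddCircle)) := QuotientAddGroup.isOpenMap_coe
  exact (h1.prodMap h1).isQuotientMap proj_cont proj_surj

/-- periodisation of a map of the plane -/
noncomputable def per (Q : Plane → Plane) (z : Plane) : Plane := Q (z - kk z) + kk z

/-- the map of the torus induced by a map of the plane -/
noncomputable def tq (Q : Plane → Plane) (x : Torus) : Torus := proj (Q (cl x))

lemma proj_per (Q : Plane → Plane) (z : Plane) : proj (per Q z) = tq Q (proj z) := by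
  unfold per tq
  rw [proj_add_kk, cl_proj]

lemma kk_of_lt {z k : Plane} {m n : ℤ} (hk : k = ((m : ℝ), (n : ℝ))) (h1 : |z.1 - m| < 1 / 2)
    (h2 : |z.2 - n| < 1 / 2) : kk z = k := by
  rw [abs_lt] at h1 h2
  unfold kk
  have e1 : round z.1 = m := by
    have := round_eq_zero_iff.mpr (show z.1 - (m : ℝ) ∈ Ico (-(1 / 2) : ℝ) (1 / 2) from
      ⟨by linarith [h1.1], h1.2⟩)
    rw [round_sub_intCast] at this
    omega
  have e2 : round z.2 = n := by
    have := round_eq_zero_iff.mpr (show z.2 - (n : ℝ) ∈ Ico (-(1 / 2) : ℝ) (1 / 2) from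
      ⟨by linarith [h2.1], h2.2⟩)
    rw [round_sub_intCast] at this
    omega
  rw [e1, e2, hk]

lemma kk_of_nq {z w : Plane} (h : nq (z - kk w) < 1 / 4) : kk z = kk w := by
  have h0 : nq (z - kk w) = (z.1 - (round w.1 : ℤ)) ^ 2 + (z.2 - (round w.2 : ℤ)) ^ 2 := rfl
  rw [h0] at h
  apply kk_of_lt (m := round w.1) (n := round w.2) rfl
  · rw [← sq_lt_sq₀ (abs_nonneg _) (by norm_num), sq_abs]
    nlinarith [sq_nonneg (z.2 - (round w.2 : ℤ))]
  · rw [← sq_lt_sq₀ (abs_nonneg _) (by norm_num), sq_abs]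
    nlinarith [sq_nonneg (z.1 - (round w.1 : ℤ))]

lemma nq_sub_kk (z : Plane) : nq (z - kk z) = ‖(z.1 : UnitAddCircle)‖ ^ 2 + ‖(z.2 : UnitAddCircle)‖ ^ 2 := by
  rw [← cl_proj, nq_cl]
  rfl

lemma nq_sub_kk_cont : Continuous fun z : Plane => nq (z - kk z) := by
  simp only [nq_sub_kk]
  have h1 : Continuous fun x : ℝ => (x : UnitAddCircle) := AddCircle.continuous_mk' 1
  exact ((h1.comp continuous_fst).norm.pow 2).add ((h1.comp continuous_snd).norm.pow 2)

/-- locally, a periodised map is a translate of the original map -/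
lemma per_loc {Q : Plane → Plane} (hQ : ∀ z, 0.035 ≤ nq z → Q z = z) (z₀ : Plane) :
    ∀ᶠ z in 𝓝 z₀, per Q z = Q (z - kk z₀) + kk z₀ := by
  have hc : Continuous fun z : Plane => nq (z - kk z₀) :=
    nq_contDiff.continuous.comp (continuous_id.sub continuous_const)
  rcases lt_or_ge (nq (z₀ - kk z₀)) (1 / 10) with h | h
  · filter_upwards [(isOpen_lt hc continuous_const).mem_nhds h] with z hz
    have hz' : nq (z - kk z₀) < 1 / 10 := hz
    unfold per
    rw [kk_of_nq (show nq (z - kk z₀) < 1 / 4 by linarith)]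
  · have h1 : (0.035 : ℝ) < nq (z₀ - kk z₀) := by linarith
    filter_upwards [(isOpen_lt continuous_const hc).mem_nhds h1,
      (isOpen_lt continuous_const nq_sub_kk_cont).mem_nhds h1] with z hz hz'
    unfold per
    rw [hQ _ (le_of_lt hz), hQ _ (le_of_lt hz')]
    simp

lemma per_contDiffAt {Q : Plane → Plane} (hQ : ∀ z, 0.035 ≤ nq z → Q z = z) {z₀ : Plane}
    (h : ContDiffAt ℝ ∞ Q (z₀ - kk z₀)) : ContDiffAt ℝ ∞ (per Q) z₀ := by
  have h1 : ContDiffAt ℝ ∞ (fun z => Q (z - kk z₀) + kk z₀) z₀ := by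
    have h2 : ContDiffAt ℝ ∞ (fun z : Plane => z - kk z₀) z₀ := contDiffAt_id.sub contDiffAt_const
    exact (ContDiffAt.comp z₀ h h2).add contDiffAt_const
  exact h1.congr_of_eventuallyEq (per_loc hQ z₀)

lemma per_contDiff {Q : Plane → Plane} (hQ : ∀ z, 0.035 ≤ nq z → Q z = z) (h : ContDiff ℝ ∞ Q) :
    ContDiff ℝ ∞ (per Q) :=
  contDiff_iff_contDiffAt.mpr fun _ => per_contDiffAt hQ h.contDiffAt

lemma per_continuous {Q : Plane → Plane} (hQ : ∀ z, 0.035 ≤ nq z → Q z = z) (h : Continuous Q) :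
    Continuous (per Q) := by
  rw [continuous_iff_continuousAt]
  intro z₀
  have h1 : Continuous fun z => Q (z - kk z₀) + kk z₀ :=
    (h.comp (continuous_id.sub continuous_const)).add continuous_const
  exact h1.continuousAt.congr ((per_loc hQ z₀).mono fun z hz => hz.symm)

lemma tq_continuous {Q : Plane → Plane} (hQ : ∀ z, 0.035 ≤ nq z → Q z = z) (h : Continuous Q) :
    Continuous (tq Q) := by
  rw [proj_quot.continuous_iff]
  have : tq Q ∘ proj = proj ∘ per Q := funext fun z => (proj_per Q z).symm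
  rw [this]
  exact proj_cont.comp (per_continuous hQ h)

lemma per_comp {Q₁ Q₂ : Plane → Plane} (h₁ : ∀ z, 0.035 ≤ nq z → Q₁ z = z)
    (h₂ : ∀ z, 0.035 ≤ nq z → Q₂ z = z) (h₂' : ∀ z, nq z < 0.035 → nq (Q₂ z) < 0.035)
    (h : ∀ z, Q₁ (Q₂ z) = z) (z : Plane) : per Q₁ (per Q₂ z) = z := by
  rcases lt_or_ge (nq (z - kk z)) 0.035 with hz | hz
  · have h3 := h₂' _ hz
    have h4 : kk (per Q₂ z) = kk z := by
      apply kk_of_nq
      unfold per
      rw [add_sub_cancel_right]
      linarith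
    unfold per at *
    rw [h4, add_sub_cancel_right, h, sub_add_cancel]
  · have h3 : per Q₂ z = z := by unfold per; rw [h₂ _ hz, sub_add_cancel]
    rw [h3]
    unfold per
    rw [h₁ _ hz, sub_add_cancel]

lemma cl_tq {Q : Plane → Plane} (h₂ : ∀ z, 0.035 ≤ nq z → Q z = z)
    (h₂' : ∀ z, nq z < 0.035 → nq (Q z) < 0.035) (x : Torus) : cl (tq Q x) = Q (cl x) := by
  rcases lt_or_ge (nq (cl x)) 0.035 with hz | hz
  · exact cl_proj_of_lt (by have := h₂' _ hz; linarith)
  · unfold tq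
    rw [h₂ _ hz, proj_cl]

lemma tq_comp {Q₁ Q₂ : Plane → Plane} (h₂ : ∀ z, 0.035 ≤ nq z → Q₂ z = z)
    (h₂' : ∀ z, nq z < 0.035 → nq (Q₂ z) < 0.035)
    (h : ∀ z, Q₁ (Q₂ z) = z) (x : Torus) : tq Q₁ (tq Q₂ x) = x := by
  have := cl_tq h₂ h₂' x
  unfold tq at *
  rw [this, h, proj_cl]

/-! ### the diffeomorphism -/

/-- the inverse linear map -/
def BL (z : Plane) : Plane := (z.1 - z.2, -z.1 + 2 * z.2)

lemma AL_BL (z : Plane) : AL (BL z) = z := by unfold AL BL; ext <;> simp <;> ring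
lemma BL_AL (z : Plane) : BL (AL z) = z := by unfold AL BL; ext <;> simp <;> ring
lemma BL_contDiff : ContDiff ℝ ∞ BL := by unfold BL; fun_prop

lemma proj_AL (z : Plane) : proj (AL z) = CT (proj z) := by
  rw [CT_apply]
  unfold proj AL
  ext
  · simp only
    rw [AddCircle.coe_add, two_mul, AddCircle.coe_add, two_nsmul]
  · simp only
    rw [AddCircle.coe_add]

lemma proj_BL (z : Plane) : proj (BL z) = CI (proj z) := by
  conv_rhs => rw [← AL_BL z, proj_AL, CI_CT]

lemma nq_AL_lt {z : Plane} (hz : z ≠ 0) : nq (AL z) < 6.86 * nq z := np_lt hz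
lemma nq_BL_lt {z : Plane} (hz : z ≠ 0) : nq (BL z) < 6.86 * nq z := by
  have h : BL z ≠ 0 := by
    intro h
    apply hz
    rw [← AL_BL z, h]
    unfold AL; simp
  have := lt_np h
  unfold np at this
  rwa [AL_BL] at this

/-- the lift of the diffeomorphism -/
noncomputable def FF (z : Plane) : Plane := AL (per P0 z)
/-- the lift of the inverse -/
noncomputable def GG (z : Plane) : Plane := per P1 (BL z)

lemma hP0 : ∀ z, 0.035 ≤ nq z → P0 z = z := fun _ h => P0_large h
lemma hP1 : ∀ z, 0.035 ≤ nq z → P1 z = z := fun _ h => P1_large h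
lemma hP0' : ∀ z, nq z < 0.035 → nq (P0 z) < 0.035 := fun _ h => P0_lt h
lemma hP1' : ∀ z, nq z < 0.035 → nq (P1 z) < 0.035 := fun _ h => P1_lt h

lemma FF_contDiff : ContDiff ℝ ∞ FF := AL_contDiff.comp (per_contDiff hP0 P0_contDiff)
lemma GG_contDiff : ContDiff ℝ ∞ GG := (per_contDiff hP1 P1_contDiff).comp BL_contDiff

/-- the diffeomorphism of the torus -/
noncomputable def ff : Torus ≃ₜ Torus where
  toFun x := CT (tq P0 x)
  invFun x := tq P1 (CI x)
  left_inv x := by
    show tq P1 (CI (CT (tq P0 x))) = x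
    rw [CI_CT, tq_comp hP0 hP0' P1_P0]
  right_inv x := by
    show CT (tq P0 (tq P1 (CI x))) = x
    rw [tq_comp hP1 hP1' P0_P1, CT_CI]
  continuous_toFun := CT_cont.comp (tq_continuous hP0 P0_contDiff.continuous)
  continuous_invFun := (tq_continuous hP1 P1_contDiff.continuous).comp CI_cont

lemma ff_apply (x : Torus) : ff x = CT (tq P0 x) := rfl

theorem isSmoothDiffeo : IsSmoothDiffeo ff FF GG := by
  refine ⟨fun z => ?_, fun z => ?_, FF_contDiff, GG_contDiff⟩
  · rw [ff_apply, ← proj_per, ← proj_AL]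
    rfl
  · show tq P1 (CI (proj z)) = proj (per P1 (BL z))
    rw [proj_per, proj_BL]

lemma proj_zero : proj 0 = 0 := rfl

lemma cl_zero : cl 0 = 0 := by
  rw [← proj_zero]
  exact cl_proj_of_lt (by rw [nq_zero]; norm_num)

lemma ff_zero : ff 0 = 0 := by
  rw [ff_apply]
  unfold tq
  rw [cl_zero, P0_zero, proj_zero, CT_zero]

end Pool.Agent.TH292.MR
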