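import Pool.Agent.TH292.MR.Rad
import Pool.Agent.TH292.MR.Defs

/-!
# The radial diffeomorphism of the plane
-/

set_option autoImplicit false

open Set Filter Topology Function
open scoped ContDiff

namespace Pool.Agent.TH292.MR

/-- square of the Euclidean norm -/
def nq (z : Plane) : ℝ := z.1 ^ 2 + z.2 ^ 2

/-- the linear map -/
def AL (z : Plane) : Plane := (2 * z.1 + z.2, z.1 + z.2)

/-- square of the Euclidean norm of the image -/
def np (z : Plane) : ℝ := nq (AL z)

lemma nq_nonneg (z : Plane) : 0 ≤ nq z := by unfold nq; positivity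
lemma nq_pos {z : Plane} (h : z ≠ 0) : 0 < nq z := by
  rcases (nq_nonneg z).lt_or_eq with h1 | h1
  · exact h1
  · exfalso
    apply h
    unfold nq at h1
    have h2 : z.1 = 0 := by nlinarith [sq_nonneg z.1, sq_nonneg z.2]
    have h3 : z.2 = 0 := by nlinarith [sq_nonneg z.1, sq_nonneg z.2]
    exact Prod.ext h2 h3
lemma nq_zero : nq 0 = 0 := by unfold nq; simp
lemma ne_zero_of_nq {z : Plane} (h : 0 < nq z) : z ≠ 0 := by
  rintro rfl
  rw [nq_zero] at h
  exact lt_irrefl _ h

lemma nq_smul (t : ℝ) (z : Plane) : nq (t • z) = t ^ 2 * nq z := by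
  unfold nq; simp only [Prod.smul_fst, Prod.smul_snd, smul_eq_mul]; ring
lemma AL_smul (t : ℝ) (z : Plane) : AL (t • z) = t • AL z := by
  unfold AL; ext <;> simp <;> ring
lemma np_smul (t : ℝ) (z : Plane) : np (t • z) = t ^ 2 * np z := by
  unfold np; rw [AL_smul, nq_smul]
lemma np_lt {z : Plane} (h : z ≠ 0) : np z < 6.86 * nq z := by
  have h1 := nq_pos h
  unfold np nq AL at *
  nlinarith [sq_nonneg (z.1 * 1.86 - 3 * z.2), sq_nonneg z.1, sq_nonneg z.2]
lemma lt_np {z : Plane} (h : z ≠ 0) : nq z < 6.86 * np z := by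
  have h1 := nq_pos h
  unfold np nq AL at *
  nlinarith [sq_nonneg (z.1 * 33.3 + 20.58 * z.2), sq_nonneg z.1, sq_nonneg z.2]
lemma np_pos {z : Plane} (h : z ≠ 0) : 0 < np z := by
  have := lt_np h
  have := nq_pos h
  linarith

lemma nq_contDiff : ContDiff ℝ ∞ nq := by unfold nq; fun_prop
lemma AL_contDiff : ContDiff ℝ ∞ AL := by unfold AL; fun_prop
lemma np_contDiff : ContDiff ℝ ∞ np := nq_contDiff.comp AL_contDiff

/-- the quotient of the squared norms -/
noncomputable def SS (z : Plane) : ℝ := np z / nq z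

lemma SS_pos {z : Plane} (h : z ≠ 0) : 0 < SS z := div_pos (np_pos h) (nq_pos h)
lemma SS_lt {z : Plane} (h : z ≠ 0) : SS z < 6.86 := by
  unfold SS
  rw [div_lt_iff₀ (nq_pos h)]
  exact np_lt h
lemma SS_mul {z : Plane} (h : z ≠ 0) : SS z * nq z = np z := by
  unfold SS
  have := nq_pos h
  field_simp
lemma SS_smul {t : ℝ} (ht : t ≠ 0) (z : Plane) : SS (t • z) = SS z := by
  unfold SS
  rw [nq_smul, np_smul, mul_div_mul_left _ _ (pow_ne_zero 2 ht)]

/-- the square of the radial factor -/
noncomputable def Csq (z : Plane) : ℝ :=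
  open Classical in if z = 0 then 1 / 50 else psi (SS z) (nq z) / nq z

lemma Csq_ne {z : Plane} (h : z ≠ 0) : Csq z = psi (SS z) (nq z) / nq z := by
  unfold Csq; rw [if_neg h]

lemma Csq_small {z : Plane} (h : nq z ≤ 9 / 8000) : Csq z = 1 / 50 := by
  by_cases hz : z = 0
  · unfold Csq; rw [if_pos hz]
  · rw [Csq_ne hz, psi_small h]
    have := nq_pos hz
    field_simp

lemma Csq_pos (z : Plane) : 0 < Csq z := by
  by_cases hz : z = 0
  · unfold Csq; rw [if_pos hz]; norm_num
  · rw [Csq_ne hz]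
    exact div_pos (psi_pos (SS_pos hz) (SS_lt hz) (nq_pos hz)) (nq_pos hz)

lemma Csq_large {z : Plane} (h : 0.035 ≤ nq z) : Csq z = 1 := by
  have hz : z ≠ 0 := ne_zero_of_nq (by linarith)
  have h1 := lt_np hz
  rw [Csq_ne hz, psi_id (SS_pos hz) (by linarith) (by rw [SS_mul hz]; linarith),
    div_self (by linarith)]

lemma Csq_contDiffAt (z : Plane) : ContDiffAt ℝ ∞ Csq z := by
  rcases lt_or_ge (nq z) (9 / 8000) with h | h
  · have h1 : Csq =ᶠ[𝓝 z] fun _ => 1 / 50 := by
      have : {w | nq w < 9 / 8000} ∈ 𝓝 z :=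
        (isOpen_lt nq_contDiff.continuous continuous_const).mem_nhds h
      filter_upwards [this] with w hw
      exact Csq_small (le_of_lt hw)
    exact contDiffAt_const.congr_of_eventuallyEq h1
  · have hz : z ≠ 0 := ne_zero_of_nq (by linarith)
    have hq := nq_pos hz
    have hS := SS_pos hz
    have h1 : Csq =ᶠ[𝓝 z] fun z => psi (SS z) (nq z) / nq z := by
      filter_upwards [isOpen_ne.mem_nhds hz] with w hw
      exact Csq_ne hw
    have hSc : ContDiffAt ℝ ∞ SS z := np_contDiff.contDiffAt.div nq_contDiff.contDiffAt hq.ne'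
    have hχ : ContDiffAt ℝ ∞ (fun z => st (16000 * nq z - 18)) z :=
      (st_contDiff.comp ((contDiff_const.mul nq_contDiff).sub contDiff_const)).contDiffAt
    have hk : ContDiffAt ℝ ∞ (fun z => kt (nq z)) z := (kt_contDiff.comp nq_contDiff).contDiffAt
    have hj : ContDiffAt ℝ ∞ (fun z => jt (SS z * kt (nq z))) z :=
      jt_contDiff.contDiffAt.comp z (hSc.mul hk)
    have hp : ContDiffAt ℝ ∞ (fun z => psi (SS z) (nq z)) z := by
      unfold psi
      exact ((contDiffAt_const.sub hχ).mul (nq_contDiff.contDiffAt.div_const _)).add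
        (hχ.mul (hj.div hSc hS.ne'))
    exact (hp.div nq_contDiff.contDiffAt hq.ne').congr_of_eventuallyEq h1

/-- the radial factor -/
noncomputable def CC (z : Plane) : ℝ := Real.sqrt (Csq z)

lemma CC_pos (z : Plane) : 0 < CC z := Real.sqrt_pos.mpr (Csq_pos z)
lemma CC_sq (z : Plane) : CC z ^ 2 = Csq z := Real.sq_sqrt (Csq_pos z).le
lemma CC_large {z : Plane} (h : 0.035 ≤ nq z) : CC z = 1 := by
  unfold CC; rw [Csq_large h, Real.sqrt_one]
lemma CC_contDiff : ContDiff ℝ ∞ CC :=
  contDiff_iff_contDiffAt.mpr fun z => (Csq_contDiffAt z).sqrt (Csq_pos z).ne'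

/-- the radial diffeomorphism -/
noncomputable def P0 (z : Plane) : Plane := CC z • z

lemma P0_contDiff : ContDiff ℝ ∞ P0 := CC_contDiff.smul contDiff_id
lemma P0_zero : P0 0 = 0 := by unfold P0; simp
lemma P0_large {z : Plane} (h : 0.035 ≤ nq z) : P0 z = z := by
  unfold P0; rw [CC_large h, one_smul]
lemma nq_P0 {z : Plane} (h : z ≠ 0) : nq (P0 z) = psi (SS z) (nq z) := by
  unfold P0
  rw [nq_smul, CC_sq, Csq_ne h]
  have := nq_pos h
  field_simp
lemma P0_ne {z : Plane} (h : z ≠ 0) : P0 z ≠ 0 := by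
  unfold P0
  exact smul_ne_zero (CC_pos z).ne' h

lemma P0_inj : Injective P0 := by
  intro z w hzw
  by_cases hz : z = 0
  · rw [hz, P0_zero] at hzw
    by_contra hne
    exact P0_ne (fun h => hne (by rw [hz, h])) hzw.symm
  · have hw : w ≠ 0 := by
      intro hw
      rw [hw, P0_zero] at hzw
      exact P0_ne hz hzw
    have h1 : w = (CC z / CC w) • z := by
      have h2 : CC z • z = CC w • w := hzw
      rw [div_eq_inv_mul, mul_smul, h2, smul_smul, inv_mul_cancel₀ (CC_pos w).ne', one_smul]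
    set s := CC z / CC w with hs
    have hs0 : 0 < s := div_pos (CC_pos z) (CC_pos w)
    have h3 : nq (P0 z) = nq (P0 w) := by rw [hzw]
    rw [nq_P0 hz, nq_P0 hw, h1, SS_smul hs0.ne'] at h3
    have h4 := (psi_strictMono (SS_pos hz) (SS_lt hz)).injective h3
    rw [nq_smul] at h4
    have h5 := nq_pos hz
    have h6 : s ^ 2 = 1 := by
      have : (s ^ 2 - 1) * nq z = 0 := by linarith
      rcases mul_eq_zero.mp this with h | h
      · linarith
      · exact absurd h h5.ne'
    have h7 : s = 1 := by nlinarith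
    rw [h1, h7, one_smul]

lemma P0_surj : Surjective P0 := by
  intro w
  by_cases hw : w = 0
  · exact ⟨0, by rw [P0_zero, hw]⟩
  have hq := nq_pos hw
  have hS := SS_pos hw
  have hS2 := SS_lt hw
  -- find the radius
  obtain ⟨c, hc0, hc⟩ : ∃ c, 0 < c ∧ psi (SS w) c = nq w := by
    set M := max (nq w) (max (1 / 200) (1 / 200 / SS w)) with hM
    have hM1 : nq w ≤ M := le_max_left _ _
    have hM2 : 1 / 200 ≤ M := (le_max_left _ _).trans (le_max_right _ _)
    have hM3 : 1 / 200 / SS w ≤ M := (le_max_right _ _).trans (le_max_right _ _)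
    have hM4 : psi (SS w) M = M := psi_id hS hM2 (by rw [div_le_iff₀ hS] at hM3; linarith)
    have h1 := intermediate_value_Icc (a := 0) (b := M) (by linarith)
      (psi_cont hS hS2).continuousOn
    rw [psi_zero, hM4] at h1
    obtain ⟨c, hc, hc'⟩ := h1 ⟨hq.le, hM1⟩
    refine ⟨c, ?_, hc'⟩
    rcases hc.1.lt_or_eq with h | h
    · exact h
    · rw [← h, psi_zero] at hc'
      linarith
  set t := Real.sqrt (c / nq w) with ht
  have ht0 : 0 < t := Real.sqrt_pos.mpr (div_pos hc0 hq)
  have ht2 : t ^ 2 = c / nq w := Real.sq_sqrt (div_pos hc0 hq).le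
  refine ⟨t • w, ?_⟩
  have hne : t • w ≠ 0 := smul_ne_zero ht0.ne' hw
  have h1 : CC (t • w) ^ 2 * t ^ 2 = 1 := by
    rw [CC_sq, Csq_ne hne, SS_smul ht0.ne', nq_smul, ht2]
    have : c / nq w * nq w = c := by field_simp
    rw [this, hc]
    field_simp
  have h2 : CC (t • w) * t = 1 := by
    have h3 := CC_pos (t • w)
    have h4 : 0 < CC (t • w) * t := mul_pos h3 ht0
    nlinarith
  show CC (t • w) • (t • w) = w
  rw [smul_smul, h2, one_smul]

/-- the derivative of the radial map is injective -/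
lemma P0_deriv_inj (z : Plane) : Injective (fderiv ℝ P0 z) := by
  by_cases hz : z = 0
  · have h1 : P0 =ᶠ[𝓝 z] fun w => Real.sqrt (1 / 50) • w := by
      have : {w | nq w < 9 / 8000} ∈ 𝓝 z :=
        (isOpen_lt nq_contDiff.continuous continuous_const).mem_nhds (by
          show nq z < 9 / 8000
          rw [hz, nq_zero]; norm_num)
      filter_upwards [this] with w hw
      show CC w • w = _
      unfold CC
      rw [Csq_small (le_of_lt hw)]
    rw [h1.fderiv_eq]
    have h2 : HasFDerivAt (fun w : Plane => Real.sqrt (1 / 50) • w)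
        (Real.sqrt (1 / 50) • ContinuousLinearMap.id ℝ Plane) z := (hasFDerivAt_id z).fun_const_smul _
    rw [h2.fderiv]
    intro v w hvw
    have h3 : Real.sqrt (1 / 50) • v = Real.sqrt (1 / 50) • w := hvw
    have h4 : (0 : ℝ) < Real.sqrt (1 / 50) := Real.sqrt_pos.mpr (by norm_num)
    exact smul_right_injective _ h4.ne' h3
  · have hq := nq_pos hz
    have hCd : HasFDerivAt CC (fderiv ℝ CC z) z :=
      (CC_contDiff.differentiable (by simp) z).hasFDerivAt
    have hP : HasFDerivAt P0 (CC z • ContinuousLinearMap.id ℝ Plane + (fderiv ℝ CC z).smulRight z) z :=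
      hCd.smul (hasFDerivAt_id z)
    -- radial derivative
    obtain ⟨d, hd, hd'⟩ := psi_deriv_pos (SS_pos hz) (SS_lt hz) (nq z)
    have h1 : HasDerivAt (fun t : ℝ => (CC (t • z)) ^ 2 * t ^ 2 * nq z)
        ((2 * CC z * fderiv ℝ CC z z + CC z ^ 2 * 2) * nq z) 1 := by
      have e1 : HasDerivAt (fun t : ℝ => t • z) z 1 := by
        simpa using (hasDerivAt_id (1 : ℝ)).smul_const z
      have e2 : HasDerivAt (fun t : ℝ => CC (t • z)) (fderiv ℝ CC z z) 1 := by
        have := HasFDerivAt.comp_hasDerivAt_of_eq (1 : ℝ) hCd e1 (by simp)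
        exact this
      have e3 : HasDerivAt (fun t : ℝ => CC (t • z) ^ 2) (2 * CC z * fderiv ℝ CC z z) 1 := by
        have := e2.fun_pow 2
        simpa using this
      have e4 : HasDerivAt (fun t : ℝ => t ^ 2) 2 1 := by
        simpa using hasDerivAt_pow 2 (1 : ℝ)
      have := (e3.mul e4).mul_const (nq z)
      simpa using this
    have h2 : HasDerivAt (fun t : ℝ => psi (SS z) (t ^ 2 * nq z)) (d * (2 * nq z)) 1 := by
      have e4 : HasDerivAt (fun t : ℝ => t ^ 2 * nq z) (2 * nq z) 1 := by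
        simpa using (hasDerivAt_pow 2 (1 : ℝ)).mul_const (nq z)
      have := HasDerivAt.comp_of_eq (h₂ := psi (SS z)) (1 : ℝ) hd' e4 (by simp)
      exact this
    have h3 : (fun t : ℝ => (CC (t • z)) ^ 2 * t ^ 2 * nq z) =ᶠ[𝓝 1]
        fun t : ℝ => psi (SS z) (t ^ 2 * nq z) := by
      filter_upwards [isOpen_ne.mem_nhds (one_ne_zero : (1 : ℝ) ≠ 0)] with t ht
      have hne : t • z ≠ 0 := smul_ne_zero ht hz
      rw [CC_sq, Csq_ne hne, SS_smul ht, nq_smul]
      have : t ^ 2 ≠ 0 := pow_ne_zero 2 ht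
      field_simp
    have h4 := h1.unique (h2.congr_of_eventuallyEq h3)
    have h5 : CC z * (CC z + fderiv ℝ CC z z) = d := by
      have : (2 * (CC z * (CC z + fderiv ℝ CC z z))) * nq z = (2 * d) * nq z := by linarith
      have := mul_right_cancel₀ hq.ne' this
      linarith
    have h6 : CC z + fderiv ℝ CC z z ≠ 0 := by
      intro h; rw [h, mul_zero] at h5; linarith
    rw [hP.fderiv]
    rw [injective_iff_map_eq_zero]
    intro v hv
    have h7 : CC z • v + (fderiv ℝ CC z v) • z = 0 := hv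
    have hC := CC_pos z
    set a := fderiv ℝ CC z v with ha
    have h8 : v = (-(a / CC z)) • z := by
      have : CC z • v = -(a • z) := eq_neg_of_add_eq_zero_left h7
      have h9 : v = (CC z)⁻¹ • (CC z • v) := by
        rw [smul_smul, inv_mul_cancel₀ hC.ne', one_smul]
      rw [h9, this, smul_neg, smul_smul, neg_smul, div_eq_inv_mul]
    have h9 : a = -(a / CC z) * fderiv ℝ CC z z := by
      conv_lhs => rw [ha, h8, map_smul, smul_eq_mul]
    have h10 : a * (CC z + fderiv ℝ CC z z) = 0 := by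
      field_simp at h9
      linarith
    have h11 : a = 0 := by
      rcases mul_eq_zero.mp h10 with h | h
      · exact h
      · exact absurd h h6
    rw [h8, h11]
    simp

/-- the derivative as a linear equivalence -/
noncomputable def P0e (z : Plane) : Plane ≃L[ℝ] Plane :=
  (LinearEquiv.ofInjectiveEndo (fderiv ℝ P0 z : Plane →ₗ[ℝ] Plane) (P0_deriv_inj z)).toContinuousLinearEquiv

lemma P0e_coe (z : Plane) : (P0e z : Plane →L[ℝ] Plane) = fderiv ℝ P0 z := by
  ext <;> rfl

lemma P0_open : IsOpenMap P0 := by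
  apply isOpenMap_of_hasStrictFDerivAt_equiv (𝕜 := ℝ) (f' := P0e)
  intro z
  rw [P0e_coe]
  exact (P0_contDiff.contDiffAt).hasStrictFDerivAt (by simp)

/-- the radial map as a homeomorphism -/
noncomputable def P0h : Plane ≃ₜ Plane :=
  (Equiv.ofBijective P0 ⟨P0_inj, P0_surj⟩).toHomeomorphOfContinuousOpen P0_contDiff.continuous P0_open

/-- the inverse radial map -/
noncomputable def P1 : Plane → Plane := P0h.symm

lemma P1_P0 (z : Plane) : P1 (P0 z) = z := P0h.symm_apply_apply z
lemma P0_P1 (z : Plane) : P0 (P1 z) = z := P0h.apply_symm_apply z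

lemma P1_contDiff : ContDiff ℝ ∞ P1 := by
  apply P0h.contDiff_symm (f₀' := P0e)
  · intro z
    rw [P0e_coe]
    exact (P0_contDiff.differentiable (by simp) z).hasFDerivAt
  · exact P0_contDiff

lemma P1_large {z : Plane} (h : 0.035 ≤ nq z) : P1 z = z := by
  conv_lhs => rw [← P0_large h]
  exact P1_P0 z

lemma P0_lt {z : Plane} (h : nq z < 0.035) : nq (P0 z) < 0.035 := by
  by_contra hcon
  push Not at hcon
  have h1 := P0_large hcon
  have h2 := P0_inj h1
  rw [h2] at hcon
  linarith

lemma P1_lt {z : Plane} (h : nq z < 0.035) : nq (P1 z) < 0.035 := by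
  by_contra hcon
  push Not at hcon
  have h1 := P0_large hcon
  rw [P0_P1] at h1
  rw [← h1] at hcon
  linarith

end Pool.Agent.TH292.MR
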