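import Mathlib

/-!
# The scalar functions of the construction
-/

set_option autoImplicit false

open Set Filter Topology Function
open scoped ContDiff

namespace Pool.Agent.TH292.MR

/-- smooth step -/
noncomputable def st : ℝ → ℝ := Real.smoothTransition

lemma st_nonneg (x : ℝ) : 0 ≤ st x := Real.smoothTransition.nonneg x
lemma st_le_one (x : ℝ) : st x ≤ 1 := Real.smoothTransition.le_one x
lemma st_zero {x : ℝ} (h : x ≤ 0) : st x = 0 := Real.smoothTransition.zero_of_nonpos h
lemma st_one {x : ℝ} (h : 1 ≤ x) : st x = 1 := Real.smoothTransition.one_of_one_le h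
lemma st_contDiff : ContDiff ℝ ∞ st := Real.smoothTransition.contDiff
lemma st_hasDeriv (x : ℝ) : HasDerivAt st (deriv st x) x :=
  ((st_contDiff.differentiable (by simp)) x).hasDerivAt
lemma st_deriv_nonneg (x : ℝ) : 0 ≤ deriv st x := Real.smoothTransition.monotone.deriv_nonneg
lemma st_deriv_zero {x : ℝ} (h : x < 0) : deriv st x = 0 := by
  have : st =ᶠ[𝓝 x] fun _ => 0 := by
    filter_upwards [Iio_mem_nhds h] with y hy
    exact st_zero (le_of_lt hy)
  rw [this.deriv_eq]
  simp
lemma st_deriv_cont : Continuous (deriv st) := st_contDiff.continuous_deriv (by simp)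

/-- `R² ↦ r²` -/
noncomputable def kt (q : ℝ) : ℝ := q - st (2 - 400 * q) / 800

/-- the derivative of `kt` -/
noncomputable def kt' (q : ℝ) : ℝ := 1 + deriv st (2 - 400 * q) / 2

lemma kt_le (q : ℝ) : kt q ≤ q := by unfold kt; linarith [st_nonneg (2 - 400 * q)]
lemma le_kt (q : ℝ) : q - 1 / 800 ≤ kt q := by unfold kt; linarith [st_le_one (2 - 400 * q)]
lemma kt_small {q : ℝ} (h : q ≤ 1 / 400) : kt q = q - 1 / 800 := by
  unfold kt; rw [st_one (by linarith)]
lemma kt_large {q : ℝ} (h : 1 / 200 ≤ q) : kt q = q := by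
  unfold kt; rw [st_zero (by linarith)]; ring
lemma kt_contDiff : ContDiff ℝ ∞ kt := by
  unfold kt
  exact contDiff_id.sub ((st_contDiff.comp (by fun_prop)).div_const _)
lemma kt_hasDeriv (q : ℝ) : HasDerivAt kt (kt' q) q := by
  unfold kt kt'
  have h1 : HasDerivAt (fun q : ℝ => 2 - 400 * q) (-400) q := by
    simpa using ((hasDerivAt_id q).const_mul 400).const_sub 2
  have h2 := ((st_hasDeriv (2 - 400 * q)).comp q h1).div_const 800
  have h3 := (hasDerivAt_id q).sub h2
  have e : 1 + deriv st (2 - 400 * q) / 2 = 1 - deriv st (2 - 400 * q) * -400 / 800 := by ring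
  rw [e]
  exact h3
lemma one_le_kt' (q : ℝ) : 1 ≤ kt' q := by unfold kt'; linarith [st_deriv_nonneg (2 - 400 * q)]
lemma kt'_cont : Continuous kt' := by
  unfold kt'
  exact continuous_const.add ((st_deriv_cont.comp (by fun_prop)).div_const _)

lemma kt_strictMono : StrictMono kt :=
  strictMono_of_hasDerivAt_pos kt_hasDeriv fun q => by linarith [one_le_kt' q]

lemma kt_surj : Surjective kt := by
  apply kt_contDiff.continuous.surjective
  · exact tendsto_atTop_mono le_kt (tendsto_atTop_add_const_right _ _ tendsto_id)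
  · exact tendsto_atBot_mono kt_le tendsto_id

/-- `kt` as a homeomorphism -/
noncomputable def ktH : ℝ ≃ₜ ℝ := (kt_strictMono.orderIsoOfSurjective kt kt_surj).toHomeomorph

lemma ktH_apply (q : ℝ) : ktH q = kt q := rfl

/-- `r² ↦ R²` -/
noncomputable def jt : ℝ → ℝ := ktH.symm

lemma jt_kt (q : ℝ) : jt (kt q) = q := ktH.symm_apply_apply q
lemma kt_jt (x : ℝ) : kt (jt x) = x := ktH.apply_symm_apply x

lemma jt_contDiff : ContDiff ℝ ∞ jt :=
  ktH.contDiff_symm_deriv (f' := kt') (fun q => by linarith [one_le_kt' q]) kt_hasDeriv kt_contDiff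

lemma jt_strictMono : StrictMono jt := by
  intro x y hxy
  by_contra h
  push Not at h
  have := kt_strictMono.monotone h
  rw [kt_jt, kt_jt] at this
  linarith

lemma jt_hasDeriv (x : ℝ) : HasDerivAt jt (kt' (jt x))⁻¹ x := by
  have h := HasDerivAt.of_local_left_inverse (f := kt) (g := jt) (a := x)
    jt_contDiff.continuous.continuousAt (kt_hasDeriv (jt x)) (by linarith [one_le_kt' (jt x)])
    (Eventually.of_forall kt_jt)
  exact h

lemma le_jt (x : ℝ) : x ≤ jt x := by have := kt_le (jt x); rwa [kt_jt] at this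
lemma jt_le (x : ℝ) : jt x ≤ x + 1 / 800 := by have := le_kt (jt x); rw [kt_jt] at this; linarith
lemma jt_small {x : ℝ} (h : x ≤ 1 / 800) : jt x = x + 1 / 800 := by
  apply kt_strictMono.injective
  rw [kt_jt, kt_small (by linarith)]
  ring
lemma jt_large {x : ℝ} (h : 1 / 200 ≤ x) : jt x = x := by
  apply kt_strictMono.injective
  rw [kt_jt, kt_large h]

lemma jt_pos {x : ℝ} (h : 0 ≤ x) : 1 / 800 ≤ jt x := by
  have := jt_strictMono.monotone h
  rw [jt_small (by norm_num : (0 : ℝ) ≤ 1 / 800)] at this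
  linarith

/-- the radial profile -/
noncomputable def psi (S q : ℝ) : ℝ :=
  (1 - st (16000 * q - 18)) * (q / 50) + st (16000 * q - 18) * (jt (S * kt q) / S)

lemma psi_small {S q : ℝ} (h : q ≤ 9 / 8000) : psi S q = q / 50 := by
  unfold psi; rw [st_zero (by linarith)]; ring

lemma psi_large {S q : ℝ} (h : 19 / 16000 ≤ q) : psi S q = jt (S * kt q) / S := by
  unfold psi; rw [st_one (by linarith)]; ring

lemma psi_mid {S q : ℝ} (hS : 0 < S) (h : q ≤ 1 / 800) : psi S q =
    (1 - st (16000 * q - 18)) * (q / 50) + st (16000 * q - 18) * (q - 1 / 800 + 1 / (800 * S)) := by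
  unfold psi
  have h1 : S * kt q ≤ 1 / 800 := by
    rw [kt_small (by linarith)]
    have : S * (q - 1 / 800) ≤ 0 := mul_nonpos_of_nonneg_of_nonpos hS.le (by linarith)
    linarith
  rw [jt_small h1, kt_small (by linarith)]
  congr 2
  field_simp

lemma psi_id {S q : ℝ} (hS : 0 < S) (h1 : 1 / 200 ≤ q) (h2 : 1 / 200 ≤ S * q) : psi S q = q := by
  rw [psi_large (by linarith), kt_large h1, jt_large h2]
  field_simp

lemma psi_deriv_pos {S : ℝ} (hS : 0 < S) (hS2 : S < 6.86) (q : ℝ) :
    ∃ d : ℝ, 0 < d ∧ HasDerivAt (psi S) d q := by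
  rcases lt_or_ge q (1 / 800) with hq | hq
  · set χ := st (16000 * q - 18) with hχ
    set χ' := deriv st (16000 * q - 18) * 16000 with hχ'
    have h1 : HasDerivAt (fun q : ℝ => 16000 * q - 18) 16000 q := by
      simpa using ((hasDerivAt_id q).const_mul 16000).sub_const 18
    have h2 : HasDerivAt (fun q : ℝ => st (16000 * q - 18)) χ' q :=
      (st_hasDeriv (16000 * q - 18)).comp q h1
    have h3 : HasDerivAt (fun q : ℝ => q / 50) (1 / 50) q := (hasDerivAt_id q).div_const 50
    have h4 : HasDerivAt (fun q : ℝ => q - 1 / 800 + 1 / (800 * S)) 1 q :=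
      ((hasDerivAt_id q).sub_const _).add_const _
    have h5 := ((h2.const_sub 1).mul h3).add (h2.mul h4)
    have h6 : psi S =ᶠ[𝓝 q] fun q => (1 - st (16000 * q - 18)) * (q / 50) +
        st (16000 * q - 18) * (q - 1 / 800 + 1 / (800 * S)) := by
      filter_upwards [Iio_mem_nhds hq] with y hy
      exact psi_mid hS (le_of_lt hy)
    refine ⟨_, ?_, h5.congr_of_eventuallyEq h6⟩
    have c0 := st_nonneg (16000 * q - 18)
    have c1 := st_le_one (16000 * q - 18)
    rw [← hχ] at c0 c1 ⊢
    have hχ'0 : 0 ≤ χ' := mul_nonneg (st_deriv_nonneg _) (by norm_num)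
    have hbr : 0 ≤ χ' * ((q - 1 / 800 + 1 / (800 * S)) - q / 50) := by
      rcases lt_or_ge q (9 / 8000) with h | h
      · have : χ' = 0 := by rw [hχ', st_deriv_zero (by linarith)]; ring
        rw [this]; simp
      · apply mul_nonneg hχ'0
        have h7 : (1 : ℝ) / (800 * 6.86) ≤ 1 / (800 * S) := by
          apply one_div_le_one_div_of_le (by positivity)
          linarith
        have h8 : (0.000182 : ℝ) ≤ 1 / (800 * 6.86) := by norm_num
        linarith
    nlinarith
  · have hq' : 19 / 16000 < q := by linarith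
    have h1 : HasDerivAt (fun q => S * kt q) (S * kt' q) q := (kt_hasDeriv q).const_mul S
    have h2 := ((jt_hasDeriv (S * kt q)).comp q h1).div_const S
    have h6 : psi S =ᶠ[𝓝 q] fun q => (jt ∘ fun q => S * kt q) q / S := by
      filter_upwards [Ioi_mem_nhds hq'] with y hy
      exact psi_large (le_of_lt hy)
    refine ⟨_, ?_, h2.congr_of_eventuallyEq h6⟩
    have h3 : 0 < (kt' (jt (S * kt q)))⁻¹ := inv_pos.mpr (by linarith [one_le_kt' (jt (S * kt q))])
    have h4 : 0 < kt' q := by linarith [one_le_kt' q]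
    positivity

lemma psi_strictMono {S : ℝ} (hS : 0 < S) (hS2 : S < 6.86) : StrictMono (psi S) := by
  choose d hd hd' using psi_deriv_pos hS hS2
  exact strictMono_of_hasDerivAt_pos hd' hd

lemma psi_cont {S : ℝ} (hS : 0 < S) (hS2 : S < 6.86) : Continuous (psi S) := by
  choose d hd hd' using psi_deriv_pos hS hS2
  exact continuous_iff_continuousAt.mpr fun q => (hd' q).continuousAt

lemma psi_zero (S : ℝ) : psi S 0 = 0 := by rw [psi_small (by norm_num)]; simp

lemma psi_pos {S q : ℝ} (hS : 0 < S) (hS2 : S < 6.86) (hq : 0 < q) : 0 < psi S q := by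
  rw [← psi_zero S]
  exact psi_strictMono hS hS2 hq

end Pool.Agent.TH292.MR
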