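import Pool.Agent.TH292.MR.Per

/-!
# The semiconjugacy to the cat map and its inverse
-/

set_option autoImplicit false

open Set Filter Topology Function MeasureTheory
open scoped ContDiff

namespace Pool.Agent.TH292.MR

open Pool.Agent.TH292.Gold

/-- the planar semiconjugacy -/
noncomputable def H0 (z : Plane) : Plane := Real.sqrt (max (kt (nq z)) 0 / nq z) • z

/-- the planar inverse -/
noncomputable def J0 (z : Plane) : Plane := Real.sqrt (jt (nq z) / nq z) • z

lemma kt_nonpos {q : ℝ} (h : q ≤ 1 / 800) : kt q ≤ 0 := by rw [kt_small (by linarith)]; linarith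
lemma kt_pos {q : ℝ} (h : 1 / 800 < q) : 0 < kt q := by
  have h1 : kt (1 / 800) = 0 := by rw [kt_small (by norm_num)]; norm_num
  rw [← h1]
  exact kt_strictMono h

lemma H0_small {z : Plane} (h : nq z ≤ 1 / 800) : H0 z = 0 := by
  unfold H0
  rw [max_eq_right (kt_nonpos h)]
  simp
lemma H0_large {z : Plane} (h : 1 / 200 ≤ nq z) : H0 z = z := by
  unfold H0
  rw [kt_large h, max_eq_left (by linarith), div_self (by linarith), Real.sqrt_one, one_smul]
lemma J0_large {z : Plane} (h : 1 / 200 ≤ nq z) : J0 z = z := by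
  unfold J0
  rw [jt_large h, div_self (by linarith), Real.sqrt_one, one_smul]
lemma H0_zero : H0 0 = 0 := by unfold H0; simp
lemma J0_zero : J0 0 = 0 := by unfold J0; simp

lemma nq_H0 (z : Plane) : nq (H0 z) = max (kt (nq z)) 0 := by
  by_cases hz : z = 0
  · rw [hz, H0_zero, nq_zero, max_eq_right (kt_nonpos (by norm_num))]
  · have hq := nq_pos hz
    unfold H0
    rw [nq_smul, Real.sq_sqrt (by positivity)]
    field_simp

lemma nq_J0 {z : Plane} (hz : z ≠ 0) : nq (J0 z) = jt (nq z) := by
  have hq := nq_pos hz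
  have hj := jt_pos hq.le
  unfold J0
  rw [nq_smul, Real.sq_sqrt (by positivity)]
  field_simp

lemma H0_cont : Continuous H0 := by
  rw [continuous_iff_continuousAt]
  intro z
  rcases lt_or_ge (nq z) (1 / 800) with h | h
  · have : H0 =ᶠ[𝓝 z] fun _ => 0 := by
      filter_upwards [(isOpen_lt nq_contDiff.continuous continuous_const).mem_nhds h] with w hw
      exact H0_small (le_of_lt hw)
    exact continuousAt_const.congr this.symm
  · have hq : 0 < nq z := by linarith
    have h1 : ContinuousAt (fun z => Real.sqrt (max (kt (nq z)) 0 / nq z)) z := by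
      apply ContinuousAt.sqrt
      apply ContinuousAt.div _ nq_contDiff.continuous.continuousAt hq.ne'
      exact ((kt_contDiff.continuous.comp nq_contDiff.continuous).max continuous_const).continuousAt
    exact h1.smul continuousAt_id

lemma H0_J0 (z : Plane) : H0 (J0 z) = z := by
  by_cases hz : z = 0
  · rw [hz, J0_zero, H0_zero]
  · have hq := nq_pos hz
    have hj := jt_pos hq.le
    have h1 : H0 (J0 z) = (Real.sqrt (max (kt (nq (J0 z))) 0 / nq (J0 z)) *
        Real.sqrt (jt (nq z) / nq z)) • z := by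
      unfold H0 J0
      rw [smul_smul]
    rw [h1, nq_J0 hz, kt_jt, max_eq_left hq.le, ← Real.sqrt_mul (by positivity)]
    have : nq z / jt (nq z) * (jt (nq z) / nq z) = 1 := by field_simp
    rw [this, Real.sqrt_one, one_smul]

lemma J0_H0 {z : Plane} (h : 1 / 800 < nq z) : J0 (H0 z) = z := by
  have hq : 0 < nq z := by linarith
  have hk := kt_pos h
  have h1 : J0 (H0 z) = (Real.sqrt (jt (nq (H0 z)) / nq (H0 z)) *
      Real.sqrt (max (kt (nq z)) 0 / nq z)) • z := by
    unfold H0 J0
    rw [smul_smul]
  rw [h1, nq_H0, max_eq_left hk.le, jt_kt, ← Real.sqrt_mul (by positivity)]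
  have : nq z / kt (nq z) * (kt (nq z) / nq z) = 1 := by field_simp
  rw [this, Real.sqrt_one, one_smul]

/-- the planar semiconjugacy relation -/
lemma H0_AL (z : Plane) : H0 (AL (P0 z)) = AL (H0 z) := by
  by_cases hz : z = 0
  · rw [hz, P0_zero, H0_zero]
    unfold AL
    simp only [Prod.fst_zero, Prod.snd_zero, mul_zero, add_zero]
    exact H0_zero
  · have hq := nq_pos hz
    have hS := SS_pos hz
    have hS2 := SS_lt hz
    have hψ := psi_pos hS hS2 hq
    have hQ : nq (AL (P0 z)) = SS z * psi (SS z) (nq z) := by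
      show np (P0 z) = _
      unfold P0
      rw [np_smul, CC_sq, Csq_ne hz, ← SS_mul hz]
      field_simp
    have hK : max (kt (nq (AL (P0 z)))) 0 = SS z * max (kt (nq z)) 0 := by
      rw [hQ]
      rcases le_or_gt (nq z) (1 / 800) with h | h
      · rw [max_eq_right (kt_nonpos h), mul_zero, max_eq_right]
        apply kt_nonpos
        have h1 : psi (SS z) (nq z) ≤ psi (SS z) (1 / 800) := (psi_strictMono hS hS2).monotone h
        have h2 : psi (SS z) (1 / 800) = 1 / 800 / SS z := by
          rw [psi_large (by norm_num), kt_small (by norm_num)]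
          norm_num
          rw [jt_small (by norm_num)]
          norm_num
        rw [h2] at h1
        calc SS z * psi (SS z) (nq z) ≤ SS z * (1 / 800 / SS z) := by gcongr
          _ = 1 / 800 := by field_simp
      · have h1 : SS z * psi (SS z) (nq z) = jt (SS z * kt (nq z)) := by
          rw [psi_large (by linarith)]
          field_simp
        have hk := kt_pos h
        rw [h1, kt_jt, max_eq_left hk.le, max_eq_left (by positivity)]
    have e1 : AL (P0 z) = CC z • AL z := by unfold P0; rw [AL_smul]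
    have e2 : H0 (AL (P0 z)) = (Real.sqrt (max (kt (nq (AL (P0 z)))) 0 / nq (AL (P0 z))) *
        CC z) • AL z := by
      conv_lhs => unfold H0
      rw [e1, smul_smul]
    have e3 : AL (H0 z) = Real.sqrt (max (kt (nq z)) 0 / nq z) • AL z := by
      unfold H0
      rw [AL_smul]
    rw [e2, e3, hK, hQ]
    congr 1
    have h4 : CC z = Real.sqrt (psi (SS z) (nq z) / nq z) := by unfold CC; rw [Csq_ne hz]
    rw [h4, ← Real.sqrt_mul (by positivity)]
    congr 1
    field_simp

lemma hH0 : ∀ z, 0.035 ≤ nq z → H0 z = z := fun _ h => H0_large (by linarith)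
lemma hJ0 : ∀ z, 0.035 ≤ nq z → J0 z = z := fun _ h => J0_large (by linarith)
lemma hJ0' : ∀ z, nq z < 0.035 → nq (J0 z) < 0.035 := by
  intro z h
  by_cases hz : z = 0
  · rw [hz, J0_zero, nq_zero]; norm_num
  · rw [nq_J0 hz]
    have : jt 0.035 = 0.035 := jt_large (by norm_num)
    rw [← this]
    exact jt_strictMono h
lemma hH0' : ∀ z, nq z < 0.035 → nq (H0 z) < 0.035 := by
  intro z h
  rw [nq_H0]
  have h1 : kt 0.035 = 0.035 := kt_large (by norm_num)
  have h2 := kt_strictMono h
  rw [h1] at h2
  exact max_lt h2 (by norm_num)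

/-- the semiconjugacy -/
noncomputable def hh : Torus → Torus := tq H0
/-- the inverse of the semiconjugacy -/
noncomputable def gg : Torus → Torus := tq J0

lemma hh_cont : Continuous hh := tq_continuous hH0 H0_cont

lemma hh_gg (w : Torus) : hh (gg w) = w := tq_comp hJ0 hJ0' H0_J0 w

/-- the invariant disc -/
def DD : Set Torus := {x | nq (cl x) ≤ 1 / 800}

lemma cl_eq_zero {x : Torus} (h : cl x = 0) : x = 0 := by rw [← proj_cl x, h, proj_zero]

lemma cl_hh (x : Torus) : cl (hh x) = H0 (cl x) := cl_tq hH0 hH0' x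
lemma cl_gg (x : Torus) : cl (gg x) = J0 (cl x) := cl_tq hJ0 hJ0' x

lemma hh_eq_zero_iff (x : Torus) : hh x = 0 ↔ x ∈ DD := by
  constructor
  · intro h
    have h1 : nq (cl (hh x)) = 0 := by rw [h, cl_zero, nq_zero]
    rw [cl_hh, nq_H0] at h1
    show nq (cl x) ≤ 1 / 800
    by_contra hcon
    push Not at hcon
    have := kt_pos hcon
    have := le_max_left (kt (nq (cl x))) 0
    linarith
  · intro h
    apply cl_eq_zero
    rw [cl_hh]
    exact H0_small h

lemma gg_hh {x : Torus} (h : x ∉ DD) : gg (hh x) = x := by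
  have h1 : 1 / 800 < nq (cl x) := by
    by_contra hcon
    push Not at hcon
    exact h hcon
  rw [← proj_cl (gg (hh x)), cl_gg, cl_hh, J0_H0 h1, proj_cl]

/-- the semiconjugacy relation -/
theorem hh_ff (x : Torus) : hh (ff x) = CT (hh x) := by
  rcases lt_or_ge (nq (cl x)) 0.035 with hz | hz
  · have e1 : ff x = proj (AL (P0 (cl x))) := by
      rw [ff_apply]; unfold tq; rw [proj_AL]
    have h2 := P0_lt hz
    have h3 : nq (AL (P0 (cl x))) < 1 / 4 := by
      by_cases h0 : P0 (cl x) = 0
      · rw [h0]; unfold AL nq; norm_num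
      · have := nq_AL_lt h0; linarith
    have e2 : cl (ff x) = AL (P0 (cl x)) := by rw [e1]; exact cl_proj_of_lt h3
    have e3 : hh (ff x) = proj (H0 (cl (ff x))) := rfl
    have e4 : hh x = proj (H0 (cl x)) := rfl
    rw [e3, e2, H0_AL, proj_AL, e4]
  · have e1 : ff x = CT x := by
      rw [ff_apply]; unfold tq; rw [P0_large hz, proj_cl]
    have e2 : hh x = x := by
      show proj (H0 (cl x)) = x
      rw [hH0 _ hz, proj_cl]
    rw [e1, e2]
    show proj (H0 (cl (CT x))) = CT x
    have h1 : 1 / 200 ≤ nq (cl (CT x)) := by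
      by_contra hcon
      push Not at hcon
      set w := cl (CT x) with hw
      have h3 : nq (BL w) < 0.035 := by
        by_cases h0 : w = 0
        · rw [h0]; unfold BL nq; norm_num
        · have := nq_BL_lt h0; linarith
      have h4 : x = proj (BL w) := by rw [proj_BL, hw, proj_cl, CI_CT]
      have h5 : cl x = BL w := by rw [h4]; exact cl_proj_of_lt (by linarith)
      rw [h5] at hz
      linarith
    rw [H0_large h1, proj_cl]

lemma hh_ff_iter (n : ℕ) (x : Torus) : hh (ff^[n] x) = CT^[n] (hh x) := by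
  induction n generalizing x with
  | zero => rfl
  | succ n ih => rw [iterate_succ_apply, iterate_succ_apply, ih, hh_ff]

lemma hh_symm (x : Torus) : hh (ff.symm x) = CI (hh x) := by
  have h := hh_ff (ff.symm x)
  rw [ff.apply_symm_apply] at h
  rw [h, CI_CT]

lemma hh_symm_iter (n : ℕ) (x : Torus) : hh (ff.symm^[n] x) = CI^[n] (hh x) := by
  induction n generalizing x with
  | zero => rfl
  | succ n ih => rw [iterate_succ_apply, iterate_succ_apply, ih, hh_symm]

lemma CT_eq_zero_iff (x : Torus) : CT x = 0 ↔ x = 0 := by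
  constructor
  · intro h; rw [← CI_CT x, h, CI_zero]
  · rintro rfl; exact CT_zero

lemma ff_mem_DD (x : Torus) : ff x ∈ DD ↔ x ∈ DD := by
  rw [← hh_eq_zero_iff, ← hh_eq_zero_iff, hh_ff, CT_eq_zero_iff]

lemma gg_notMem {w : Torus} (hw : w ≠ 0) : gg w ∉ DD := by
  intro h
  rw [← hh_eq_zero_iff, hh_gg] at h
  exact hw h

lemma gg_zero : gg 0 = 0 := by
  show proj (J0 (cl 0)) = 0
  rw [cl_zero, J0_zero, proj_zero]

lemma ff_gg (w : Torus) : ff (gg w) = gg (CT w) := by
  by_cases hw : w = 0
  · rw [hw, CT_zero, gg_zero, ff_zero]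
  · have h1 : ff (gg w) ∉ DD := by rw [ff_mem_DD]; exact gg_notMem hw
    rw [← gg_hh h1, hh_ff, hh_gg]

lemma ff_gg_iter (n : ℕ) (w : Torus) : ff^[n] (gg w) = gg (CT^[n] w) := by
  induction n generalizing w with
  | zero => rfl
  | succ n ih => rw [iterate_succ_apply, iterate_succ_apply, ff_gg, ih]

lemma symm_gg (w : Torus) : ff.symm (gg w) = gg (CI w) := by
  rw [Homeomorph.symm_apply_eq, ff_gg, CT_CI]

lemma symm_gg_iter (n : ℕ) (w : Torus) : ff.symm^[n] (gg w) = gg (CI^[n] w) := by
  induction n generalizing w with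
  | zero => rfl
  | succ n ih => rw [iterate_succ_apply, iterate_succ_apply, symm_gg, ih]

lemma gg_inj : Injective gg := LeftInverse.injective hh_gg

lemma J0_meas : Measurable J0 := by
  unfold J0
  have h1 : Measurable nq := nq_contDiff.continuous.measurable
  exact (((jt_contDiff.continuous.measurable.comp h1).div h1).sqrt).smul measurable_id

lemma gg_meas : Measurable gg := (proj_cont.measurable.comp J0_meas).comp cl_meas

lemma DD_meas : MeasurableSet DD :=
  measurableSet_le (nq_contDiff.continuous.measurable.comp cl_meas) measurable_const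

end Pool.Agent.TH292.MR
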