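import Pool.Agent.TH292.MR.SrbU

/-!
# The measure `mu` is an unstable SRB measure
-/

set_option autoImplicit false

open Set Filter Topology MeasureTheory Function ProbabilityTheory
open scoped ContDiff ENNReal NNReal

namespace Pool.Agent.TH292.MR

open Pool.Agent.TH292.Gold

lemma rep_pos {c : UnitAddCircle} (hc : c ≠ 0) : 0 < rep c := by
  rcases (rep_mem c).1.lt_or_eq with h | h
  · exact h
  · exfalso
    apply hc
    rw [← coe_rep c, ← h]
    rfl

lemma coe_ne_zero {t : ℝ} (h0 : 0 < t) (h1 : t < 1) : (t : UnitAddCircle) ≠ 0 := by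
  intro h
  have h2 : (t : UnitAddCircle) = ((0 : ℝ) : UnitAddCircle) := h
  have := eq_of_coe_eq h2 (by rw [abs_lt]; constructor <;> linarith)
  linarith

/-- the index set of the measurable partition -/
abbrev ZZ : Type := UnitAddCircle × Bool

open Classical in
/-- the measurable partition of the linear model -/
noncomputable def qq (w : Torus) : ZZ :=
  (((ph * rep w.2 : ℝ) : UnitAddCircle) - w.1, if w.2 = 0 then true else false)

lemma coe_meas : Measurable fun x : ℝ => (x : UnitAddCircle) := (AddCircle.continuous_mk' 1).measurable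

lemma qq_meas : Measurable qq := by
  unfold qq
  have h1 : Measurable fun w : Torus => rep w.2 := rep_meas.comp (by fun_prop)
  have h2 : Measurable fun w : Torus => ((ph * rep w.2 : ℝ) : UnitAddCircle) :=
    coe_meas.comp (h1.const_mul ph)
  refine (h2.sub (by fun_prop)).prodMk ?_
  apply Measurable.ite _ measurable_const measurable_const
  have : Measurable fun w : Torus => w.2 := by fun_prop
  exact this (measurableSet_singleton 0)

/-- Lebesgue measure on the unit interval -/
noncomputable def rho : Measure ℝ := volume.restrict (Ioo 0 1)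

instance : IsProbabilityMeasure rho := by
  constructor
  unfold rho
  simp

/-- parametrisation of the partition elements -/
noncomputable def Phi (p : ZZ × ℝ) : Torus :=
  (((ph * p.2 : ℝ) : UnitAddCircle) - p.1.1, (p.2 : UnitAddCircle))

lemma Phi_meas : Measurable Phi := by
  unfold Phi
  have h2 : Measurable fun p : ZZ × ℝ => ((ph * p.2 : ℝ) : UnitAddCircle) :=
    coe_meas.comp (measurable_snd.const_mul ph)
  have h3 : Measurable fun p : ZZ × ℝ => (p.2 : UnitAddCircle) := coe_meas.comp measurable_snd
  exact (h2.sub (by fun_prop)).prodMk h3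

/-- the conditional measures of the linear model -/
noncomputable def KL : Kernel ZZ Torus := (Kernel.id ×ₖ Kernel.const ZZ rho).map Phi

instance : IsMarkovKernel KL := by
  unfold KL
  exact Kernel.IsMarkovKernel.map _ Phi_meas

lemma KL_apply (z : ZZ) : KL z = rho.map fun t => Phi (z, t) := by
  unfold KL
  ext s hs
  have hmm : Measurable fun t => Phi (z, t) := Phi_meas.comp measurable_prodMk_left
  rw [Kernel.map_apply' _ Phi_meas _ hs, Kernel.prod_apply, Kernel.id_apply, Kernel.const_apply,
    Measure.dirac_prod, Measure.map_apply measurable_prodMk_left (Phi_meas hs),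
    Measure.map_apply hmm hs]
  rfl

lemma rho_map : rho.map (fun t : ℝ => (t : UnitAddCircle)) = (volume : Measure UnitAddCircle) := by
  have h := (AddCircle.measurePreserving_mk 1 0).map_eq
  rw [zero_add] at h
  unfold rho
  rw [restrict_Ioo_eq_restrict_Ioc]
  exact h

lemma disint_aux (I : Torus → ℝ≥0∞) (hI : Measurable I) :
    ∫⁻ x : Torus, (∫⁻ t, I (x.1 + (((ph * t - ph * rep x.2 : ℝ)) : UnitAddCircle),
      (t : UnitAddCircle)) ∂rho) = ∫⁻ x : Torus, I x := by
  have hm1 : Measurable fun p : Torus × ℝ => I
      (p.1.1 + (((ph * p.2 - ph * rep p.1.2 : ℝ)) : UnitAddCircle), (p.2 : UnitAddCircle)) := by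
    apply hI.comp
    have h2 : Measurable fun p : Torus × ℝ => ((ph * p.2 - ph * rep p.1.2 : ℝ) : UnitAddCircle) :=
      coe_meas.comp ((measurable_snd.const_mul ph).sub ((rep_meas.comp (by fun_prop)).const_mul ph))
    have h3 : Measurable fun p : Torus × ℝ => (p.2 : UnitAddCircle) := coe_meas.comp measurable_snd
    exact ((measurable_fst.comp measurable_fst).add h2).prodMk h3
  have e0 : (volume : Measure Torus) = (volume : Measure UnitAddCircle).prod volume := rfl
  rw [e0, lintegral_prod_symm _ (Measurable.lintegral_prod_right' hm1).aemeasurable]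
  have h2 : ∀ x2 : UnitAddCircle, ∫⁻ x1 : UnitAddCircle, (∫⁻ t, I
      (x1 + (((ph * t - ph * rep x2 : ℝ)) : UnitAddCircle), (t : UnitAddCircle)) ∂rho) =
      ∫⁻ t, (∫⁻ x1 : UnitAddCircle, I (x1, (t : UnitAddCircle))) ∂rho := by
    intro x2
    rw [lintegral_lintegral_swap]
    · apply lintegral_congr
      intro t
      exact lintegral_add_right_eq_self (fun x1 : UnitAddCircle => I
        (x1, (t : UnitAddCircle))) _
    · exact (hm1.comp (((measurable_fst).prodMk measurable_const).prodMk measurable_snd :
        Measurable fun p : UnitAddCircle × ℝ => (((p.1, x2) : Torus), p.2))).aemeasurable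
  simp only [h2]
  rw [lintegral_const, measure_univ, mul_one]
  have hm3 : Measurable fun c : UnitAddCircle => ∫⁻ x1 : UnitAddCircle, I (x1, c) :=
    Measurable.lintegral_prod_left' hI
  have h4 : ∫⁻ t, (∫⁻ x1 : UnitAddCircle, I (x1, (t : UnitAddCircle))) ∂rho =
      ∫⁻ c : UnitAddCircle, ∫⁻ x1 : UnitAddCircle, I (x1, c) := by
    rw [← rho_map, lintegral_map _ coe_meas]
    exact rho_map ▸ hm3
  rw [h4, lintegral_prod_symm _ hI.aemeasurable]

lemma disint : ((volume : Measure Torus).map qq).bind KL = volume := by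
  classical
  ext B hB
  rw [Measure.bind_apply hB KL.measurable.aemeasurable, lintegral_map (KL.measurable_coe hB) qq_meas]
  -- the integrand
  have hind : Measurable (B.indicator (1 : Torus → ℝ≥0∞)) := measurable_one.indicator hB
  have h1 : ∀ x : Torus, KL (qq x) B = ∫⁻ t, B.indicator (1 : Torus → ℝ≥0∞)
      (x.1 + (((ph * t - ph * rep x.2 : ℝ)) : UnitAddCircle), (t : UnitAddCircle)) ∂rho := by
    intro x
    have hmm : Measurable fun t => Phi (qq x, t) := Phi_meas.comp measurable_prodMk_left
    rw [KL_apply, Measure.map_apply hmm hB, ← lintegral_indicator_one (hmm hB)]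
    apply lintegral_congr
    intro t
    have e : Phi (qq x, t) = (x.1 + (((ph * t - ph * rep x.2 : ℝ)) : UnitAddCircle),
        (t : UnitAddCircle)) := by
      unfold Phi qq
      ext
      · simp only
        rw [AddCircle.coe_sub]
        abel
      · rfl
    rw [← e]
    rfl
  simp only [h1]
  rw [disint_aux _ hind, ← lintegral_indicator_one hB]

lemma ul_inj : Injective ul := by
  intro s t h
  have h1 : ((ph * s : ℝ) : UnitAddCircle) = ((ph * t : ℝ) : UnitAddCircle) := congrArg Prod.fst h
  have h2 : (s : UnitAddCircle) = (t : UnitAddCircle) := congrArg Prod.snd h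
  obtain ⟨m, hm⟩ := (coe_eq_iff _ _).mp h1
  obtain ⟨n, hn⟩ := (coe_eq_iff _ _).mp h2
  rw [hn] at hm ⊢
  have h3 : ph * n = m := by linarith
  have h4 : n = 0 := by
    by_contra hne
    have h5 : Irrational (ph * n) := Real.goldenRatio_irrational.mul_intCast hne
    exact h5 ⟨m, by rw [h3]; simp⟩
  rw [h4]
  simp

/-- the partition -/
noncomputable def qT (x : Torus) : ZZ := qq (hh x)

lemma qT_meas : Measurable qT := qq_meas.comp hh_cont.measurable

/-- the conditional measures -/
noncomputable def KT : Kernel ZZ Torus := KL.map gg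

instance : IsMarkovKernel KT := by
  unfold KT
  exact Kernel.IsMarkovKernel.map _ gg_meas

lemma disintT : (mu.map qT).bind KT = mu := by
  have h1 : mu.map qT = (volume : Measure Torus).map qq := by
    unfold mu
    rw [Measure.map_map qT_meas gg_meas]
    congr 1
    funext w
    show qq (hh (gg w)) = qq w
    rw [hh_gg]
  rw [h1]
  ext B hB
  rw [Measure.bind_apply hB KT.measurable.aemeasurable]
  unfold KT
  simp only [Kernel.map_apply' _ gg_meas _ hB]
  rw [← Measure.bind_apply (gg_meas hB) KL.measurable.aemeasurable, disint]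
  unfold mu
  rw [Measure.map_apply gg_meas hB]

lemma KT_apply (z : ZZ) : KT z = rho.map fun t => gg (Phi (z, t)) := by
  unfold KT
  have hmm : Measurable fun t => Phi (z, t) := Phi_meas.comp measurable_prodMk_left
  rw [Kernel.map_apply _ gg_meas, KL_apply, Measure.map_map gg_meas hmm]
  rfl

lemma fibreL {w : Torus} (hw : w.2 ≠ 0) :
    qq ⁻¹' {qq w} = (fun t => w + ul t) '' Ioo (-rep w.2) (1 - rep w.2) := by
  obtain ⟨x1, x2⟩ := w
  have hw' : x2 ≠ 0 := hw
  have hrm := rep_mem x2
  have hrp := rep_pos hw'
  have hq : qq (x1, x2) = (((ph * rep x2 : ℝ) : UnitAddCircle) - x1, false) := by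
    unfold qq
    simp [hw']
  ext y
  rw [mem_preimage, mem_singleton_iff, hq]
  constructor
  · intro h
    have h1 : ((ph * rep y.2 : ℝ) : UnitAddCircle) - y.1 = ((ph * rep x2 : ℝ) : UnitAddCircle) - x1 :=
      congrArg (fun p : ZZ => p.1) h
    have h3 : (if y.2 = 0 then true else false) = false := congrArg (fun p : ZZ => p.2) h
    have h4 : y.2 ≠ 0 := by
      intro h5
      rw [if_pos h5] at h3
      exact Bool.noConfusion h3
    have h5 := rep_pos h4
    have h6 := (rep_mem y.2).2
    refine ⟨rep y.2 - rep x2, ⟨by show -rep x2 < _; linarith, by show _ < 1 - rep x2; linarith⟩, ?_⟩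
    show (x1, x2) + ul (rep y.2 - rep x2) = y
    unfold ul
    ext
    · show x1 + ((ph * (rep y.2 - rep x2) : ℝ) : UnitAddCircle) = y.1
      rw [mul_sub, AddCircle.coe_sub]
      have : y.1 = ((ph * rep y.2 : ℝ) : UnitAddCircle) - (((ph * rep x2 : ℝ) : UnitAddCircle) - x1) := by
        rw [← h1]; abel
      rw [this]
      abel
    · show x2 + ((rep y.2 - rep x2 : ℝ) : UnitAddCircle) = y.2
      rw [AddCircle.coe_sub, coe_rep, coe_rep]
      abel
  · rintro ⟨t, ⟨ht0, ht1⟩, rfl⟩
    replace ht0 : -rep x2 < t := ht0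
    replace ht1 : t < 1 - rep x2 := ht1
    have h7 : x2 + (t : UnitAddCircle) = ((rep x2 + t : ℝ) : UnitAddCircle) := by
      rw [AddCircle.coe_add, coe_rep]
    have h5 : rep (x2 + (t : UnitAddCircle)) = rep x2 + t := by
      rw [h7]; exact rep_coe (by linarith) (by linarith)
    have h6 : x2 + (t : UnitAddCircle) ≠ 0 := by
      rw [h7]; exact coe_ne_zero (by linarith) (by linarith)
    show qq ((x1, x2) + ul t) = _
    unfold qq ul
    ext
    · show ((ph * rep (x2 + (t : UnitAddCircle)) : ℝ) : UnitAddCircle) - (x1 + ((ph * t : ℝ) : UnitAddCircle)) =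
        ((ph * rep x2 : ℝ) : UnitAddCircle) - x1
      rw [h5, mul_add, AddCircle.coe_add]
      abel
    · show (if x2 + (t : UnitAddCircle) = 0 then true else false) = false
      rw [if_neg h6]

lemma KT_eq {w : Torus} (hw : w.2 ≠ 0) :
    KT (qq w) = (volume.restrict (Ioo (-rep w.2) (1 - rep w.2))).map (fun t => gg (w + ul t)) := by
  obtain ⟨x1, x2⟩ := w
  rw [KT_apply]
  have h1 : (fun t : ℝ => gg (Phi (qq (x1, x2), t))) =
      (fun t => gg ((x1, x2) + ul t)) ∘ fun t => t - rep x2 := by
    funext t
    show gg (Phi (qq (x1, x2), t)) = gg ((x1, x2) + ul (t - rep x2))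
    congr 1
    unfold Phi qq ul
    ext
    · show ((ph * t : ℝ) : UnitAddCircle) - (((ph * rep x2 : ℝ) : UnitAddCircle) - x1) =
        x1 + ((ph * (t - rep x2) : ℝ) : UnitAddCircle)
      rw [mul_sub, AddCircle.coe_sub]
      abel
    · show (t : UnitAddCircle) = x2 + ((t - rep x2 : ℝ) : UnitAddCircle)
      rw [AddCircle.coe_sub, coe_rep]
      abel
  have h2 : rho.map (fun t => t - rep x2) = volume.restrict (Ioo (-rep x2) (1 - rep x2)) := by
    unfold rho
    have h3 := ((measurePreserving_sub_right (volume : Measure ℝ) (rep x2)).restrict_preimage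
      (measurableSet_Ioo (a := -rep x2) (b := 1 - rep x2))).map_eq
    have h4 : (fun t => t - rep x2) ⁻¹' Ioo (-rep x2) (1 - rep x2) = Ioo 0 1 := by
      ext t
      simp only [mem_preimage, mem_Ioo]
      constructor
      · rintro ⟨h5, h6⟩
        exact ⟨by linarith, by linarith⟩
      · rintro ⟨h5, h6⟩
        exact ⟨by linarith, by linarith⟩
    rw [h4] at h3
    exact h3
  have hmeas : Measurable fun t => gg ((x1, x2) + ul t) :=
    gg_meas.comp (continuous_const.add ul_cont).measurable
  rw [h1, ← Measure.map_map hmeas (measurable_sub_const _), h2]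

lemma snd_ne_ae : ∀ᵐ x : Torus, x.2 ≠ 0 := by
  have h1 : (volume : Measure UnitAddCircle) {0} = 0 := by
    rw [← rho_map, Measure.map_apply coe_meas (measurableSet_singleton _)]
    unfold rho
    rw [Measure.restrict_apply (coe_meas (measurableSet_singleton _))]
    have : (fun x : ℝ => (x : UnitAddCircle)) ⁻¹' {0} ∩ Ioo 0 1 = ∅ := by
      ext t
      simp only [mem_inter_iff, mem_preimage, mem_singleton_iff, mem_Ioo, mem_empty_iff_false,
        iff_false, not_and]
      intro h h0 h2
      exact coe_ne_zero h0 h2 h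
    rw [this, measure_empty]
  have h2 : MeasurePreserving (Prod.snd : Torus → UnitAddCircle) volume volume := measurePreserving_snd
  have h3 := h2.measure_preimage (measurableSet_singleton (0 : UnitAddCircle)).nullMeasurableSet
  rw [h1] at h3
  rw [ae_iff]
  have h4 : {a : Torus | ¬ a.2 ≠ 0} = Prod.snd ⁻¹' {0} := by
    ext a
    simp
  rw [h4]
  exact h3

/-- the unstable line of the fixed point is null -/
lemma ne_ul_ae : ∀ᵐ w : Torus, ∀ t, w ≠ ul t := by
  have h1 : (volume : Measure Torus) (range ul) = 0 := by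
    by_contra hne
    have h2 := two_le_dimH hne
    have h3 : LipschitzWith 2 ul := by
      have := arc_lip 0
      simpa using this
    have h4 := h3.dimH_range_le
    have h5 : dimH (univ : Set ℝ) = 1 := Real.dimH_univ
    rw [h5] at h4
    have h6 := h2.trans h4
    norm_num at h6
  have h2 : ∀ᵐ w : Torus, w ∉ range ul := measure_eq_zero_iff_ae_notMem.mp h1
  filter_upwards [h2] with w hw t ht
  exact hw ⟨t, ht.symm⟩

end Pool.Agent.TH292.MR
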