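import Pool.Agent.TH292.MR.Expo

/-!
# Uniqueness of the unstable SRB measure
-/

set_option autoImplicit false

open Set Filter Topology MeasureTheory Function ProbabilityTheory
open scoped ContDiff ENNReal NNReal

namespace Pool.Agent.TH292.MR

open Pool.Agent.TH292.Gold

lemma sc_BL (z : Plane) : sc (BL z) = lam * sc z := by
  rw [← sc_AL (BL z), AL_BL]

/-- elements whose backward iterates tend to zero lie on the unstable line -/
lemma exists_ul {d : Torus} (hd : Tendsto (fun n => CI^[n] d) atTop (𝓝 0)) : ∃ t, d = ul t := by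
  have h1 : ∀ᶠ n in atTop, ‖CI^[n] d‖ < 1 / 16 := by
    have := hd.norm
    rw [norm_zero] at this
    exact this.eventually_lt_const (by norm_num)
  obtain ⟨N, hN⟩ := eventually_atTop.mp h1
  choose a ha ha' using fun n => exists_plift (CI^[N + n] d)
  have hna : ∀ n, ‖a n‖ < 1 / 16 := fun n => by rw [ha']; exact hN _ (by omega)
  have e1 : ∀ n, a (n + 1) = BL (a n) := by
    intro n
    have hb : ‖BL (a n)‖ ≤ 3 * ‖a n‖ := by
      have h3 := norm_fst_le (a n)
      have h4 := norm_snd_le (a n)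
      rw [Real.norm_eq_abs] at h3 h4
      have h5 := abs_le.mp h3
      have h6 := abs_le.mp h4
      unfold BL
      rw [Prod.norm_mk, Real.norm_eq_abs, Real.norm_eq_abs]
      refine max_le (abs_le.mpr ⟨?_, ?_⟩) (abs_le.mpr ⟨?_, ?_⟩) <;> linarith
    have hp : proj (a (n + 1)) = proj (BL (a n)) := by
      rw [ha, proj_BL, ha, ← iterate_succ_apply' CI (N + n)]
      rfl
    have h7 : ‖a (n + 1) - BL (a n)‖ < 1 / 2 := by
      have h8 := norm_sub_le (a (n + 1)) (BL (a n))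
      have h9 := hna n
      have h10 := hna (n + 1)
      linarith
    have h8 := norm_proj_eq h7
    rw [proj_sub, hp, sub_self, norm_zero] at h8
    exact sub_eq_zero.mp (norm_eq_zero.mp h8.symm)
  have e3 : ∀ n, sc (a n) = lam ^ n * sc (a 0) := by
    intro n
    induction n with
    | zero => simp
    | succ n ih => rw [e1, sc_BL, ih, pow_succ]; ring
  have e4 : sc (a 0) = 0 := by
    by_contra hne
    have h2 : Tendsto (fun n : ℕ => lam ^ n * |sc (a 0)|) atTop atTop := by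
      apply Tendsto.atTop_mul_const (abs_pos.mpr hne)
      exact tendsto_pow_atTop_atTop_of_one_lt one_lt_lam
    obtain ⟨n, hn⟩ := (h2.eventually_gt_atTop 1).exists
    have h3 : lam ^ n * |sc (a 0)| = |sc (a n)| := by
      rw [e3 n, abs_mul, abs_pow, abs_of_pos lam_pos]
    rw [h3] at hn
    have h4 := norm_fst_le (a n)
    have h5 := norm_snd_le (a n)
    rw [Real.norm_eq_abs] at h4 h5
    have h6 := abs_le.mp h4
    have h7 := abs_le.mp h5
    have h8 := ph_lt
    have h9 := ph_gt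
    have h10 := hna n
    have : |sc (a n)| ≤ 1 := by
      unfold sc
      rw [abs_le]
      constructor <;> nlinarith
    linarith
  have e5 : CI^[N] d = ul (a 0).2 := by
    have h2 : (a 0).1 = ph * (a 0).2 := by
      unfold sc at e4; linarith
    have h3 := ha 0
    rw [add_zero] at h3
    rw [← h3]
    unfold ul proj
    rw [h2]
  refine ⟨lam ^ N * (a 0).2, ?_⟩
  rw [← CT_iter_ul, ← e5, CT_iter_CI]

lemma hh_unif : UniformContinuous hh := CompactSpace.uniformContinuous_of_continuous hh_cont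

/-- the semiconjugacy maps unstable manifolds into unstable lines -/
lemma hh_unstable {x y : Torus} (h : y ∈ unstableSet ff x) : ∃ t, hh y = hh x + ul t := by
  obtain ⟨C, θ, hθ0, hθ1, hw⟩ := h
  have hlim : Tendsto (fun n : ℕ => C * θ ^ n) atTop (𝓝 0) := by
    have := (tendsto_pow_atTop_nhds_zero_of_lt_one hθ0.le hθ1).const_mul C
    rwa [mul_zero] at this
  have h1 : Tendsto (fun n => CI^[n] (hh y - hh x)) atTop (𝓝 0) := by
    rw [Metric.tendsto_nhds]
    intro ε hε
    obtain ⟨δ, hδ, hδ'⟩ := Metric.uniformContinuous_iff.mp hh_unif ε hε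
    filter_upwards [hlim.eventually_lt_const hδ] with n hn
    have h2 := hδ' (lt_of_le_of_lt (hw n) hn)
    rw [hh_symm_iter, hh_symm_iter] at h2
    rw [dist_zero_right, CI_iter_sub, ← dist_eq_norm, dist_comm]
    exact h2
  obtain ⟨t, ht⟩ := exists_ul h1
  exact ⟨t, by rw [← ht]; abel⟩

/-- two fixed points in the same unstable set coincide -/
lemma fixed_unique {x y y' : Torus} (hy : y ∈ unstableSet ff x) (hy' : y' ∈ unstableSet ff x)
    (h : ff y = y) (h' : ff y' = y') : y = y' := by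
  obtain ⟨C, θ, hθ0, hθ1, hw⟩ := hy
  obtain ⟨C', θ', hθ0', hθ1', hw'⟩ := hy'
  have hs : ∀ n, ff.symm^[n] y = y := fun n => by
    apply Function.iterate_fixed
    rw [Homeomorph.symm_apply_eq]; exact h.symm
  have hs' : ∀ n, ff.symm^[n] y' = y' := fun n => by
    apply Function.iterate_fixed
    rw [Homeomorph.symm_apply_eq]; exact h'.symm
  have h1 : Tendsto (fun n : ℕ => C * θ ^ n + C' * θ' ^ n) atTop (𝓝 0) := by
    have e1 := (tendsto_pow_atTop_nhds_zero_of_lt_one hθ0.le hθ1).const_mul C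
    have e2 := (tendsto_pow_atTop_nhds_zero_of_lt_one hθ0'.le hθ1').const_mul C'
    simpa using e1.add e2
  have h2 : dist y y' ≤ 0 := by
    apply ge_of_tendsto h1
    filter_upwards with n
    have e1 := hw n
    have e2 := hw' n
    rw [hs] at e1
    rw [hs'] at e2
    have e3 := dist_triangle_left y y' (ff.symm^[n] x)
    linarith
  exact dist_le_zero.mp h2

/-- a system of conditional measures detects null sets -/
lemma null_of_kernel {η : Measure Torus} {Z : Type} [MeasurableSpace Z] {q : Torus → Z}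
    {K : Kernel Z Torus} (hq : Measurable q) (hK : (η.map q).bind K = η) {B : Set Torus}
    (hB : MeasurableSet B) (h : ∀ᵐ x ∂η, K (q x) B = 0) : η B = 0 := by
  rw [← hK, Measure.bind_apply hB K.measurable.aemeasurable, lintegral_map (K.measurable_coe hB) hq]
  rw [lintegral_congr_ae h, lintegral_zero]

/-- Preimages of null subsets of an immersed curve are null. -/
lemma curve_null {γ : ℝ → Plane} (hγ : ContDiff ℝ ∞ γ) (hγ' : ∀ t, deriv γ t ≠ 0)
    (hinj : Injective (fun t => proj (γ t))) {T : Set ℝ} {E : Set Torus}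
    (hE : μH[1] E = 0) (hT : ∀ t ∈ T, proj (γ t) ∉ DD ∧ hh (proj (γ t)) ∈ E) :
    volume T = 0 := by
  rw [← hausdorffMeasure_real]
  apply measure_null_of_locally_null
  intro t₀ ht₀
  obtain ⟨h1, h2⟩ := hT t₀ ht₀
  -- the Lipschitz property of `gg`
  have hw₀ : hh (proj (γ t₀)) ≠ 0 := fun h => h1 ((hh_eq_zero_iff _).mp h)
  obtain ⟨w, hw⟩ := proj_surj (hh (proj (γ t₀)))
  obtain ⟨C, V, hV, hLV⟩ := lip_of_lift (Ψ := gg) (Q := per J0) (z := w) gg_proj
    ((perJ_contDiffAt (by rw [hw]; exact hw₀)).of_le (by simp))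
  rw [hw] at hV
  -- the curve is locally bi-Lipschitz
  have hsd : HasStrictDerivAt γ (deriv γ t₀) t₀ :=
    (hγ.contDiffAt (x := t₀)).hasStrictDerivAt (by simp)
  have hd0 : 0 < ‖deriv γ t₀‖ := norm_pos_iff.mpr (hγ' t₀)
  have hlow : ∀ᶠ p : ℝ × ℝ in 𝓝 (t₀, t₀), ‖deriv γ t₀‖ / 2 * |p.1 - p.2| ≤ ‖γ p.1 - γ p.2‖ := by
    have h3 := hsd.hasStrictFDerivAt.isLittleO.def (half_pos hd0)
    filter_upwards [h3] with p hp
    have h4 : ‖(p.1 - p.2) • deriv γ t₀‖ ≤ ‖γ p.1 - γ p.2‖ + ‖γ p.1 - γ p.2 - (p.1 - p.2) • deriv γ t₀‖ := by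
      have := norm_sub_le (γ p.1 - γ p.2) (γ p.1 - γ p.2 - (p.1 - p.2) • deriv γ t₀)
      rwa [sub_sub_cancel] at this
    have h5 : ‖γ p.1 - γ p.2 - (p.1 - p.2) • deriv γ t₀‖ ≤ ‖deriv γ t₀‖ / 2 * ‖p.1 - p.2‖ := by
      simpa using hp
    rw [norm_smul, Real.norm_eq_abs] at h4
    rw [Real.norm_eq_abs] at h5
    linarith
  obtain ⟨u, hu, v, hv, huv⟩ := mem_prod_iff.mp (nhds_prod_eq (X := ℝ) (Y := ℝ) ▸ hlow)
  have hcontγ := hγ.continuous
  have hball : ∀ᶠ t in 𝓝 t₀, ‖γ t - γ t₀‖ < 1 / 4 := by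
    have : Tendsto (fun t => ‖γ t - γ t₀‖) (𝓝 t₀) (𝓝 ‖γ t₀ - γ t₀‖) :=
      ((hcontγ.sub continuous_const).norm).tendsto t₀
    rw [sub_self, norm_zero] at this
    exact this.eventually_lt_const (by norm_num)
  have hVt : ∀ᶠ t in 𝓝 t₀, hh (proj (γ t)) ∈ V :=
    ((hh_cont.comp (proj_cont.comp hcontγ)).tendsto t₀).eventually hV
  have hUmem : {t | t ∈ u ∧ t ∈ v ∧ ‖γ t - γ t₀‖ < 1 / 4 ∧ hh (proj (γ t)) ∈ V} ∈ 𝓝 t₀ := by
    filter_upwards [hu, hv, hball, hVt] with t e1 e2 e3 e4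
    exact ⟨e1, e2, e3, e4⟩
  set U : Set ℝ := {t | t ∈ u ∧ t ∈ v ∧ ‖γ t - γ t₀‖ < 1 / 4 ∧ hh (proj (γ t)) ∈ V} with hU
  refine ⟨T ∩ U, inter_mem_nhdsWithin T hUmem, ?_⟩
  set ψ : ℝ → Torus := fun t => proj (γ t) with hψ
  have hρ : ∀ t, Function.invFun ψ (ψ t) = t := Function.leftInverse_invFun hinj
  have hdist : ∀ s ∈ U, ∀ t ∈ U, dist s t ≤ 2 / ‖deriv γ t₀‖ * dist (ψ s) (ψ t) := by
    intro s hs t ht
    have h3 : ‖deriv γ t₀‖ / 2 * |s - t| ≤ ‖γ s - γ t‖ := huv (show (s, t) ∈ u ×ˢ v from ⟨hs.1, ht.2.1⟩)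
    have h4 : ‖γ s - γ t‖ < 1 / 2 := by
      have := norm_sub_le (γ s - γ t₀) (γ t - γ t₀)
      rw [sub_sub_sub_cancel_right] at this
      linarith [hs.2.2.1, ht.2.2.1]
    have h5 : dist (ψ s) (ψ t) = ‖γ s - γ t‖ := by
      rw [dist_eq_norm, hψ, ← proj_sub, norm_proj_eq h4]
    rw [h5, Real.dist_eq]
    rw [div_mul_eq_mul_div, le_div_iff₀ hd0]
    linarith
  have hLip : LipschitzOnWith (Real.toNNReal (2 / ‖deriv γ t₀‖)) (Function.invFun ψ) (ψ '' U) := by
    apply LipschitzOnWith.of_dist_le_mul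
    rintro _ ⟨s, hs, rfl⟩ _ ⟨t, ht, rfl⟩
    rw [hρ, hρ, Real.coe_toNNReal _ (by positivity)]
    exact hdist s hs t ht
  have hsub1 : T ∩ U = Function.invFun ψ '' (ψ '' (T ∩ U)) := by
    rw [image_image]
    simp only [hρ, image_id']
  have hnull : μH[1] (ψ '' (T ∩ U)) = 0 := by
    have hsub : ψ '' (T ∩ U) ⊆ gg '' (E ∩ V) := by
      rintro _ ⟨t, ⟨htT, htU⟩, rfl⟩
      obtain ⟨h3, h4⟩ := hT t htT
      exact ⟨hh (ψ t), ⟨h4, htU.2.2.2⟩, gg_hh h3⟩
    apply measure_mono_null hsub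
    have h3 := (hLV.mono (inter_subset_right (s := E))).hausdorffMeasure_image_le (d := 1) zero_le_one
    have h4 : μH[1] (E ∩ V) = 0 := measure_mono_null inter_subset_left hE
    rw [h4, mul_zero] at h3
    exact le_antisymm h3 bot_le
  rw [hsub1]
  have h3 := (hLip.mono (image_mono (inter_subset_right (s := T)))).hausdorffMeasure_image_le
    (d := 1) zero_le_one
  rw [hnull, mul_zero] at h3
  exact le_antisymm h3 bot_le

lemma arc_lip (x : Torus) : LipschitzWith 2 (fun t : ℝ => x + ul t) := by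
  apply LipschitzWith.of_dist_le_mul
  intro s t
  rw [dist_add_left, dist_eq_norm, sub_eq_add_neg, ← ul_neg, ← ul_add, ← sub_eq_add_neg, Real.dist_eq]
  exact norm_ul_le _

/-- uniqueness of the unstable SRB measure -/
theorem srb_unique {η : Measure Torus} (h : IsUnstableSRB ff FF η) : η = mu := by
  have hprob := h.inv.prob
  obtain ⟨Z, mZ, sZ, q, K, hq, hKm, hK, hae⟩ := h.ac
  -- a. the disc is null
  have hfixmeas : MeasurableSet {x : Torus | ff x = x} :=
    (isClosed_eq ff.continuous continuous_id).measurableSet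
  have hfix : η {x : Torus | ff x = x} = 0 := by
    apply null_of_kernel hq hK hfixmeas
    filter_upwards [hae] with x hx
    obtain ⟨h0, γ, a, b, hγ, hγ', hinj, hγ0, hrange, ha, hb, hfib, hac⟩ := hx
    have hmeas : Measurable (fun t => proj (γ t)) := (proj_cont.comp hγ.continuous).measurable
    apply hac
    rw [Measure.map_apply hmeas hfixmeas]
    apply Set.Subsingleton.measure_zero
    intro s hs t ht
    have h3 : proj (γ s) ∈ unstableSet ff x := by rw [← hrange]; exact ⟨s, rfl⟩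
    have h4 : proj (γ t) ∈ unstableSet ff x := by rw [← hrange]; exact ⟨t, rfl⟩
    exact hinj (fixed_unique h3 h4 hs ht)
  have hDD : η DD = 0 := by
    have h1 : ∀ᵐ x ∂η, x ∉ {x : Torus | ff x = x} := by
      rw [ae_iff]; simpa using hfix
    have h2 : ∀ᵐ x ∂η, x ∉ DD := by
      filter_upwards [fix_ae h.inv, h1] with x e1 e2 e3
      exact e2 (e1 e3)
    rw [ae_iff] at h2
    simpa using h2
  obtain ⟨i1, i2, i3⟩ := of_DD_null h.inv hDD
  apply eq_mu h.inv hDD
  apply eq_volume_of_arcs i2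
  intro S hS harc
  have hSm : MeasurableSet (hh ⁻¹' S) := hh_cont.measurable hS
  rw [ae_map_iff (p := fun y => y ∈ S) hh_cont.measurable.aemeasurable hS]
  have hBm : MeasurableSet ((hh ⁻¹' S)ᶜ \ DD) := hSm.compl.diff DD_meas
  have hB : η ((hh ⁻¹' S)ᶜ \ DD) = 0 := by
    apply null_of_kernel hq hK hBm
    filter_upwards [hae] with x hx
    obtain ⟨h0, γ, a, b, hγ, hγ', hinj, hγ0, hrange, ha, hb, hfib, hac⟩ := hx
    have hmeas : Measurable (fun t => proj (γ t)) := (proj_cont.comp hγ.continuous).measurable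
    apply hac
    rw [Measure.map_apply hmeas hBm]
    apply nonpos_iff_eq_zero.mp
    refine (Measure.restrict_apply_le _ _).trans ?_
    apply le_of_eq
    apply curve_null hγ hγ' hinj (E := (fun t : ℝ => hh x + ul t) '' {t | hh x + ul t ∉ S})
    · have h1 : μH[1] {t : ℝ | hh x + ul t ∉ S} = 0 := by
        rw [hausdorffMeasure_real]
        exact ae_iff.mp (harc (hh x))
      have h2 := (arc_lip (hh x)).hausdorffMeasure_image_le (d := 1) zero_le_one {t : ℝ | hh x + ul t ∉ S}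
      rw [h1, mul_zero] at h2
      exact le_antisymm h2 bot_le
    · intro t ht
      have h3 : proj (γ t) ∈ unstableSet ff x := by rw [← hrange]; exact ⟨t, rfl⟩
      obtain ⟨s, hs⟩ := hh_unstable h3
      refine ⟨ht.2, s, ?_, hs.symm⟩
      show hh x + ul s ∉ S
      rw [← hs]
      exact ht.1
  have h1 : ∀ᵐ x ∂η, x ∉ (hh ⁻¹' S)ᶜ \ DD := measure_eq_zero_iff_ae_notMem.mp hB
  have h2 : ∀ᵐ x ∂η, x ∉ DD := by
    rw [ae_iff]; simpa using hDD
  filter_upwards [h1, h2] with x e1 e2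
  by_contra e3
  exact e1 ⟨e3, e2⟩

end Pool.Agent.TH292.MR
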