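import Pool.Agent.TH292.MR.SrbE

/-!
# The unstable manifolds of typical points; `mu` is an unstable SRB measure
-/

set_option autoImplicit false

open Set Filter Topology MeasureTheory Function ProbabilityTheory
open scoped ContDiff ENNReal NNReal

namespace Pool.Agent.TH292.MR

open Pool.Agent.TH292.Gold

/-- Lipschitz estimate for `gg` along short unstable segments -/
lemma gg_seg : ∃ C : ℝ, 1 ≤ C ∧ ∀ (a : Torus) (s : ℝ), a ≠ 0 → |s| ≤ ‖a‖ / 4 →
    dist (gg a) (gg (a + ul s)) ≤ C / ‖a‖ * |s| := by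
  obtain ⟨C, hC1, hC⟩ := perJ_two
  refine ⟨4 * C, by linarith, fun a s ha hs => ?_⟩
  have ha0 : 0 < ‖a‖ := norm_pos_iff.mpr ha
  obtain ⟨z, rfl⟩ := proj_surj a
  have hproj : ∀ t : ℝ, proj (z + t • ((ph, 1) : Plane)) = proj z + ul t := by
    intro t
    rw [proj_add]
    congr 1
    unfold proj ul
    ext
    · show ((t * ph : ℝ) : UnitAddCircle) = ((ph * t : ℝ) : UnitAddCircle)
      rw [mul_comm]
    · show ((t * 1 : ℝ) : UnitAddCircle) = (t : UnitAddCircle)
      rw [mul_one]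
  have hbig : ∀ t : ℝ, |t| ≤ |s| → ‖proj z‖ / 2 ≤ ‖proj z + ul t‖ := by
    intro t ht
    have h1 := norm_ul_le t
    have h2 := norm_sub_le (proj z + ul t) (ul t)
    rw [add_sub_cancel_right] at h2
    linarith
  have hne : ∀ t : ℝ, |t| ≤ |s| → proj (z + t • ((ph, 1) : Plane)) ≠ 0 := by
    intro t ht h0
    have h1 := hbig t ht
    rw [← hproj, h0, norm_zero] at h1
    linarith
  have hnorm : ‖((ph, 1) : Plane)‖ ≤ 2 := by
    rw [Prod.norm_mk, Real.norm_eq_abs, Real.norm_eq_abs, abs_of_pos ph_pos, abs_one]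
    exact max_le (by linarith [ph_lt]) (by norm_num)
  -- mean value
  have hderiv : ∀ t ∈ Icc (-|s|) |s|, HasDerivWithinAt (fun t : ℝ => per J0 (z + t • ((ph, 1) : Plane)))
      (fderiv ℝ (per J0) (z + t • ((ph, 1) : Plane)) (ph, 1)) (Icc (-|s|) |s|) t := by
    intro t ht
    have h1 : HasDerivAt (fun t : ℝ => z + t • ((ph, 1) : Plane)) (ph, 1) t := by
      have := ((hasDerivAt_id t).smul_const ((ph, 1) : Plane)).const_add z
      simpa using this
    exact ((perJ_hasFDeriv (hne t (abs_le.mpr ht))).comp_hasDerivAt t h1).hasDerivWithinAt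
  have hbound : ∀ t ∈ Icc (-|s|) |s|, ‖fderiv ℝ (per J0) (z + t • ((ph, 1) : Plane)) (ph, 1)‖ ≤
      4 * C / ‖proj z‖ := by
    intro t ht
    have ht' : |t| ≤ |s| := abs_le.mpr ht
    have h1 := (hC _ (hne t ht') (ph, 1)).1
    have h2 := hbig t ht'
    rw [← hproj] at h2
    refine h1.trans ?_
    have h3 : C / ‖proj (z + t • ((ph, 1) : Plane))‖ ≤ C / (‖proj z‖ / 2) := by
      gcongr
    calc C / ‖proj (z + t • ((ph, 1) : Plane))‖ * ‖((ph, 1) : Plane)‖
        ≤ C / (‖proj z‖ / 2) * 2 := by gcongr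
      _ = 4 * C / ‖proj z‖ := by field_simp; ring
  have hmv := (convex_Icc (-|s|) |s|).norm_image_sub_le_of_norm_hasDerivWithin_le hderiv hbound
    (x := 0) (y := s) ⟨by linarith [abs_nonneg s], abs_nonneg s⟩ ⟨neg_abs_le s, le_abs_self s⟩
  simp only [zero_smul, add_zero, sub_zero, Real.norm_eq_abs] at hmv
  rw [← hproj s, gg_proj, gg_proj]
  refine (dist_proj_le _ _).trans ?_
  rw [dist_comm, dist_eq_norm]
  exact hmv

/-- exponential contraction along the unstable line of a typical point -/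
lemma unst_contract {w : Torus} (hw0 : w ≠ 0)
    (hbc : Tendsto (fun n : ℕ => (1 / (n : ℝ)) * Real.log ‖CI^[n] w‖) atTop (𝓝 0)) (t : ℝ) :
    ∃ C θ : ℝ, 0 < θ ∧ θ < 1 ∧ ∀ n : ℕ,
      dist (gg (CI^[n] w)) (gg (CI^[n] (w + ul t))) ≤ C * θ ^ n := by
  obtain ⟨C, hC1, hC⟩ := gg_seg
  have hL := loglam_pos
  set θ : ℝ := Real.exp (-(Real.log lam / 2)) with hθ
  have hθ0 : 0 < θ := Real.exp_pos _
  have hθ1 : θ < 1 := by
    have := Real.exp_lt_exp.mpr (show -(Real.log lam / 2) < 0 by linarith)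
    rwa [Real.exp_zero] at this
  have hθn : ∀ n : ℕ, θ ^ n = Real.exp (-(Real.log lam / 2) * n) := fun n => by
    rw [hθ, ← Real.exp_nat_mul]; congr 1; ring
  have hlamn : ∀ n : ℕ, lam⁻¹ ^ n = Real.exp (-(Real.log lam) * n) := fun n => by
    rw [inv_pow, ← Real.rpow_natCast, Real.rpow_def_of_pos lam_pos, ← Real.exp_neg]
    congr 1; ring
  have hne : ∀ n : ℕ, CI^[n] w ≠ 0 := by
    intro n h
    apply hw0
    rw [← CT_iter_CI n w, h]
    clear h
    induction n with
    | zero => rfl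
    | succ n ih => rw [iterate_succ_apply, CT_zero, ih]
  have hpos : ∀ n : ℕ, 0 < ‖CI^[n] w‖ := fun n => norm_pos_iff.mpr (hne n)
  -- eventually the norm is bounded below by `exp (-(log lam / 2) n)`
  have h1 : ∀ᶠ n : ℕ in atTop, Real.exp (-(Real.log lam / 4) * n) ≤ ‖CI^[n] w‖ := by
    filter_upwards [hbc.eventually_const_lt (show -(Real.log lam / 4) < 0 by linarith),
      eventually_gt_atTop 0] with n hn hn0
    have hn1 : (0 : ℝ) < n := by exact_mod_cast hn0
    rw [← Real.le_log_iff_exp_le (hpos n)]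
    rw [one_div, lt_inv_mul_iff₀ hn1] at hn
    linarith
  have h2 : ∀ᶠ n : ℕ in atTop, 4 * |t| * Real.exp (-(3 * Real.log lam / 4) * n) ≤ 1 := by
    have : Tendsto (fun n : ℕ => 4 * |t| * Real.exp (-(3 * Real.log lam / 4) * n)) atTop (𝓝 (4 * |t| * 0)) := by
      apply Tendsto.const_mul
      apply Real.tendsto_exp_atBot.comp
      exact (tendsto_natCast_atTop_atTop).const_mul_atTop_of_neg (by linarith)
    rw [mul_zero] at this
    exact this.eventually_le_const (by norm_num)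
  obtain ⟨N, hN⟩ := eventually_atTop.mp (h1.and h2)
  have hdiam : ∀ x y : Torus, dist x y ≤ 1 := fun x y => by
    rw [dist_eq_norm]
    linarith [norm_torus_le (x - y)]
  refine ⟨C * |t| + (θ ^ N)⁻¹, θ, hθ0, hθ1, fun n => ?_⟩
  rcases lt_or_ge n N with hlt | hge
  · have h3 : 1 ≤ (θ ^ N)⁻¹ * θ ^ n := by
      rw [inv_mul_eq_div, one_le_div (pow_pos hθ0 N)]
      exact pow_le_pow_of_le_one hθ0.le hθ1.le hlt.le
    have h4 : 0 ≤ C * |t| * θ ^ n := by positivity
    rw [add_mul]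
    linarith [hdiam (gg (CI^[n] w)) (gg (CI^[n] (w + ul t)))]
  · obtain ⟨h3, h4⟩ := hN n hge
    rw [CI_iter_arc]
    set a := CI^[n] w with ha
    have h5 : |lam⁻¹ ^ n * t| = Real.exp (-(Real.log lam) * n) * |t| := by
      rw [abs_mul, hlamn, abs_of_pos (Real.exp_pos _)]
    have h6 : |lam⁻¹ ^ n * t| ≤ ‖a‖ / 4 := by
      have h7 : Real.exp (-(Real.log lam) * n) =
          Real.exp (-(3 * Real.log lam / 4) * n) * Real.exp (-(Real.log lam / 4) * n) := by
        rw [← Real.exp_add]; congr 1; ring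
      rw [h5, h7]
      have h8 : 4 * (Real.exp (-(3 * Real.log lam / 4) * n) * Real.exp (-(Real.log lam / 4) * n) * |t|) ≤
          1 * Real.exp (-(Real.log lam / 4) * n) := by
        have := mul_le_mul_of_nonneg_right h4 (Real.exp_pos (-(Real.log lam / 4) * n)).le
        linarith
      linarith
    have h7 := hC a (lam⁻¹ ^ n * t) (hne n) h6
    refine h7.trans ?_
    rw [h5, add_mul, hθn n]
    have h8 : C / ‖a‖ ≤ C / Real.exp (-(Real.log lam / 4) * n) := by
      gcongr
    have h9 : C / Real.exp (-(Real.log lam / 4) * n) * (Real.exp (-(Real.log lam) * n) * |t|) ≤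
        C * |t| * Real.exp (-(Real.log lam / 2) * n) := by
      have e1 : C / Real.exp (-(Real.log lam / 4) * n) * (Real.exp (-(Real.log lam) * n) * |t|) =
          C * |t| * Real.exp (-(3 * Real.log lam / 4) * n) := by
        rw [div_eq_mul_inv, ← Real.exp_neg]
        have : Real.exp (-(3 * Real.log lam / 4) * n) = Real.exp (-(-(Real.log lam / 4) * n)) * Real.exp (-(Real.log lam) * n) := by
          rw [← Real.exp_add]; congr 1; ring
        rw [this]; ring
      rw [e1]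
      have e2 : Real.exp (-(3 * Real.log lam / 4) * n) ≤ Real.exp (-(Real.log lam / 2) * n) := by
        apply Real.exp_le_exp.mpr
        have : (0 : ℝ) ≤ n := Nat.cast_nonneg n
        nlinarith
      gcongr
    have h10 : 0 ≤ (θ ^ N)⁻¹ * Real.exp (-(Real.log lam / 2) * n) := by positivity
    have h11 : C / ‖a‖ * (Real.exp (-(Real.log lam) * n) * |t|) ≤
        C / Real.exp (-(Real.log lam / 4) * n) * (Real.exp (-(Real.log lam) * n) * |t|) := by
      gcongr
    linarith

/-- the curve -/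
noncomputable def gam (w : Plane) (t : ℝ) : Plane := per J0 (w + t • ((ph, 1) : Plane))

lemma proj_line (w : Plane) (t : ℝ) : proj (w + t • ((ph, 1) : Plane)) = proj w + ul t := by
  rw [proj_add]
  congr 1
  unfold proj ul
  ext
  · show ((t * ph : ℝ) : UnitAddCircle) = ((ph * t : ℝ) : UnitAddCircle)
    rw [mul_comm]
  · show ((t * 1 : ℝ) : UnitAddCircle) = (t : UnitAddCircle)
    rw [mul_one]

lemma proj_gam (w : Plane) (t : ℝ) : proj (gam w t) = gg (proj w + ul t) := by
  unfold gam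
  rw [← gg_proj, proj_line]

lemma line_ne {w : Plane} (hw : ∀ t, proj w ≠ ul t) (t : ℝ) : proj w + ul t ≠ 0 := by
  intro h
  apply hw (-t)
  rw [ul_neg]
  exact eq_neg_of_add_eq_zero_left h

lemma gam_contDiff {w : Plane} (hw : ∀ t, proj w ≠ ul t) : ContDiff ℝ ∞ (gam w) := by
  rw [contDiff_iff_contDiffAt]
  intro t
  have h1 : ContDiffAt ℝ ∞ (per J0) (w + t • ((ph, 1) : Plane)) :=
    perJ_contDiffAt (by rw [proj_line]; exact line_ne hw t)
  have h2 : ContDiffAt ℝ ∞ (fun t : ℝ => w + t • ((ph, 1) : Plane)) t := by fun_prop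
  exact ContDiffAt.comp (f := fun t : ℝ => w + t • ((ph, 1) : Plane)) t h1 h2

lemma gam_deriv {w : Plane} (hw : ∀ t, proj w ≠ ul t) (t : ℝ) : deriv (gam w) t ≠ 0 := by
  obtain ⟨C, hC1, hC⟩ := perJ_two
  have hne : proj (w + t • ((ph, 1) : Plane)) ≠ 0 := by rw [proj_line]; exact line_ne hw t
  have h1 : HasDerivAt (fun t : ℝ => w + t • ((ph, 1) : Plane)) (ph, 1) t := by
    have := ((hasDerivAt_id t).smul_const ((ph, 1) : Plane)).const_add w
    simpa using this
  have h2 : HasDerivAt (gam w) (fderiv ℝ (per J0) (w + t • ((ph, 1) : Plane)) (ph, 1)) t :=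
    (perJ_hasFDeriv hne).comp_hasDerivAt t h1
  rw [h2.deriv]
  intro h0
  have h3 := (hC _ hne (ph, 1)).2
  rw [h0, norm_zero, mul_zero] at h3
  have h4 : ((ph, 1) : Plane) = 0 := norm_le_zero_iff.mp h3
  have h5 : (1 : ℝ) = 0 := congrArg Prod.snd h4
  exact one_ne_zero h5

theorem unstable_eq {w : Plane} (hw : ∀ t, proj w ≠ ul t)
    (hbc : Tendsto (fun n : ℕ => (1 / (n : ℝ)) * Real.log ‖CI^[n] (proj w)‖) atTop (𝓝 0)) :
    range (fun t => proj (gam w t)) = unstableSet ff (gg (proj w)) := by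
  have hw0 : proj w ≠ 0 := by rw [← ul_zero]; exact hw 0
  apply subset_antisymm
  · rintro _ ⟨t, rfl⟩
    obtain ⟨C, θ, h0, h1, h2⟩ := unst_contract hw0 hbc t
    refine ⟨C, θ, h0, h1, fun n => ?_⟩
    show dist (ff.symm^[n] (gg (proj w))) (ff.symm^[n] (proj (gam w t))) ≤ _
    rw [proj_gam, symm_gg_iter, symm_gg_iter]
    exact h2 n
  · intro y hy
    obtain ⟨t, ht⟩ := hh_unstable hy
    rw [hh_gg] at ht
    refine ⟨t, ?_⟩
    show proj (gam w t) = y
    rw [proj_gam, ← ht]
    apply gg_hh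
    rw [← hh_eq_zero_iff, ht]
    exact line_ne hw t

theorem mu_ac : HasACConditionals ff mu := by
  refine ⟨ZZ, inferInstance, inferInstance, qT, KT, qT_meas, inferInstance, disintT, ?_⟩
  have hae : ∀ᵐ w ∂(volume : Measure Torus), (∀ t, w ≠ ul t) ∧ w.2 ≠ 0 ∧
      Tendsto (fun n : ℕ => (1 / (n : ℝ)) * Real.log ‖CI^[n] w‖) atTop (𝓝 0) := by
    filter_upwards [ne_ul_ae, snd_ne_ae, bc mp_CI] with w h1 h2 h3
    exact ⟨h1, h2, h3⟩
  have hae' : ∀ᵐ x ∂mu, (∀ t, hh x ≠ ul t) ∧ (hh x).2 ≠ 0 ∧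
      Tendsto (fun n : ℕ => (1 / (n : ℝ)) * Real.log ‖CI^[n] (hh x)‖) atTop (𝓝 0) :=
    hh_mp.quasiMeasurePreserving.ae hae
  filter_upwards [hae', ae_notMem_DD] with x hx hxD
  obtain ⟨hx1, hx2, hx3⟩ := hx
  have hgx : gg (hh x) = x := gg_hh hxD
  obtain ⟨w, hw⟩ := proj_surj (hh x)
  rw [← hw] at hx1 hx3 hgx
  have hx2' : (proj w).2 ≠ 0 := by rw [hw]; exact hx2
  have hfib : qT ⁻¹' {qT x} = (fun t => proj (gam w t)) '' Ioo (-rep (proj w).2) (1 - rep (proj w).2) := by
    have h1 := fibreL hx2'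
    have h2 : qT ⁻¹' {qT x} = hh ⁻¹' (qq ⁻¹' {qq (proj w)}) := by
      rw [hw]; rfl
    rw [h2, h1]
    ext y
    constructor
    · rintro ⟨t, ht, hty⟩
      refine ⟨t, ht, ?_⟩
      show proj (gam w t) = y
      have hty' : proj w + ul t = hh y := hty
      rw [proj_gam, hty']
      apply gg_hh
      rw [← hh_eq_zero_iff, ← hty']
      exact line_ne hx1 t
    · rintro ⟨t, ht, rfl⟩
      refine ⟨t, ht, ?_⟩
      show proj w + ul t = hh (proj (gam w t))
      rw [proj_gam, hh_gg]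
  have hKx : KT (qT x) = (volume.restrict (Ioo (-rep (proj w).2) (1 - rep (proj w).2))).map
      (fun t => proj (gam w t)) := by
    have h1 := KT_eq hx2'
    have h2 : KT (qT x) = KT (qq (proj w)) := by rw [hw]; rfl
    rw [h2, h1]
    congr 1
    funext t
    rw [proj_gam]
  have hmeas : Measurable fun t => proj (gam w t) :=
    (proj_cont.comp (gam_contDiff hx1).continuous).measurable
  constructor
  · have hms : MeasurableSet (qT ⁻¹' {qT x})ᶜ := (qT_meas (measurableSet_singleton _)).compl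
    rw [hKx, Measure.map_apply hmeas hms, Measure.restrict_apply (hmeas hms), hfib]
    convert measure_empty (μ := (volume : Measure ℝ))
    ext t
    simp only [mem_inter_iff, mem_preimage, mem_compl_iff, mem_empty_iff_false, iff_false, not_and]
    intro h ht
    exact h ⟨t, ht, rfl⟩
  · have hrm := rep_mem (proj w).2
    have hrp := rep_pos hx2'
    refine ⟨gam w, -rep (proj w).2, 1 - rep (proj w).2, gam_contDiff hx1, gam_deriv hx1, ?_, ?_, ?_,
      by linarith, by linarith [hrm.2], hfib, ?_⟩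
    · intro s t h
      simp only [proj_gam] at h
      exact ul_inj (add_left_cancel (gg_inj h))
    · rw [proj_gam, ul_zero, add_zero, hgx]
    · have h1 := unstable_eq hx1 hx3
      rw [hgx] at h1
      exact h1
    · rw [hKx]

theorem mu_srb : IsUnstableSRB ff FF mu := ⟨mu_inv, mu_pos, mu_ac⟩

end Pool.Agent.TH292.MR
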