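import Mathlib
import Pool.Agent.Helper179.KSCover

/-!
# Elementary properties of the Shannon entropy of finite partitions
-/

set_option autoImplicit false

open Set Filter Topology MeasureTheory Function
open scoped ENNReal NNReal

namespace Pool.Agent.TH292.VP

open Pool.Agent.Helper179.KS

variable {X : Type*} [MeasurableSpace X]

lemma negMulLog_sum_le {ι : Type*} (s : Finset ι) (f : ι → ℝ) (hf : ∀ i ∈ s, 0 ≤ f i) :
    Real.negMulLog (∑ i ∈ s, f i) ≤ ∑ i ∈ s, Real.negMulLog (f i) := by
  classical
  induction s using Finset.induction_on with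
  | empty => simp
  | insert a s ha ih =>
    rw [Finset.sum_insert ha, Finset.sum_insert ha]
    refine (negMulLog_add_le (hf a (Finset.mem_insert_self a s))
      (Finset.sum_nonneg fun i hi => hf i (Finset.mem_insert_of_mem hi))).trans ?_
    gcongr
    exact ih fun i hi => hf i (Finset.mem_insert_of_mem hi)

/-- the probability of a cell of a coarser partition -/
lemma real_factor {ι κ : Type*} [Fintype κ] [DecidableEq ι] [MeasurableSpace κ] [MeasurableSingletonClass κ]
    (μ : Measure X) [IsProbabilityMeasure μ] {Q : X → κ} (hQ : Measurable Q) (g : κ → ι) (i : ι) :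
    μ.real ((fun x => g (Q x)) ⁻¹' {i}) = ∑ j ∈ Finset.univ.filter (fun j => g j = i), μ.real (Q ⁻¹' {j}) := by
  have h1 : (fun x => g (Q x)) ⁻¹' {i} = ⋃ j ∈ Finset.univ.filter (fun j => g j = i), Q ⁻¹' {j} := by
    ext x
    simp
  rw [h1, measureReal_biUnion_finset]
  · intro a _ b _ hab
    exact Disjoint.preimage _ (by simpa using hab)
  · intro j _
    exact hQ (measurableSet_singleton j)

/-- a coarser partition has smaller entropy -/
lemma shannon_le_of_factor {ι κ : Type*} [Fintype ι] [Fintype κ] [MeasurableSpace κ]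
    [MeasurableSingletonClass κ] (μ : Measure X) [IsProbabilityMeasure μ] {P : X → ι} {Q : X → κ}
    (hQ : Measurable Q) (g : κ → ι) (h : ∀ x, P x = g (Q x)) :
    shannonEntropy μ P ≤ shannonEntropy μ Q := by
  classical
  have hP : P = fun x => g (Q x) := funext h
  unfold shannonEntropy
  rw [hP]
  calc ∑ i, Real.negMulLog (μ.real ((fun x => g (Q x)) ⁻¹' {i}))
      = ∑ i, Real.negMulLog (∑ j ∈ Finset.univ.filter (fun j => g j = i), μ.real (Q ⁻¹' {j})) := by
        simp only [real_factor μ hQ g]
    _ ≤ ∑ i, ∑ j ∈ Finset.univ.filter (fun j => g j = i), Real.negMulLog (μ.real (Q ⁻¹' {j})) := by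
        apply Finset.sum_le_sum
        intro i _
        exact negMulLog_sum_le _ _ fun _ _ => measureReal_nonneg
    _ = ∑ j, Real.negMulLog (μ.real (Q ⁻¹' {j})) :=
        Finset.sum_fiberwise Finset.univ g _

/-- subadditivity -/
lemma shannon_pair_le {ι κ : Type*} [Fintype ι] [Fintype κ] [MeasurableSpace κ]
    [MeasurableSingletonClass κ] [MeasurableSpace ι] [MeasurableSingletonClass ι]
    (μ : Measure X) [IsProbabilityMeasure μ] {P : X → ι} {Q : X → κ}
    (hP : Measurable P) (hQ : Measurable Q) :
    shannonEntropy μ (fun x => (P x, Q x)) ≤ shannonEntropy μ P + shannonEntropy μ Q := by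
  classical
  have hPQ : Measurable fun x => (P x, Q x) := hP.prodMk hQ
  have hsub1 : ∀ a b, μ.real ((fun x => (P x, Q x)) ⁻¹' {(a, b)}) ≤ μ.real (P ⁻¹' {a}) := by
    intro a b
    apply measureReal_mono
    · intro x hx
      exact congrArg Prod.fst hx
    · exact measure_ne_top _ _
  have hsub2 : ∀ a b, μ.real ((fun x => (P x, Q x)) ⁻¹' {(a, b)}) ≤ μ.real (Q ⁻¹' {b}) := by
    intro a b
    apply measureReal_mono
    · intro x hx
      exact congrArg Prod.snd hx
    · exact measure_ne_top _ _
  have hg := gibbs (fun w : ι × κ => μ.real ((fun x => (P x, Q x)) ⁻¹' {w}))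
    (fun w : ι × κ => μ.real (P ⁻¹' {w.1}) * μ.real (Q ⁻¹' {w.2})) (fun _ => measureReal_nonneg)
    (sum_measureReal_preimage μ hPQ) (fun _ => mul_nonneg measureReal_nonneg measureReal_nonneg)
    (by
      rw [Fintype.sum_prod_type]
      simp only [← Finset.mul_sum, sum_measureReal_preimage μ hQ, mul_one, sum_measureReal_preimage μ hP]
      exact le_rfl)
    (by
      rintro ⟨a, b⟩ hw
      have h0 : 0 < μ.real ((fun x => (P x, Q x)) ⁻¹' {(a, b)}) :=
        lt_of_le_of_ne measureReal_nonneg (Ne.symm hw)
      exact mul_pos (h0.trans_le (hsub1 a b)) (h0.trans_le (hsub2 a b)))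
  refine hg.trans (le_of_eq ?_)
  have hlog : ∀ w : ι × κ, μ.real ((fun x => (P x, Q x)) ⁻¹' {w}) *
      (-Real.log (μ.real (P ⁻¹' {w.1}) * μ.real (Q ⁻¹' {w.2}))) =
      μ.real ((fun x => (P x, Q x)) ⁻¹' {w}) * (-Real.log (μ.real (P ⁻¹' {w.1}))) +
      μ.real ((fun x => (P x, Q x)) ⁻¹' {w}) * (-Real.log (μ.real (Q ⁻¹' {w.2}))) := by
    rintro ⟨a, b⟩
    rcases (measureReal_nonneg (μ := μ) (s := (fun x => (P x, Q x)) ⁻¹' {(a, b)})).eq_or_lt with h0 | h0
    · rw [← h0]; ring
    · rw [Real.log_mul (h0.trans_le (hsub1 a b)).ne' (h0.trans_le (hsub2 a b)).ne']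
      ring
  simp only [hlog]
  rw [Finset.sum_add_distrib]
  have e1 : ∀ a, ∑ b, μ.real ((fun x => (P x, Q x)) ⁻¹' {(a, b)}) = μ.real (P ⁻¹' {a}) := by
    intro a
    have h := real_factor μ hPQ Prod.fst a
    rw [show (fun x => ((P x, Q x) : ι × κ).1) ⁻¹' {a} = P ⁻¹' {a} from rfl] at h
    rw [h, Finset.sum_filter, Fintype.sum_prod_type]
    simp only
    rw [Finset.sum_eq_single a]
    · simp
    · intro c _ hc
      simp [hc]
    · intro h'; exact absurd (Finset.mem_univ a) h'
  have e2 : ∀ b, ∑ a, μ.real ((fun x => (P x, Q x)) ⁻¹' {(a, b)}) = μ.real (Q ⁻¹' {b}) := by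
    intro b
    have h := real_factor μ hPQ Prod.snd b
    rw [show (fun x => ((P x, Q x) : ι × κ).2) ⁻¹' {b} = Q ⁻¹' {b} from rfl] at h
    rw [h, Finset.sum_filter, Fintype.sum_prod_type]
    apply Finset.sum_congr rfl
    intro a _
    simp only
    rw [Finset.sum_eq_single b]
    · simp
    · intro c _ hc
      simp [hc]
    · intro h'; exact absurd (Finset.mem_univ b) h'
  unfold shannonEntropy
  congr 1
  · rw [Fintype.sum_prod_type]
    apply Finset.sum_congr rfl
    intro a _
    simp only
    rw [← Finset.sum_mul, e1]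
    unfold Real.negMulLog
    ring
  · rw [Fintype.sum_prod_type_right]
    apply Finset.sum_congr rfl
    intro b _
    simp only
    rw [← Finset.sum_mul, e2]
    unfold Real.negMulLog
    ring

/-- the entropy is at most the logarithm of the number of cells -/
lemma shannon_le_log {ι : Type*} [Fintype ι] [MeasurableSpace ι] [MeasurableSingletonClass ι]
    (μ : Measure X) [IsProbabilityMeasure μ] {P : X → ι} (hP : Measurable P) :
    shannonEntropy μ P ≤ Real.log (Fintype.card ι) := by
  classical
  have hX : Nonempty X := by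
    by_contra h
    rw [not_nonempty_iff] at h
    have h1 := measure_univ (μ := μ)
    rw [univ_eq_empty_iff.mpr h, measure_empty] at h1
    exact zero_ne_one h1
  obtain ⟨x0⟩ := hX
  have hι : Nonempty ι := ⟨P x0⟩
  have hc : (0 : ℝ) < Fintype.card ι := by exact_mod_cast Fintype.card_pos
  have hg := gibbs (fun i => μ.real (P ⁻¹' {i})) (fun _ => 1 / (Fintype.card ι : ℝ))
    (fun _ => measureReal_nonneg) (sum_measureReal_preimage μ hP) (fun _ => by positivity)
    (by rw [Finset.sum_const, Finset.card_univ, nsmul_eq_mul, mul_one_div, div_self hc.ne'])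
    (fun _ _ => by positivity)
  refine hg.trans (le_of_eq ?_)
  rw [← Finset.sum_mul, sum_measureReal_preimage μ hP, one_mul, one_div, Real.log_inv, neg_neg]

/-- concavity of the entropy -/
lemma shannon_concave {ι : Type*} [Fintype ι] {n : ℕ} (hn : 0 < n) (μ : ℕ → Measure X)
    [∀ j, IsProbabilityMeasure (μ j)] (η : Measure X) {P : X → ι}
    (h : ∀ i, η.real (P ⁻¹' {i}) = (n : ℝ)⁻¹ * ∑ j ∈ Finset.range n, (μ j).real (P ⁻¹' {i})) :
    ∑ j ∈ Finset.range n, shannonEntropy (μ j) P ≤ n * shannonEntropy η P := by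
  have hn' : (0 : ℝ) < n := by exact_mod_cast hn
  have h1 : ∀ i, (n : ℝ)⁻¹ * ∑ j ∈ Finset.range n, Real.negMulLog ((μ j).real (P ⁻¹' {i})) ≤
      Real.negMulLog (η.real (P ⁻¹' {i})) := by
    intro i
    rw [h i, Finset.mul_sum, Finset.mul_sum]
    have := Real.concaveOn_negMulLog.le_map_sum (t := Finset.range n) (w := fun _ => (n : ℝ)⁻¹)
      (p := fun j => (μ j).real (P ⁻¹' {i})) (fun _ _ => by positivity)
      (by rw [Finset.sum_const, Finset.card_range, nsmul_eq_mul, mul_inv_cancel₀ hn'.ne'])
      (fun _ _ => measureReal_nonneg)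
    simpa only [smul_eq_mul] using this
  unfold shannonEntropy
  rw [Finset.sum_comm, Finset.mul_sum]
  apply Finset.sum_le_sum
  intro i _
  have h2 := h1 i
  rw [inv_mul_le_iff₀ hn'] at h2
  exact h2

/-- window entropies -/
noncomputable def win (μ : Measure X) (T : X → X) {k : ℕ} (P : X → Fin k) (s m : ℕ) : ℝ :=
  shannonEntropy μ (fun x => itinerary T P m (T^[s] x))

section win

variable {μ : Measure X} [IsProbabilityMeasure μ] {T : X → X} {k : ℕ} {P : X → Fin k}

lemma win_nonneg (s m : ℕ) : 0 ≤ win μ T P s m := shannonEntropy_nonneg _ _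

lemma win_meas (hT : Measurable T) (hP : Measurable P) (s m : ℕ) :
    Measurable fun x => itinerary T P m (T^[s] x) :=
  (measurable_itinerary hT hP m).comp (hT.iterate s)

lemma win_add (hT : Measurable T) (hP : Measurable P) (s m m' : ℕ) :
    win μ T P s (m + m') ≤ win μ T P s m + win μ T P (s + m) m' := by
  refine le_trans ?_ (shannon_pair_le μ (win_meas hT hP s m) (win_meas hT hP (s + m) m'))
  apply shannon_le_of_factor μ ((win_meas hT hP s m).prodMk (win_meas hT hP (s + m) m'))
    (fun w => Fin.append w.1 w.2)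
  intro x
  funext j
  refine Fin.addCases (fun i => ?_) (fun i => ?_) j
  · rw [Fin.append_left]
    rfl
  · rw [Fin.append_right]
    unfold itinerary
    simp only [Fin.val_natAdd]
    rw [← iterate_add_apply, ← iterate_add_apply]
    congr 2
    ring

lemma win_le (hT : Measurable T) (hP : Measurable P) (s m : ℕ) :
    win μ T P s m ≤ m * Real.log k := by
  refine (shannon_le_log μ (win_meas hT hP s m)).trans (le_of_eq ?_)
  rw [Fintype.card_fun, Fintype.card_fin, Fintype.card_fin]
  push_cast
  rw [Real.log_pow]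

lemma win_blocks (hT : Measurable T) (hP : Measurable P) (s q N : ℕ) :
    win μ T P s (N * q) ≤ ∑ l ∈ Finset.range N, win μ T P (s + l * q) q := by
  induction N with
  | zero =>
    simp only [Nat.zero_mul, Finset.range_zero, Finset.sum_empty]
    have := win_le (μ := μ) hT hP s 0
    simpa using this
  | succ N ih =>
    rw [Nat.succ_mul, Finset.sum_range_succ]
    exact (win_add hT hP s (N * q) q).trans (by gcongr)

omit [MeasurableSpace X] in
lemma sum_blocks (f : ℕ → ℝ) (q N : ℕ) :
    ∑ r ∈ Finset.range q, ∑ l ∈ Finset.range N, f (r + l * q) = ∑ j ∈ Finset.range (N * q), f j := by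
  rw [Finset.sum_comm]
  induction N with
  | zero => simp
  | succ N ih =>
    rw [Finset.sum_range_succ, ih, Nat.succ_mul, Finset.sum_range_add]
    congr 1
    apply Finset.sum_congr rfl
    intro r _
    rw [add_comm]

/-- comparison of the entropy of a long window with short windows -/
lemma win_main (hT : Measurable T) (hP : Measurable P) (hk : 1 ≤ k) (q n : ℕ) (hq : 0 < q) (hn : q ≤ n) :
    q * win μ T P 0 n ≤ ∑ j ∈ Finset.range n, win μ T P j q + 3 * q ^ 2 * Real.log k := by
  obtain ⟨N, hN⟩ : ∃ N, N + 1 = n / q := ⟨n / q - 1, Nat.sub_add_cancel (Nat.div_pos hn hq)⟩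
  have h1 : (N + 1) * q ≤ n := by rw [hN]; exact Nat.div_mul_le_self n q
  have h2 : n < (N + 2) * q := by
    have := Nat.lt_div_mul_add (a := n) hq
    rw [← hN] at this
    nlinarith
  have hlk : 0 ≤ Real.log k := Real.log_nonneg (by exact_mod_cast hk)
  have h3 : ∀ r ∈ Finset.range q, win μ T P 0 n ≤
      ∑ l ∈ Finset.range N, win μ T P (r + l * q) q + 3 * q * Real.log k := by
    intro r hr
    have hr' : r < q := Finset.mem_range.mp hr
    have e1 : n = r + (N * q + (n - r - N * q)) := by
      have : r + N * q ≤ n := by nlinarith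
      omega
    have h4 : win μ T P 0 n ≤ win μ T P 0 r + (win μ T P r (N * q) + win μ T P (r + N * q) (n - r - N * q)) := by
      conv_lhs => rw [e1]
      refine (win_add hT hP 0 r _).trans ?_
      rw [zero_add]
      gcongr
      exact win_add hT hP r (N * q) _
    have h5 := win_le (μ := μ) hT hP 0 r
    have h6 := win_le (μ := μ) hT hP (r + N * q) (n - r - N * q)
    have h7 : ((n - r - N * q : ℕ) : ℝ) ≤ 2 * q := by
      have : n - r - N * q ≤ 2 * q := by
        have : n < N * q + 2 * q := by nlinarith
        omega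
      exact_mod_cast this
    have h8 : (r : ℝ) ≤ q := by exact_mod_cast hr'.le
    have h9 := win_blocks (μ := μ) hT hP r q N
    have h10 : (r : ℝ) * Real.log k ≤ q * Real.log k := by gcongr
    have h11 : ((n - r - N * q : ℕ) : ℝ) * Real.log k ≤ 2 * q * Real.log k := by gcongr
    linarith
  have h4 := Finset.sum_le_sum h3
  rw [Finset.sum_const, Finset.card_range, nsmul_eq_mul, Finset.sum_add_distrib,
    sum_blocks (fun j => win μ T P j q), Finset.sum_const, Finset.card_range, nsmul_eq_mul] at h4
  have h5 : ∑ j ∈ Finset.range (N * q), win μ T P j q ≤ ∑ j ∈ Finset.range n, win μ T P j q := by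
    apply Finset.sum_le_sum_of_subset_of_nonneg
    · apply Finset.range_mono
      nlinarith
    · intro j _ _
      exact win_nonneg j q
  nlinarith

end win

/-- the uniform probability measure on a finite set -/
noncomputable def unif (S : Finset X) : Measure X := (S.card : ℝ≥0∞)⁻¹ • ∑ x ∈ S, Measure.dirac x

lemma unif_prob {S : Finset X} (hS : S.Nonempty) : IsProbabilityMeasure (unif S) := by
  constructor
  unfold unif
  rw [Measure.smul_apply, Measure.finsetSum_apply]
  simp only [measure_univ, Finset.sum_const, nsmul_eq_mul, mul_one, smul_eq_mul]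
  apply ENNReal.inv_mul_cancel
  · simpa using hS.ne_empty
  · simp

lemma unif_real (S : Finset X) {A : Set X} (hA : MeasurableSet A) [DecidablePred (· ∈ A)] :
    (unif S).real A = (S.card : ℝ)⁻¹ * (S.filter (· ∈ A)).card := by
  unfold unif Measure.real
  rw [Measure.smul_apply, Measure.finsetSum_apply, smul_eq_mul, ENNReal.toReal_mul,
    ENNReal.toReal_inv, ENNReal.toReal_natCast]
  congr 1
  simp only [Measure.dirac_apply' _ hA]
  rw [ENNReal.toReal_sum]
  · rw [Finset.card_filter]
    push_cast
    apply Finset.sum_congr rfl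
    intro x _
    by_cases hx : x ∈ A
    · simp [hx]
    · simp [hx]
  · intro x _
    by_cases hx : x ∈ A <;> simp [hx]

/-- a partition separating the points of `S` has entropy at least `log |S|` -/
lemma log_card_le {ι : Type*} [Fintype ι] [MeasurableSpace ι] [MeasurableSingletonClass ι]
    {S : Finset X} (hS : S.Nonempty) {P : X → ι} (hP : Measurable P) (hinj : InjOn P S) :
    Real.log S.card ≤ shannonEntropy (unif S) P := by
  classical
  have hc : (0 : ℝ) < S.card := by exact_mod_cast hS.card_pos
  unfold shannonEntropy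
  have hcell : ∀ x ∈ S, (unif S).real (P ⁻¹' {P x}) = (S.card : ℝ)⁻¹ := by
    intro x hx
    rw [unif_real S (hP (measurableSet_singleton _))]
    have : S.filter (· ∈ P ⁻¹' {P x}) = {x} := by
      ext y
      simp only [Finset.mem_filter, mem_preimage, mem_singleton_iff, Finset.mem_singleton]
      constructor
      · rintro ⟨h1, h2⟩
        exact hinj h1 hx h2
      · rintro rfl
        exact ⟨hx, rfl⟩
    rw [this, Finset.card_singleton, Nat.cast_one, mul_one]
  have hprob := unif_prob hS
  calc Real.log S.card = ∑ i ∈ S.image P, Real.negMulLog ((unif S).real (P ⁻¹' {i})) := by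
        rw [Finset.sum_image hinj, Finset.sum_congr rfl fun x hx => by rw [hcell x hx],
          Finset.sum_const, nsmul_eq_mul]
        unfold Real.negMulLog
        rw [Real.log_inv]
        field_simp
    _ ≤ ∑ i, Real.negMulLog ((unif S).real (P ⁻¹' {i})) := by
        apply Finset.sum_le_sum_of_subset_of_nonneg (Finset.subset_univ _)
        intro i _ _
        exact Real.negMulLog_nonneg measureReal_nonneg measureReal_le_one

end Pool.Agent.TH292.VP
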